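import Pool.Agent.Work.MP_56b8f5_nt.WM.Stmts
import Pool.Agent.Work.MP_e0c7e8_nt.Mert

/-!
MP_56b8f5_nt, block WM, item A6: Mertens' theorem for `∑ 1/p`, up to constants.
-/

set_option autoImplicit false

open MeasureTheory Set Filter Topology

noncomputable section

namespace Pool.Agent.Work.MP_56b8f5_nt.WM

open Pool.Agent.Work.MP_56b8f5_nt.EM

namespace I_Mert

/-- `∑_{p ≤ n} log p / p`. -/
def A (n : ℕ) : ℝ := ∑ p ∈ pr n, Real.log p / (p : ℝ)

/-- The difference which is monotone up to constants. -/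
def D (n : ℕ) : ℝ := S1 n - A n / Real.log n

theorem pr_eq (n : ℕ) : pr n = (Finset.Icc 1 n).filter Nat.Prime := by
  ext p
  simp only [pr, Finset.mem_filter, Finset.mem_range, Finset.mem_Icc]
  constructor
  · rintro ⟨h, hp⟩
    exact ⟨⟨hp.one_lt.le, by omega⟩, hp⟩
  · rintro ⟨h, hp⟩
    exact ⟨by omega, hp⟩

theorem pr_succ (n : ℕ) : pr (n + 1) = if (n + 1).Prime then insert (n + 1) (pr n) else pr n := by
  unfold pr
  rw [Finset.range_add_one, Finset.filter_insert]

theorem notMem (n : ℕ) : n + 1 ∉ pr n := by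
  simp [pr]

theorem step (n : ℕ) (hn : 2 ≤ n) :
    D (n + 1) = D n + A n * (1 / Real.log n - 1 / Real.log ((n + 1 : ℕ) : ℝ)) := by
  have h0 : Real.log ((n + 1 : ℕ) : ℝ) ≠ 0 :=
    (Real.log_pos (by exact_mod_cast (by omega : 1 < n + 1))).ne'
  have h1 : S1 (n + 1) = S1 n + if (n + 1).Prime then 1 / ((n + 1 : ℕ) : ℝ) else 0 := by
    unfold S1
    rw [pr_succ]
    split_ifs with h
    · rw [Finset.sum_insert (notMem n), add_comm]
    · rw [add_zero]
  have h2 : A (n + 1) = A n +
      if (n + 1).Prime then Real.log ((n + 1 : ℕ) : ℝ) / ((n + 1 : ℕ) : ℝ) else 0 := by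
    unfold A
    rw [pr_succ]
    split_ifs with h
    · rw [Finset.sum_insert (notMem n), add_comm]
    · rw [add_zero]
  unfold D
  rw [h1, h2]
  have h3 : ((n + 1 : ℕ) : ℝ) ≠ 0 := by positivity
  split_ifs with h
  · field_simp
    ring
  · ring

theorem upper {C0 : ℝ} (hA : ∀ n : ℕ, 2 ≤ n → A n ≤ Real.log n + C0) (K : ℝ)
    (hK : D 2 ≤ Real.log (Real.log (2 : ℕ)) - C0 / Real.log (2 : ℕ) + K) :
    ∀ n : ℕ, 2 ≤ n → D n ≤ Real.log (Real.log n) - C0 / Real.log n + K := by
  intro n hn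
  induction n, hn using Nat.le_induction with
  | base => exact hK
  | succ n hn ih =>
    have hb : 0 < Real.log (n : ℝ) := Real.log_pos (by exact_mod_cast hn)
    have hab : Real.log (n : ℝ) ≤ Real.log ((n + 1 : ℕ) : ℝ) :=
      Real.log_le_log (by exact_mod_cast (by omega : 0 < n)) (by exact_mod_cast Nat.le_succ n)
    rw [step n hn]
    generalize Real.log ((n + 1 : ℕ) : ℝ) = a at hab ⊢
    have hA' := hA n hn
    generalize Real.log (n : ℝ) = b at hb hab ih hA' ⊢
    have ha : 0 < a := by linarith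
    have h1 : 0 ≤ 1 / b - 1 / a := by
      rw [sub_nonneg]
      exact one_div_le_one_div_of_le hb hab
    have h2 := mul_le_mul_of_nonneg_right hA' h1
    have h3 : 1 - b / a ≤ Real.log a - Real.log b := by
      rw [← Real.log_div ha.ne' hb.ne']
      have h4 := Real.one_sub_inv_le_log_of_pos (div_pos ha hb)
      rwa [inv_div] at h4
    have h5 : (b + C0) * (1 / b - 1 / a) = 1 - b / a + C0 / b - C0 / a := by
      field_simp
      ring
    linarith

theorem lower {C0 : ℝ} (hA : ∀ n : ℕ, 2 ≤ n → Real.log n - C0 ≤ A n) (K : ℝ)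
    (hK : Real.log (Real.log (2 : ℕ)) + (C0 + 1) / Real.log (2 : ℕ) - K ≤ D 2) :
    ∀ n : ℕ, 2 ≤ n → Real.log (Real.log n) + (C0 + 1) / Real.log n - K ≤ D n := by
  intro n hn
  induction n, hn using Nat.le_induction with
  | base => exact hK
  | succ n hn ih =>
    have hb : 0 < Real.log (n : ℝ) := Real.log_pos (by exact_mod_cast hn)
    have hn0 : (0 : ℝ) < n := by exact_mod_cast (by omega : 0 < n)
    have hab : Real.log (n : ℝ) ≤ Real.log ((n + 1 : ℕ) : ℝ) :=
      Real.log_le_log hn0 (by exact_mod_cast Nat.le_succ n)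
    have hab1 : Real.log ((n + 1 : ℕ) : ℝ) - Real.log (n : ℝ) ≤ 1 := by
      rw [← Real.log_div (by positivity) hn0.ne']
      refine (Real.log_le_sub_one_of_pos (by positivity)).trans ?_
      have h1 : (1 : ℝ) ≤ n := by exact_mod_cast (by omega : 1 ≤ n)
      rw [sub_le_iff_le_add, div_le_iff₀ hn0]
      push_cast
      linarith
    rw [step n hn]
    generalize Real.log ((n + 1 : ℕ) : ℝ) = a at hab hab1 ⊢
    have hA' := hA n hn
    generalize Real.log (n : ℝ) = b at hb hab hab1 ih hA' ⊢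
    have ha : 0 < a := by linarith
    have h1 : 0 ≤ 1 / b - 1 / a := by
      rw [sub_nonneg]
      exact one_div_le_one_div_of_le hb hab
    have h2 := mul_le_mul_of_nonneg_right hA' h1
    have h3 : Real.log a - Real.log b ≤ a / b - 1 := by
      rw [← Real.log_div ha.ne' hb.ne']
      exact Real.log_le_sub_one_of_pos (div_pos ha hb)
    have h4 : a / b - 1 - (1 - b / a) = (a - b) * (1 / b - 1 / a) := by
      field_simp
    have h6 : (a - b) * (1 / b - 1 / a) ≤ 1 * (1 / b - 1 / a) :=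
      mul_le_mul_of_nonneg_right hab1 h1
    have h5 : (b - C0) * (1 / b - 1 / a) = 1 - b / a - C0 * (1 / b - 1 / a) := by
      field_simp
    have h7 : (C0 + 1) / a = (C0 + 1) / b - (C0 + 1) * (1 / b - 1 / a) := by
      field_simp
      ring
    rw [h7]
    linarith

end I_Mert

open I_Mert in
/-- **A6 (Mert).** -/
theorem Mert_pf : S_Mert := by
  obtain ⟨C0', hM'⟩ := Pool.Agent.Work.MP_e0c7e8_nt.Mert.mertens1.2
  set C0 : ℝ := max C0' 0 with hC0d
  have hC0 : 0 ≤ C0 := le_max_right _ _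
  have hM : ∀ n : ℕ, 2 ≤ n → |A n - Real.log n| ≤ C0 := by
    intro n hn
    have h1 := (hM' n (by exact_mod_cast (by omega : 1 ≤ n))).trans (le_max_left C0' 0)
    rw [Nat.floor_natCast, ← pr_eq] at h1
    exact h1
  have hA1 : ∀ n : ℕ, 2 ≤ n → A n ≤ Real.log n + C0 := fun n hn => by
    have := (abs_le.1 (hM n hn)).2
    linarith
  have hA2 : ∀ n : ℕ, 2 ≤ n → Real.log n - C0 ≤ A n := fun n hn => by
    have := (abs_le.1 (hM n hn)).1
    linarith
  have hl2 : 0 < Real.log ((2 : ℕ) : ℝ) := Real.log_pos (by norm_num)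
  obtain ⟨K, hK0, hKu, hKl⟩ : ∃ K : ℝ, 0 ≤ K ∧
      D 2 ≤ Real.log (Real.log (2 : ℕ)) - C0 / Real.log (2 : ℕ) + K ∧
      Real.log (Real.log (2 : ℕ)) + (C0 + 1) / Real.log (2 : ℕ) - K ≤ D 2 := by
    generalize D 2 = d
    generalize Real.log ((2 : ℕ) : ℝ) = l at hl2 ⊢
    have hc1 : 0 ≤ C0 / l := div_nonneg hC0 hl2.le
    have hc2 : C0 / l ≤ (C0 + 1) / l := by
      gcongr
      linarith
    refine ⟨|d| + |Real.log l| + (C0 + 1) / l, ?_, ?_, ?_⟩
    · have h1 := abs_nonneg d
      have h2 := abs_nonneg (Real.log l)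
      linarith
    · have h1 := le_abs_self d
      have h2 := neg_abs_le (Real.log l)
      linarith
    · have h1 := neg_abs_le d
      have h2 := le_abs_self (Real.log l)
      linarith
  have hu := upper hA1 K hKu
  have hl := lower hA2 K hKl
  refine ⟨Real.exp (K + 1), Real.one_le_exp (by linarith), ?_⟩
  intro x hx
  have hb : 0 < Real.log (x : ℝ) := Real.log_pos (by exact_mod_cast hx)
  have h1 := hu x hx
  have h2 := hl x hx
  have hD : D x = S1 x - A x / Real.log x := rfl
  have h3 : A x / Real.log x ≤ 1 + C0 / Real.log x := by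
    rw [div_le_iff₀ hb]
    have := hA1 x hx
    have h4 : (1 + C0 / Real.log x) * Real.log x = Real.log x + C0 := by
      field_simp
    rw [h4]
    exact this
  have h3' : 1 - C0 / Real.log x ≤ A x / Real.log x := by
    rw [le_div_iff₀ hb]
    have := hA2 x hx
    have h4 : (1 - C0 / Real.log x) * Real.log x = Real.log x - C0 := by
      field_simp
    rw [h4]
    exact this
  have h5 : (C0 + 1) / Real.log x = C0 / Real.log x + 1 / Real.log x := add_div _ _ _
  have h6 : 0 ≤ 1 / Real.log (x : ℝ) := by positivity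
  constructor
  · have h7 : S1 x ≤ (K + 1) + Real.log (Real.log x) := by linarith
    calc Real.exp (S1 x) ≤ Real.exp ((K + 1) + Real.log (Real.log x)) := Real.exp_le_exp.2 h7
      _ = Real.exp (K + 1) * Real.log x := by rw [Real.exp_add, Real.exp_log hb]
  · have h7 : Real.log (Real.log x) ≤ (K + 1) + S1 x := by linarith
    calc Real.log x = Real.exp (Real.log (Real.log x)) := (Real.exp_log hb).symm
      _ ≤ Real.exp ((K + 1) + S1 x) := Real.exp_le_exp.2 h7
      _ = Real.exp (K + 1) * Real.exp (S1 x) := Real.exp_add _ _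

end Pool.Agent.Work.MP_56b8f5_nt.WM
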