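import Pool.Agent.Work.MP_56b8f5_nt.WM.Stmts

/-!
MP_56b8f5_nt, block WM, item A2 (PeBas).
-/

set_option autoImplicit false

noncomputable section

namespace Pool.Agent.Work.MP_56b8f5_nt.WM

namespace I_PeBas

/-- local factor -/
def lf (x : ℝ) (v : ℕ) : ℝ := x ^ v / (v.factorial : ℝ)

theorem lf_zero (x : ℝ) : lf x 0 = 1 := by simp [lf]

theorem lf_nonneg {x : ℝ} (hx : 0 ≤ x) (v : ℕ) : 0 ≤ lf x v :=
  div_nonneg (pow_nonneg hx v) (Nat.cast_nonneg _)

theorem lf_mono {x y : ℝ} (hx : 0 ≤ x) (hxy : x ≤ y) (v : ℕ) : lf x v ≤ lf y v :=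
  div_le_div_of_nonneg_right (pow_le_pow_left₀ hx hxy v) (Nat.cast_nonneg _)

theorem fac_pos (v : ℕ) : (0 : ℝ) < (v.factorial : ℝ) := by exact_mod_cast v.factorial_pos

theorem one_le_fac (v : ℕ) : (1 : ℝ) ≤ (v.factorial : ℝ) := by exact_mod_cast v.factorial_pos

theorem lf_add {x : ℝ} (hx : 0 ≤ x) (v w : ℕ) : lf x (v + w) ≤ lf x v * lf x w := by
  unfold lf
  rw [div_mul_div_comm, ← pow_add]
  apply div_le_div_of_nonneg_left (pow_nonneg hx _) (mul_pos (fac_pos v) (fac_pos w))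
  have h : v.factorial * w.factorial ≤ (v + w).factorial :=
    Nat.le_of_dvd (Nat.factorial_pos _) (Nat.factorial_mul_factorial_dvd_factorial_add v w)
  exact_mod_cast h

theorem lf_sq {x : ℝ} (v : ℕ) : lf x v ^ 2 ≤ lf (x ^ 2) v := by
  unfold lf
  rw [div_pow, ← pow_mul, ← pow_mul, mul_comm v 2]
  apply div_le_div_of_nonneg_left _ (fac_pos v)
  · nlinarith [one_le_fac v]
  · rw [pow_mul]; positivity

theorem lf_le_one {x : ℝ} (hx : 0 ≤ x) (hx1 : x ≤ 1) (v : ℕ) : lf x v ≤ 1 := by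
  unfold lf
  rw [div_le_one (fac_pos v)]
  exact (pow_le_one₀ hx hx1).trans (one_le_fac v)

theorem pe_zero (a : ℕ → ℝ) : pe a 0 = 0 := by simp [pe]

theorem pe_eq (a : ℕ → ℝ) {n : ℕ} (hn : n ≠ 0) :
    pe a n = ∏ p ∈ n.primeFactors, lf (a p) (n.factorization p) := by
  simp only [pe, if_neg hn, Finsupp.prod, lf, Nat.support_factorization]

theorem pe_eq' (a : ℕ → ℝ) {n : ℕ} (hn : n ≠ 0) (s : Finset ℕ) (hs : n.primeFactors ⊆ s) :
    pe a n = ∏ p ∈ s, lf (a p) (n.factorization p) := by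
  rw [pe_eq a hn]
  apply Finset.prod_subset hs
  intro p _ hp
  have h0 : n.factorization p = 0 := by
    rw [← Finsupp.notMem_support_iff, Nat.support_factorization]; exact hp
  rw [h0, lf_zero]

theorem pe_nonneg {a : ℕ → ℝ} (ha : ∀ p, 0 ≤ a p) (n : ℕ) : 0 ≤ pe a n := by
  rcases eq_or_ne n 0 with h | h
  · rw [h, pe_zero]
  · rw [pe_eq a h]
    exact Finset.prod_nonneg fun p _ => lf_nonneg (ha p) _

theorem pe_one (a : ℕ → ℝ) : pe a 1 = 1 := by simp [pe]

theorem pe_mono {a b : ℕ → ℝ} (ha : ∀ p, 0 ≤ a p) (n : ℕ)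
    (h : ∀ p, p.Prime → p ∣ n → a p ≤ b p) : pe a n ≤ pe b n := by
  rcases eq_or_ne n 0 with h0 | h0
  · rw [h0, pe_zero, pe_zero]
  · rw [pe_eq a h0, pe_eq b h0]
    apply Finset.prod_le_prod
    · intro p _; exact lf_nonneg (ha p) _
    · intro p hp
      exact lf_mono (ha p) (h p (Nat.prime_of_mem_primeFactors hp)
        (Nat.dvd_of_mem_primeFactors hp)) _

theorem pe_congr {a b : ℕ → ℝ} (n : ℕ)
    (h : ∀ p, p.Prime → p ∣ n → a p = b p) : pe a n = pe b n := by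
  rcases eq_or_ne n 0 with h0 | h0
  · rw [h0, pe_zero, pe_zero]
  · rw [pe_eq a h0, pe_eq b h0]
    apply Finset.prod_congr rfl
    intro p hp
    rw [h p (Nat.prime_of_mem_primeFactors hp) (Nat.dvd_of_mem_primeFactors hp)]

theorem pe_mul_le {a : ℕ → ℝ} (ha : ∀ p, 0 ≤ a p) (m n : ℕ) : pe a (m * n) ≤ pe a m * pe a n := by
  rcases eq_or_ne m 0 with hm | hm
  · rw [hm, zero_mul, pe_zero, zero_mul]
  rcases eq_or_ne n 0 with hn | hn
  · rw [hn, mul_zero, pe_zero, mul_zero]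
  have hmn : m * n ≠ 0 := mul_ne_zero hm hn
  have h1 : m.primeFactors ⊆ (m * n).primeFactors := Nat.primeFactors_mono (dvd_mul_right m n) hmn
  have h2 : n.primeFactors ⊆ (m * n).primeFactors := Nat.primeFactors_mono (dvd_mul_left n m) hmn
  rw [pe_eq a hmn, pe_eq' a hm _ h1, pe_eq' a hn _ h2, ← Finset.prod_mul_distrib]
  apply Finset.prod_le_prod
  · intro p _; exact lf_nonneg (ha p) _
  · intro p _
    rw [Nat.factorization_mul hm hn]
    exact lf_add (ha p) _ _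

theorem pe_mul_coprime (a : ℕ → ℝ) (m n : ℕ) (hc : Nat.Coprime m n) :
    pe a (m * n) = pe a m * pe a n := by
  rcases eq_or_ne m 0 with hm | hm
  · rw [hm, zero_mul, pe_zero, zero_mul]
  rcases eq_or_ne n 0 with hn | hn
  · rw [hn, mul_zero, pe_zero, mul_zero]
  have hmn : m * n ≠ 0 := mul_ne_zero hm hn
  simp only [pe, if_neg hm, if_neg hn, if_neg hmn]
  rw [Nat.factorization_mul hm hn]
  apply Finsupp.prod_add_index_of_disjoint
  simpa [Nat.support_factorization] using hc.disjoint_primeFactors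

theorem pe_sq {a : ℕ → ℝ} (n : ℕ) : pe a n ^ 2 ≤ pe (fun p => a p ^ 2) n := by
  rcases eq_or_ne n 0 with h0 | h0
  · rw [h0, pe_zero, pe_zero]; norm_num
  · rw [pe_eq a h0, pe_eq _ h0, ← Finset.prod_pow]
    apply Finset.prod_le_prod
    · intro p _; positivity
    · intro p _; exact lf_sq _

theorem pe_div (a : ℕ → ℝ) (n : ℕ) (hn : 1 ≤ n) :
    pe a n / (n : ℝ) = pe (fun p => a p / (p : ℝ)) n := by
  have h0 : n ≠ 0 := by omega
  have h1 : (n : ℝ) = ∏ p ∈ n.primeFactors, (p : ℝ) ^ n.factorization p := by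
    conv_lhs => rw [← Nat.prod_factorization_pow_eq_self h0]
    rw [Finsupp.prod, Nat.support_factorization]
    push_cast
    rfl
  rw [pe_eq a h0, pe_eq _ h0]
  conv_lhs => rw [h1]
  rw [← Finset.prod_div_distrib]
  apply Finset.prod_congr rfl
  intro p _
  unfold lf
  rw [div_pow, div_right_comm]

theorem pe_le_one {a : ℕ → ℝ} (ha : ∀ p, 0 ≤ a p) (n : ℕ)
    (h : ∀ p, p.Prime → p ∣ n → a p ≤ 1) : pe a n ≤ 1 := by
  rcases eq_or_ne n 0 with h0 | h0
  · rw [h0, pe_zero]; norm_num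
  · rw [pe_eq a h0]
    apply Finset.prod_le_one
    · intro p _; exact lf_nonneg (ha p) _
    · intro p hp
      exact lf_le_one (ha p) (h p (Nat.prime_of_mem_primeFactors hp)
        (Nat.dvd_of_mem_primeFactors hp)) _

theorem pe_vanish (a : ℕ → ℝ) (n p : ℕ) (hp : p.Prime) (hd : p ∣ n) (h : a p = 0) :
    pe a n = 0 := by
  rcases eq_or_ne n 0 with h0 | h0
  · rw [h0, pe_zero]
  · rw [pe_eq a h0]
    apply Finset.prod_eq_zero (Nat.mem_primeFactors.2 ⟨hp, hd, h0⟩)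
    have h1 : n.factorization p ≠ 0 := (hp.factorization_pos_of_dvd h0 hd).ne'
    unfold lf
    rw [h, zero_pow h1, zero_div]

theorem pe_squarefree (a : ℕ → ℝ) (n : ℕ) (h0 : n ≠ 0) (hs : Squarefree n) :
    pe a n = ∏ p ∈ n.primeFactors, a p := by
  rw [pe_eq a h0]
  apply Finset.prod_congr rfl
  intro p hp
  have h1 : n.factorization p ≤ 1 := hs.natFactorization_le_one p
  have h2 : 0 < n.factorization p := (Nat.prime_of_mem_primeFactors hp).factorization_pos_of_dvd h0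
    (Nat.dvd_of_mem_primeFactors hp)
  have h3 : n.factorization p = 1 := by omega
  rw [h3]
  simp [lf]

end I_PeBas

open I_PeBas in
theorem PeBas_pf : S_PeBas := by
  intro a ha
  refine ⟨pe_nonneg ha, pe_one a, fun b n h => pe_mono ha n h, fun b n h => pe_congr n h,
    pe_mul_le ha, pe_mul_coprime a, fun n => pe_sq n, fun n hn => pe_div a n hn,
    fun n h => pe_le_one ha n h, fun n p hp hd h => pe_vanish a n p hp hd h,
    fun n h0 hs => pe_squarefree a n h0 hs⟩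

end Pool.Agent.Work.MP_56b8f5_nt.WM
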