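import Pool.Agent.Work.MP_56b8f5_nt.WM.Stmts

/-!
MP_56b8f5_nt, block WM, item PeSum (A3): Euler product upper bound.
-/

set_option autoImplicit false

open MeasureTheory Set Filter Topology

noncomputable section

namespace Pool.Agent.Work.MP_56b8f5_nt.WM

open Pool.Agent.Work.MP_56b8f5_nt.EM

namespace I_PeSum

lemma pe_zero (a : ℕ → ℝ) : pe a 0 = 0 := if_pos rfl

lemma pe_one (a : ℕ → ℝ) : pe a 1 = 1 := by
  unfold pe
  rw [if_neg one_ne_zero, Nat.factorization_one, Finsupp.prod_zero_index]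

lemma pe_pow (a : ℕ → ℝ) {p : ℕ} (hp : p.Prime) (v : ℕ) :
    pe a (p ^ v) = a p ^ v / (v.factorial : ℝ) := by
  unfold pe
  rw [if_neg (pow_ne_zero _ hp.ne_zero), hp.factorization_pow, Finsupp.prod_single_index]
  simp

lemma pe_mul (a : ℕ → ℝ) {m n : ℕ} (h : Nat.Coprime m n) : pe a (m * n) = pe a m * pe a n := by
  rcases Nat.eq_zero_or_pos m with hm | hm
  · subst hm
    rw [zero_mul, pe_zero, zero_mul]
  rcases Nat.eq_zero_or_pos n with hn | hn
  · subst hn
    rw [mul_zero, pe_zero, mul_zero]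
  unfold pe
  rw [if_neg (Nat.mul_pos hm hn).ne', if_neg hm.ne', if_neg hn.ne',
    Nat.factorization_mul hm.ne' hn.ne', Finsupp.prod_add_index_of_disjoint]
  simpa using h.disjoint_primeFactors

lemma pe_nonneg (a : ℕ → ℝ) (ha : ∀ p, 0 ≤ a p) (n : ℕ) : 0 ≤ pe a n := by
  unfold pe
  split_ifs
  · exact le_rfl
  · exact Finset.prod_nonneg fun p _ => div_nonneg (pow_nonneg (ha p) _) (Nat.cast_nonneg _)

lemma pe_rough (a : ℕ → ℝ) {n p : ℕ} (hp : p.Prime) (hn : n ≠ 0) (hd : p ∣ n) (h0 : a p = 0) :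
    pe a n = 0 := by
  unfold pe
  rw [if_neg hn]
  have hmem : p ∈ n.factorization.support := by
    rw [Nat.support_factorization, Nat.mem_primeFactors]
    exact ⟨hp, hd, hn⟩
  refine Finset.prod_eq_zero hmem ?_
  have h1 : n.factorization p ≠ 0 := Finsupp.mem_support_iff.1 hmem
  simp only [h0, zero_pow h1, zero_div]

lemma hasSum_exp (x : ℝ) : HasSum (fun v : ℕ => x ^ v / (v.factorial : ℝ)) (Real.exp x) := by
  rw [Real.exp_eq_exp_ℝ]
  exact NormedSpace.expSeries_div_hasSum_exp x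

end I_PeSum

open I_PeSum in
theorem PeSum_pf : S_PeSum := by
  classical
  intro a z X ha haz
  have hmain := EulerProduct.summable_and_hasSum_smoothNumbers_prod_primesBelow_tsum
    (f := pe a) (pe_one a) (fun {m n} h => pe_mul a h) (fun {p} hp => by
      have h1 : Summable fun n : ℕ => a p ^ n / (n.factorial : ℝ) := (hasSum_exp (a p)).summable
      refine h1.congr fun n => ?_
      rw [pe_pow a hp, Real.norm_of_nonneg]
      exact div_nonneg (pow_nonneg (ha p) _) (Nat.cast_nonneg _)) (z + 1)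
  obtain ⟨-, hS⟩ := hmain
  have hprod : ∏ p ∈ (z + 1).primesBelow, ∑' n : ℕ, pe a (p ^ n) =
      Real.exp (∑ p ∈ pr z, a p) := by
    rw [Real.exp_sum]
    refine Finset.prod_congr rfl fun p hp => ?_
    have hp' : p.Prime := (Finset.mem_filter.1 hp).2
    rw [← (hasSum_exp (a p)).tsum_eq]
    exact tsum_congr fun n => pe_pow a hp' n
  rw [hprod] at hS
  have h0 : ∀ n, n ∉ (z + 1).smoothNumbers → pe a n = 0 := by
    intro n hn
    by_cases hn0 : n = 0
    · rw [hn0, pe_zero]
    · rw [Nat.mem_smoothNumbers'] at hn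
      push Not at hn
      obtain ⟨p, hp, hd, hz⟩ := hn
      exact pe_rough a hp hn0 hd (haz p (by omega))
  have hS' : HasSum (pe a) (Real.exp (∑ p ∈ pr z, a p)) := by
    rw [← hasSum_subtype_iff_of_support_subset (s := (z + 1).smoothNumbers)] 
    · exact hS
    · intro n hn
      by_contra h
      exact hn (h0 n h)
  exact sum_le_hasSum _ (fun n _ => pe_nonneg a ha n) hS'

end Pool.Agent.Work.MP_56b8f5_nt.WM
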