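import Pool.Agent.Work.MP_56b8f5_nt.WM.Stmts

/-!
MP_56b8f5_nt, block WM, item Sq (A5): the sum of squares.
-/

set_option autoImplicit false

open MeasureTheory Set Filter Topology

noncomputable section

namespace Pool.Agent.Work.MP_56b8f5_nt.WM

open Pool.Agent.Work.MP_56b8f5_nt.EM

theorem Sq_pf (h2 : S_PeBas) (h3 : S_PeSum) : S_Sq := by
  intro a b z X ha haz hb hba
  obtain ⟨c1, -, -, -, -, -, c7, -, -, -, -⟩ := h2 a ha
  have ha2 : ∀ p, 0 ≤ a p ^ 2 := fun p => sq_nonneg _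
  obtain ⟨-, -, -, -, -, -, -, d8, -, -, -⟩ := h2 (fun p => a p ^ 2) ha2
  have hpe0 : ∀ c : ℕ → ℝ, pe c 0 = 0 := fun c => by simp [pe]
  refine le_trans ?_ (h3 (fun p => a p ^ 2 / (p : ℝ)) z X
    (fun p => div_nonneg (ha2 p) (Nat.cast_nonneg p)) fun p hp => by rw [haz p hp]; simp)
  unfold Q2
  refine Finset.sum_le_sum fun n _ => ?_
  rcases Nat.eq_zero_or_pos n with rfl | hn
  · rw [hpe0]
    simp
  · rw [← d8 n hn]
    refine div_le_div_of_nonneg_right ?_ (Nat.cast_nonneg n)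
    exact (pow_le_pow_left₀ (hb n) (hba n) 2).trans (c7 n)

end Pool.Agent.Work.MP_56b8f5_nt.WM
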