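import Pool.Agent.Work.MP_56b8f5_nt.EM.Defs

/-!
MP_56b8f5_nt (eighth moment of the Riemann zeta function), block WM (window theorem): definitions.
Paper proof: note 3959 of helper54. Weights `IsW`, `W0`, `W`, the function `P` and `Zt` are those of block EM.
-/

set_option autoImplicit false

open MeasureTheory Set Filter Topology

noncomputable section

namespace Pool.Agent.Work.MP_56b8f5_nt.WM

open Pool.Agent.Work.MP_56b8f5_nt.EM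

/-! ### Arithmetic -/

/-- `∏ a(p)^v / v!`, the coefficients of `exp (∑ a(p) p^{-s})`. -/
def pe (a : ℕ → ℝ) (n : ℕ) : ℝ :=
  if n = 0 then 0 else n.factorization.prod fun p v => a p ^ v / (v.factorial : ℝ)

/-- The same as an arithmetic function. -/
def pa (a : ℕ → ℝ) : ArithmeticFunction ℝ := ⟨pe a, if_pos rfl⟩

/-- The primes up to `z`. -/
def pr (z : ℕ) : Finset ℕ := (Finset.range (z + 1)).filter Nat.Prime

/-- `∑_{p ≤ y} 1/p`. -/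
def S1 (y : ℕ) : ℝ := ∑ p ∈ pr y, 1 / (p : ℝ)

/-- `∑_{y < p ≤ z} 1/p`. -/
def S2 (y z : ℕ) : ℝ := ∑ p ∈ (pr z).filter fun p => y < p, 1 / (p : ℝ)

/-- `∑_{n ≤ X} b(n)^2 / n`. -/
def Q2 (b : ℕ → ℝ) (X : ℕ) : ℝ := ∑ n ∈ Finset.range (X + 1), b n ^ 2 / (n : ℝ)

/-- `∑_{h, l ≤ X} b(h) b(l) (h,l) / (h l)`. -/
def GS (b : ℕ → ℝ) (X : ℕ) : ℝ := ∑ h ∈ Finset.range (X + 1), ∑ l ∈ Finset.range (X + 1),
  b h * b l * (Nat.gcd h l : ℝ) / ((h : ℝ) * (l : ℝ))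

/-- `∑_{n ≤ x, n squarefree} K^{ω(n)} / n`. -/
def sK (K x : ℕ) : ℝ :=
  ∑ n ∈ (Finset.Icc 1 x).filter Squarefree, (K : ℝ) ^ n.primeFactors.card / (n : ℝ)

/-- `∑_{n ≤ z, n squarefree, all primes of n > y} K^{ω(n)} / n`. -/
def sR (K y z : ℕ) : ℝ :=
  ∑ n ∈ (Finset.Icc 1 z).filter fun n => Squarefree n ∧ ∀ p ∈ n.primeFactors, y < p,
    (K : ℝ) ^ n.primeFactors.card / (n : ℝ)

/-- The coefficients of the base polynomial `M`: exponent `1/q`, length `y`. -/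
def um (q y : ℕ) : ArithmeticFunction ℝ :=
  ⟨fun n => if n ≤ y then pe (fun p => if p ≤ y then 1 / (q : ℝ) else 0) n else 0, by simp [pe]⟩

/-- The coefficients of the rough polynomial `R`: exponent `1`, primes in `(y, z]`, length `z`. -/
def ur (y z : ℕ) : ArithmeticFunction ℝ :=
  ⟨fun n => if n ≤ z then pe (fun p => if y < p ∧ p ≤ z then 1 else 0) n else 0, by simp [pe]⟩

/-- The exponents of `M^m R^j`. -/
def aa (q y z m j : ℕ) (p : ℕ) : ℝ := if p ≤ y then (m : ℝ) / q else if p ≤ z then (j : ℝ) else 0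

/-- The coefficients of `M^m R^j`. -/
def BB (q y z m j : ℕ) : ArithmeticFunction ℝ := um q y ^ m * ur y z ^ j

/-! ### Analysis -/

/-- The Dirichlet polynomial `∑_{n ≤ X} b(n) n^{-1/2-it}` (the term `n = 0` is zero). -/
def DP (b : ℕ → ℝ) (X : ℕ) (t : ℝ) : ℂ :=
  ∑ n ∈ Finset.range (X + 1), (b n : ℂ) * (n : ℂ) ^ (-(1 / 2 + t * Complex.I))

/-- `|zeta(1/2+it)|`. -/
def az (t : ℝ) : ℝ := ‖riemannZeta (1 / 2 + t * Complex.I)‖

/-- `|M(t)|`. -/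
def aM (q y : ℕ) (t : ℝ) : ℝ := ‖DP (um q y) y t‖

/-- `|R(t)|`. -/
def aR (y z : ℕ) (t : ℝ) : ℝ := ‖DP (ur y z) z t‖

/-- Twisted zeroth moment. -/
def J0 (w : ℝ → ℝ) (q y z : ℕ) (T : ℝ) (m j : ℕ) : ℝ :=
  ∫ u : ℝ, w u * (aM q y (T * u) ^ (2 * m) * aR y z (T * u) ^ (2 * j))

/-- Twisted second moment. -/
def J2 (w : ℝ → ℝ) (q y z : ℕ) (T : ℝ) (m j : ℕ) : ℝ :=
  ∫ u : ℝ, w u * (az (T * u) ^ 2 * (aM q y (T * u) ^ (2 * m) * aR y z (T * u) ^ (2 * j)))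

/-- Admissible parameters. -/
structure IsPar (k : ℕ) (C T : ℝ) (q y z : ℕ) : Prop where
  hq : 1 ≤ q
  hy : 2 ≤ y
  hyz : y ≤ z
  hq2 : Real.log (Real.log T) ≤ (q : ℝ) ^ 2
  hqs : (q : ℝ) ≤ C * Real.sqrt (Real.log (Real.log T))
  hlen : ((y ^ (q * k + 1) * z ^ (k + 1) : ℕ) : ℝ) ^ 3 ≤ T
  hN : ((y ^ q * z : ℕ) : ℝ) ^ 9 ≤ T
  hz : Real.log T ≤ C * Real.log z
  hy' : Real.log T ≤ C * q * Real.log y

end Pool.Agent.Work.MP_56b8f5_nt.WM
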