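import Pool.Agent.Work.MP_56b8f5_nt.EM.Stmts
import Pool.Agent.Work.MP_56b8f5_nt.WM.Defs

/-!
MP_56b8f5_nt, block WM (window theorem): statements of the items, with proofs.

Landed facts which the items take as hypotheses (statements in `EM/Stmts.lean`): `StW` (Fourier transform of
the weight), `StZ` (approximation of zeta by `P`), `StPc` (`P` is bounded and continuous), `StSec` (twisted second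
moment of `P`). For A6: `Pool.Agent.Work.MP_e0c7e8_nt.Mert.mertens1`.
-/

set_option autoImplicit false

open MeasureTheory Set Filter Topology

noncomputable section

namespace Pool.Agent.Work.MP_56b8f5_nt.WM

open Pool.Agent.Work.MP_56b8f5_nt.EM

/-! ### Arithmetic -/

/-- **A1 (PeMul).** Dirichlet convolution: both sides are multiplicative, and at `p^v` this is the binomial
theorem `∑_{i+l=v} a^i/i! · b^l/l! = (a+b)^v/v!`. -/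
def S_PeMul : Prop := (∀ a : ℕ → ℝ, (pa a).IsMultiplicative) ∧
  ∀ a b : ℕ → ℝ, pa (fun p => a p + b p) = pa a * pa b

/-- **A2 (PeBas).** Elementary properties, all from the definition as a product over the primes
(`v! w! ∣ (v+w)!` for the submultiplicativity, `(v!)² ≥ v!` for the squares). -/
def S_PeBas : Prop := ∀ a : ℕ → ℝ, (∀ p, 0 ≤ a p) →
  (∀ n, 0 ≤ pe a n) ∧ pe a 1 = 1 ∧
  (∀ b : ℕ → ℝ, ∀ n, (∀ p, p.Prime → p ∣ n → a p ≤ b p) → pe a n ≤ pe b n) ∧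
  (∀ b : ℕ → ℝ, ∀ n, (∀ p, p.Prime → p ∣ n → a p = b p) → pe a n = pe b n) ∧
  (∀ m n, pe a (m * n) ≤ pe a m * pe a n) ∧
  (∀ m n, Nat.Coprime m n → pe a (m * n) = pe a m * pe a n) ∧
  (∀ n, pe a n ^ 2 ≤ pe (fun p => a p ^ 2) n) ∧
  (∀ n, 1 ≤ n → pe a n / (n : ℝ) = pe (fun p => a p / (p : ℝ)) n) ∧
  (∀ n, (∀ p, p.Prime → p ∣ n → a p ≤ 1) → pe a n ≤ 1) ∧
  (∀ n p, p.Prime → p ∣ n → a p = 0 → pe a n = 0) ∧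
  (∀ n, n ≠ 0 → Squarefree n → pe a n = ∏ p ∈ n.primeFactors, a p)

/-- **A3 (PeSum).** Euler product. Proof: `pe a` is multiplicative (A1), nonnegative, and vanishes at `n` with
a prime factor `> z`; so the sum is at most `∏_{p ≤ z} ∑_v a(p)^v/v! = ∏_{p ≤ z} exp(a(p))`
(`EulerProduct.summable_and_hasSum_smoothNumbers_prod_primesBelow_tsum`, or induction on the set of
primes). -/
def S_PeSum : Prop := ∀ (a : ℕ → ℝ) (z X : ℕ), (∀ p, 0 ≤ a p) → (∀ p, z < p → a p = 0) →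
  ∑ n ∈ Finset.range (X + 1), pe a n ≤ Real.exp (∑ p ∈ pr z, a p)

/-- **A4 (Gcd).** Proof: `(h,l) = ∑_{d ∣ h, d ∣ l} φ(d)`, so `GS b X = ∑_d φ(d) (∑_{d ∣ h} b(h)/h)²`, and
`∑_{d ∣ h ≤ X} b(h)/h ≤ ∑_n pe a (d n)/(d n) ≤ (pe a d/d) S`, `S = ∑_{n ≤ X} pe a n/n ≤ exp(∑ a(p)/p)` by A2,
A3; `φ(d) ≤ d` gives `GS ≤ S² ∑_d pe a(d)²/d ≤ S² exp(∑ a(p)²/p)` by A2, A3 again. -/
def S_Gcd : Prop := ∀ (a b : ℕ → ℝ) (z X : ℕ), (∀ p, 0 ≤ a p) → (∀ p, z < p → a p = 0) →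
  (∀ n, 0 ≤ b n) → (∀ n, b n ≤ pe a n) →
    GS b X ≤ Real.exp (∑ p ∈ pr z, (2 * a p + a p ^ 2) / (p : ℝ))

/-- **A5 (Sq).** `b(n)²/n ≤ pe a(n)²/n ≤ pe (a²/p) n` by A2, then A3. -/
def S_Sq : Prop := ∀ (a b : ℕ → ℝ) (z X : ℕ), (∀ p, 0 ≤ a p) → (∀ p, z < p → a p = 0) →
  (∀ n, 0 ≤ b n) → (∀ n, b n ≤ pe a n) →
    Q2 b X ≤ Real.exp (∑ p ∈ pr z, a p ^ 2 / (p : ℝ))

/-- **A6 (Mert).** Mertens. Upper bound: partial summation from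
`Pool.Agent.Work.MP_e0c7e8_nt.Mert.mertens1` (`∑_{p ≤ x} log p/p = log x + O(1)`). Lower bound: the same, or
`log x ≤ ∑_{n ≤ x} 1/n ≤ ∏_{p ≤ x} (1-1/p)⁻¹`. -/
def S_Mert : Prop := ∃ C : ℝ, 1 ≤ C ∧ ∀ x : ℕ, 2 ≤ x →
  Real.exp (S1 x) ≤ C * Real.log x ∧ Real.log x ≤ C * Real.exp (S1 x)

/-- **A7 (LowS).** Induction on `K`. `K = 0`: `sK 0 x = 1`. Step: for squarefree `a, b ≤ x` put `g = (a,b)`,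
`a = g a'`, `b = g b'`: `g, a', b'` are pairwise coprime, and `∑_{a'b' = l} K^{ω(a')} = (K+1)^{ω(l)}`, so
`sK K x · sK 1 x ≤ (∑_{g ≤ x} K^{ω(g)}/g²) sK (K+1) (x²)`; the first sum is bounded (`K^{ω(g)} ≤ pe K g` for
squarefree `g`, and A3 with `a(p) = K/p²` for `p ≤ x`; `∑ 1/p² ≤ 2`). `sK 1 x ≥ (log x)/2` as every
`n` is `s m²`, `s` squarefree. For `y` not a square use `x = ⌊√y⌋` and monotonicity (`x ≥ 2` if `y ≥ 4`;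
small `y` trivially, `sK ≥ 1`). -/
def S_LowS : Prop := ∀ K : ℕ, ∃ c : ℝ, 0 < c ∧ ∀ x : ℕ, 2 ≤ x → c * Real.log x ^ K ≤ sK K x

/-- **A8 (BBp).** The coefficients of `M^m R^j`. `um ≤ pa aM`, `ur ≤ pa aR` (`aM(p) = 1/q` for `p ≤ y`,
`aR(p) = 1` for `y < p ≤ z`), all nonnegative, so `um^m * ur^j ≤ pa(aM)^m * pa(aR)^j = pa(m aM + j aR)` by A1.
Third part: `(um^m)(n₁) = pe (m aM) n₁` for `n₁ ≤ y` (only divisors of `n₁` matter), `(ur^j)(n₂) = pe (j aR) n₂`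
for `n₂ ≤ z`; take the term `(n₁, n₂)` of the convolution, and A2 (coprime). -/
def S_BBp : Prop := ∀ q y z m j : ℕ, 1 ≤ q → y ≤ z →
  (∀ n, 0 ≤ BB q y z m j n ∧ BB q y z m j n ≤ pe (aa q y z m j) n) ∧
  (∀ n, BB q y z m j n ≠ 0 → n ≤ y ^ m * z ^ j) ∧
  (∀ n₁ n₂, 1 ≤ n₁ → n₁ ≤ y → 1 ≤ n₂ → n₂ ≤ z → (∀ p, p.Prime → p ∣ n₂ → y < p) →
    BB q y z m j (n₁ * n₂) = pe (aa q y z m j) (n₁ * n₂)) ∧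
  (∀ X : ℕ, y ^ m * z ^ j ≤ X → ∀ t : ℝ,
    DP (BB q y z m j) X t = DP (um q y) y t ^ m * DP (ur y z) z t ^ j)

/-- **A9 (LowR).** Every squarefree `n ≤ z` is `n₁ n₂` with `n₁` `y`-smooth, `n₂ ≤ z` having all primes `> y`, so
`sK K z ≤ (∑_{n₁ y-smooth, n₁ ≤ z} K^{ω(n₁)}/n₁) sR K y z`; the first factor is
`≤ ∑_{n ≤ z} pe (K/p for p ≤ y) n ≤ exp(K S1 y) ≤ (C log y)^K` (A2, A3, A6). Then A7 for `z`. -/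
def S_LowR : Prop := ∀ K : ℕ, ∃ c : ℝ, 0 < c ∧ ∀ y z : ℕ, 2 ≤ y → y ≤ z →
  c * Real.log z ^ K ≤ Real.log y ^ K * sR K y z

/-- **A10 (LowM).** Main term. Let `l = n₁ n₂`, `n₁ ≤ y`, `n₂ ≤ z` with all primes `> y`, both squarefree. By A8
`BB (q k) k l = pe k l = k^{ω(l)}` and, for the divisors `h = h₁ h₂` of `l`,
`BB (q (k-1)) (k-1) h = pe (k-1) h`; for squarefree `l`, `∑_{h ∣ l} pe (k-1) h = ∑_{h ∣ l} (k-1)^{ω(h)} = k^{ω(l)}`.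
The products `n₁ n₂ ≤ y z ≤ X` are different for different pairs. So with `K = k²` the sum is at least
`sK K y · sR K y z`; A7 for `y` and A9. -/
def S_LowM : Prop := ∀ k : ℕ, 1 ≤ k → ∃ c : ℝ, 0 < c ∧ ∀ q y z X : ℕ, 1 ≤ q → 2 ≤ y → y ≤ z →
  y * z ≤ X → c * Real.log z ^ (k ^ 2) ≤ ∑ l ∈ Finset.range (X + 1),
    BB q y z (q * k) k l / (l : ℝ) * ∑ h ∈ l.divisors, BB q y z (q * (k - 1)) (k - 1) h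

/-! ### Analysis -/

/-- **B0 (ZP).** `StZ` with `K = T³` and `t = T u`, `c T ≤ t ≤ T` on the support of `w` (`T₀ = 1/c` so that
`t ≥ 1`): `t/T^(3/2) + T^(3/2)/t³ ≤ (1 + c⁻³) T^(-1/2)`. -/
def S_ZP : Prop := ∀ w : ℝ → ℝ, IsW w → ∃ C T₀ : ℝ, 0 ≤ C ∧ 1 ≤ T₀ ∧ ∀ T : ℝ, T₀ ≤ T →
  ∀ u : ℝ, w u ≠ 0 →
    ‖riemannZeta (1 / 2 + ((T * u : ℝ) : ℂ) * Complex.I) - P (T ^ 3) (T * u)‖ ≤ C / Real.sqrt T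

/-- **B1 (MVb).** Mean value theorem. Expand: the integral is `∑_{h,l} b_h b_l (hl)^{-1/2} W w 0 (T log(l/h))`.
`h = l`: `≤ W0 w · Q2 b X`, `W0 w ≤ 1`. `h ≠ l`: `|log(l/h)| ≥ 1/X ≥ T^{-1/3}`, so (`StW` with `A = 3`)
`|W| ≤ C T^{-2}`, and `(∑ |b_n|/√n)² ≤ X Q2 b X`. -/
def S_MVb : Prop := ∀ w : ℝ → ℝ, IsW w → ∃ C : ℝ, 0 ≤ C ∧ ∀ T : ℝ, 1 ≤ T → ∀ X : ℕ,
  (X : ℝ) ^ 3 ≤ T → ∀ b : ℕ → ℝ, b 0 = 0 → ∫ u : ℝ, w u * ‖DP b X (T * u)‖ ^ 2 ≤ C * Q2 b X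

/-- **B2 (TSb).** Twisted second moment, upper bound for `b ≥ 0`. `|ζ|² ≤ 2|P(T³)|² + 2|ζ - P(T³)|²`; B0 and B1
for the second part (`Q2 b X ≤ GS b X`, the diagonal terms). First part: expand `|DP|²`, with
`n = h/(h,l)`, `m = l/(h,l)` (`n m ≤ X² ≤ T`): `StSec` gives
`|∫ w |P|² (n/m)^{iTu}| ≤ C log T / √(nm)` (`√(nm)/T ≤ 1/√(nm)`), and `(hl)^{-1/2} (nm)^{-1/2} = (h,l)/(hl)`. -/
def S_TSb : Prop := ∀ w : ℝ → ℝ, IsW w → ∃ C T₀ : ℝ, 0 ≤ C ∧ ∀ T : ℝ, T₀ ≤ T → ∀ X : ℕ,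
  (X : ℝ) ^ 3 ≤ T → ∀ b : ℕ → ℝ, b 0 = 0 → (∀ n, 0 ≤ b n) →
    ∫ u : ℝ, w u * (az (T * u) ^ 2 * ‖DP b X (T * u)‖ ^ 2) ≤ C * Real.log T * GS b X

/-- **B3 (FMx).** Expansion of the twisted first moment of `P` (`StPc` for the absolute convergence, the sum over
`k` is uniformly convergent; `k^{-1/2-it} h^{-1/2-it} conj(l^{-1/2-it}) = (k h l)^{-1/2} e^{it log(l/(kh))}`). The terms
with `k = 0`, `h = 0` or `l = 0` are zero. -/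
def S_FMx : Prop := ∀ w : ℝ → ℝ, IsW w → ∀ (K T : ℝ) (X : ℕ) (a b : ℕ → ℝ), 1 ≤ K → 0 < T →
  a 0 = 0 → b 0 = 0 →
  (∫ u : ℝ, (w u : ℂ) * (P K (T * u) * (DP a X (T * u) * (starRingEnd ℂ) (DP b X (T * u))))) =
    ∑ l ∈ Finset.range (X + 1), ∑ h ∈ Finset.range (X + 1),
      ((a h * b l / Real.sqrt ((h : ℝ) * l) : ℝ) : ℂ) *
        ∑' k : ℕ, ((Real.exp (-((k : ℝ) / K)) / Real.sqrt k : ℝ) : ℂ) *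
          W w 0 (T * Real.log ((l : ℝ) / ((k : ℝ) * h)))

/-- **B3' (FMb).** Twisted first moment, lower bound. `|∫ w ζ A conj(B)| ≤ ∫ w |ζ||A||B|`. Replace `ζ` by
`P(T³)` (B0; error `≤ C T^{-1/2} (∫ w|A|²)^{1/2} (∫ w|B|²)^{1/2}`, B1). Expand (B3): the terms with `k h = l` give
`W0 w ∑_l b_l/l ∑_{h ∣ l} a_h e^{-(l/h)/T³} ≥ (W0 w/2) ∑_l b_l/l ∑_{h ∣ l} a_h`. For `k h ≠ l`,
`|log(l/(k h))| ≥ 1/(2X) ≥ T^{-1/3}/2`, so (`StW`, `A = 6`) `|W| ≤ C T^{-4}`, and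
`∑_k e^{-k/K} k^{-1/2} ≤ 2 T^{3/2}`, `∑ |a_h|/√h ≤ (X Q2 a X)^{1/2}`. -/
def S_FMb : Prop := ∀ w : ℝ → ℝ, IsW w → 0 < W0 w → ∃ c C T₀ : ℝ, 0 < c ∧ 0 ≤ C ∧
  ∀ T : ℝ, T₀ ≤ T → ∀ X : ℕ, (X : ℝ) ^ 3 ≤ T → ∀ a b : ℕ → ℝ, a 0 = 0 → b 0 = 0 →
  (∀ n, 0 ≤ a n) → (∀ n, 0 ≤ b n) →
    c * ∑ l ∈ Finset.range (X + 1), b l / (l : ℝ) * ∑ h ∈ l.divisors, a h ≤
      (∫ u : ℝ, w u * (az (T * u) * (‖DP a X (T * u)‖ * ‖DP b X (T * u)‖))) +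
        C / T ^ (1 / 4 : ℝ) * (Real.sqrt (Q2 a X) * Real.sqrt (Q2 b X))

/-- **B4 (Wts).** A weight supported in `[1/4, 1/2]` with positive mass and one equal to `1` there
(`ContDiffBump`). -/
def S_Wts : Prop := ∃ w₁ w₂ : ℝ → ℝ, IsW w₁ ∧ IsW w₂ ∧ 0 < W0 w₁ ∧
  (∀ u, w₁ u ≠ 0 → 1 / 4 ≤ u ∧ u ≤ 1 / 2) ∧ ∀ u, 1 / 4 ≤ u → u ≤ 1 / 2 → w₂ u = 1

/-- **B5 (Jb).** B1, B2 for `b = BB q y z m j` with A4, A5, A8 (`aa` is `m/q` for `p ≤ y` and `j` for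
`y < p ≤ z`). -/
def S_Jb : Prop := ∀ w : ℝ → ℝ, IsW w → ∃ C T₀ : ℝ, 1 ≤ C ∧ ∀ T : ℝ, T₀ ≤ T → ∀ q y z m j : ℕ,
  1 ≤ q → y ≤ z → ((y ^ m * z ^ j : ℕ) : ℝ) ^ 3 ≤ T →
    J0 w q y z T m j ≤ C * Real.exp (((m : ℝ) / q) ^ 2 * S1 y + (j : ℝ) ^ 2 * S2 y z) ∧
    J2 w q y z T m j ≤ C * Real.log T *
      Real.exp ((2 * ((m : ℝ) / q) + ((m : ℝ) / q) ^ 2) * S1 y + (2 * (j : ℝ) + (j : ℝ) ^ 2) * S2 y z)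

/-- **B6 (Par).** Parameters: `θ = 1/(12(k+1))`, `q = ⌈√(log log T)⌉`, `z = ⌊T^θ⌋`, `y = ⌊T^(θ/q)⌋`. `y^q ≤ z`
and `y ≤ z`, so `y^(qk+1) z^(k+1) ≤ z^(2k+2) ≤ T^(1/6)`; `(y^q z)^9 ≤ T^(18θ) ≤ T^(3/4)`;
`⌊x⌋ ≥ √x` for `x ≥ 4`; `T^(θ/q) → ∞`. -/
def S_Par : Prop := ∀ k : ℕ, 1 ≤ k → ∃ C : ℝ, 1 ≤ C ∧ ∀ᶠ T : ℝ in atTop, ∃ q y z : ℕ,
  IsPar k C T q y z

/-- **B7 (Num).** Numerical consequences of A6 for admissible parameters. With `C₁` from A6: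
`e^(S1 y + S2 y z) = e^(S1 z) ≤ C₁ log z ≤ C₁ log T`; `e^(S2) = e^(S1 z)/e^(S1 y) ≤ C₁² log z / log y ≤ C₁² C q`;
`S1 y ≤ log (C₁ log y) ≤ log log T + log C₁`, so `S1 y / q² ≤ 1 + log C₁`;
`log T ≤ C q log y ≤ C C₁ q e^(S1 y)`. -/
def S_Num : Prop := ∀ (k : ℕ) (C : ℝ), 1 ≤ C → ∃ C' T₀ : ℝ, 1 ≤ C' ∧ 3 ≤ T₀ ∧ ∀ T : ℝ, T₀ ≤ T →
  ∀ q y z : ℕ, IsPar k C T q y z → 0 ≤ S1 y ∧ 0 ≤ S2 y z ∧
    Real.exp (S1 y + S2 y z) ≤ C' * Real.log T ∧ Real.exp (S2 y z) ≤ C' * q ∧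
    Real.exp (S1 y / (q : ℝ) ^ 2) ≤ C' ∧ Real.exp (S1 y) ≤ C' * Real.log T ∧
    Real.log T ≤ C' * q * Real.exp (S1 y)

/-- The ten upper bounds needed for the final argument (`X = (log T)^(k²)`, `v² = E^(2k/q)`,
`D = q^(2k+1)`). -/
structure UBs (k q : ℕ) (X v D C : ℝ) (j0 j2 : ℕ → ℕ → ℝ) : Prop where
  a1 : j2 (q * (k - 1)) (k - 1) ≤ C * X
  a2 : j0 (q * k) k ≤ C * X
  b1 : j2 (q * (k - 1) + 1) (k - 1) ≤ C * X * v ^ 2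
  b2 : j0 (q * k + 1) k ≤ C * X * v ^ 2
  b3 : j2 (q * (k - 1) - 1) (k - 1) ≤ C * X / v ^ 2
  b4 : j0 (q * k - 1) k ≤ C * X / v ^ 2
  c1 : j2 (q * (k - 1)) k ≤ C * X * D
  c2 : j0 (q * k) (k + 1) ≤ C * X * D
  c3 : j2 (q * (k - 1)) (k - 2) ≤ C * X
  c4 : j0 (q * k) (k - 1) ≤ C * X

/-- **B8 (Ten).** From B5 and B7 (`s₁ = S1 y`, `s₂ = S2 y z`, `L = log T`). E.g. `a1`:
`C L e^((k²-1)(s₁+s₂)) ≤ C' L^(k²)` as `2(k-1) + (k-1)² = k²-1`. `b1`: `m/q = k-1+1/q`,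
`2 m/q + (m/q)² = (k+1/q)² - 1 = k²-1 + 2k/q + 1/q²`: `C L e^((k²-1)(s₁+s₂)) e^((2k/q) s₁) e^(s₁/q²)`, and
`v² = e^((2k/q) s₁)`. `b2`: `(k+1/q)²`. `b3`, `b4`: `(k-1/q)²`. `c1`: `(k²-1) s₁ + ((k+1)²-1) s₂`: factor
`e^((2k+1) s₂) ≤ (C' q)^(2k+1)`. `c2`: `k² s₁ + (k+1)² s₂`. `c3`: `(k²-1) s₁ + ((k-1)²-1) s₂`, `c4`:
`k² s₁ + (k-1)² s₂`: smaller than `a1`, `a2` as `s₂ ≥ 0`. The lengths are
`≤ y^(qk+1) z^(k+1)`. -/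
def S_Ten : Prop := ∀ w : ℝ → ℝ, IsW w → ∀ (k : ℕ) (C : ℝ), 2 ≤ k → 1 ≤ C → ∃ C' T₀ : ℝ,
  1 ≤ C' ∧ ∀ T : ℝ, T₀ ≤ T → ∀ q y z : ℕ, IsPar k C T q y z →
    UBs k q (Real.log T ^ (k ^ 2)) (Real.exp ((k : ℝ) / q * S1 y)) ((q : ℝ) ^ (2 * k + 1)) C'
      (J0 w q y z T) (J2 w q y z T)

/-- **B9 (Low).** B3 for `a = BB (q(k-1)) (k-1)`, `b = BB (qk) k`, `X = y^(qk) z^k` (both products of powers by A8),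
A9, `log z ≥ (log T)/C`; the error is `≤ C' T^(-1/4) e^(k² (s₁+s₂)) → 0` (A5, B7). -/
def S_Low : Prop := ∀ w : ℝ → ℝ, IsW w → 0 < W0 w → ∀ (k : ℕ) (C : ℝ), 2 ≤ k → 1 ≤ C →
  ∃ c T₀ : ℝ, 0 < c ∧ ∀ T : ℝ, T₀ ≤ T → ∀ q y z : ℕ, IsPar k C T q y z →
    c * Real.log T ^ (k ^ 2) ≤ ∫ u : ℝ, w u * (az (T * u) *
      (aM q y (T * u) ^ (q * (2 * k - 1)) * aR y z (T * u) ^ (2 * k - 1)))

/-- **C1 (FinR), the real variable argument.** `ν` a finite measure, `φ, m, r` bounded measurable functions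
`≥ 0`. Put `F = φ m^(q(2k-1)) r^(2k-1)`. Bad sets: (1) `φ > A m^q r`: `F ≤ A⁻¹ φ² m^(2q(k-1)) r^(2(k-1))`;
(2) `φ < η m^q r`: `F ≤ η m^(2qk) r^(2k)`; (3) `m > κ v`: `F ≤ (κ v)⁻² F m²`, Cauchy-Schwarz with `b1`, `b2`;
(4) `m < v/κ`: `F ≤ (v/κ)² φ m^(q(2k-1)-2) r^(2k-1)` (`F = 0` if `m = 0`), Cauchy-Schwarz with `b3`, `b4`;
(5) `r > κ √D`: `F ≤ F r²/(κ² D)`, `c1`, `c2`; (6) `r < 1/(κ √D)`: `F ≤ φ m^(q(2k-1)) r^(2k-3)/(κ² D)`, `c3`, `c4`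
(`D ≥ 1`). Each is `≤ c₀ X/12` for suitable constants. On the rest `F ≤ η^(-(2k-1)) φ^(2k)`. -/
def S_FinR : Prop := ∀ (k : ℕ) (c₀ C₀ : ℝ), 2 ≤ k → 0 < c₀ → 0 < C₀ → ∃ A η κ c₁ : ℝ,
  1 ≤ A ∧ 0 < η ∧ η ≤ 1 ∧ 1 ≤ κ ∧ 0 < c₁ ∧
  ∀ (ν : Measure ℝ) [IsFiniteMeasure ν] (φ m r : ℝ → ℝ) (B : ℝ), Measurable φ → Measurable m →
    Measurable r → (∀ x, 0 ≤ φ x) → (∀ x, 0 ≤ m x) → (∀ x, 0 ≤ r x) →
    (∀ᵐ x ∂ν, φ x ≤ B ∧ m x ≤ B ∧ r x ≤ B) →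
  ∀ (q : ℕ) (X v D : ℝ), 1 ≤ q → 0 < X → 0 < v → 1 ≤ D →
    UBs k q X v D C₀ (fun a b => ∫ x, m x ^ (2 * a) * r x ^ (2 * b) ∂ν)
      (fun a b => ∫ x, φ x ^ 2 * (m x ^ (2 * a) * r x ^ (2 * b)) ∂ν) →
    c₀ * X ≤ ∫ x, φ x * (m x ^ (q * (2 * k - 1)) * r x ^ (2 * k - 1)) ∂ν →
    c₁ * X ≤ ∫ x in {x | φ x ≤ A * (m x ^ q * r x) ∧ η * (m x ^ q * r x) ≤ φ x ∧
      v / κ ≤ m x ∧ m x ≤ κ * v ∧ 1 / (κ * Real.sqrt D) ≤ r x ∧ r x ≤ κ * Real.sqrt D},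
        φ x ^ (2 * k) ∂ν

/-- The set of the window theorem at scale `T` (variable `u`, `t = T u`). -/
def Win (k q y z : ℕ) (C T : ℝ) : Set ℝ :=
  {u | az (T * u) ≤ C * (aM q y (T * u) ^ q * aR y z (T * u)) ∧
    |Real.log (az (T * u)) - k * Real.log (Real.log T)| ≤ C * Real.sqrt (Real.log (Real.log T))}

/-- **C2 (GW).** Real variable part of the window. `φ` is between `η κ^(-q-1) D^(-1/2) v^q` and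
`A κ^(q+1) D^(1/2) v^q`, `v^q = e^(k S1 y)`, `e^(S1 y)` is between `L/(C' q)` and `C' L` (B7),
`q ≤ C √(log log T)`, `log D = (2k+1) log q ≤ (2k+1) q`, `1 ≤ q`. -/
def S_GW : Prop := ∀ (k : ℕ) (C A η κ : ℝ), 1 ≤ C → 1 ≤ A → 0 < η → η ≤ 1 → 1 ≤ κ →
  ∃ C' T₀ : ℝ, 1 ≤ C' ∧ ∀ T : ℝ, T₀ ≤ T → ∀ q y z : ℕ, IsPar k C T q y z →
    ∀ φ m r v D : ℝ, v = Real.exp ((k : ℝ) / q * S1 y) → D = (q : ℝ) ^ (2 * k + 1) →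
      φ ≤ A * (m ^ q * r) → η * (m ^ q * r) ≤ φ → v / κ ≤ m → m ≤ κ * v →
      1 / (κ * Real.sqrt D) ≤ r → r ≤ κ * Real.sqrt D →
        φ ≤ C' * (m ^ q * r) ∧
        |Real.log φ - k * Real.log (Real.log T)| ≤ C' * Real.sqrt (Real.log (Real.log T))

/-- **C3 (WinS), the window theorem at scale `T`.** C1 with `ν = w du` (`withDensity`, `w ≤ 1`), B8, B9, C2;
`az`, `aM`, `aR` are continuous, so bounded on `[0, T]`. -/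
def S_WinS : Prop := ∀ w : ℝ → ℝ, IsW w → 0 < W0 w → ∀ (k : ℕ) (C : ℝ), 2 ≤ k → 1 ≤ C →
  ∃ c C' T₀ : ℝ, 0 < c ∧ 1 ≤ C' ∧ ∀ T : ℝ, T₀ ≤ T → ∀ q y z : ℕ, IsPar k C T q y z →
    c * Real.log T ^ (k ^ 2) ≤
      ∫ u in {u | w u ≠ 0} ∩ Win k q y z C' T, az (T * u) ^ (2 * k)

/-- **C4 (UpS), the upper bound at scale `T`.** `az^(2k) ≤ A^(2k-2) az² (aM^q aR)^(2k-2)` on the set, and
`a1` of B8. -/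
def S_UpS : Prop := ∀ w : ℝ → ℝ, IsW w → ∀ (k : ℕ) (C : ℝ), 2 ≤ k → 1 ≤ C →
  ∃ C' T₀ : ℝ, 1 ≤ C' ∧ ∀ T : ℝ, T₀ ≤ T → ∀ q y z : ℕ, IsPar k C T q y z →
    ∀ A : ℝ, 1 ≤ A → ∫ u in {u | az (T * u) ≤ A * (aM q y (T * u) ^ q * aR y z (T * u))},
      w u * az (T * u) ^ (2 * k) ≤ C' * A ^ (2 * k - 2) * Real.log T ^ (k ^ 2)

/-- **C5 (Sca), from the scale `4T` to `[T, 2T]`.** Let `T' = 4T`, `(q, y, z)` from B6 for `T'`, `t = T' u`;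
`t ∈ [T, 2T]` iff `u ∈ [1/4, 1/2]`. First part: C4 with `w₂` of B4. Second part: C3 with `w₁`;
`log log (4T) ≤ log log T + log 2` and `≤ 2 log log T`, `log (4T) ≤ 2 log T` for large `T`. -/
def S_Sca : Prop := ∀ k : ℕ, 2 ≤ k → ∃ c C : ℝ, 0 < c ∧ 1 ≤ C ∧ ∀ᶠ T : ℝ in atTop,
  ∃ q y z : ℕ, 1 ≤ q ∧ 2 ≤ y ∧ y ≤ z ∧ ((y ^ q * z : ℕ) : ℝ) ≤ T ^ (1 / 8 : ℝ) ∧
    (∀ A : ℝ, 1 ≤ A → ∫ t in {t | t ∈ Icc T (2 * T) ∧ az t ≤ A * (aM q y t ^ q * aR y z t)},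
      az t ^ (2 * k) ≤ C * A ^ (2 * k - 2) * T * Real.log T ^ (k ^ 2)) ∧
    c * T * Real.log T ^ (k ^ 2) ≤ ∫ t in {t | t ∈ Icc T (2 * T) ∧
      az t ≤ C * (aM q y t ^ q * aR y z t) ∧
      |Real.log (az t) - k * Real.log (Real.log T)| ≤ C * Real.sqrt (Real.log (Real.log T))},
        az t ^ (2 * k)

/-- **C6 (Main), the final theorem.** C5 with `X = y^q z`, `a = BB q y z q 1` (`0 ≤ a ≤ pe (aa q y z q 1) ≤ 1`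
by A8, A2), `DP a X = DP (um q y) y ^ q * DP (ur y z) z` by A8. Third part: divide the second
part by the maximum `(log T)^(2k²) e^(2kC √(log log T))` of `az^(2k)` on the set (if `az t = 0` the integrand is `0`; the
set is measurable, `az` is continuous), and `c ≥ e^(-√(log log T))`. -/
def S_Main : Prop := ∀ k : ℕ, 2 ≤ k → ∃ c C : ℝ, 0 < c ∧ 1 ≤ C ∧ ∀ᶠ T : ℝ in atTop,
  ∃ (X : ℕ) (a : ℕ → ℝ), (X : ℝ) ≤ T ^ (1 / 8 : ℝ) ∧ (∀ n, 0 ≤ a n ∧ a n ≤ 1) ∧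
    (∀ A : ℝ, 1 ≤ A → ∫ t in {t | t ∈ Icc T (2 * T) ∧ az t ≤ A * ‖DP a X t‖}, az t ^ (2 * k) ≤
      C * A ^ (2 * k - 2) * T * Real.log T ^ (k ^ 2)) ∧
    (c * T * Real.log T ^ (k ^ 2) ≤ ∫ t in {t | t ∈ Icc T (2 * T) ∧ az t ≤ C * ‖DP a X t‖ ∧
      |Real.log (az t) - k * Real.log (Real.log T)| ≤ C * Real.sqrt (Real.log (Real.log T))},
        az t ^ (2 * k)) ∧
    T / Real.log T ^ (k ^ 2) * Real.exp (-(C * Real.sqrt (Real.log (Real.log T)))) ≤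
      volume.real {t | t ∈ Icc T (2 * T) ∧ az t ≤ C * ‖DP a X t‖ ∧
        |Real.log (az t) - k * Real.log (Real.log T)| ≤ C * Real.sqrt (Real.log (Real.log T))}

end Pool.Agent.Work.MP_56b8f5_nt.WM
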