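import Pool.Agent.Work.MP_56b8f5_nt.WM.Stmts

/-!
MP_56b8f5_nt, block WM, item A1 (PeMul).
-/

set_option autoImplicit false

noncomputable section

namespace Pool.Agent.Work.MP_56b8f5_nt.WM

namespace I_PeMul

theorem pa_apply (a : ℕ → ℝ) (n : ℕ) : pa a n = pe a n := rfl

theorem pe_prime_pow (a : ℕ → ℝ) {p : ℕ} (hp : p.Prime) (v : ℕ) :
    pe a (p ^ v) = a p ^ v / (v.factorial : ℝ) := by
  rw [pe, if_neg (pow_ne_zero _ hp.ne_zero), hp.factorization_pow]
  exact Finsupp.prod_single_index (by simp)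

theorem isMul (a : ℕ → ℝ) : (pa a).IsMultiplicative := by
  refine ⟨by simp [pa_apply, pe], ?_⟩
  intro m n hc
  rw [pa_apply, pa_apply, pa_apply]
  rcases eq_or_ne m 0 with hm | hm
  · simp [hm, pe]
  rcases eq_or_ne n 0 with hn | hn
  · simp [hn, pe]
  have hmn : m * n ≠ 0 := mul_ne_zero hm hn
  simp only [pe, if_neg hm, if_neg hn, if_neg hmn]
  rw [Nat.factorization_mul hm hn]
  apply Finsupp.prod_add_index_of_disjoint
  simpa [Nat.support_factorization] using hc.disjoint_primeFactors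

theorem binom (x y : ℝ) (n : ℕ) :
    (x + y) ^ n / (n.factorial : ℝ) = ∑ m ∈ Finset.range (n + 1),
      x ^ m / (m.factorial : ℝ) * (y ^ (n - m) / ((n - m).factorial : ℝ)) := by
  rw [add_pow, Finset.sum_div]
  apply Finset.sum_congr rfl
  intro m hm
  have hmn : m ≤ n := Nat.lt_succ_iff.mp (Finset.mem_range.mp hm)
  have h1 : (n.choose m : ℝ) * (m.factorial : ℝ) * ((n - m).factorial : ℝ) = (n.factorial : ℝ) := by
    exact_mod_cast Nat.choose_mul_factorial_mul_factorial hmn
  have h2 : (m.factorial : ℝ) ≠ 0 := by exact_mod_cast m.factorial_ne_zero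
  have h3 : ((n - m).factorial : ℝ) ≠ 0 := by exact_mod_cast (n - m).factorial_ne_zero
  have h4 : (n.factorial : ℝ) ≠ 0 := by exact_mod_cast n.factorial_ne_zero
  rw [div_mul_div_comm, div_eq_div_iff h4 (mul_ne_zero h2 h3), ← h1]
  ring

end I_PeMul

open I_PeMul in
theorem PeMul_pf : S_PeMul := by
  refine ⟨isMul, fun a b => ?_⟩
  rw [ArithmeticFunction.IsMultiplicative.eq_iff_eq_on_prime_powers _ (isMul _) _
    ((isMul a).mul (isMul b))]
  intro p v hp
  rw [pa_apply, pe_prime_pow _ hp, ArithmeticFunction.mul_apply,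
    Nat.sum_divisorsAntidiagonal (fun i j => pa a i * pa b j), binom,
    Nat.sum_divisors_prime_pow hp]
  apply Finset.sum_congr rfl
  intro m hm
  have hmn : m ≤ v := Nat.lt_succ_iff.mp (Finset.mem_range.mp hm)
  rw [pa_apply, pa_apply, Nat.pow_div hmn hp.pos, pe_prime_pow _ hp, pe_prime_pow _ hp]

end Pool.Agent.Work.MP_56b8f5_nt.WM
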