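import Pool.Agent.Work.MP_56b8f5_nt.WM.Stmts

/-!
MP_56b8f5_nt, block WM, item FMx: expansion of the twisted first moment of `P`.
-/

set_option autoImplicit false

open MeasureTheory Set Filter Topology

noncomputable section

namespace Pool.Agent.Work.MP_56b8f5_nt.WM

open Pool.Agent.Work.MP_56b8f5_nt.EM

namespace I_FMx

/-- the coefficient -/
def bc (K : ℝ) (k : ℕ) : ℝ := Real.exp (-((k : ℝ) / K)) / Real.sqrt k

lemma bc_nonneg (K : ℝ) (k : ℕ) : 0 ≤ bc K k := by unfold bc; positivity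

lemma bc_zero (K : ℝ) : bc K 0 = 0 := by simp [bc]

lemma cpow_eq {k : ℕ} (hk : 0 < k) (t : ℝ) : (k : ℂ) ^ (-(1 / 2 + t * Complex.I)) =
    ((1 / Real.sqrt k : ℝ) : ℂ) * Complex.exp (Complex.I * ((-(t * Real.log k) : ℝ) : ℂ)) := by
  have hk' : (0 : ℝ) < k := by exact_mod_cast hk
  have hk0 : (k : ℂ) ≠ 0 := by exact_mod_cast hk.ne'
  have hs : Real.sqrt k = Real.exp (Real.log k / 2) := by
    rw [Real.sqrt_eq_rpow, Real.rpow_def_of_pos hk']; ring_nf
  have h2 : (1 / Real.exp (Real.log k / 2) : ℝ) = Real.exp (-(Real.log k / 2)) := by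
    rw [Real.exp_neg, one_div]
  rw [Complex.cpow_def_of_ne_zero hk0, ← Complex.natCast_log, hs, h2,
    Complex.ofReal_exp, ← Complex.exp_add]
  congr 1
  push_cast
  ring

lemma term_eq (K t : ℝ) (k : ℕ) :
    (Real.exp (-((k : ℝ) / K)) : ℂ) * (k : ℂ) ^ (-(1 / 2 + t * Complex.I)) =
      (bc K k : ℂ) * Complex.exp (Complex.I * ((-(t * Real.log k) : ℝ) : ℂ)) := by
  rcases Nat.eq_zero_or_pos k with hk | hk
  · subst hk
    have h0 : (-(1 / 2 + (t : ℂ) * Complex.I)) ≠ 0 := by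
      intro h
      have := congrArg Complex.re h
      norm_num at this
    rw [show ((0 : ℕ) : ℂ) = 0 from Nat.cast_zero, Complex.zero_cpow h0, bc_zero]
    simp
  · rw [cpow_eq hk, bc]
    push_cast
    ring

lemma dp_term (b : ℕ → ℝ) (hb : b 0 = 0) (t : ℝ) (k : ℕ) :
    (b k : ℂ) * (k : ℂ) ^ (-(1 / 2 + t * Complex.I)) =
      ((b k / Real.sqrt k : ℝ) : ℂ) * Complex.exp (Complex.I * ((-(t * Real.log k) : ℝ) : ℂ)) := by
  rcases Nat.eq_zero_or_pos k with hk | hk
  · subst hk; rw [hb]; simp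
  · rw [cpow_eq hk]
    push_cast
    ring

lemma exp_norm (t : ℝ) : ‖Complex.exp (Complex.I * ((t : ℝ) : ℂ))‖ = 1 := by
  rw [mul_comm]; exact Complex.norm_exp_ofReal_mul_I t

lemma dp_eq (b : ℕ → ℝ) (hb : b 0 = 0) (X : ℕ) (t : ℝ) :
    DP b X t = ∑ k ∈ Finset.range (X + 1), ((b k / Real.sqrt k : ℝ) : ℂ) *
      Complex.exp (Complex.I * ((-(t * Real.log k) : ℝ) : ℂ)) := by
  unfold DP
  exact Finset.sum_congr rfl fun k _ => dp_term b hb t k

lemma dp_conj (b : ℕ → ℝ) (hb : b 0 = 0) (X : ℕ) (t : ℝ) :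
    (starRingEnd ℂ) (DP b X t) = ∑ k ∈ Finset.range (X + 1), ((b k / Real.sqrt k : ℝ) : ℂ) *
      Complex.exp (Complex.I * ((t * Real.log k : ℝ) : ℂ)) := by
  rw [dp_eq b hb, map_sum]
  refine Finset.sum_congr rfl fun k _ => ?_
  rw [map_mul, Complex.conj_ofReal, ← Complex.exp_conj, map_mul, Complex.conj_I,
    Complex.conj_ofReal]
  congr 2
  push_cast
  ring

/-- the integrand for `k` -/
def gp (w : ℝ → ℝ) (K T x : ℝ) (k : ℕ) (u : ℝ) : ℂ :=
  ((w u * bc K k : ℝ) : ℂ) * Complex.exp (Complex.I * ((T * u * (x - Real.log k) : ℝ) : ℂ))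

lemma gp_norm (w : ℝ → ℝ) (hw : ∀ u, 0 ≤ w u) (K T x : ℝ) (k : ℕ) (u : ℝ) :
    ‖gp w K T x k u‖ = w u * bc K k := by
  unfold gp
  rw [norm_mul, exp_norm, mul_one, Complex.norm_real, Real.norm_eq_abs, abs_of_nonneg]
  exact mul_nonneg (hw u) (bc_nonneg _ _)

lemma w_cont {w : ℝ → ℝ} (hw : IsW w) : Continuous w := hw.smooth.continuous

lemma w_comp {w : ℝ → ℝ} (hw : IsW w) : HasCompactSupport w := by
  obtain ⟨c, hc, hs⟩ := hw.supp
  refine HasCompactSupport.intro (isCompact_Icc (a := c) (b := 1)) ?_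
  intro x hx
  by_contra h
  exact hx ⟨(hs x h).1, (hs x h).2⟩

lemma gp_int {w : ℝ → ℝ} (hw : IsW w) (K T x : ℝ) (k : ℕ) : Integrable (gp w K T x k) := by
  refine Continuous.integrable_of_hasCompactSupport ?_ ?_
  · unfold gp
    have := w_cont hw
    fun_prop
  · refine (w_comp hw).mono ?_
    intro u hu
    rw [Function.mem_support] at hu ⊢
    intro h
    apply hu
    unfold gp
    rw [h, zero_mul, Complex.ofReal_zero, zero_mul]

lemma gp_integral (w : ℝ → ℝ) (K T x : ℝ) (k : ℕ) :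
    ∫ u, gp w K T x k u = (bc K k : ℂ) * W w 0 (T * (x - Real.log k)) := by
  unfold W
  rw [← integral_const_mul]
  refine integral_congr_ae (Filter.Eventually.of_forall fun u => ?_)
  simp only [gp]
  rw [pow_zero, one_mul]
  have e5 : (T * u * (x - Real.log k) : ℝ) = T * (x - Real.log k) * u := by ring
  rw [e5]
  push_cast
  ring

lemma gp_tsum (w : ℝ → ℝ) (K T x u : ℝ) :
    ∑' k : ℕ, gp w K T x k u =
      (w u : ℂ) * (P K (T * u) * Complex.exp (Complex.I * ((T * u * x : ℝ) : ℂ))) := by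
  have h1 : P K (T * u) = ∑' k : ℕ, (bc K k : ℂ) *
      Complex.exp (Complex.I * ((-(T * u * Real.log k) : ℝ) : ℂ)) := by
    unfold P
    exact tsum_congr fun k => term_eq K (T * u) k
  rw [h1, ← tsum_mul_right, ← tsum_mul_left]
  refine tsum_congr fun k => ?_
  have e4 : Complex.exp (Complex.I * ((T * u * (x - Real.log k) : ℝ) : ℂ)) =
      Complex.exp (Complex.I * ((-(T * u * Real.log k) : ℝ) : ℂ)) *
        Complex.exp (Complex.I * ((T * u * x : ℝ) : ℂ)) := by
    rw [← Complex.exp_add]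
    congr 1
    push_cast
    ring
  unfold gp
  rw [e4]
  push_cast
  ring

lemma one_int {w : ℝ → ℝ} (hw : IsW w) (hP : StPc) {K : ℝ} (hK : 1 ≤ K) (T x : ℝ) :
    Integrable (fun u : ℝ => (w u : ℂ) *
      (P K (T * u) * Complex.exp (Complex.I * ((T * u * x : ℝ) : ℂ)))) := by
  have hPc : Continuous (P K) := (hP K hK).1
  refine Continuous.integrable_of_hasCompactSupport ?_ ?_
  · have := w_cont hw
    fun_prop
  · refine (w_comp hw).mono ?_
    intro u hu
    rw [Function.mem_support] at hu ⊢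
    intro h
    apply hu
    simp [h]

lemma one_integral {w : ℝ → ℝ} (hw : IsW w) (hP : StPc) {K : ℝ} (hK : 1 ≤ K) (T x : ℝ) :
    ∫ u : ℝ, (w u : ℂ) * (P K (T * u) * Complex.exp (Complex.I * ((T * u * x : ℝ) : ℂ))) =
      ∑' k : ℕ, (bc K k : ℂ) * W w 0 (T * (x - Real.log k)) := by
  have hbs : Summable (bc K) := (hP K hK).2.2.2.1
  have hsum : Summable fun k : ℕ => ∫ u, ‖gp w K T x k u‖ := by
    have h1 : ∀ k : ℕ, ∫ u, ‖gp w K T x k u‖ = (∫ u, w u) * bc K k := by
      intro k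
      rw [← integral_mul_const]
      exact integral_congr_ae (Filter.Eventually.of_forall fun u => gp_norm w hw.nonneg K T x k u)
    simp only [h1]
    exact hbs.mul_left _
  have hS := hasSum_integral_of_summable_integral_norm (fun k => gp_int hw K T x k) hsum
  have e2 : (∫ u, ∑' k, gp w K T x k u) = ∫ u : ℝ, (w u : ℂ) *
      (P K (T * u) * Complex.exp (Complex.I * ((T * u * x : ℝ) : ℂ))) :=
    integral_congr_ae (Filter.Eventually.of_forall fun u => gp_tsum w K T x u)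
  rw [← e2, ← hS.tsum_eq]
  exact tsum_congr fun k => gp_integral w K T x k

lemma integrand_eq (w : ℝ → ℝ) (K T : ℝ) (X : ℕ) (a b : ℕ → ℝ) (ha : a 0 = 0) (hb : b 0 = 0)
    (u : ℝ) :
    (w u : ℂ) * (P K (T * u) * (DP a X (T * u) * (starRingEnd ℂ) (DP b X (T * u)))) =
      ∑ l ∈ Finset.range (X + 1), ∑ h ∈ Finset.range (X + 1),
        ((a h * b l / Real.sqrt ((h : ℝ) * l) : ℝ) : ℂ) * ((w u : ℂ) * (P K (T * u) *
          Complex.exp (Complex.I * ((T * u * (Real.log l - Real.log h) : ℝ) : ℂ)))) := by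
  rw [dp_eq a ha, dp_conj b hb, Finset.sum_mul_sum, Finset.sum_comm, Finset.mul_sum,
    Finset.mul_sum]
  refine Finset.sum_congr rfl fun l _ => ?_
  rw [Finset.mul_sum, Finset.mul_sum]
  refine Finset.sum_congr rfl fun h _ => ?_
  have hs : Real.sqrt ((h : ℝ) * l) = Real.sqrt h * Real.sqrt l := Real.sqrt_mul (Nat.cast_nonneg h) _
  have e4 : Complex.exp (Complex.I * ((T * u * (Real.log l - Real.log h) : ℝ) : ℂ)) =
      Complex.exp (Complex.I * ((-(T * u * Real.log h) : ℝ) : ℂ)) *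
        Complex.exp (Complex.I * ((T * u * Real.log l : ℝ) : ℂ)) := by
    rw [← Complex.exp_add]
    congr 1
    push_cast
    ring
  rw [hs, e4]
  have e5 : (a h * b l / (Real.sqrt h * Real.sqrt l) : ℝ) =
      (a h / Real.sqrt h) * (b l / Real.sqrt l) := (div_mul_div_comm _ _ _ _).symm
  rw [e5]
  push_cast
  ring

end I_FMx

open I_FMx in
theorem FMx_pf (hP : StPc) : S_FMx := by
  intro w hw K T X a b hK hT ha hb
  have h1 : ∀ u : ℝ, (w u : ℂ) * (P K (T * u) * (DP a X (T * u) *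
      (starRingEnd ℂ) (DP b X (T * u)))) = _ := fun u => integrand_eq w K T X a b ha hb u
  rw [integral_congr_ae (Filter.Eventually.of_forall h1), integral_finsetSum]
  swap
  · intro l _
    refine integrable_finsetSum _ fun h _ => ?_
    exact (one_int hw hP hK T _).const_mul _
  refine Finset.sum_congr rfl fun l _ => ?_
  rw [integral_finsetSum]
  swap
  · intro h _
    exact (one_int hw hP hK T _).const_mul _
  refine Finset.sum_congr rfl fun h _ => ?_
  rw [integral_const_mul, one_integral hw hP hK]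
  rcases Nat.eq_zero_or_pos h with hh | hh
  · subst hh; rw [ha]; simp
  rcases Nat.eq_zero_or_pos l with hl | hl
  · subst hl; rw [hb]; simp
  congr 1
  refine tsum_congr fun k => ?_
  rcases Nat.eq_zero_or_pos k with hk | hk
  · subst hk; rw [bc_zero]; simp
  have hh' : (0 : ℝ) < h := by exact_mod_cast hh
  have hl' : (0 : ℝ) < l := by exact_mod_cast hl
  have hk' : (0 : ℝ) < k := by exact_mod_cast hk
  have e1 : Real.log ((l : ℝ) / ((k : ℝ) * h)) = Real.log l - Real.log h - Real.log k := by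
    rw [Real.log_div hl'.ne' (by positivity), Real.log_mul hk'.ne' hh'.ne']
    ring
  rw [e1, bc]

end Pool.Agent.Work.MP_56b8f5_nt.WM
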