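import Pool.Agent.Work.MP_56b8f5_nt.WM.Stmts

/-!
MP_56b8f5_nt, block WM, item B4 (Wts): two weights.
-/

set_option autoImplicit false

open MeasureTheory Set Filter Topology

noncomputable section

namespace Pool.Agent.Work.MP_56b8f5_nt.WM

open Pool.Agent.Work.MP_56b8f5_nt.EM

namespace I_Wts

/-- the inner bump -/
def f1 : ContDiffBump (3 / 8 : ℝ) where
  rIn := 1 / 16
  rOut := 1 / 8
  rIn_pos := by norm_num
  rIn_lt_rOut := by norm_num

/-- the outer bump -/
def f2 : ContDiffBump (3 / 8 : ℝ) where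
  rIn := 1 / 8
  rOut := 1 / 4
  rIn_pos := by norm_num
  rIn_lt_rOut := by norm_num

theorem supp (f : ContDiffBump (3 / 8 : ℝ)) (u : ℝ) (h : f u ≠ 0) :
    3 / 8 - f.rOut < u ∧ u < 3 / 8 + f.rOut := by
  by_contra hc
  apply h
  apply f.zero_of_le_dist
  rw [Real.dist_eq]
  by_contra hd
  have h1 := abs_lt.1 (not_le.1 hd)
  exact hc ⟨by linarith [h1.1], by linarith [h1.2]⟩

theorem isW (f : ContDiffBump (3 / 8 : ℝ)) (hf : f.rOut ≤ 1 / 4) : IsW (f : ℝ → ℝ) where
  smooth := f.contDiff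
  nonneg := fun u => f.nonneg
  le_one := fun u => f.le_one
  supp := ⟨1 / 8, by norm_num, fun u hu => by
    have h := supp f u hu
    exact ⟨by linarith [h.1], by linarith [h.2]⟩⟩

end I_Wts

open I_Wts in
theorem Wts_pf : S_Wts := by
  refine ⟨f1, f2, isW f1 (by norm_num [f1]), isW f2 (by norm_num [f2]), ?_, ?_, ?_⟩
  · exact f1.integral_pos
  · intro u hu
    have h := supp f1 u hu
    have h1 : f1.rOut = 1 / 8 := rfl
    rw [h1] at h
    exact ⟨by linarith [h.1], by linarith [h.2]⟩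
  · intro u h1 h2
    apply f2.one_of_mem_closedBall
    rw [Metric.mem_closedBall, Real.dist_eq]
    have h3 : f2.rIn = 1 / 8 := rfl
    rw [h3, abs_le]
    constructor <;> linarith

end Pool.Agent.Work.MP_56b8f5_nt.WM
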