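import Pool.Agent.Work.MP_56b8f5_nt.WM.Stmts

/-!
MP_56b8f5_nt, block WM, item ZP (B0): approximation of zeta on the support of the weight.
-/

set_option autoImplicit false

open MeasureTheory Set Filter Topology

noncomputable section

namespace Pool.Agent.Work.MP_56b8f5_nt.WM

open Pool.Agent.Work.MP_56b8f5_nt.EM

theorem ZP_pf (hZ : StZ) : S_ZP := by
  intro w hw
  obtain ⟨c, hc, hsup⟩ := hw.supp
  obtain ⟨C, hC, hb⟩ := hZ
  refine ⟨C * (1 + 1 / c ^ 3), max 1 (1 / c), by positivity, le_max_left _ _, ?_⟩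
  intro T hT u hu
  obtain ⟨hcu, hu1⟩ := hsup u hu
  have hT1 : 1 ≤ T := (le_max_left _ _).trans hT
  have hT0 : 0 < T := by linarith
  have hTc : 1 / c ≤ T := (le_max_right _ _).trans hT
  have hu0 : 0 < u := lt_of_lt_of_le hc hcu
  have hTu : 1 ≤ T * u := by
    calc (1 : ℝ) = 1 / c * c := by field_simp
      _ ≤ T * u := mul_le_mul hTc hcu hc.le hT0.le
  have habs : |T * u| = T * u := abs_of_pos (by positivity)
  have h1 := hb (T ^ 3) (one_le_pow₀ hT1) (T * u) (by rw [habs]; exact hTu)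
  refine h1.trans ?_
  rw [habs, mul_div_assoc C (1 + 1 / c ^ 3) (Real.sqrt T)]
  refine mul_le_mul_of_nonneg_left ?_ hC
  have hs : 0 < Real.sqrt T := Real.sqrt_pos.2 hT0
  have hss : Real.sqrt T * Real.sqrt T = T := Real.mul_self_sqrt hT0.le
  have hs3 : Real.sqrt (T ^ 3) = T * Real.sqrt T := by
    rw [show T ^ 3 = T ^ 2 * T by ring, Real.sqrt_mul (by positivity), Real.sqrt_sq hT0.le]
  rw [hs3]
  have e1 : T * u / (T * Real.sqrt T) ≤ 1 / Real.sqrt T := by
    rw [mul_div_mul_left _ _ hT0.ne']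
    exact div_le_div_of_nonneg_right hu1 hs.le
  have e2 : T * Real.sqrt T / (T * u) ^ 3 ≤ 1 / c ^ 3 / Real.sqrt T := by
    have hcu3 : c ^ 3 ≤ u ^ 3 := pow_le_pow_left₀ hc.le hcu 3
    rw [div_div, div_le_div_iff₀ (by positivity) (by positivity)]
    have h2 : T * Real.sqrt T * (c ^ 3 * Real.sqrt T) = T ^ 2 * c ^ 3 := by
      calc T * Real.sqrt T * (c ^ 3 * Real.sqrt T) = T * (Real.sqrt T * Real.sqrt T) * c ^ 3 := by
            ring
        _ = T ^ 2 * c ^ 3 := by rw [hss]; ring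
    rw [h2, one_mul, mul_pow]
    have h3 : T ^ 2 ≤ T ^ 3 := pow_le_pow_right₀ hT1 (by norm_num)
    exact mul_le_mul h3 hcu3 (by positivity) (by positivity)
  calc T * u / (T * Real.sqrt T) + T * Real.sqrt T / (T * u) ^ 3
      ≤ 1 / Real.sqrt T + 1 / c ^ 3 / Real.sqrt T := add_le_add e1 e2
    _ = (1 + 1 / c ^ 3) / Real.sqrt T := by rw [add_div]

end Pool.Agent.Work.MP_56b8f5_nt.WM
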