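import Pool.Agent.Work.MP_56b8f5_nt.WM.Stmts

/-!
MP_56b8f5_nt, block WM: item B3' (FMb), the twisted first moment from below.
-/

set_option autoImplicit false

open MeasureTheory Set Filter Topology

noncomputable section

namespace Pool.Agent.Work.MP_56b8f5_nt.WM

open Pool.Agent.Work.MP_56b8f5_nt.EM

namespace I_FMb

theorem hcs {w : ℝ → ℝ} (hw : IsW w) : HasCompactSupport w := by
  obtain ⟨c, _, h⟩ := hw.supp
  apply HasCompactSupport.intro (isCompact_Icc (a := c) (b := 1))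
  intro x hx
  by_contra hne
  exact hx (h x hne)

theorem intw {w : ℝ → ℝ} (hw : IsW w) {f : ℝ → ℝ} (hf : Continuous f) :
    Integrable (fun u => w u * f u) :=
  (hw.smooth.continuous.mul hf).integrable_of_hasCompactSupport ((hcs hw).mul_right)

theorem ne0 (t : ℝ) : -(1 / 2 + (t : ℂ) * Complex.I) ≠ 0 := by
  intro h
  have h1 := congrArg Complex.re h
  simp at h1

theorem cDP (b : ℕ → ℝ) (X : ℕ) : Continuous (DP b X) := by
  unfold DP
  apply continuous_finset_sum
  intro n _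
  apply Continuous.mul continuous_const
  apply Continuous.const_cpow
  · fun_prop
  · exact Or.inr ne0

theorem caz : Continuous az := by
  unfold az
  apply Continuous.norm
  rw [continuous_iff_continuousAt]
  intro t
  have h1 : (1 / 2 + (t : ℂ) * Complex.I) ≠ 1 := by
    intro h
    have h1 := congrArg Complex.re h
    norm_num at h1
  have h2 : ContinuousAt riemannZeta (1 / 2 + (t : ℂ) * Complex.I) :=
    (differentiableAt_riemannZeta h1).continuousAt
  exact ContinuousAt.comp (f := fun t : ℝ => (1 / 2 + (t : ℂ) * Complex.I)) h2 (by fun_prop)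

/-- arithmetic-geometric mean for all ratios -/
theorem amgm (x α β : ℝ) (hα : 0 ≤ α) (hβ : 0 ≤ β)
    (h : ∀ s : ℝ, 0 < s → x ≤ (s * α + β / s) / 2) : x ≤ Real.sqrt α * Real.sqrt β := by
  rcases hα.eq_or_lt with h0 | h0
  · rw [← h0, Real.sqrt_zero, zero_mul]
    by_contra hx
    push Not at hx
    have h1 := h (β / x + 1) (by positivity)
    rw [← h0, mul_zero, zero_add, div_div, le_div_iff₀ (by positivity)] at h1
    have h2 : x * ((β / x + 1) * 2) = 2 * β + 2 * x := by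
      field_simp
    rw [h2] at h1
    linarith
  · rcases hβ.eq_or_lt with h1 | h1
    · rw [← h1, Real.sqrt_zero, mul_zero]
      by_contra hx
      push Not at hx
      have h2 := h (x / α) (by positivity)
      rw [← h1, zero_div, add_zero, div_mul_cancel₀ _ h0.ne'] at h2
      linarith
    · have h2 := h (Real.sqrt β / Real.sqrt α) (by positivity)
      have hsa := Real.mul_self_sqrt hα
      have hsb := Real.mul_self_sqrt hβ
      have hpa : 0 < Real.sqrt α := Real.sqrt_pos.2 h0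
      have hpb : 0 < Real.sqrt β := Real.sqrt_pos.2 h1
      have h3 : (Real.sqrt β / Real.sqrt α * α + β / (Real.sqrt β / Real.sqrt α)) / 2 =
          Real.sqrt α * Real.sqrt β := by
        have e1 : Real.sqrt β / Real.sqrt α * α = Real.sqrt α * Real.sqrt β := by
          rw [div_mul_eq_mul_div, div_eq_iff hpa.ne']
          linear_combination -Real.sqrt β * hsa
        have e2 : β / (Real.sqrt β / Real.sqrt α) = Real.sqrt α * Real.sqrt β := by
          rw [div_div_eq_mul_div, div_eq_iff hpb.ne']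
          linear_combination -Real.sqrt α * hsb
        rw [e1, e2]
        ring
      rw [h3] at h2
      exact h2

/-- Cauchy-Schwarz with B1 -/
theorem cs {w : ℝ → ℝ} (hw : IsW w) (C1 T : ℝ) (X : ℕ) (a b : ℕ → ℝ) (hC : 0 ≤ C1)
    (ha : ∫ u : ℝ, w u * ‖DP a X (T * u)‖ ^ 2 ≤ C1 * Q2 a X)
    (hb : ∫ u : ℝ, w u * ‖DP b X (T * u)‖ ^ 2 ≤ C1 * Q2 b X)
    (hQa : 0 ≤ Q2 a X) (hQb : 0 ≤ Q2 b X) :
    ∫ u : ℝ, w u * (‖DP a X (T * u)‖ * ‖DP b X (T * u)‖) ≤
      C1 * (Real.sqrt (Q2 a X) * Real.sqrt (Q2 b X)) := by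
  have hA : Continuous fun u : ℝ => ‖DP a X (T * u)‖ :=
    ((cDP a X).comp (continuous_const.mul continuous_id)).norm
  have hB : Continuous fun u : ℝ => ‖DP b X (T * u)‖ :=
    ((cDP b X).comp (continuous_const.mul continuous_id)).norm
  have h1 : ∀ s : ℝ, 0 < s → ∫ u : ℝ, w u * (‖DP a X (T * u)‖ * ‖DP b X (T * u)‖) ≤
      (s * (C1 * Q2 a X) + (C1 * Q2 b X) / s) / 2 := by
    intro s hs
    have i1 : Integrable (fun u : ℝ => (s / 2) * (w u * ‖DP a X (T * u)‖ ^ 2)) :=
      (intw hw (hA.pow 2)).const_mul _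
    have i2 : Integrable (fun u : ℝ => (1 / (2 * s)) * (w u * ‖DP b X (T * u)‖ ^ 2)) :=
      (intw hw (hB.pow 2)).const_mul _
    have i3 : Integrable (fun u : ℝ => w u * (‖DP a X (T * u)‖ * ‖DP b X (T * u)‖)) :=
      intw hw (hA.mul hB)
    have i4 : Integrable (fun u : ℝ => (s / 2) * (w u * ‖DP a X (T * u)‖ ^ 2) +
          (1 / (2 * s)) * (w u * ‖DP b X (T * u)‖ ^ 2)) := i1.add i2
    have h2 : ∫ u : ℝ, w u * (‖DP a X (T * u)‖ * ‖DP b X (T * u)‖) ≤
        ∫ u : ℝ, ((s / 2) * (w u * ‖DP a X (T * u)‖ ^ 2) +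
          (1 / (2 * s)) * (w u * ‖DP b X (T * u)‖ ^ 2)) := by
      apply integral_mono i3 i4
      intro u
      beta_reduce
      have hwu := hw.nonneg u
      set p := ‖DP a X (T * u)‖
      set q := ‖DP b X (T * u)‖
      have h3 : (s / 2) * (w u * p ^ 2) + (1 / (2 * s)) * (w u * q ^ 2) - w u * (p * q) =
          w u * ((s * p - q) ^ 2 / (2 * s)) := by
        field_simp
        ring
      have h4 : 0 ≤ w u * ((s * p - q) ^ 2 / (2 * s)) := by positivity
      linarith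
    rw [integral_add i1 i2, integral_const_mul, integral_const_mul] at h2
    have h3 : (s / 2) * (∫ u : ℝ, w u * ‖DP a X (T * u)‖ ^ 2) ≤ (s / 2) * (C1 * Q2 a X) :=
      mul_le_mul_of_nonneg_left ha (by positivity)
    have h4 : (1 / (2 * s)) * (∫ u : ℝ, w u * ‖DP b X (T * u)‖ ^ 2) ≤
        (1 / (2 * s)) * (C1 * Q2 b X) :=
      mul_le_mul_of_nonneg_left hb (by positivity)
    have h5 : (s * (C1 * Q2 a X) + (C1 * Q2 b X) / s) / 2 =
        (s / 2) * (C1 * Q2 a X) + (1 / (2 * s)) * (C1 * Q2 b X) := by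
      field_simp
    rw [h5]
    linarith
  have h2 := amgm _ (C1 * Q2 a X) (C1 * Q2 b X) (by positivity) (by positivity) h1
  rw [Real.sqrt_mul hC, Real.sqrt_mul hC] at h2
  have h3 : Real.sqrt C1 * Real.sqrt (Q2 a X) * (Real.sqrt C1 * Real.sqrt (Q2 b X)) =
      C1 * (Real.sqrt (Q2 a X) * Real.sqrt (Q2 b X)) := by
    have := Real.mul_self_sqrt hC
    linear_combination (Real.sqrt (Q2 a X) * Real.sqrt (Q2 b X)) * this
  rw [h3] at h2
  exact h2

theorem Q2nn (a : ℕ → ℝ) (X : ℕ) : 0 ≤ Q2 a X := by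
  unfold Q2
  exact Finset.sum_nonneg fun n _ => by positivity

/-- `∑ a_h/√h ≤ √(X+1) √Q2` -/
theorem l1 (a : ℕ → ℝ) (X : ℕ) :
    ∑ h ∈ Finset.range (X + 1), a h / Real.sqrt h ≤
      Real.sqrt ((X : ℝ) + 1) * Real.sqrt (Q2 a X) := by
  rw [← Real.sqrt_mul (by positivity)]
  apply Real.le_sqrt_of_sq_le
  have h1 := sq_sum_le_card_mul_sum_sq (s := Finset.range (X + 1))
    (f := fun h : ℕ => a h / Real.sqrt h)
  rw [Finset.card_range] at h1
  refine h1.trans (le_of_eq ?_)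
  push_cast
  congr 1
  unfold Q2
  apply Finset.sum_congr rfl
  intro n _
  rw [div_pow, Real.sq_sqrt (by positivity)]

/-- the off-diagonal logarithms -/
theorem loglow (X l h k : ℕ) (hl : 1 ≤ l) (hlX : l ≤ X) (hh : 1 ≤ h) (hk : 1 ≤ k)
    (hne : k * h ≠ l) : 1 / (2 * (X : ℝ)) ≤ |Real.log ((l : ℝ) / ((k : ℝ) * h))| := by
  have hX : 1 ≤ X := hl.trans hlX
  have hX' : (1 : ℝ) ≤ X := by exact_mod_cast hX
  have hl' : (1 : ℝ) ≤ l := by exact_mod_cast hl
  have hlX' : (l : ℝ) ≤ X := by exact_mod_cast hlX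
  have hkh : 1 ≤ k * h := Nat.mul_pos hk hh
  have hkh' : (1 : ℝ) ≤ (k : ℝ) * h := by exact_mod_cast hkh
  -- log x ≥ 1 - 1/x
  have hlog : ∀ x : ℝ, 0 < x → 1 - 1 / x ≤ Real.log x := by
    intro x hx
    have := Real.one_sub_inv_le_log_of_pos hx
    rwa [one_div]
  rcases lt_or_gt_of_ne hne with hlt | hgt
  · have h1 : (k : ℝ) * h + 1 ≤ l := by exact_mod_cast hlt
    have h2 := hlog ((l : ℝ) / ((k : ℝ) * h)) (by positivity)
    refine le_trans ?_ (le_abs_self _)
    refine le_trans ?_ h2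
    rw [one_div_div]
    have h3 : 1 - (k : ℝ) * h / l = (l - (k : ℝ) * h) / l := by
      field_simp
    rw [h3, div_le_div_iff₀ (by positivity) (by positivity)]
    nlinarith
  · have h1 : (l : ℝ) + 1 ≤ (k : ℝ) * h := by exact_mod_cast hgt
    have h2 := hlog (((k : ℝ) * h) / (l : ℝ)) (by positivity)
    have h4 : Real.log ((l : ℝ) / ((k : ℝ) * h)) = -Real.log (((k : ℝ) * h) / (l : ℝ)) := by
      rw [← Real.log_inv, inv_div]
    rw [h4, abs_neg]
    refine le_trans ?_ (le_abs_self _)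
    refine le_trans ?_ h2
    rw [one_div_div]
    have h3 : 1 - (l : ℝ) / ((k : ℝ) * h) = ((k : ℝ) * h - l) / ((k : ℝ) * h) := by
      field_simp
    rw [h3, div_le_div_iff₀ (by positivity) (by positivity)]
    nlinarith

/-- the inner sum over `k` -/
theorem inner (hW : StW) (hP : StPc) (w : ℝ → ℝ) (hw : IsW w) (C2 : ℝ)
    (hC2 : ∀ y, ‖W w 0 y‖ ≤ C2 / (1 + |y|) ^ 6) (hC : 0 ≤ C2) (T : ℝ) (hT : 1 ≤ T) (X : ℕ)
    (hX : (X : ℝ) ^ 3 ≤ T) (l h : ℕ) (hl : 1 ≤ l) (hlX : l ≤ X) (hh : 1 ≤ h) :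
    (if h ∣ l then Real.exp (-(((l / h : ℕ) : ℝ) / T ^ 3)) / Real.sqrt ((l / h : ℕ) : ℝ) * W0 w
      else 0) - 128 * C2 / T ^ 2 ≤
    (∑' k : ℕ, ((Real.exp (-((k : ℝ) / T ^ 3)) / Real.sqrt k : ℝ) : ℂ) *
          W w 0 (T * Real.log ((l : ℝ) / ((k : ℝ) * h)))).re := by
  classical
  have hK : (1 : ℝ) ≤ T ^ 3 := one_le_pow₀ hT
  obtain ⟨-, -, -, hsum, hsle⟩ := hP (T ^ 3) hK
  obtain ⟨-, -, hWle, hW0, hW0n, hW01⟩ := hW w hw
  set g : ℕ → ℝ := fun k => Real.exp (-((k : ℝ) / T ^ 3)) / Real.sqrt k with hg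
  have hgn : ∀ k, 0 ≤ g k := fun k => by positivity
  set f : ℕ → ℂ := fun k => ((g k : ℝ) : ℂ) * W w 0 (T * Real.log ((l : ℝ) / ((k : ℝ) * h))) with hf
  set e : ℕ → ℂ := fun k => if k * h = l then ((g k * W0 w : ℝ) : ℂ) else 0 with he
  set D : ℝ := 64 * C2 / T ^ 4 with hD
  have hDn : 0 ≤ D := by positivity
  have hT0 : 0 < T := by linarith
  have hdiff : ∀ k, ‖f k - e k‖ ≤ g k * D := by
    intro k
    rcases Nat.eq_zero_or_pos k with hk0 | hk0
    · subst hk0
      have hg0 : g 0 = 0 := by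
        simp [hg]
      have h1 : e 0 = 0 := by
        simp only [he]
        rw [if_neg (by omega)]
      have h2 : f 0 = 0 := by
        simp only [hf]
        rw [hg0]
        simp
      rw [h1, h2, hg0]
      simp
    · by_cases hkl : k * h = l
      · have h1 : (l : ℝ) / ((k : ℝ) * h) = 1 := by
          rw [← hkl]
          push_cast
          apply div_self
          positivity
        have h2 : f k - e k = 0 := by
          simp only [hf, he]
          rw [if_pos hkl, h1, Real.log_one, mul_zero, hW0]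
          push_cast
          ring
        rw [h2, norm_zero]
        exact mul_nonneg (hgn k) hDn
      · have h1 : e k = 0 := by
          simp only [he]
          rw [if_neg hkl]
        rw [h1, sub_zero]
        simp only [hf]
        rw [norm_mul, Complex.norm_real, Real.norm_of_nonneg (hgn k)]
        apply mul_le_mul_of_nonneg_left _ (hgn k)
        refine (hC2 _).trans ?_
        have h3 := loglow X l h k hl hlX hh hk0 hkl
        rw [abs_mul, abs_of_pos hT0]
        have hX1 : 1 ≤ X := hl.trans hlX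
        have hX' : (1 : ℝ) ≤ X := by exact_mod_cast hX1
        have h4 : T / (2 * (X : ℝ)) ≤ 1 + T * |Real.log ((l : ℝ) / ((k : ℝ) * h))| := by
          have h5 := mul_le_mul_of_nonneg_left h3 hT0.le
          have h6 : T * (1 / (2 * (X : ℝ))) = T / (2 * (X : ℝ)) := by ring
          linarith
        have h5 : (T / (2 * (X : ℝ))) ^ 6 ≤ (1 + T * |Real.log ((l : ℝ) / ((k : ℝ) * h))|) ^ 6 :=
          pow_le_pow_left₀ (by positivity) h4 6
        have h6 : T ^ 4 / 64 ≤ (T / (2 * (X : ℝ))) ^ 6 := by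
          have h7 : (X : ℝ) ^ 6 ≤ T ^ 2 := by
            have := pow_le_pow_left₀ (by positivity) hX 2
            calc (X : ℝ) ^ 6 = ((X : ℝ) ^ 3) ^ 2 := by ring
              _ ≤ T ^ 2 := this
          rw [div_pow, mul_pow, div_le_div_iff₀ (by norm_num) (by positivity)]
          calc T ^ 4 * (2 ^ 6 * (X : ℝ) ^ 6) ≤ T ^ 4 * (2 ^ 6 * T ^ 2) := by
                gcongr
            _ = T ^ 6 * 64 := by ring
        have h7 : T ^ 4 / 64 ≤ (1 + T * |Real.log ((l : ℝ) / ((k : ℝ) * h))|) ^ 6 := h6.trans h5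
        rw [hD]
        calc C2 / (1 + T * |Real.log ((l : ℝ) / ((k : ℝ) * h))|) ^ 6 ≤ C2 / (T ^ 4 / 64) := by
              apply div_le_div_of_nonneg_left hC (by positivity) h7
          _ = 64 * C2 / T ^ 4 := by
              field_simp
  have hsf : Summable f := by
    apply Summable.of_norm_bounded (g := fun k => g k * W0 w) (hsum.mul_right _)
    intro k
    simp only [hf]
    rw [norm_mul, Complex.norm_real, Real.norm_of_nonneg (hgn k)]
    exact mul_le_mul_of_nonneg_left (hWle _) (hgn k)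
  have hsd : Summable fun k => f k - e k :=
    Summable.of_norm_bounded (g := fun k => g k * D) (hsum.mul_right _) hdiff
  have hse : Summable e := by
    have := hsf.sub hsd
    simpa using this
  have h1 : ∑' k, f k = ∑' k, e k + ∑' k, (f k - e k) := by
    rw [← Summable.tsum_add hse hsd]
    congr 1
    funext k
    ring
  have h2 : ‖∑' k, (f k - e k)‖ ≤ 128 * C2 / T ^ 2 := by
    have h3 : ‖∑' k, (f k - e k)‖ ≤ ∑' k, g k * D :=
      tsum_of_norm_bounded (hsum.mul_right D).hasSum hdiff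
    rw [tsum_mul_right] at h3
    have h4 : ∑' k, g k ≤ 2 * T ^ 2 := by
      refine hsle.trans ?_
      have h5 : Real.sqrt (T ^ 3) ≤ T ^ 2 := by
        rw [Real.sqrt_le_left (by positivity)]
        have : T ^ 3 ≤ T ^ 4 := pow_le_pow_right₀ hT (by norm_num)
        calc T ^ 3 ≤ T ^ 4 := this
          _ = (T ^ 2) ^ 2 := by ring
      linarith
    calc ‖∑' k, (f k - e k)‖ ≤ (∑' k, g k) * D := h3
      _ ≤ (2 * T ^ 2) * D := mul_le_mul_of_nonneg_right h4 hDn
      _ = 128 * C2 / T ^ 2 := by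
          rw [hD]
          field_simp
          ring
  have h3 : (∑' k, e k).re = if h ∣ l then Real.exp (-(((l / h : ℕ) : ℝ) / T ^ 3)) /
      Real.sqrt ((l / h : ℕ) : ℝ) * W0 w else 0 := by
    by_cases hd : h ∣ l
    · rw [if_pos hd]
      have h4 : ∑' k, e k = e (l / h) := by
        apply tsum_eq_single
        intro k hk
        simp only [he]
        rw [if_neg]
        intro hkl
        apply hk
        rw [← hkl]
        exact (Nat.mul_div_cancel k hh).symm
      rw [h4]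
      simp only [he]
      rw [if_pos (Nat.div_mul_cancel hd), Complex.ofReal_re]
    · rw [if_neg hd]
      have h4 : ∀ k, e k = 0 := by
        intro k
        simp only [he]
        rw [if_neg]
        intro hkl
        exact hd ⟨k, by rw [← hkl]; ring⟩
      rw [tsum_congr h4, tsum_zero, Complex.zero_re]
  have h4 : (∑' k, f k).re = (∑' k, e k).re + (∑' k, (f k - e k)).re := by
    rw [h1, Complex.add_re]
  have h5 : -(128 * C2 / T ^ 2) ≤ (∑' k, (f k - e k)).re := by
    have h6 := Complex.abs_re_le_norm (∑' k, (f k - e k))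
    have h7 := neg_abs_le (∑' k, (f k - e k)).re
    linarith
  have h6 : (∑' k : ℕ, ((Real.exp (-((k : ℝ) / T ^ 3)) / Real.sqrt k : ℝ) : ℂ) *
          W w 0 (T * Real.log ((l : ℝ) / ((k : ℝ) * h)))) = ∑' k, f k := rfl
  rw [h6, h4, h3]
  linarith

/-- the diagonal terms -/
theorem diag (T : ℝ) (hT : 2 ≤ T) (X : ℕ) (hX : (X : ℝ) ^ 3 ≤ T) (l h : ℕ) (hl : 1 ≤ l)
    (hlX : l ≤ X) (hh : 1 ≤ h) (hd : h ∣ l) :
    1 / (l : ℝ) / 2 ≤ 1 / Real.sqrt ((h : ℝ) * l) *
      (Real.exp (-(((l / h : ℕ) : ℝ) / T ^ 3)) / Real.sqrt ((l / h : ℕ) : ℝ)) := by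
  have hX1 : 1 ≤ X := hl.trans hlX
  have hX' : (1 : ℝ) ≤ X := by exact_mod_cast hX1
  have hl' : (1 : ℝ) ≤ l := by exact_mod_cast hl
  have hh' : (1 : ℝ) ≤ h := by exact_mod_cast hh
  obtain ⟨k, rfl⟩ := hd
  have hk : 1 ≤ k := by
    rcases Nat.eq_zero_or_pos k with h0 | h0
    · subst h0
      simp at hl
    · exact h0
  have hk' : (1 : ℝ) ≤ k := by exact_mod_cast hk
  rw [Nat.mul_div_cancel_left k hh]
  have h1 : Real.sqrt ((h : ℝ) * ((h * k : ℕ) : ℝ)) * Real.sqrt (k : ℝ) = ((h * k : ℕ) : ℝ) := by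
    rw [← Real.sqrt_mul (by positivity)]
    have : (h : ℝ) * ((h * k : ℕ) : ℝ) * (k : ℝ) = ((h * k : ℕ) : ℝ) ^ 2 := by
      push_cast
      ring
    rw [this, Real.sqrt_sq (by positivity)]
  have hXT : (X : ℝ) ≤ T := by
    have h3 : (X : ℝ) ≤ (X : ℝ) ^ 3 := by
      calc (X : ℝ) = (X : ℝ) ^ 1 := by ring
        _ ≤ (X : ℝ) ^ 3 := pow_le_pow_right₀ hX' (by norm_num)
    linarith
  have hkX : (k : ℝ) ≤ X := by
    have h3 : k ≤ h * k := Nat.le_mul_of_pos_left k hh
    exact_mod_cast h3.trans hlX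
  have h2 : (k : ℝ) / T ^ 3 ≤ 1 / 2 := by
    rw [div_le_div_iff₀ (by positivity) (by norm_num)]
    have h4 : T ^ 3 = T * (T * T) := by ring
    nlinarith [mul_nonneg (by linarith : (0 : ℝ) ≤ T) (by linarith : (0 : ℝ) ≤ T)]
  have h3 : 1 / 2 ≤ Real.exp (-((k : ℝ) / T ^ 3)) := by
    have := Real.add_one_le_exp (-((k : ℝ) / T ^ 3))
    linarith
  have h4 : 1 / Real.sqrt ((h : ℝ) * ((h * k : ℕ) : ℝ)) *
      (Real.exp (-((k : ℝ) / T ^ 3)) / Real.sqrt (k : ℝ)) =
      Real.exp (-((k : ℝ) / T ^ 3)) * (1 / ((h * k : ℕ) : ℝ)) := by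
    rw [div_mul_div_comm, h1, one_mul]
    ring
  rw [h4]
  have h5 : (0 : ℝ) ≤ 1 / ((h * k : ℕ) : ℝ) := by positivity
  have h6 := mul_le_mul_of_nonneg_right h3 h5
  linarith

end I_FMb

open I_FMb in
/-- **B3' (FMb).** -/
theorem FMb_pf (hW : StW) (hP : StPc) (h0 : S_ZP) (h1 : S_MVb) (hx : S_FMx) : S_FMb := by
  classical
  intro w hw hW0pos
  obtain ⟨C0, T0, hC0, hT0, hz⟩ := h0 w hw
  obtain ⟨C1, hC1, hm⟩ := h1 w hw
  obtain ⟨C2, hC2, hd⟩ := (hW w hw).2.1 0 6
  refine ⟨W0 w / 2, C0 * C1 + 256 * C2, max T0 2, by positivity, by positivity, ?_⟩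
  intro T hT X hX a b ha0 hb0 ha hb
  have hTT0 : T0 ≤ T := (le_max_left _ _).trans hT
  have hT2 : 2 ≤ T := (le_max_right _ _).trans hT
  have hT1 : 1 ≤ T := by linarith
  have hTpos : 0 < T := by linarith
  have hK : (1 : ℝ) ≤ T ^ 3 := one_le_pow₀ hT1
  have hQa := Q2nn a X
  have hQb := Q2nn b X
  set Q : ℝ := Real.sqrt (Q2 a X) * Real.sqrt (Q2 b X) with hQ
  have hQn : 0 ≤ Q := by positivity
  -- continuity
  have hA : Continuous fun u : ℝ => DP a X (T * u) :=
    (cDP a X).comp (continuous_const.mul continuous_id)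
  have hB : Continuous fun u : ℝ => DP b X (T * u) :=
    (cDP b X).comp (continuous_const.mul continuous_id)
  have hZ : Continuous fun u : ℝ => az (T * u) := caz.comp (continuous_const.mul continuous_id)
  have hPc : Continuous fun u : ℝ => P (T ^ 3) (T * u) :=
    (hP (T ^ 3) hK).1.comp (continuous_const.mul continuous_id)
  have hAn := hA.norm
  have hBn := hB.norm
  have hPn := hPc.norm
  -- step 1
  have s1 : ∫ u : ℝ, w u * (‖P (T ^ 3) (T * u)‖ * (‖DP a X (T * u)‖ * ‖DP b X (T * u)‖)) ≤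
      (∫ u : ℝ, w u * (az (T * u) * (‖DP a X (T * u)‖ * ‖DP b X (T * u)‖))) +
        C0 / Real.sqrt T * ∫ u : ℝ, w u * (‖DP a X (T * u)‖ * ‖DP b X (T * u)‖) := by
    have i1 : Integrable (fun u : ℝ => w u * (az (T * u) *
        (‖DP a X (T * u)‖ * ‖DP b X (T * u)‖))) := intw hw (hZ.mul (hAn.mul hBn))
    have i2 : Integrable (fun u : ℝ => C0 / Real.sqrt T * (w u *
        (‖DP a X (T * u)‖ * ‖DP b X (T * u)‖))) := (intw hw (hAn.mul hBn)).const_mul _
    have i3 : Integrable (fun u : ℝ => w u * (‖P (T ^ 3) (T * u)‖ *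
        (‖DP a X (T * u)‖ * ‖DP b X (T * u)‖))) := intw hw (hPn.mul (hAn.mul hBn))
    have i4 : Integrable (fun u : ℝ => w u * (az (T * u) *
        (‖DP a X (T * u)‖ * ‖DP b X (T * u)‖)) + C0 / Real.sqrt T * (w u *
        (‖DP a X (T * u)‖ * ‖DP b X (T * u)‖))) := i1.add i2
    rw [← integral_const_mul, ← integral_add i1 i2]
    apply integral_mono i3 i4
    intro u
    beta_reduce
    by_cases hwu : w u = 0
    · rw [hwu]
      simp
    · have h2 := hz T hTT0 u hwu
      have h3 : ‖P (T ^ 3) (T * u)‖ ≤ az (T * u) + C0 / Real.sqrt T := by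
        have h4 : az (T * u) = ‖riemannZeta (1 / 2 + ((T * u : ℝ) : ℂ) * Complex.I)‖ := rfl
        rw [h4]
        have h5 := norm_sub_norm_le (P (T ^ 3) (T * u))
          (riemannZeta (1 / 2 + ((T * u : ℝ) : ℂ) * Complex.I))
        rw [norm_sub_rev] at h5
        linarith
      have h4 : 0 ≤ ‖DP a X (T * u)‖ * ‖DP b X (T * u)‖ := by positivity
      have h5 := mul_le_mul_of_nonneg_right h3 h4
      have h6 := mul_le_mul_of_nonneg_left h5 (hw.nonneg u)
      linarith
  -- step 2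
  have s2 := cs hw C1 T X a b hC1 (hm T hT1 X hX a ha0) (hm T hT1 X hX b hb0) hQa hQb
  rw [← hQ] at s2
  -- step 3
  have s3 : (∫ u : ℝ, (w u : ℂ) * (P (T ^ 3) (T * u) * (DP a X (T * u) *
      (starRingEnd ℂ) (DP b X (T * u))))).re ≤
      ∫ u : ℝ, w u * (‖P (T ^ 3) (T * u)‖ * (‖DP a X (T * u)‖ * ‖DP b X (T * u)‖)) := by
    refine (Complex.re_le_norm _).trans ?_
    refine (norm_integral_le_integral_norm _).trans (le_of_eq ?_)
    congr 1
    funext u
    rw [norm_mul, norm_mul, norm_mul, RCLike.norm_conj, Complex.norm_real,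
      Real.norm_of_nonneg (hw.nonneg u)]
  rw [hx w hw (T ^ 3) T X a b hK hTpos ha0 hb0] at s3
  -- the lower bound of the double sum
  have s4 : ∀ l ∈ Finset.range (X + 1), ∀ h ∈ Finset.range (X + 1),
      (if h ∣ l ∧ l ≠ 0 then W0 w / 2 * (b l / (l : ℝ) * a h) else 0) -
        128 * C2 / T ^ 2 * ((a h / Real.sqrt h) * (b l / Real.sqrt l)) ≤
      (((a h * b l / Real.sqrt ((h : ℝ) * l) : ℝ) : ℂ) *
        ∑' k : ℕ, ((Real.exp (-((k : ℝ) / T ^ 3)) / Real.sqrt k : ℝ) : ℂ) *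
          W w 0 (T * Real.log ((l : ℝ) / ((k : ℝ) * h)))).re := by
    intro l hl h hh
    rw [Complex.re_ofReal_mul]
    rcases Nat.eq_zero_or_pos l with hl0 | hl0
    · subst hl0
      rw [if_neg (by simp), hb0]
      simp
    · rcases Nat.eq_zero_or_pos h with hh0 | hh0
      · subst hh0
        rw [ha0]
        simp
      · have hlX : l ≤ X := by
          have := Finset.mem_range.1 hl
          omega
        have h2 := inner hW hP w hw C2 hd hC2 T hT1 X hX l h hl0 hlX hh0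
        have h3 : 0 ≤ a h * b l / Real.sqrt ((h : ℝ) * l) := by
          have := ha h
          have := hb l
          positivity
        refine le_trans ?_ (mul_le_mul_of_nonneg_left h2 h3)
        have h4 : a h * b l / Real.sqrt ((h : ℝ) * l) =
            (a h / Real.sqrt h) * (b l / Real.sqrt l) := by
          rw [Real.sqrt_mul (by positivity), div_mul_div_comm]
        have h5 : (if h ∣ l ∧ l ≠ 0 then W0 w / 2 * (b l / (l : ℝ) * a h) else 0) ≤
            a h * b l / Real.sqrt ((h : ℝ) * l) *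
            (if h ∣ l then Real.exp (-(((l / h : ℕ) : ℝ) / T ^ 3)) /
              Real.sqrt ((l / h : ℕ) : ℝ) * W0 w else 0) := by
          by_cases hdv : h ∣ l
          · rw [if_pos ⟨hdv, hl0.ne'⟩, if_pos hdv]
            have h6 := diag T hT2 X hX l h hl0 hlX hh0 hdv
            have h7 : 0 ≤ a h * b l * W0 w := by
              have := ha h
              have := hb l
              positivity
            have h8 := mul_le_mul_of_nonneg_left h6 h7
            calc W0 w / 2 * (b l / (l : ℝ) * a h) = a h * b l * W0 w * (1 / (l : ℝ) / 2) := by ring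
              _ ≤ a h * b l * W0 w * (1 / Real.sqrt ((h : ℝ) * l) *
                (Real.exp (-(((l / h : ℕ) : ℝ) / T ^ 3)) / Real.sqrt ((l / h : ℕ) : ℝ))) := h8
              _ = _ := by ring
          · rw [if_neg (fun h9 => hdv h9.1), if_neg hdv, mul_zero]
        rw [mul_sub]
        rw [← h4]
        linarith
  have s5 := Finset.sum_le_sum fun l hl => Finset.sum_le_sum (s4 l hl)
  -- evaluate the left side
  have s6 : ∑ l ∈ Finset.range (X + 1), ∑ h ∈ Finset.range (X + 1),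
      ((if h ∣ l ∧ l ≠ 0 then W0 w / 2 * (b l / (l : ℝ) * a h) else 0) -
        128 * C2 / T ^ 2 * ((a h / Real.sqrt h) * (b l / Real.sqrt l))) =
      W0 w / 2 * ∑ l ∈ Finset.range (X + 1), b l / (l : ℝ) * ∑ h ∈ l.divisors, a h -
        128 * C2 / T ^ 2 * ((∑ h ∈ Finset.range (X + 1), a h / Real.sqrt h) *
          ∑ l ∈ Finset.range (X + 1), b l / Real.sqrt l) := by
    simp only [Finset.sum_sub_distrib]
    congr 1
    · rw [Finset.mul_sum]
      apply Finset.sum_congr rfl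
      intro l hl
      rw [Finset.mul_sum, Finset.mul_sum, ← Finset.sum_filter]
      apply Finset.sum_congr
      · ext h
        rw [Finset.mem_filter, Nat.mem_divisors, Finset.mem_range]
        constructor
        · rintro ⟨_, h2⟩
          exact h2
        · rintro ⟨h2, h3⟩
          refine ⟨?_, h2, h3⟩
          have h4 := Nat.le_of_dvd (Nat.pos_of_ne_zero h3) h2
          have h5 := Finset.mem_range.1 hl
          omega
      · intro h _
        rfl
    · rw [Finset.sum_mul_sum, Finset.mul_sum, Finset.sum_comm]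
      apply Finset.sum_congr rfl
      intro h _
      rw [Finset.mul_sum]
  rw [s6] at s5
  have s7 : ∑ l ∈ Finset.range (X + 1), ∑ h ∈ Finset.range (X + 1),
      (((a h * b l / Real.sqrt ((h : ℝ) * l) : ℝ) : ℂ) *
        ∑' k : ℕ, ((Real.exp (-((k : ℝ) / T ^ 3)) / Real.sqrt k : ℝ) : ℂ) *
          W w 0 (T * Real.log ((l : ℝ) / ((k : ℝ) * h)))).re =
      (∑ l ∈ Finset.range (X + 1), ∑ h ∈ Finset.range (X + 1),
      ((a h * b l / Real.sqrt ((h : ℝ) * l) : ℝ) : ℂ) *
        ∑' k : ℕ, ((Real.exp (-((k : ℝ) / T ^ 3)) / Real.sqrt k : ℝ) : ℂ) *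
          W w 0 (T * Real.log ((l : ℝ) / ((k : ℝ) * h)))).re := by
    rw [Complex.re_sum]
    apply Finset.sum_congr rfl
    intro l _
    rw [Complex.re_sum]
  rw [s7] at s5
  -- the error term
  have hnn : ∀ (c : ℕ → ℝ), (∀ n, 0 ≤ c n) → 0 ≤ ∑ h ∈ Finset.range (X + 1), c h / Real.sqrt h :=
    fun c hc => Finset.sum_nonneg fun n _ => div_nonneg (hc n) (Real.sqrt_nonneg _)
  have hXT : (X : ℝ) ≤ T := by
    rcases Nat.eq_zero_or_pos X with h2 | h2
    · rw [h2]
      simpa using hTpos.le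
    · have h3 : (1 : ℝ) ≤ X := by exact_mod_cast h2
      have h4 : (X : ℝ) ≤ (X : ℝ) ^ 3 := by
        calc (X : ℝ) = (X : ℝ) ^ 1 := by ring
          _ ≤ (X : ℝ) ^ 3 := pow_le_pow_right₀ h3 (by norm_num)
      linarith
  have s8 : 128 * C2 / T ^ 2 * ((∑ h ∈ Finset.range (X + 1), a h / Real.sqrt h) *
          ∑ l ∈ Finset.range (X + 1), b l / Real.sqrt l) ≤ 256 * C2 / T * Q := by
    have e1 := l1 a X
    have e2 := l1 b X
    have e3 : (∑ h ∈ Finset.range (X + 1), a h / Real.sqrt h) *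
          ∑ l ∈ Finset.range (X + 1), b l / Real.sqrt l ≤
        (Real.sqrt ((X : ℝ) + 1) * Real.sqrt (Q2 a X)) *
          (Real.sqrt ((X : ℝ) + 1) * Real.sqrt (Q2 b X)) :=
      mul_le_mul e1 e2 (hnn b hb) (by positivity)
    have e4 : (Real.sqrt ((X : ℝ) + 1) * Real.sqrt (Q2 a X)) *
          (Real.sqrt ((X : ℝ) + 1) * Real.sqrt (Q2 b X)) = ((X : ℝ) + 1) * Q := by
      have := Real.mul_self_sqrt (by positivity : (0 : ℝ) ≤ (X : ℝ) + 1)
      rw [hQ]
      linear_combination (Real.sqrt (Q2 a X) * Real.sqrt (Q2 b X)) * this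
    rw [e4] at e3
    have e5 : ((X : ℝ) + 1) * Q ≤ (2 * T) * Q := mul_le_mul_of_nonneg_right (by linarith) hQn
    calc 128 * C2 / T ^ 2 * ((∑ h ∈ Finset.range (X + 1), a h / Real.sqrt h) *
          ∑ l ∈ Finset.range (X + 1), b l / Real.sqrt l) ≤ 128 * C2 / T ^ 2 * ((2 * T) * Q) :=
          mul_le_mul_of_nonneg_left (e3.trans e5) (by positivity)
      _ = 256 * C2 / T * Q := by
          field_simp
          ring
  -- powers of T
  have hroot : T ^ (1 / 4 : ℝ) ≤ Real.sqrt T := by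
    rw [Real.sqrt_eq_rpow]
    exact Real.rpow_le_rpow_of_exponent_le hT1 (by norm_num)
  have hroot2 : T ^ (1 / 4 : ℝ) ≤ T := by
    calc T ^ (1 / 4 : ℝ) ≤ T ^ (1 : ℝ) := Real.rpow_le_rpow_of_exponent_le hT1 (by norm_num)
      _ = T := Real.rpow_one T
  have hrpos : 0 < T ^ (1 / 4 : ℝ) := Real.rpow_pos_of_pos hTpos _
  have s9 : C0 / Real.sqrt T * (C1 * Q) ≤ C0 * C1 / T ^ (1 / 4 : ℝ) * Q := by
    have e1 : C0 / Real.sqrt T ≤ C0 / T ^ (1 / 4 : ℝ) :=
      div_le_div_of_nonneg_left hC0 hrpos hroot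
    calc C0 / Real.sqrt T * (C1 * Q) ≤ C0 / T ^ (1 / 4 : ℝ) * (C1 * Q) :=
          mul_le_mul_of_nonneg_right e1 (by positivity)
      _ = C0 * C1 / T ^ (1 / 4 : ℝ) * Q := by ring
  have s10 : 256 * C2 / T * Q ≤ 256 * C2 / T ^ (1 / 4 : ℝ) * Q := by
    apply mul_le_mul_of_nonneg_right _ hQn
    exact div_le_div_of_nonneg_left (by positivity) hrpos hroot2
  have s11 : C0 / Real.sqrt T * ∫ u : ℝ, w u * (‖DP a X (T * u)‖ * ‖DP b X (T * u)‖) ≤
      C0 / Real.sqrt T * (C1 * Q) := mul_le_mul_of_nonneg_left s2 (by positivity)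
  have s12 : (C0 * C1 + 256 * C2) / T ^ (1 / 4 : ℝ) * Q =
      C0 * C1 / T ^ (1 / 4 : ℝ) * Q + 256 * C2 / T ^ (1 / 4 : ℝ) * Q := by ring
  rw [s12]
  linarith

end Pool.Agent.Work.MP_56b8f5_nt.WM
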