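import Pool.Agent.Work.MP_56b8f5_nt.WM.Stmts

/-!
MP_56b8f5_nt, block WM, item A8 (BBp): the coefficients of `M^m R^j`.
-/

set_option autoImplicit false

open Finset

noncomputable section

namespace Pool.Agent.Work.MP_56b8f5_nt.WM

namespace I_BBp

open ArithmeticFunction

/-- Monotonicity of the Dirichlet convolution on nonnegative functions. -/
theorem mul_mono {f f' g g' : ArithmeticFunction ℝ} (hf : ∀ n, 0 ≤ f n ∧ f n ≤ f' n)
    (hg : ∀ n, 0 ≤ g n ∧ g n ≤ g' n) (n : ℕ) : 0 ≤ (f * g) n ∧ (f * g) n ≤ (f' * g') n := by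
  rw [ArithmeticFunction.mul_apply, ArithmeticFunction.mul_apply]
  constructor
  · exact Finset.sum_nonneg fun x _ => mul_nonneg (hf _).1 (hg _).1
  · exact Finset.sum_le_sum fun x _ => mul_le_mul (hf _).2 (hg _).2 (hg _).1
      ((hf _).1.trans (hf _).2)

theorem pow_mono {f f' : ArithmeticFunction ℝ} (hf : ∀ n, 0 ≤ f n ∧ f n ≤ f' n) (m : ℕ) :
    ∀ n, 0 ≤ (f ^ m) n ∧ (f ^ m) n ≤ (f' ^ m) n := by
  induction m with
  | zero =>
    intro n
    rw [pow_zero, pow_zero]
    refine ⟨?_, le_rfl⟩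
    rw [ArithmeticFunction.one_apply]
    split_ifs <;> norm_num
  | succ k ih =>
    intro n
    rw [pow_succ, pow_succ]
    exact mul_mono ih hf n

/-- The support of a convolution. -/
theorem supp_mul {f g : ArithmeticFunction ℝ} {A B : ℕ} (hf : ∀ n, f n ≠ 0 → n ≤ A)
    (hg : ∀ n, g n ≠ 0 → n ≤ B) (n : ℕ) (h : (f * g) n ≠ 0) : n ≤ A * B := by
  rw [ArithmeticFunction.mul_apply] at h
  obtain ⟨x, hx, hne⟩ := Finset.exists_ne_zero_of_sum_ne_zero h
  have h1 : f x.1 ≠ 0 := left_ne_zero_of_mul hne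
  have h2 : g x.2 ≠ 0 := right_ne_zero_of_mul hne
  rw [← (Nat.mem_divisorsAntidiagonal.1 hx).1]
  exact Nat.mul_le_mul (hf _ h1) (hg _ h2)

theorem supp_pow {f : ArithmeticFunction ℝ} {A : ℕ} (hf : ∀ n, f n ≠ 0 → n ≤ A) (m : ℕ) :
    ∀ n, (f ^ m) n ≠ 0 → n ≤ A ^ m := by
  induction m with
  | zero =>
    intro n h
    rw [pow_zero, ArithmeticFunction.one_apply] at h
    by_contra h2
    apply h
    rw [if_neg]
    rintro rfl
    exact h2 (by simp)
  | succ k ih =>
    intro n h
    rw [pow_succ] at h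
    rw [pow_succ]
    exact supp_mul ih hf n h

/-- Powers only see the divisors. -/
theorem pow_congr {f g : ArithmeticFunction ℝ} {n : ℕ} (h : ∀ d, d ∣ n → f d = g d) (m : ℕ) :
    ∀ d, d ∣ n → (f ^ m) d = (g ^ m) d := by
  induction m with
  | zero => intro d _; rw [pow_zero, pow_zero]
  | succ k ih =>
    intro d hd
    rw [pow_succ, pow_succ, ArithmeticFunction.mul_apply, ArithmeticFunction.mul_apply]
    refine Finset.sum_congr rfl fun x hx => ?_
    have hxe := (Nat.mem_divisorsAntidiagonal.1 hx).1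
    rw [ih x.1 ((Dvd.intro _ hxe).trans hd), h x.2 ((Dvd.intro_left _ hxe).trans hd)]

/-- The Dirichlet polynomial of a convolution. -/
theorem DP_mul {f g : ArithmeticFunction ℝ} {A B X : ℕ} (hf : ∀ n, f n ≠ 0 → n ≤ A)
    (hg : ∀ n, g n ≠ 0 → n ≤ B) (hX : A * B ≤ X) (t : ℝ) :
    DP (f * g : ArithmeticFunction ℝ) X t = DP f A t * DP g B t := by
  have key : ∀ n : ℕ, (((f * g : ArithmeticFunction ℝ) n : ℝ) : ℂ) *
      (n : ℂ) ^ (-(1 / 2 + t * Complex.I)) = ∑ x ∈ n.divisorsAntidiagonal,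
        ((f x.1 : ℂ) * (x.1 : ℂ) ^ (-(1 / 2 + t * Complex.I))) *
          ((g x.2 : ℂ) * (x.2 : ℂ) ^ (-(1 / 2 + t * Complex.I))) := by
    intro n
    rw [ArithmeticFunction.mul_apply, Complex.ofReal_sum, Finset.sum_mul]
    refine Finset.sum_congr rfl fun x hx => ?_
    rw [← (Nat.mem_divisorsAntidiagonal.1 hx).1, Nat.cast_mul,
      Complex.natCast_mul_natCast_cpow, Complex.ofReal_mul]
    ring
  unfold DP
  rw [Finset.sum_congr rfl fun n _ => key n, Finset.sum_sigma', Finset.sum_mul_sum,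
    ← Finset.sum_product']
  refine Finset.sum_bij_ne_zero (fun x _ _ => x.2) ?_ ?_ ?_ ?_
  · rintro ⟨n, x⟩ hx hne
    have h1 : f x.1 ≠ 0 := by
      intro h0
      apply hne
      simp only [h0]
      simp
    have h2 : g x.2 ≠ 0 := by
      intro h0
      apply hne
      simp only [h0]
      simp
    have h3 := hf _ h1
    have h4 := hg _ h2
    simp only [Finset.mem_product, Finset.mem_range]
    exact ⟨by omega, by omega⟩
  · rintro ⟨n, x⟩ hx _ ⟨n', x'⟩ hx' _ he
    simp only [Finset.mem_sigma, Nat.mem_divisorsAntidiagonal] at hx hx'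
    simp only at he
    subst he
    have : n = n' := hx.2.1.symm.trans hx'.2.1
    subst this
    rfl
  · rintro ⟨a, b⟩ hx hne
    have h1 : f a ≠ 0 := by
      intro h0
      apply hne
      simp only [h0]
      simp
    have h2 : g b ≠ 0 := by
      intro h0
      apply hne
      simp only [h0]
      simp
    have ha : a ≠ 0 := by
      rintro rfl
      exact h1 (ArithmeticFunction.map_zero)
    have hb : b ≠ 0 := by
      rintro rfl
      exact h2 (ArithmeticFunction.map_zero)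
    refine ⟨⟨a * b, (a, b)⟩, ?_, hne, rfl⟩
    simp only [Finset.mem_sigma, Nat.mem_divisorsAntidiagonal, Finset.mem_range]
    refine ⟨?_, trivial, mul_ne_zero ha hb⟩
    have := Nat.mul_le_mul (hf _ h1) (hg _ h2)
    omega
  · rintro ⟨n, x⟩ _ _
    rfl

theorem DP_one (t : ℝ) : DP (1 : ArithmeticFunction ℝ) 1 t = 1 := by
  unfold DP
  rw [Finset.sum_range_succ, Finset.sum_range_succ]
  simp

theorem DP_pow {f : ArithmeticFunction ℝ} {A : ℕ} (hf : ∀ n, f n ≠ 0 → n ≤ A) (t : ℝ) (m : ℕ) :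
    DP (f ^ m : ArithmeticFunction ℝ) (A ^ m) t = DP f A t ^ m := by
  induction m with
  | zero =>
    rw [pow_zero, pow_zero, pow_zero]
    exact DP_one t
  | succ k ih =>
    rw [pow_succ, DP_mul (supp_pow hf k) hf (by rw [pow_succ]) t, ih, pow_succ]

/-- `pa (m a) = (pa a)^m`. -/
theorem pa_pow (h1 : S_PeMul) (h2 : S_PeBas) (a : ℕ → ℝ) (m : ℕ) :
    pa (fun p => (m : ℝ) * a p) = pa a ^ m := by
  induction m with
  | zero =>
    rw [pow_zero]
    ext n
    obtain ⟨-, e1, -, -, -, -, -, -, -, e2, -⟩ := h2 (fun _ => 0) (fun _ => le_rfl)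
    have hz : (fun p => ((0 : ℕ) : ℝ) * a p) = fun _ => 0 := by
      funext p
      simp
    rw [hz, ArithmeticFunction.one_apply]
    show pe (fun _ => 0) n = _
    by_cases hn : n = 1
    · rw [if_pos hn, hn, e1]
    · rw [if_neg hn]
      obtain ⟨p, hp, hd⟩ := Nat.exists_prime_and_dvd hn
      exact e2 n p hp hd rfl
  | succ k ih =>
    rw [pow_succ, ← ih, ← h1.2]
    congr 1
    funext p
    push_cast
    ring

end I_BBp

open I_BBp in
/-- **A8.** The coefficients of `M^m R^j`. -/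
theorem BBp_pf (h1 : S_PeMul) (h2 : S_PeBas) : S_BBp := by
  intro q y z m j hq hyz
  have hq0 : (0 : ℝ) < q := by exact_mod_cast hq
  -- the two local exponents
  set aM : ℕ → ℝ := fun p => if p ≤ y then 1 / (q : ℝ) else 0 with haM
  set aR : ℕ → ℝ := fun p => if y < p ∧ p ≤ z then 1 else 0 with haR
  have hM0 : ∀ p, 0 ≤ aM p := by
    intro p
    simp only [haM]
    split_ifs
    · positivity
    · exact le_rfl
  have hR0 : ∀ p, 0 ≤ aR p := by
    intro p
    simp only [haR]
    split_ifs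
    · exact zero_le_one
    · exact le_rfl
  have hum : ∀ n, 0 ≤ um q y n ∧ um q y n ≤ pa aM n := by
    intro n
    show 0 ≤ (if n ≤ y then pe aM n else 0) ∧ (if n ≤ y then pe aM n else 0) ≤ pe aM n
    have := (h2 aM hM0).1 n
    split_ifs
    · exact ⟨this, le_rfl⟩
    · exact ⟨le_rfl, this⟩
  have hur : ∀ n, 0 ≤ ur y z n ∧ ur y z n ≤ pa aR n := by
    intro n
    show 0 ≤ (if n ≤ z then pe aR n else 0) ∧ (if n ≤ z then pe aR n else 0) ≤ pe aR n
    have := (h2 aR hR0).1 n
    split_ifs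
    · exact ⟨this, le_rfl⟩
    · exact ⟨le_rfl, this⟩
  have hums : ∀ n, um q y n ≠ 0 → n ≤ y := by
    intro n h
    by_contra hn
    exact h (if_neg hn)
  have hurs : ∀ n, ur y z n ≠ 0 → n ≤ z := by
    intro n h
    by_contra hn
    exact h (if_neg hn)
  -- the product of the two powers
  have hprod : pa (aa q y z m j) = pa aM ^ m * pa aR ^ j := by
    rw [← pa_pow h1 h2, ← pa_pow h1 h2, ← h1.2]
    congr 1
    funext p
    simp only [haM, haR, aa]
    by_cases hp : p ≤ y
    · rw [if_pos hp, if_pos hp, if_neg (by omega)]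
      ring
    · rw [if_neg hp, if_neg hp]
      by_cases hpz : p ≤ z
      · rw [if_pos hpz, if_pos ⟨by omega, hpz⟩]
        ring
      · rw [if_neg hpz, if_neg (by omega)]
        ring
  have part1 : ∀ n, 0 ≤ BB q y z m j n ∧ BB q y z m j n ≤ pe (aa q y z m j) n := by
    intro n
    have h := mul_mono (pow_mono hum m) (pow_mono hur j) n
    rw [← hprod] at h
    exact h
  have ha0 : ∀ p, 0 ≤ aa q y z m j p := by
    intro p
    simp only [aa]
    split_ifs <;> positivity
  refine ⟨part1, ?_, ?_, ?_⟩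
  · exact supp_mul (supp_pow hums m) (supp_pow hurs j)
  · intro n₁ n₂ hn1 hn1y hn2 hn2z hp
    apply le_antisymm (part1 _).2
    have hcop : Nat.Coprime n₁ n₂ := by
      apply Nat.Coprime.symm
      apply Nat.Coprime.symm
      apply Nat.coprime_of_dvd
      intro p hpp hd1 hd2
      have e1 := hp p hpp hd2
      have e2 := Nat.le_of_dvd hn1 hd1
      omega
    obtain ⟨-, -, -, e4, -, e6, -⟩ := h2 _ ha0
    rw [e6 _ _ hcop]
    have f1 : pe (aa q y z m j) n₁ = ((um q y) ^ m) n₁ := by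
      have g1 : pe (aa q y z m j) n₁ = pe (fun p => (m : ℝ) * aM p) n₁ := by
        apply e4
        intro p _ hd
        have hpy : p ≤ y := (Nat.le_of_dvd hn1 hd).trans hn1y
        simp only [aa, haM, if_pos hpy]
        ring
      rw [g1]
      show pa (fun p => (m : ℝ) * aM p) n₁ = _
      rw [pa_pow h1 h2]
      refine (pow_congr ?_ m n₁ dvd_rfl).symm
      intro d hd
      exact if_pos ((Nat.le_of_dvd hn1 hd).trans hn1y)
    have f2 : pe (aa q y z m j) n₂ = ((ur y z) ^ j) n₂ := by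
      have g1 : pe (aa q y z m j) n₂ = pe (fun p => (j : ℝ) * aR p) n₂ := by
        apply e4
        intro p hpp hd
        have hpz : p ≤ z := (Nat.le_of_dvd hn2 hd).trans hn2z
        have hpy : y < p := hp p hpp hd
        simp only [aa, haR, if_neg (not_le.2 hpy), if_pos hpz, if_pos (⟨hpy, hpz⟩ : y < p ∧ p ≤ z)]
        ring
      rw [g1]
      show pa (fun p => (j : ℝ) * aR p) n₂ = _
      rw [pa_pow h1 h2]
      refine (pow_congr ?_ j n₂ dvd_rfl).symm
      intro d hd
      exact if_pos ((Nat.le_of_dvd hn2 hd).trans hn2z)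
    rw [f1, f2]
    show _ ≤ ((um q y) ^ m * (ur y z) ^ j) (n₁ * n₂)
    rw [ArithmeticFunction.mul_apply]
    refine Finset.single_le_sum (f := fun x : ℕ × ℕ => ((um q y) ^ m) x.1 * ((ur y z) ^ j) x.2)
      (fun x _ => mul_nonneg (pow_mono hum m _).1 (pow_mono hur j _).1) (a := (n₁, n₂)) ?_
    rw [Nat.mem_divisorsAntidiagonal]
    refine ⟨rfl, mul_ne_zero (by omega) (by omega)⟩
  · intro X hX t
    show DP ((um q y) ^ m * (ur y z) ^ j : ArithmeticFunction ℝ) X t = _
    rw [DP_mul (supp_pow hums m) (supp_pow hurs j) hX t, DP_pow hums t m, DP_pow hurs t j]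

end Pool.Agent.Work.MP_56b8f5_nt.WM
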