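import Pool.Agent.Work.MP_56b8f5_nt.WM.Stmts

/-!
MP_56b8f5_nt, block WM, item C5 (Sca): change of variables from the scale `4T` to `[T, 2T]`.
-/

set_option autoImplicit false

open MeasureTheory Set Filter Topology

noncomputable section

namespace Pool.Agent.Work.MP_56b8f5_nt.WM

open Pool.Agent.Work.MP_56b8f5_nt.EM

namespace I_Sca

lemma cont_az : Continuous az := by
  unfold az
  refine continuous_iff_continuousAt.2 fun t => ?_
  have h1 : (1 / 2 + (t : ℂ) * Complex.I) ≠ 1 := by
    intro h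
    have := congrArg Complex.re h
    norm_num at this
  have h2 : ContinuousAt riemannZeta (1 / 2 + (t : ℂ) * Complex.I) :=
    (differentiableAt_riemannZeta h1).continuousAt
  have h3 : ContinuousAt (fun t : ℝ => (1 / 2 + (t : ℂ) * Complex.I)) t := by fun_prop
  exact (ContinuousAt.comp (f := fun t : ℝ => (1 / 2 + (t : ℂ) * Complex.I)) h2 h3).norm

lemma cont_DP (b : ℕ → ℝ) (X : ℕ) : Continuous (DP b X) := by
  unfold DP
  refine continuous_finsetSum _ fun n _ => ?_
  refine continuous_const.mul ?_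
  rcases Nat.eq_zero_or_pos n with rfl | hn
  · have : (fun t : ℝ => ((0 : ℕ) : ℂ) ^ (-(1 / 2 + (t : ℂ) * Complex.I))) = fun _ => 0 := by
      funext t
      rw [Nat.cast_zero, Complex.zero_cpow]
      intro h
      have := congrArg Complex.re h
      simp at this
    rw [this]
    exact continuous_const
  · refine Continuous.const_cpow (by fun_prop) (Or.inl ?_)
    exact_mod_cast hn.ne'

lemma cont_aM (q y : ℕ) : Continuous (aM q y) := (cont_DP _ _).norm

lemma cont_aR (y z : ℕ) : Continuous (aR y z) := (cont_DP _ _).norm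

/-- change of variables -/
lemma cov {a : ℝ} (ha : 0 < a) {S : Set ℝ} (hS : MeasurableSet S) (f : ℝ → ℝ) :
    ∫ t in S, f t = a * ∫ u in {u | a * u ∈ S}, f (a * u) := by
  have hS' : MeasurableSet {u | a * u ∈ S} := (measurable_const_mul a) hS
  rw [← integral_indicator hS, ← integral_indicator hS']
  have h := Measure.integral_comp_mul_left (S.indicator f) a
  have h2 : ({u | a * u ∈ S}.indicator fun u => f (a * u)) = fun x => S.indicator f (a * x) := by
    funext x
    by_cases hx : a * x ∈ S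
    · rw [indicator_of_mem hx, indicator_of_mem (show x ∈ {u | a * u ∈ S} from hx)]
    · rw [indicator_of_notMem hx, indicator_of_notMem (show x ∉ {u | a * u ∈ S} from hx)]
  rw [h2, h, abs_of_pos (inv_pos.2 ha), smul_eq_mul, ← mul_assoc, mul_inv_cancel₀ ha.ne', one_mul]

/-- length -/
lemma len {N : ℕ} {T : ℝ} (hT : 65536 ≤ T) (h : ((N : ℕ) : ℝ) ^ 9 ≤ 4 * T) :
    (N : ℝ) ≤ T ^ (1 / 8 : ℝ) := by
  have hT0 : (0 : ℝ) < T := by linarith
  set s : ℝ := T ^ (1 / 8 : ℝ) with hs
  have hs0 : 0 ≤ s := Real.rpow_nonneg hT0.le _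
  have hs8 : s ^ 8 = T := by
    rw [hs, ← Real.rpow_natCast, ← Real.rpow_mul hT0.le]
    norm_num
  by_contra hc
  push Not at hc
  have h4 : 4 ≤ s := by
    by_contra h4
    push Not at h4
    have : s ^ 8 < 4 ^ 8 := pow_lt_pow_left₀ h4 hs0 (by norm_num)
    rw [hs8] at this
    norm_num at this
    linarith
  have h5 : s ^ 9 < (N : ℝ) ^ 9 := pow_lt_pow_left₀ hc hs0 (by norm_num)
  have h6 : s ^ 9 = T * s := by rw [pow_succ, hs8]
  nlinarith

/-- logarithms -/
lemma logs {T : ℝ} (hT : 65536 ≤ T) : 1 ≤ Real.log (Real.log T) ∧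
    Real.log T ≤ Real.log (4 * T) ∧ Real.log (4 * T) ≤ 2 * Real.log T ∧
    Real.log (Real.log T) ≤ Real.log (Real.log (4 * T)) ∧
    Real.log (Real.log (4 * T)) ≤ Real.log (Real.log T) + 1 := by
  have hT0 : (0 : ℝ) < T := by linarith
  have he : Real.exp 1 ≤ 3 := by linarith [Real.exp_one_lt_d9]
  have h1 : 3 ≤ Real.log T := by
    rw [Real.le_log_iff_exp_le hT0]
    have : Real.exp 3 = Real.exp 1 ^ 3 := by
      rw [← Real.exp_nat_mul]
      norm_num
    rw [this]
    calc Real.exp 1 ^ 3 ≤ 3 ^ 3 := pow_le_pow_left₀ (Real.exp_pos _).le he 3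
      _ ≤ T := by linarith
  have h2 : 1 ≤ Real.log (Real.log T) := by
    rw [Real.le_log_iff_exp_le (by linarith)]
    linarith
  have h3 : Real.log T ≤ Real.log (4 * T) := Real.log_le_log hT0 (by linarith)
  have h4 : Real.log (4 * T) ≤ 2 * Real.log T := by
    rw [Real.log_mul (by norm_num) hT0.ne']
    have : Real.log 4 ≤ Real.log T := Real.log_le_log (by norm_num) (by linarith)
    linarith
  refine ⟨h2, h3, h4, Real.log_le_log (by linarith) h3, ?_⟩
  have h5 : Real.log (Real.log (4 * T)) ≤ Real.log (2 * Real.log T) :=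
    Real.log_le_log (by linarith) h4
  rw [Real.log_mul (by norm_num) (by linarith : (0:ℝ) < Real.log T).ne'] at h5
  have : Real.log 2 ≤ 1 := by linarith [Real.log_two_lt_d9]
  linarith

end I_Sca

open I_Sca in
/-- **C5 (Sca).** -/
theorem Sca_pf (h1 : S_Par) (h2 : S_WinS) (h3 : S_UpS) (h4 : S_Wts) : S_Sca := by
  intro k hk
  obtain ⟨w₁, w₂, hw1, hw2, hW0, hs1, hs2⟩ := h4
  obtain ⟨C₁, hC₁, hpar⟩ := h1 k (by omega)
  obtain ⟨c₂, C₂, T₂, hc₂, hC₂, hWin⟩ := h2 w₁ hw1 hW0 k C₁ hk hC₁
  obtain ⟨C₃, T₃, hC₃, hUp⟩ := h3 w₂ hw2 k C₁ hk hC₁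
  have hp2 : (1 : ℝ) ≤ 2 ^ (k ^ 2) := one_le_pow₀ (by norm_num)
  have hk0 : (0 : ℝ) ≤ k := Nat.cast_nonneg k
  have hCC : 0 ≤ 4 * 2 ^ (k ^ 2) * C₃ := by positivity
  have h4T : Tendsto (fun T : ℝ => 4 * T) atTop atTop :=
    tendsto_id.const_mul_atTop (by norm_num)
  refine ⟨c₂, 2 * C₂ + k + 4 * 2 ^ (k ^ 2) * C₃, hc₂, by linarith, ?_⟩
  filter_upwards [h4T.eventually hpar, eventually_ge_atTop (65536 : ℝ), eventually_ge_atTop T₂,
    eventually_ge_atTop T₃] with T hpT hT hT2 hT3
  obtain ⟨q, y, z, hp⟩ := hpT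
  have hT0 : (0 : ℝ) < T := by linarith
  have h4T0 : (0 : ℝ) < 4 * T := by linarith
  obtain ⟨l1, l2, l3, l4, l5⟩ := logs hT
  have hlog : 0 < Real.log T := by
    have := Real.log_pos (by linarith : 1 < T)
    exact this
  refine ⟨q, y, z, hp.hq, hp.hy, hp.hyz, len hT hp.hN, ?_, ?_⟩
  · intro A hA
    have hU := hUp (4 * T) (by linarith) q y z hp A hA
    have hSm : MeasurableSet {t | t ∈ Icc T (2 * T) ∧ az t ≤ A * (aM q y t ^ q * aR y z t)} := by
      refine measurableSet_Icc.inter ?_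
      exact measurableSet_le cont_az.measurable
        (((((cont_aM q y).pow q).mul (cont_aR y z)).measurable).const_mul A)
    rw [cov h4T0 hSm]
    have cφ : Continuous fun u : ℝ => az (4 * T * u) := cont_az.comp (by fun_prop)
    have cm : Continuous fun u : ℝ => aM q y (4 * T * u) := (cont_aM q y).comp (by fun_prop)
    have cr : Continuous fun u : ℝ => aR y z (4 * T * u) := (cont_aR y z).comp (by fun_prop)
    set U : Set ℝ := {u | az (4 * T * u) ≤ A * (aM q y (4 * T * u) ^ q * aR y z (4 * T * u))}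
      with hUd
    have hUm : MeasurableSet U := measurableSet_le cφ.measurable
      ((((cm.pow q).mul cr).measurable).const_mul A)
    set V : Set ℝ := {u | 4 * T * u ∈ {t | t ∈ Icc T (2 * T) ∧
      az t ≤ A * (aM q y t ^ q * aR y z t)}} with hVd
    have hVm : MeasurableSet V := (measurable_const_mul (4 * T)) hSm
    have hVU : V ⊆ U := fun u hu => hu.2
    have hV1 : ∀ u ∈ V, w₂ u = 1 := by
      intro u hu
      have h5 : T ≤ 4 * T * u := hu.1.1
      have h6 : 4 * T * u ≤ 2 * T := hu.1.2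
      apply hs2
      · by_contra hc
        push Not at hc
        nlinarith
      · by_contra hc
        push Not at hc
        nlinarith
    have hint : Integrable fun u => w₂ u * az (4 * T * u) ^ (2 * k) := by
      have h7 : Continuous fun u => w₂ u * az (4 * T * u) ^ (2 * k) :=
        hw2.smooth.continuous.mul (cφ.pow _)
      rw [← integrableOn_iff_integrable_of_support_subset (s := Icc (0 : ℝ) 1)]
      · exact h7.integrableOn_Icc
      · intro u hu
        obtain ⟨c, hc, h⟩ := hw2.supp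
        have hu' : w₂ u ≠ 0 := by
          intro h0
          apply hu
          simp [h0]
        exact ⟨hc.le.trans (h u hu').1, (h u hu').2⟩
    have e1 : ∫ u in V, az (4 * T * u) ^ (2 * k) = ∫ u in V, w₂ u * az (4 * T * u) ^ (2 * k) := by
      refine setIntegral_congr_fun hVm fun u hu => ?_
      simp only [hV1 u hu, one_mul]
    have e2 : ∫ u in V, w₂ u * az (4 * T * u) ^ (2 * k) ≤
        ∫ u in U, w₂ u * az (4 * T * u) ^ (2 * k) := by
      refine setIntegral_mono_set hint.integrableOn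
        (ae_of_all _ fun x => mul_nonneg (hw2.nonneg x) (pow_nonneg (norm_nonneg _) _))
        (LE.le.eventuallyLE hVU)
    have e3 : ∫ u in V, az (4 * T * u) ^ (2 * k) ≤
        C₃ * A ^ (2 * k - 2) * Real.log (4 * T) ^ (k ^ 2) := by
      rw [e1]
      exact e2.trans hU
    have e4 : Real.log (4 * T) ^ (k ^ 2) ≤ 2 ^ (k ^ 2) * Real.log T ^ (k ^ 2) := by
      rw [← mul_pow]
      exact pow_le_pow_left₀ (by linarith) l3 _
    have hA0 : 0 ≤ A ^ (2 * k - 2) := pow_nonneg (by linarith) _
    calc 4 * T * ∫ u in V, az (4 * T * u) ^ (2 * k)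
        ≤ 4 * T * (C₃ * A ^ (2 * k - 2) * Real.log (4 * T) ^ (k ^ 2)) :=
          mul_le_mul_of_nonneg_left e3 h4T0.le
      _ ≤ 4 * T * (C₃ * A ^ (2 * k - 2) * (2 ^ (k ^ 2) * Real.log T ^ (k ^ 2))) := by
          refine mul_le_mul_of_nonneg_left ?_ h4T0.le
          exact mul_le_mul_of_nonneg_left e4 (by positivity)
      _ = (4 * 2 ^ (k ^ 2) * C₃) * (A ^ (2 * k - 2) * T * Real.log T ^ (k ^ 2)) := by ring
      _ ≤ (2 * C₂ + k + 4 * 2 ^ (k ^ 2) * C₃) * (A ^ (2 * k - 2) * T * Real.log T ^ (k ^ 2)) := by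
          refine mul_le_mul_of_nonneg_right (by linarith) ?_
          positivity
      _ = (2 * C₂ + k + 4 * 2 ^ (k ^ 2) * C₃) * A ^ (2 * k - 2) * T * Real.log T ^ (k ^ 2) := by
          ring
  · have hW := hWin (4 * T) (by linarith) q y z hp
    set C : ℝ := 2 * C₂ + k + 4 * 2 ^ (k ^ 2) * C₃ with hCd
    have hSm : MeasurableSet {t | t ∈ Icc T (2 * T) ∧ az t ≤ C * (aM q y t ^ q * aR y z t) ∧
      |Real.log (az t) - k * Real.log (Real.log T)| ≤ C * Real.sqrt (Real.log (Real.log T))} := by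
      refine measurableSet_Icc.inter (MeasurableSet.inter ?_ ?_)
      · exact measurableSet_le cont_az.measurable
          (((((cont_aM q y).pow q).mul (cont_aR y z)).measurable).const_mul C)
      · have h7 : Measurable fun t : ℝ => Real.log (az t) :=
          Real.measurable_log.comp cont_az.measurable
        have h8 : Measurable fun t : ℝ => |Real.log (az t) - k * Real.log (Real.log T)| :=
          continuous_abs.measurable.comp (h7.sub_const _)
        exact measurableSet_le h8 measurable_const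
    rw [cov h4T0 hSm]
    have cφ : Continuous fun u : ℝ => az (4 * T * u) := cont_az.comp (by fun_prop)
    set V : Set ℝ := {u | 4 * T * u ∈ {t | t ∈ Icc T (2 * T) ∧
      az t ≤ C * (aM q y t ^ q * aR y z t) ∧
      |Real.log (az t) - k * Real.log (Real.log T)| ≤ C * Real.sqrt (Real.log (Real.log T))}}
      with hVd
    have hVI : V ⊆ Icc (0 : ℝ) 1 := by
      intro u hu
      have h5 : T ≤ 4 * T * u := hu.1.1
      have h6 : 4 * T * u ≤ 2 * T := hu.1.2
      refine ⟨?_, ?_⟩
      · by_contra hc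
        push Not at hc
        nlinarith
      · by_contra hc
        push Not at hc
        nlinarith
    have hint : IntegrableOn (fun u => az (4 * T * u) ^ (2 * k)) V :=
      ((cφ.pow (2 * k)).integrableOn_Icc (a := 0) (b := 1)).mono_set hVI
    have hsub : {u | w₁ u ≠ 0} ∩ Win k q y z C₂ (4 * T) ⊆ V := by
      rintro u ⟨hu, hu1, hu2⟩
      obtain ⟨h5, h6⟩ := hs1 u hu
      have hMR : 0 ≤ aM q y (4 * T * u) ^ q * aR y z (4 * T * u) :=
        mul_nonneg (pow_nonneg (norm_nonneg _) _) (norm_nonneg _)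
      refine ⟨⟨by nlinarith, by nlinarith⟩, ?_, ?_⟩
      · refine hu1.trans (mul_le_mul_of_nonneg_right ?_ hMR)
        rw [hCd]
        linarith
      · set s : ℝ := Real.sqrt (Real.log (Real.log T)) with hs
        have hs1' : 1 ≤ s := by
          rw [hs]
          exact Real.one_le_sqrt.2 l1
        have hs2' : Real.sqrt (Real.log (Real.log (4 * T))) ≤ 2 * s := by
          rw [Real.sqrt_le_left (by linarith), mul_pow, hs, Real.sq_sqrt (by linarith)]
          linarith
        have h8 : |Real.log (az (4 * T * u)) - k * Real.log (Real.log (4 * T))| ≤ C₂ * (2 * s) :=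
          hu2.trans (mul_le_mul_of_nonneg_left hs2' (by linarith))
        rw [abs_le] at h8 ⊢
        have h9 : (k : ℝ) * Real.log (Real.log T) ≤ k * Real.log (Real.log (4 * T)) :=
          mul_le_mul_of_nonneg_left l4 hk0
        have h10 : (k : ℝ) * Real.log (Real.log (4 * T)) ≤ k * Real.log (Real.log T) + k * s := by
          nlinarith [mul_le_mul_of_nonneg_left l5 hk0, mul_le_mul_of_nonneg_left hs1' hk0]
        have h11 : 0 ≤ 4 * 2 ^ (k ^ 2) * C₃ * s := mul_nonneg hCC (by linarith)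
        have h12 : C * s = C₂ * (2 * s) + k * s + 4 * 2 ^ (k ^ 2) * C₃ * s := by
          rw [hCd]
          ring
        have h13 : 0 ≤ (k : ℝ) * s := mul_nonneg hk0 (by linarith)
        rw [h12]
        constructor
        · linarith [h8.1]
        · linarith [h8.2]
    have e1 : ∫ u in {u | w₁ u ≠ 0} ∩ Win k q y z C₂ (4 * T), az (4 * T * u) ^ (2 * k) ≤
        ∫ u in V, az (4 * T * u) ^ (2 * k) :=
      setIntegral_mono_set hint (ae_of_all _ fun x => pow_nonneg (norm_nonneg _) _)
        (LE.le.eventuallyLE hsub)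
    have e2 : Real.log T ^ (k ^ 2) ≤ Real.log (4 * T) ^ (k ^ 2) :=
      pow_le_pow_left₀ hlog.le l2 _
    have e3 : c₂ * Real.log T ^ (k ^ 2) ≤ ∫ u in V, az (4 * T * u) ^ (2 * k) :=
      (mul_le_mul_of_nonneg_left e2 hc₂.le).trans (hW.trans e1)
    have e4 : 0 ≤ c₂ * Real.log T ^ (k ^ 2) := by positivity
    calc c₂ * T * Real.log T ^ (k ^ 2) = T * (c₂ * Real.log T ^ (k ^ 2)) := by ring
      _ ≤ 4 * T * (c₂ * Real.log T ^ (k ^ 2)) := by nlinarith
      _ ≤ 4 * T * ∫ u in V, az (4 * T * u) ^ (2 * k) := mul_le_mul_of_nonneg_left e3 h4T0.le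

end Pool.Agent.Work.MP_56b8f5_nt.WM
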