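import Pool.Agent.Work.MP_56b8f5_nt.WM.StmtsR

/-!
MP_56b8f5_nt, block WR (large values): item R8 (MainV), the final theorem.
-/

set_option autoImplicit false

open MeasureTheory Set Filter Topology

noncomputable section

namespace Pool.Agent.Work.MP_56b8f5_nt.WM

open Pool.Agent.Work.MP_56b8f5_nt.EM

namespace I_MainV

/-- The choice of `α`. -/
theorem alpha {k q : ℕ} {L L' V : ℝ} (hk : 2 ≤ k) (hq : 1 ≤ q) (hL : 1 ≤ L) (h1 : L ≤ L')
    (h2 : L' ≤ L + 1) (hq2 : L' ≤ (q : ℝ) ^ 2) (hV : L ≤ V) (hV2 : V ≤ k * L) :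
    ∃ α : ℝ, 1 + 1 / (q : ℝ) ≤ α ∧ α ≤ k ∧ |α * L' - V| ≤ 1 + Real.sqrt L' ∧
      α ^ 2 * L' ≤ V ^ 2 / L + 2 + 2 * Real.sqrt L' := by
  have hL0 : 0 < L := by linarith
  have hL'0 : 0 < L' := by linarith
  have hq0 : (0 : ℝ) < q := by exact_mod_cast (by omega : 0 < q)
  have hq1 : (1 : ℝ) ≤ q := by exact_mod_cast hq
  have hk2 : (2 : ℝ) ≤ k := by exact_mod_cast hk
  have hs0 : 0 ≤ Real.sqrt L' := Real.sqrt_nonneg _
  have hss : Real.sqrt L' * Real.sqrt L' = L' := Real.mul_self_sqrt hL'0.le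
  have hsq : Real.sqrt L' ≤ q := by
    rw [show (q : ℝ) = Real.sqrt ((q : ℝ) ^ 2) from (Real.sqrt_sq hq0.le).symm]
    exact Real.sqrt_le_sqrt hq2
  have hLq : L' / q ≤ Real.sqrt L' := by
    rw [div_le_iff₀ hq0]
    nlinarith
  have hLq2 : L' / (q : ℝ) ^ 2 ≤ 1 := by
    rw [div_le_one (by positivity)]
    exact hq2
  have hV0 : 0 ≤ V := by linarith
  by_cases hc : 1 + 1 / (q : ℝ) ≤ V / L'
  · refine ⟨V / L', hc, ?_, ?_, ?_⟩
    · rw [div_le_iff₀ hL'0]
      nlinarith
    · rw [div_mul_cancel₀ _ hL'0.ne', sub_self, abs_zero]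
      linarith
    · have e : (V / L') ^ 2 * L' = V ^ 2 / L' := by
        field_simp
      rw [e]
      have : V ^ 2 / L' ≤ V ^ 2 / L := div_le_div_of_nonneg_left (by positivity) hL0 h1
      linarith
  · push Not at hc
    refine ⟨1 + 1 / (q : ℝ), le_refl _, ?_, ?_, ?_⟩
    · have : 1 / (q : ℝ) ≤ 1 := by
        rw [div_le_one hq0]
        exact hq1
      linarith
    · have e : (1 + 1 / (q : ℝ)) * L' = L' + L' / q := by ring
      rw [div_lt_iff₀ hL'0] at hc
      rw [abs_le]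
      constructor
      · linarith
      · rw [e]
        linarith
    · have e : (1 + 1 / (q : ℝ)) ^ 2 * L' = L' + 2 * (L' / q) + L' / (q : ℝ) ^ 2 := by
        field_simp
        ring
      rw [e]
      have : L ≤ V ^ 2 / L := by
        rw [le_div_iff₀ hL0]
        nlinarith
      linarith

/-- `log log (4T)` against `log log T`. -/
theorem loglog {T : ℝ} (hT : 4 ≤ T) (hT2 : Real.exp (Real.exp 1) ≤ T) :
    1 ≤ Real.log (Real.log T) ∧ Real.log (Real.log T) ≤ Real.log (Real.log (4 * T)) ∧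
      Real.log (Real.log (4 * T)) ≤ Real.log (Real.log T) + 1 := by
  have hT0 : 0 < T := by linarith
  have h1 : Real.exp 1 ≤ Real.log T := by
    rw [Real.le_log_iff_exp_le hT0]
    exact hT2
  have hl0 : 0 < Real.log T := lt_of_lt_of_le (Real.exp_pos 1) h1
  have h4 : Real.log (4 * T) ≤ 2 * Real.log T := by
    rw [Real.log_mul (by norm_num) hT0.ne']
    have : Real.log 4 ≤ Real.log T := Real.log_le_log (by norm_num) hT
    linarith
  have h5 : Real.log T ≤ Real.log (4 * T) := Real.log_le_log hT0 (by linarith)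
  refine ⟨?_, Real.log_le_log hl0 h5, ?_⟩
  · rw [Real.le_log_iff_exp_le hl0]
    exact h1
  · have h6 : Real.log (Real.log (4 * T)) ≤ Real.log (2 * Real.log T) :=
      Real.log_le_log (lt_of_lt_of_le hl0 h5) h4
    rw [Real.log_mul (by norm_num) hl0.ne'] at h6
    have h7 : Real.log 2 ≤ 1 := by
      have := Real.log_two_lt_d9
      linarith
    linarith

/-- Change of variables. -/
theorem scale {T' : ℝ} (hT' : 0 < T') (A S : Set ℝ) (hS : volume S ≠ ⊤)
    (h : ∀ u ∈ A, T' * u ∈ S) : T' * volume.real A ≤ volume.real S := by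
  have e : volume ((fun u => T' * u) ⁻¹' S) = ENNReal.ofReal |T'⁻¹| * volume S :=
    Real.volume_preimage_mul_left hT'.ne' S
  have e2 : volume.real ((fun u => T' * u) ⁻¹' S) = T'⁻¹ * volume.real S := by
    unfold Measure.real
    rw [e, ENNReal.toReal_mul, ENNReal.toReal_ofReal (abs_nonneg _),
      abs_of_pos (inv_pos.2 hT')]
  have e3 : volume.real A ≤ volume.real ((fun u => T' * u) ⁻¹' S) := by
    refine measureReal_mono (fun u hu => h u hu) ?_
    rw [e]
    exact ENNReal.mul_ne_top ENNReal.ofReal_ne_top hS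
  rw [e2] at e3
  calc T' * volume.real A ≤ T' * (T'⁻¹ * volume.real S) :=
        mul_le_mul_of_nonneg_left e3 hT'.le
    _ = volume.real S := by
        rw [← mul_assoc, mul_inv_cancel₀ hT'.ne', one_mul]

end I_MainV

open I_MainV

theorem MainV_pf (h1 : S_Par) (h2 : S_WinV) (h4 : S_Wts) : S_MainV := by
  intro k hk
  obtain ⟨CP, hCP, hP⟩ := h1 k (by omega)
  obtain ⟨w, _, hw, _, hw0, hsupp, _⟩ := h4
  obtain ⟨C', T0, hC', hWin⟩ := h2 w hw hw0 k CP hk hCP
  refine ⟨2 * C' + 6, by linarith, ?_⟩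
  have e1 : ∀ᶠ T : ℝ in atTop, ∃ q y z, IsPar k CP (4 * T) q y z :=
    (tendsto_id.const_mul_atTop (by norm_num : (0 : ℝ) < 4)).eventually hP
  filter_upwards [e1, eventually_ge_atTop 4, eventually_ge_atTop (Real.exp (Real.exp 1)),
    eventually_ge_atTop T0] with T hpar hT4 hTe hT0
  intro V hV hV2
  obtain ⟨q, y, z, hp⟩ := hpar
  obtain ⟨hL, hLL, hLL2⟩ := loglog hT4 hTe
  set L := Real.log (Real.log T) with hLdef
  set L' := Real.log (Real.log (4 * T)) with hL'def
  obtain ⟨α, ha1, ha2, ha3, ha4⟩ := alpha (V := V) hk hp.hq hL hLL hLL2 hp.hq2 hV hV2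
  have hTpos : 0 < T := by linarith
  have hw' := hWin (4 * T) (by linarith) q y z hp α ha1 ha2
  rw [← hL'def] at hw'
  have hs1 : 1 ≤ Real.sqrt L := by
    rw [show (1 : ℝ) = Real.sqrt 1 from Real.sqrt_one.symm]
    exact Real.sqrt_le_sqrt hL
  have hs2 : Real.sqrt L' ≤ 2 * Real.sqrt L := by
    rw [show 2 * Real.sqrt L = Real.sqrt (4 * L) by
      rw [Real.sqrt_mul (by norm_num)]
      congr 1
      rw [show (4 : ℝ) = 2 ^ 2 by norm_num]
      exact (Real.sqrt_sq (by norm_num)).symm]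
    exact Real.sqrt_le_sqrt (by linarith)
  have hsc := scale (T' := 4 * T) (by linarith)
    ({u | w u ≠ 0} ∩ {u | |Real.log (az (4 * T * u)) - α * L'| ≤ C' * Real.sqrt L'})
    {t | t ∈ Icc T (2 * T) ∧ |Real.log (az t) - V| ≤ (2 * C' + 6) * Real.sqrt L}
    (by
      refine ne_top_of_le_ne_top ?_ (measure_mono (t := Icc T (2 * T)) fun t ht => ht.1)
      rw [Real.volume_Icc]
      exact ENNReal.ofReal_ne_top)
    (by
      rintro u ⟨hu1, hu2⟩
      obtain ⟨hu3, hu4⟩ := hsupp u hu1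
      refine ⟨⟨by nlinarith, by nlinarith⟩, ?_⟩
      have hu2' : |Real.log (az (4 * T * u)) - α * L'| ≤ C' * Real.sqrt L' := hu2
      have t1 : |Real.log (az (4 * T * u)) - V| ≤
          |Real.log (az (4 * T * u)) - α * L'| + |α * L' - V| := by
        have := abs_add_le (Real.log (az (4 * T * u)) - α * L') (α * L' - V)
        rw [sub_add_sub_cancel] at this
        exact this
      have t2 : C' * Real.sqrt L' ≤ C' * (2 * Real.sqrt L) :=
        mul_le_mul_of_nonneg_left hs2 (by linarith)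
      linarith)
  have hexp : Real.exp (-(V ^ 2 / L) - (2 * C' + 6) * Real.sqrt L) ≤
      Real.exp (-(α ^ 2 * L') - C' * Real.sqrt L') := by
    apply Real.exp_le_exp.2
    have t2 : C' * Real.sqrt L' ≤ C' * (2 * Real.sqrt L) :=
      mul_le_mul_of_nonneg_left hs2 (by linarith)
    linarith
  calc T * Real.exp (-(V ^ 2 / L) - (2 * C' + 6) * Real.sqrt L)
      ≤ 4 * T * Real.exp (-(α ^ 2 * L') - C' * Real.sqrt L') := by
        have := Real.exp_pos (-(V ^ 2 / L) - (2 * C' + 6) * Real.sqrt L)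
        nlinarith [mul_le_mul_of_nonneg_left hexp hTpos.le,
          mul_pos hTpos (Real.exp_pos (-(α ^ 2 * L') - C' * Real.sqrt L'))]
    _ ≤ 4 * T * volume.real ({u | w u ≠ 0} ∩
          {u | |Real.log (az (4 * T * u)) - α * L'| ≤ C' * Real.sqrt L'}) :=
        mul_le_mul_of_nonneg_left hw' (by linarith)
    _ ≤ _ := hsc

end Pool.Agent.Work.MP_56b8f5_nt.WM
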