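import Pool.Agent.Work.MP_56b8f5_nt.WM.Stmts

/-!
MP_56b8f5_nt, block WM, item B6 (Par): choice of the parameters.
-/

set_option autoImplicit false

open MeasureTheory Set Filter Topology

noncomputable section

namespace Pool.Agent.Work.MP_56b8f5_nt.WM

namespace I_Par

theorem sqrt_le_floor {x : ℝ} (hx : 4 ≤ x) : Real.sqrt x ≤ (⌊x⌋₊ : ℝ) := by
  have h1 : x < (⌊x⌋₊ : ℝ) + 1 := Nat.lt_floor_add_one x
  have h2 : 2 ≤ Real.sqrt x := by
    apply Real.le_sqrt_of_sq_le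
    linarith
  have h3 : Real.sqrt x ^ 2 = x := Real.sq_sqrt (by linarith)
  nlinarith

theorem four_le {a : ℝ} (h : Real.log 4 ≤ a) : (4 : ℝ) ≤ Real.exp a := by
  calc (4 : ℝ) = Real.exp (Real.log 4) := (Real.exp_log (by norm_num)).symm
    _ ≤ _ := Real.exp_le_exp.mpr h

theorem log_floor {a : ℝ} (h : Real.log 4 ≤ a) : a / 2 ≤ Real.log (⌊Real.exp a⌋₊ : ℝ) := by
  have h5 := sqrt_le_floor (four_le h)
  have h6 : Real.sqrt (Real.exp a) = Real.exp (a / 2) := (Real.exp_half a).symm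
  rw [h6] at h5
  calc a / 2 = Real.log (Real.exp (a / 2)) := (Real.log_exp _).symm
    _ ≤ _ := Real.log_le_log (Real.exp_pos _) h5

theorem core (k : ℕ) (hk : 1 ≤ k) (L θ : ℝ) (q : ℕ) (hθ : θ = 1 / (12 * ((k : ℝ) + 1)))
    (hq : 1 ≤ q) (hL : 0 < L) (h1 : Real.log L ≤ (q : ℝ) ^ 2)
    (h2 : (q : ℝ) ≤ 2 * Real.sqrt (Real.log L)) (h3 : Real.log 4 ≤ θ * L / q) :
    IsPar k (24 * ((k : ℝ) + 1)) (Real.exp L) q ⌊Real.exp (θ * L / q)⌋₊ ⌊Real.exp (θ * L)⌋₊ := by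
  have hk0 : (1 : ℝ) ≤ (k : ℝ) := by exact_mod_cast hk
  have hq0 : (1 : ℝ) ≤ (q : ℝ) := by exact_mod_cast hq
  have hθ0 : 0 < θ := by rw [hθ]; positivity
  have hθL : 0 < θ * L := mul_pos hθ0 hL
  have hle : θ * L / q ≤ θ * L := div_le_self hθL.le hq0
  have hyz : ⌊Real.exp (θ * L / q)⌋₊ ≤ ⌊Real.exp (θ * L)⌋₊ :=
    Nat.floor_le_floor (Real.exp_le_exp.mpr hle)
  have hy2 : 2 ≤ ⌊Real.exp (θ * L / q)⌋₊ := by
    apply Nat.le_floor
    have := four_le h3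
    push_cast
    linarith
  have hyq : ⌊Real.exp (θ * L / q)⌋₊ ^ q ≤ ⌊Real.exp (θ * L)⌋₊ := by
    apply Nat.le_floor
    push_cast
    calc (⌊Real.exp (θ * L / q)⌋₊ : ℝ) ^ q ≤ (Real.exp (θ * L / q)) ^ q :=
          pow_le_pow_left₀ (Nat.cast_nonneg _) (Nat.floor_le (Real.exp_pos _).le) q
      _ = Real.exp (θ * L) := by
          rw [← Real.exp_nat_mul]
          congr 1
          field_simp
  have hz1 : (⌊Real.exp (θ * L)⌋₊ : ℝ) ≤ Real.exp (θ * L) := Nat.floor_le (Real.exp_pos _).le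
  have key : ∀ n e : ℕ, ∀ c : ℝ, n ≤ ⌊Real.exp (θ * L)⌋₊ ^ e → c * (e : ℝ) * θ ≤ 1 → ∀ d : ℕ,
      (d : ℝ) = c → (n : ℝ) ^ d ≤ Real.exp L := by
    intro n e c hn hc d hd
    have e1 : (n : ℝ) ≤ Real.exp (θ * L) ^ e := by
      calc (n : ℝ) ≤ ((⌊Real.exp (θ * L)⌋₊ ^ e : ℕ) : ℝ) := by exact_mod_cast hn
        _ = (⌊Real.exp (θ * L)⌋₊ : ℝ) ^ e := by push_cast; rfl
        _ ≤ _ := pow_le_pow_left₀ (Nat.cast_nonneg _) hz1 e
    calc (n : ℝ) ^ d ≤ (Real.exp (θ * L) ^ e) ^ d := pow_le_pow_left₀ (Nat.cast_nonneg _) e1 d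
      _ = Real.exp ((c * (e : ℝ) * θ) * L) := by
          rw [← Real.exp_nat_mul, ← Real.exp_nat_mul, hd]
          congr 1
          ring
      _ ≤ Real.exp L := by
          apply Real.exp_le_exp.mpr
          nlinarith
  refine ⟨hq, hy2, hyz, ?_, ?_, ?_, ?_, ?_, ?_⟩
  · rw [Real.log_exp]; exact h1
  · rw [Real.log_exp]
    have : 0 ≤ Real.sqrt (Real.log L) := Real.sqrt_nonneg _
    nlinarith
  · refine key _ (2 * (k + 1)) 3 ?_ ?_ 3 (by norm_num)
    · have hz0 : 1 ≤ ⌊Real.exp (θ * L)⌋₊ := le_trans (by omega) hyz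
      calc ⌊Real.exp (θ * L / q)⌋₊ ^ (q * k + 1) * ⌊Real.exp (θ * L)⌋₊ ^ (k + 1)
          ≤ ⌊Real.exp (θ * L / q)⌋₊ ^ (q * (k + 1)) * ⌊Real.exp (θ * L)⌋₊ ^ (k + 1) := by
            apply Nat.mul_le_mul_right
            apply Nat.pow_le_pow_right (by omega)
            nlinarith
        _ ≤ ⌊Real.exp (θ * L)⌋₊ ^ (k + 1) * ⌊Real.exp (θ * L)⌋₊ ^ (k + 1) := by
            apply Nat.mul_le_mul_right
            rw [pow_mul]
            exact Nat.pow_le_pow_left hyq _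
        _ = _ := by rw [← pow_add]; congr 1; ring
    · rw [hθ]
      push_cast
      rw [mul_one_div, div_le_one (by positivity)]
      nlinarith
  · refine key _ 2 9 ?_ ?_ 9 (by norm_num)
    · calc ⌊Real.exp (θ * L / q)⌋₊ ^ q * ⌊Real.exp (θ * L)⌋₊
          ≤ ⌊Real.exp (θ * L)⌋₊ * ⌊Real.exp (θ * L)⌋₊ := Nat.mul_le_mul_right _ hyq
        _ = _ := by ring
    · rw [hθ]
      push_cast
      rw [mul_one_div, div_le_one (by positivity)]
      nlinarith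
  · rw [Real.log_exp]
    have := log_floor (h3.trans hle)
    calc L = 24 * ((k : ℝ) + 1) * (θ * L / 2) := by rw [hθ]; field_simp; norm_num
      _ ≤ _ := by gcongr
  · rw [Real.log_exp]
    have := log_floor h3
    calc L = 24 * ((k : ℝ) + 1) * q * (θ * L / q / 2) := by rw [hθ]; field_simp; norm_num
      _ ≤ _ := by gcongr

end I_Par

theorem Par_pf : S_Par := by
  intro k hk
  have hk0 : (1 : ℝ) ≤ (k : ℝ) := by exact_mod_cast hk
  refine ⟨24 * ((k : ℝ) + 1), by nlinarith, ?_⟩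
  set θ : ℝ := 1 / (12 * ((k : ℝ) + 1)) with hθ
  have hθ0 : 0 < θ := by rw [hθ]; positivity
  have hlog : Tendsto Real.log atTop atTop := Real.tendsto_log_atTop
  have hll : Tendsto (fun T : ℝ => Real.log (Real.log T)) atTop atTop := hlog.comp hlog
  have hsq : Tendsto (fun T : ℝ => Real.sqrt (Real.log T)) atTop atTop :=
    Real.tendsto_sqrt_atTop.comp hlog
  filter_upwards [eventually_gt_atTop (0 : ℝ), hlog.eventually_gt_atTop 0, hll.eventually_ge_atTop 1,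
    hsq.eventually_ge_atTop (2 * Real.log 4 / θ)] with T hT hL hLL hs
  set L := Real.log T with hLdef
  have hTL : Real.exp L = T := Real.exp_log hT
  set q : ℕ := ⌈Real.sqrt (Real.log L)⌉₊ with hq
  have hs1 : 1 ≤ Real.sqrt (Real.log L) := by
    apply Real.le_sqrt_of_sq_le
    linarith
  have hqs : Real.sqrt (Real.log L) ≤ (q : ℝ) := Nat.le_ceil _
  have hq1 : 1 ≤ q := by
    have : (1 : ℝ) ≤ (q : ℝ) := hs1.trans hqs
    exact_mod_cast this
  have hq2 : (q : ℝ) ≤ 2 * Real.sqrt (Real.log L) := by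
    have := Nat.ceil_lt_add_one (Real.sqrt_nonneg (Real.log L))
    have h' : (q : ℝ) < Real.sqrt (Real.log L) + 1 := this
    linarith
  have hsL : Real.sqrt (Real.log L) ^ 2 = Real.log L := Real.sq_sqrt (by linarith)
  have h1 : Real.log L ≤ (q : ℝ) ^ 2 := by
    rw [← hsL]
    exact pow_le_pow_left₀ (Real.sqrt_nonneg _) hqs 2
  have hqL : (q : ℝ) ≤ 2 * Real.sqrt L := by
    refine hq2.trans ?_
    have : Real.sqrt (Real.log L) ≤ Real.sqrt L := Real.sqrt_le_sqrt (Real.log_le_self hL.le)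
    linarith
  have h3 : Real.log 4 ≤ θ * L / q := by
    have hq0 : (0 : ℝ) < (q : ℝ) := by exact_mod_cast hq1
    rw [le_div_iff₀ hq0]
    have h4 : 0 < Real.log 4 := Real.log_pos (by norm_num)
    have h5 : 2 * Real.log 4 ≤ θ * Real.sqrt L := by
      rw [div_le_iff₀ hθ0] at hs
      linarith
    have h6 : Real.sqrt L * Real.sqrt L = L := Real.mul_self_sqrt hL.le
    calc Real.log 4 * (q : ℝ) ≤ Real.log 4 * (2 * Real.sqrt L) := by gcongr
      _ = (2 * Real.log 4) * Real.sqrt L := by ring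
      _ ≤ (θ * Real.sqrt L) * Real.sqrt L := by gcongr
      _ = θ * L := by rw [mul_assoc, h6]
  have := I_Par.core k hk L θ q hθ hq1 hL h1 hq2 h3
  rw [hTL] at this
  exact ⟨q, _, _, this⟩

end Pool.Agent.Work.MP_56b8f5_nt.WM
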