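import Pool.Agent.Work.MP_56b8f5_nt.WM.StmtsR

/-!
MP_56b8f5_nt, block WR, item R7 (WinV): large values at scale `T`.
-/

set_option autoImplicit false

open MeasureTheory Set Filter Topology

noncomputable section

namespace Pool.Agent.Work.MP_56b8f5_nt.WM

open Pool.Agent.Work.MP_56b8f5_nt.EM

namespace I_WinV

lemma cont_az : Continuous az := by
  unfold az
  refine continuous_iff_continuousAt.2 fun t => ?_
  have h1 : (1 / 2 + (t : ℂ) * Complex.I) ≠ 1 := by
    intro h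
    have := congrArg Complex.re h
    norm_num at this
  have h2 : ContinuousAt riemannZeta (1 / 2 + (t : ℂ) * Complex.I) :=
    (differentiableAt_riemannZeta h1).continuousAt
  have h3 : ContinuousAt (fun t : ℝ => (1 / 2 + (t : ℂ) * Complex.I)) t := by fun_prop
  exact (ContinuousAt.comp (f := fun t : ℝ => (1 / 2 + (t : ℂ) * Complex.I)) h2 h3).norm

lemma cont_DP (b : ℕ → ℝ) (X : ℕ) : Continuous (DP b X) := by
  unfold DP
  refine continuous_finsetSum _ fun n _ => ?_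
  refine continuous_const.mul ?_
  rcases Nat.eq_zero_or_pos n with rfl | hn
  · have : (fun t : ℝ => ((0 : ℕ) : ℂ) ^ (-(1 / 2 + (t : ℂ) * Complex.I))) = fun _ => 0 := by
      funext t
      rw [Nat.cast_zero, Complex.zero_cpow]
      intro h
      have := congrArg Complex.re h
      simp at this
    rw [this]
    exact continuous_const
  · refine Continuous.const_cpow (by fun_prop) (Or.inl ?_)
    exact_mod_cast hn.ne'

lemma cont_aM (q y : ℕ) : Continuous (aM q y) := (cont_DP _ _).norm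

lemma cont_aR (y z : ℕ) : Continuous (aR y z) := (cont_DP _ _).norm

/-- integral with respect to the measure `w du` -/
lemma int_nu {w : ℝ → ℝ} (hw : IsW w) (g : ℝ → ℝ) :
    ∫ x, g x ∂(volume.withDensity fun u => ENNReal.ofReal (w u)) = ∫ x, w x * g x := by
  rw [integral_withDensity_eq_integral_toReal_smul]
  · refine integral_congr_ae (ae_of_all _ fun x => ?_)
    simp only [smul_eq_mul]
    rw [ENNReal.toReal_ofReal (hw.nonneg x)]
  · exact hw.smooth.continuous.measurable.ennreal_ofReal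
  · exact ae_of_all _ fun x => ENNReal.ofReal_lt_top

lemma intS_nu {w : ℝ → ℝ} (hw : IsW w) (g : ℝ → ℝ) {S : Set ℝ} (hS : MeasurableSet S) :
    ∫ x in S, g x ∂(volume.withDensity fun u => ENNReal.ofReal (w u)) = ∫ x in S, w x * g x := by
  rw [setIntegral_withDensity_eq_setIntegral_toReal_smul]
  · refine integral_congr_ae (ae_of_all _ fun x => ?_)
    simp only [smul_eq_mul]
    rw [ENNReal.toReal_ofReal (hw.nonneg x)]
  · exact hw.smooth.continuous.measurable.ennreal_ofReal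
  · exact ae_of_all _ fun x => ENNReal.ofReal_lt_top
  · exact hS

lemma supp_Icc {w : ℝ → ℝ} (hw : IsW w) : {u | w u ≠ 0} ⊆ Icc (0 : ℝ) 1 := by
  obtain ⟨c, hc, h⟩ := hw.supp
  intro u hu
  exact ⟨hc.le.trans (h u hu).1, (h u hu).2⟩

lemma fin_nu {w : ℝ → ℝ} (hw : IsW w) :
    IsFiniteMeasure (volume.withDensity fun u => ENNReal.ofReal (w u)) := by
  refine isFiniteMeasure_withDensity_ofReal (f := w) ?_
  have h1 : IntegrableOn w (Icc (0 : ℝ) 1) := hw.smooth.continuous.integrableOn_Icc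
  have h2 : Integrable w := by
    rw [← integrableOn_iff_integrable_of_support_subset (s := Icc (0 : ℝ) 1)]
    · exact h1
    · exact supp_Icc hw
  exact h2.2

/-- Properties of `m₁ = ⌊q(α-1)⌋`. -/
lemma floor_facts {k q : ℕ} {α : ℝ} (hq : 1 ≤ q) (h1 : 1 + 1 / (q : ℝ) ≤ α) (h2 : α ≤ k) :
    1 ≤ ⌊(q : ℝ) * (α - 1)⌋₊ ∧ ⌊(q : ℝ) * (α - 1)⌋₊ + q ≤ q * k ∧
      be q ⌊(q : ℝ) * (α - 1)⌋₊ ≤ α ∧ |be q ⌊(q : ℝ) * (α - 1)⌋₊ - α| ≤ 1 / q ∧
      0 ≤ be q ⌊(q : ℝ) * (α - 1)⌋₊ := by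
  have hq0 : (0 : ℝ) < q := by exact_mod_cast hq
  have h3 : 1 ≤ (q : ℝ) * (α - 1) := by
    have h := mul_le_mul_of_nonneg_left h1 hq0.le
    rw [mul_add, mul_one_div_cancel hq0.ne', mul_one] at h
    linarith
  have h4 : (⌊(q : ℝ) * (α - 1)⌋₊ : ℝ) ≤ (q : ℝ) * (α - 1) := Nat.floor_le (by linarith)
  have h5 : (q : ℝ) * (α - 1) < (⌊(q : ℝ) * (α - 1)⌋₊ : ℝ) + 1 := Nat.lt_floor_add_one _
  have hb : be q ⌊(q : ℝ) * (α - 1)⌋₊ * q = (⌊(q : ℝ) * (α - 1)⌋₊ : ℝ) + q := by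
    unfold be
    rw [div_mul_cancel₀ _ hq0.ne', Nat.cast_add]
  have hle : be q ⌊(q : ℝ) * (α - 1)⌋₊ ≤ α := by
    refine le_of_mul_le_mul_right ?_ hq0
    rw [hb]
    linarith
  have hge : α - 1 / q ≤ be q ⌊(q : ℝ) * (α - 1)⌋₊ := by
    refine le_of_mul_le_mul_right ?_ hq0
    rw [hb, sub_mul, one_div, inv_mul_cancel₀ hq0.ne']
    linarith
  refine ⟨?_, ?_, hle, ?_, ?_⟩
  · exact Nat.one_le_floor_iff _ |>.2 h3
  · have h6 : ((⌊(q : ℝ) * (α - 1)⌋₊ + q : ℕ) : ℝ) ≤ ((q * k : ℕ) : ℝ) := by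
      push_cast
      have := mul_le_mul_of_nonneg_left h2 hq0.le
      linarith
    exact_mod_cast h6
  · rw [abs_le]
    constructor <;> [linarith; skip]
    have : (0 : ℝ) ≤ 1 / q := by positivity
    linarith
  · unfold be
    positivity

/-- The final numerical step. -/
lemma num {k : ℕ} {α b s L c K C' : ℝ} (hb0 : 0 ≤ b) (hb : b ≤ α) (hα : α ≤ k) (hs : 0 ≤ s)
    (hK : 1 ≤ K) (hsL : s ≤ Real.log K + L) (hc : 0 < c) (hL : 1 ≤ L) :
    Real.exp (-(α ^ 2 * L) - (C' + (k : ℝ) ^ 2 * Real.log K + |Real.log c|) * Real.sqrt L) ≤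
      c * Real.exp (-(b ^ 2 * s) - C' * Real.sqrt L) := by
  have hlK : 0 ≤ Real.log K := Real.log_nonneg hK
  have hsq : 1 ≤ Real.sqrt L := by
    rw [Real.one_le_sqrt]
    exact hL
  have h1 : b ^ 2 * s ≤ α ^ 2 * (Real.log K + L) := by
    refine mul_le_mul (pow_le_pow_left₀ hb0 hb 2) hsL hs (sq_nonneg _)
  have h2 : α ^ 2 * Real.log K ≤ (k : ℝ) ^ 2 * Real.log K :=
    mul_le_mul_of_nonneg_right (pow_le_pow_left₀ (hb0.trans hb) hα 2) hlK
  have h3 : (k : ℝ) ^ 2 * Real.log K ≤ (k : ℝ) ^ 2 * Real.log K * Real.sqrt L :=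
    le_mul_of_one_le_right (by positivity) hsq
  have h4 : |Real.log c| ≤ |Real.log c| * Real.sqrt L :=
    le_mul_of_one_le_right (abs_nonneg _) hsq
  have h5 : -|Real.log c| ≤ Real.log c := neg_abs_le _
  conv_rhs => rw [← Real.exp_log hc, ← Real.exp_add]
  rw [Real.exp_le_exp]
  nlinarith

end I_WinV

open I_WinV in
/-- **R7 (WinV).** -/
theorem WinV_pf (h1 : S_FinG) (h2 : S_TenR) (h3 : S_LowF) (h4 : S_GWr) (h7 : S_Num) : S_WinV := by
  intro w hw hW0 k C hk hC
  obtain ⟨c₀, T₁, hc₀, hLow⟩ := h3 w hw hW0 k C hk hC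
  obtain ⟨C₀, T₂, hC₀, hTen⟩ := h2 w hw k C hk hC
  obtain ⟨A, η, κ, hA, hη, hη1, hκ, hFin⟩ := h1 k c₀ C₀ hk hc₀ (by linarith)
  obtain ⟨C', T₃, hC', hGW⟩ := h4 k C A η κ hk hC hA hη hη1 hκ
  obtain ⟨K, T₅, hK, hT₅, hNum⟩ := h7 k C hC
  have hlK : 0 ≤ Real.log K := Real.log_nonneg hK
  refine ⟨C' + (k : ℝ) ^ 2 * Real.log K + |Real.log (c₀ / 2)|,
    max (max T₁ T₂) (max (max T₃ T₅) (Real.exp (Real.exp 1))), ?_, ?_⟩
  · have : 0 ≤ (k : ℝ) ^ 2 * Real.log K := by positivity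
    have := abs_nonneg (Real.log (c₀ / 2))
    linarith
  intro T hT q y z hpar α hα1 hα2
  have hT1 : T₁ ≤ T := le_trans (le_trans (le_max_left _ _) (le_max_left _ _)) hT
  have hT2 : T₂ ≤ T := le_trans (le_trans (le_max_right _ _) (le_max_left _ _)) hT
  have hT3 : T₃ ≤ T :=
    le_trans (le_trans (le_max_left _ _) (le_trans (le_max_left _ _) (le_max_right _ _))) hT
  have hT5 : T₅ ≤ T :=
    le_trans (le_trans (le_max_right _ _) (le_trans (le_max_left _ _) (le_max_right _ _))) hT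
  have hT6 : Real.exp (Real.exp 1) ≤ T :=
    le_trans (le_trans (le_max_right _ _) (le_max_right _ _)) hT
  have hT4 : 3 ≤ T := hT₅.trans hT5
  have hlog1 : Real.exp 1 ≤ Real.log T := by
    rw [Real.le_log_iff_exp_le (by linarith)]
    exact hT6
  have hLL : 1 ≤ Real.log (Real.log T) := by
    rw [Real.le_log_iff_exp_le (lt_of_lt_of_le (Real.exp_pos 1) hlog1)]
    exact hlog1
  obtain ⟨hm1, hmk, hbα, hba, hb0⟩ := floor_facts hpar.hq hα1 hα2
  set m₁ : ℕ := ⌊(q : ℝ) * (α - 1)⌋₊ with hm₁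
  have hLow' := hLow T hT1 q y z m₁ hpar hmk
  have hTen' := hTen T hT2 q y z m₁ hpar hm1 hmk
  have hGW' := hGW T hT3 q y z m₁ hpar hmk α hba
  obtain ⟨hS1, hS2, -, -, -, hS1e, -⟩ := hNum T hT5 q y z hpar
  set ν : Measure ℝ := volume.withDensity fun u => ENNReal.ofReal (w u) with hν
  have : IsFiniteMeasure ν := fin_nu hw
  have cφ : Continuous fun u : ℝ => az (T * u) := cont_az.comp (by fun_prop)
  have cm : Continuous fun u : ℝ => aM q y (T * u) := (cont_aM q y).comp (by fun_prop)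
  have cr : Continuous fun u : ℝ => aR y z (T * u) := (cont_aR y z).comp (by fun_prop)
  -- bound
  obtain ⟨B₁, hB₁⟩ := (isCompact_Icc (a := (0 : ℝ)) (b := 1)).bddAbove_image cφ.continuousOn
  obtain ⟨B₂, hB₂⟩ := (isCompact_Icc (a := (0 : ℝ)) (b := 1)).bddAbove_image cm.continuousOn
  obtain ⟨B₃, hB₃⟩ := (isCompact_Icc (a := (0 : ℝ)) (b := 1)).bddAbove_image cr.continuousOn
  have hbd : ∀ᵐ x ∂ν, az (T * x) ≤ max B₁ (max B₂ B₃) ∧ aM q y (T * x) ≤ max B₁ (max B₂ B₃) ∧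
      aR y z (T * x) ≤ max B₁ (max B₂ B₃) := by
    rw [hν, ae_withDensity_iff hw.smooth.continuous.measurable.ennreal_ofReal]
    refine ae_of_all _ fun x hx => ?_
    have hx' : x ∈ Icc (0 : ℝ) 1 := by
      refine supp_Icc hw ?_
      intro h0
      apply hx
      rw [h0, ENNReal.ofReal_zero]
    refine ⟨(hB₁ (mem_image_of_mem _ hx')).trans (le_max_left _ _),
      (hB₂ (mem_image_of_mem _ hx')).trans ((le_max_left _ _).trans (le_max_right _ _)),
      (hB₃ (mem_image_of_mem _ hx')).trans ((le_max_right _ _).trans (le_max_right _ _))⟩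
  have hX : 0 < Xb k q y z m₁ := Real.exp_pos _
  have hq1 : (1 : ℝ) ≤ q := by exact_mod_cast hpar.hq
  have hD : 1 ≤ (q : ℝ) ^ (2 * k + 1) := one_le_pow₀ hq1
  have e0 : (fun a b : ℕ => ∫ x, aM q y (T * x) ^ (2 * a) * aR y z (T * x) ^ (2 * b) ∂ν) =
      J0 w q y z T := by
    funext a b
    rw [hν, int_nu hw]
    rfl
  have e2 : (fun a b : ℕ => ∫ x, az (T * x) ^ 2 *
      (aM q y (T * x) ^ (2 * a) * aR y z (T * x) ^ (2 * b)) ∂ν) = J2 w q y z T := by
    funext a b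
    rw [hν, int_nu hw]
    rfl
  have key := hFin ν (fun u => az (T * u)) (fun u => aM q y (T * u)) (fun u => aR y z (T * u))
    (max B₁ (max B₂ B₃)) cφ.measurable cm.measurable cr.measurable
    (fun x => norm_nonneg _) (fun x => norm_nonneg _) (fun x => norm_nonneg _) hbd q m₁
    (Xb k q y z m₁) (Real.exp (be q m₁ / q * S1 y)) ((q : ℝ) ^ (2 * k + 1)) hpar.hq hm1 hX
    (Real.exp_pos _) hD (by rw [e0, e2]; exact hTen') (by rw [hν, int_nu hw]; exact hLow')
  set v : ℝ := Real.exp (be q m₁ / q * S1 y) with hv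
  set D : ℝ := (q : ℝ) ^ (2 * k + 1) with hDd
  set S : Set ℝ := {x | az (T * x) ≤ A * (aM q y (T * x) ^ q * aR y z (T * x)) ∧
    η * (aM q y (T * x) ^ q * aR y z (T * x)) ≤ az (T * x) ∧
      v / κ ≤ aM q y (T * x) ∧ aM q y (T * x) ≤ κ * v ∧
      1 / (κ * Real.sqrt D) ≤ aR y z (T * x) ∧ aR y z (T * x) ≤ κ * Real.sqrt D} with hSd
  have hSm : MeasurableSet S := by
    have m1 : MeasurableSet {x | az (T * x) ≤ A * (aM q y (T * x) ^ q * aR y z (T * x))} :=
      measurableSet_le cφ.measurable (by fun_prop)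
    have m2 : MeasurableSet {x | η * (aM q y (T * x) ^ q * aR y z (T * x)) ≤ az (T * x)} :=
      measurableSet_le (by fun_prop) cφ.measurable
    have m3 : MeasurableSet {x | v / κ ≤ aM q y (T * x)} :=
      measurableSet_le measurable_const cm.measurable
    have m4 : MeasurableSet {x | aM q y (T * x) ≤ κ * v} :=
      measurableSet_le cm.measurable measurable_const
    have m5 : MeasurableSet {x | 1 / (κ * Real.sqrt D) ≤ aR y z (T * x)} :=
      measurableSet_le measurable_const cr.measurable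
    have m6 : MeasurableSet {x | aR y z (T * x) ≤ κ * Real.sqrt D} :=
      measurableSet_le cr.measurable measurable_const
    exact m1.inter (m2.inter (m3.inter (m4.inter (m5.inter m6))))
  have hwm : MeasurableSet {u | w u ≠ 0} :=
    (measurableSet_eq_fun hw.smooth.continuous.measurable measurable_const).compl
  have cF : Continuous fun u : ℝ =>
      w u * (az (T * u) * (aM q y (T * u) ^ (2 * m₁ + q) * aR y z (T * u) ^ (2 * k - 1))) :=
    hw.smooth.continuous.mul (cφ.mul ((cm.pow _).mul (cr.pow _)))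
  have hint : IntegrableOn (fun u =>
      w u * (az (T * u) * (aM q y (T * u) ^ (2 * m₁ + q) * aR y z (T * u) ^ (2 * k - 1))))
      {u | w u ≠ 0} :=
    (cF.integrableOn_Icc (a := 0) (b := 1)).mono_set (supp_Icc hw)
  have hfin : ∀ G : Set ℝ, G ⊆ {u | w u ≠ 0} → volume G ≠ ⊤ := fun G hG =>
    ((measure_mono (hG.trans (supp_Icc hw))).trans_lt measure_Icc_lt_top).ne
  have hst : (∫ x in S, az (T * x) *
      (aM q y (T * x) ^ (2 * m₁ + q) * aR y z (T * x) ^ (2 * k - 1)) ∂ν) =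
      ∫ x in S, w x * (az (T * x) *
        (aM q y (T * x) ^ (2 * m₁ + q) * aR y z (T * x) ^ (2 * k - 1))) := by
    rw [hν, intS_nu hw _ hSm]
  rw [hst] at key
  have h5 : ∫ x in S, w x * (az (T * x) *
        (aM q y (T * x) ^ (2 * m₁ + q) * aR y z (T * x) ^ (2 * k - 1))) =
      ∫ x in S ∩ {u | w u ≠ 0}, w x * (az (T * x) *
        (aM q y (T * x) ^ (2 * m₁ + q) * aR y z (T * x) ^ (2 * k - 1))) := by
    refine setIntegral_eq_of_subset_of_forall_sdiff_eq_zero hSm inter_subset_left ?_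
    intro x hx
    have : w x = 0 := by
      by_contra h
      exact hx.2 ⟨hx.1, h⟩
    rw [this, zero_mul]
  rw [h5] at key
  set M : ℝ := Real.exp (2 * be q m₁ ^ 2 * S1 y + C' * Real.sqrt (Real.log (Real.log T))) with hM
  have hM0 : 0 < M := Real.exp_pos _
  have h6 : ∫ x in S ∩ {u | w u ≠ 0}, w x * (az (T * x) *
        (aM q y (T * x) ^ (2 * m₁ + q) * aR y z (T * x) ^ (2 * k - 1))) ≤
      ∫ x in S ∩ {u | w u ≠ 0}, M := by
    refine setIntegral_mono_on (hint.mono_set inter_subset_right)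
      (integrableOn_const (hfin _ inter_subset_right)) (hSm.inter hwm) ?_
    rintro x ⟨⟨a1, a2, a3, a4, a5, a6⟩, hx⟩
    have h := (hGW' _ _ _ v D hv hDd a1 a2 a3 a4 a5 a6).2
    refine le_trans ?_ h
    refine mul_le_of_le_one_left ?_ (hw.le_one x)
    exact mul_nonneg (norm_nonneg _)
      (mul_nonneg (pow_nonneg (norm_nonneg _) _) (pow_nonneg (norm_nonneg _) _))
  rw [setIntegral_const, smul_eq_mul] at h6
  have h7 : volume.real (S ∩ {u | w u ≠ 0}) ≤ volume.real ({u | w u ≠ 0} ∩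
      {u | |Real.log (az (T * u)) - α * Real.log (Real.log T)| ≤
        (C' + (k : ℝ) ^ 2 * Real.log K + |Real.log (c₀ / 2)|) *
          Real.sqrt (Real.log (Real.log T))}) := by
    refine measureReal_mono ?_ (hfin _ inter_subset_left)
    rintro x ⟨⟨a1, a2, a3, a4, a5, a6⟩, hx⟩
    refine ⟨hx, ?_⟩
    have h := (hGW' _ _ _ v D hv hDd a1 a2 a3 a4 a5 a6).1
    refine h.trans ?_
    refine mul_le_mul_of_nonneg_right ?_ (Real.sqrt_nonneg _)
    have : 0 ≤ (k : ℝ) ^ 2 * Real.log K := by positivity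
    have := abs_nonneg (Real.log (c₀ / 2))
    linarith
  refine le_trans ?_ h7
  have hs : S1 y ≤ Real.log K + Real.log (Real.log T) := by
    have hlT : 0 < Real.log T := lt_of_lt_of_le (Real.exp_pos 1) hlog1
    rw [← Real.log_mul (by linarith) hlT.ne',
      Real.le_log_iff_exp_le (mul_pos (by linarith) hlT)]
    exact hS1e
  have h8 := num (C' := C') hb0 hbα hα2 hS1 hK hs (by positivity : 0 < c₀ / 2) hLL
  refine h8.trans ?_
  have h9 : c₀ / 2 * Xb k q y z m₁ ≤ volume.real (S ∩ {u | w u ≠ 0}) * M := key.trans h6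
  have h10 : Real.exp (be q m₁ ^ 2 * S1 y) ≤ Xb k q y z m₁ := by
    unfold Xb
    rw [Real.exp_le_exp]
    have : 0 ≤ (k : ℝ) ^ 2 * S2 y z := by positivity
    linarith
  have h11 : c₀ / 2 * Real.exp (be q m₁ ^ 2 * S1 y) ≤ volume.real (S ∩ {u | w u ≠ 0}) * M :=
    (mul_le_mul_of_nonneg_left h10 (by positivity)).trans h9
  have h12 : Real.exp (-(be q m₁ ^ 2 * S1 y) - C' * Real.sqrt (Real.log (Real.log T))) * M =
      Real.exp (be q m₁ ^ 2 * S1 y) := by
    rw [hM, ← Real.exp_add]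
    congr 1
    ring
  refine le_of_mul_le_mul_right ?_ hM0
  rw [mul_assoc, h12]
  exact h11

end Pool.Agent.Work.MP_56b8f5_nt.WM
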