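import Pool.Agent.Work.MP_56b8f5_nt.WM.Stmts

set_option autoImplicit false

open MeasureTheory Set Filter Topology

noncomputable section

namespace Pool.Agent.Work.MP_56b8f5_nt.WM

open Pool.Agent.Work.MP_56b8f5_nt.EM

namespace I_FinR

lemma intg (ν : Measure ℝ) [IsFiniteMeasure ν] (φ m r : ℝ → ℝ) (B : ℝ) (hφ : Measurable φ)
    (hm : Measurable m) (hr : Measurable r) (h0 : ∀ x, 0 ≤ φ x) (h1 : ∀ x, 0 ≤ m x)
    (h2 : ∀ x, 0 ≤ r x) (hB : ∀ᵐ x ∂ν, φ x ≤ B ∧ m x ≤ B ∧ r x ≤ B) (a b c : ℕ) :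
    Integrable (fun x => φ x ^ a * (m x ^ b * r x ^ c)) ν := by
  refine Integrable.of_bound
    ((hφ.pow_const a).mul ((hm.pow_const b).mul (hr.pow_const c))).aestronglyMeasurable
    (|B| ^ a * (|B| ^ b * |B| ^ c)) ?_
  filter_upwards [hB] with x hx
  obtain ⟨h3, h4, h5⟩ := hx
  have k0 := h0 x
  have k1 := h1 x
  have k2 := h2 x
  rw [Real.norm_of_nonneg (by positivity)]
  have e : ∀ (t : ℝ) (n : ℕ), 0 ≤ t → t ≤ B → t ^ n ≤ |B| ^ n := fun t n ht htB =>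
    pow_le_pow_left₀ ht (htB.trans (le_abs_self B)) n
  exact mul_le_mul (e _ _ k0 h3) (mul_le_mul (e _ _ k1 h4) (e _ _ k2 h5) (by positivity)
    (by positivity)) (by positivity) (by positivity)

/-- The pointwise inequality outside the good set. -/
lemma pt (l p : ℕ) (A η κ v D : ℝ) (hA : 0 < A) (hη : 0 < η) (hκ : 0 < κ) (hv : 0 < v)
    (hD : 1 ≤ D) (f m r : ℝ) (hf : 0 ≤ f) (hm : 0 ≤ m) (hr : 0 ≤ r)
    (hn : ¬ (f ≤ A * (m ^ (p + 1) * r) ∧ η * (m ^ (p + 1) * r) ≤ f ∧ v / κ ≤ m ∧ m ≤ κ * v ∧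
      1 / (κ * Real.sqrt D) ≤ r ∧ r ≤ κ * Real.sqrt D)) :
    f * (m ^ ((p + 1) * (2 * l + 3)) * r ^ (2 * l + 3)) ≤
      A⁻¹ * (f ^ 2 * (m ^ (2 * ((p + 1) * (l + 1))) * r ^ (2 * (l + 1)))) +
      (η * (m ^ (2 * ((p + 1) * (l + 2))) * r ^ (2 * (l + 2))) +
      (((κ * v) ^ 2)⁻¹ * (f * (m ^ ((p + 1) * (2 * l + 3) + 2) * r ^ (2 * l + 3))) +
      ((v / κ) ^ 2 * (f * (m ^ ((p + 1) * (2 * l + 3) - 2) * r ^ (2 * l + 3))) +
      ((κ ^ 2 * D)⁻¹ * (f * (m ^ ((p + 1) * (2 * l + 3)) * r ^ (2 * l + 5))) +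
      (κ ^ 2 * D)⁻¹ * (f * (m ^ ((p + 1) * (2 * l + 3)) * r ^ (2 * l + 1))))))) := by
  have hD0 : 0 < D := by linarith
  have hs : 0 < Real.sqrt D := Real.sqrt_pos.mpr hD0
  have hss : Real.sqrt D ^ 2 = D := Real.sq_sqrt hD0.le
  set F := f * (m ^ ((p + 1) * (2 * l + 3)) * r ^ (2 * l + 3)) with hF
  have hF0 : 0 ≤ F := by positivity
  set t1 := A⁻¹ * (f ^ 2 * (m ^ (2 * ((p + 1) * (l + 1))) * r ^ (2 * (l + 1)))) with ht1
  set t2 := η * (m ^ (2 * ((p + 1) * (l + 2))) * r ^ (2 * (l + 2))) with ht2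
  set t3 := ((κ * v) ^ 2)⁻¹ * (f * (m ^ ((p + 1) * (2 * l + 3) + 2) * r ^ (2 * l + 3))) with ht3
  set t4 := (v / κ) ^ 2 * (f * (m ^ ((p + 1) * (2 * l + 3) - 2) * r ^ (2 * l + 3))) with ht4
  set t5 := (κ ^ 2 * D)⁻¹ * (f * (m ^ ((p + 1) * (2 * l + 3)) * r ^ (2 * l + 5))) with ht5
  set t6 := (κ ^ 2 * D)⁻¹ * (f * (m ^ ((p + 1) * (2 * l + 3)) * r ^ (2 * l + 1))) with ht6
  have p1 : 0 ≤ t1 := by positivity
  have p2 : 0 ≤ t2 := by positivity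
  have p3 : 0 ≤ t3 := by positivity
  have p4 : 0 ≤ t4 := by positivity
  have p5 : 0 ≤ t5 := by positivity
  have p6 : 0 ≤ t6 := by positivity
  have hFe : F = f * (m ^ (p + 1) * r) ^ (2 * l + 3) := by
    rw [hF, mul_pow, ← pow_mul]
  set Y := m ^ (p + 1) * r with hY
  have hY0 : 0 ≤ Y := by positivity
  by_cases c1 : f ≤ A * Y
  swap
  · have : F ≤ t1 := by
      have e : t1 = A⁻¹ * (f ^ 2 * Y ^ (2 * l + 2)) := by
        rw [ht1, hY, mul_pow, ← pow_mul]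
        congr 4
        ring
      rw [e, hFe]
      have e1 : f * Y ^ (2 * l + 3) = (f * Y ^ (2 * l + 2)) * Y := by ring
      have e2 : A⁻¹ * (f ^ 2 * Y ^ (2 * l + 2)) = (f * Y ^ (2 * l + 2)) * (A⁻¹ * f) := by ring
      rw [e1, e2]
      refine mul_le_mul_of_nonneg_left ?_ (by positivity)
      rw [inv_mul_eq_div, le_div_iff₀ hA]
      push Not at c1
      linarith
    linarith
  by_cases c2 : η * Y ≤ f
  swap
  · have : F ≤ t2 := by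
      have e : t2 = η * Y ^ (2 * l + 4) := by
        rw [ht2, hY, mul_pow, ← pow_mul]
        congr 3
        ring
      rw [e, hFe]
      push Not at c2
      calc f * Y ^ (2 * l + 3) ≤ (η * Y) * Y ^ (2 * l + 3) :=
            mul_le_mul_of_nonneg_right c2.le (by positivity)
        _ = η * Y ^ (2 * l + 4) := by ring
    linarith
  by_cases c3 : m ≤ κ * v
  swap
  · have : F ≤ t3 := by
      have e : t3 = ((κ * v) ^ 2)⁻¹ * (F * m ^ 2) := by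
        rw [ht3, hF, pow_add]
        ring
      rw [e, inv_mul_eq_div, le_div_iff₀ (by positivity)]
      push Not at c3
      exact mul_le_mul_of_nonneg_left (pow_le_pow_left₀ (by positivity) c3.le 2) hF0
    linarith
  by_cases c4 : v / κ ≤ m
  swap
  · have : F ≤ t4 := by
      obtain ⟨e, he⟩ : ∃ e, (p + 1) * (2 * l + 3) = e + 2 := by
        refine ⟨(p + 1) * (2 * l + 3) - 2, ?_⟩
        have : 1 * 2 ≤ (p + 1) * (2 * l + 3) := Nat.mul_le_mul (by omega) (by omega)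
        omega
      rw [ht4, hF, he, Nat.add_sub_cancel]
      push Not at c4
      calc f * (m ^ (e + 2) * r ^ (2 * l + 3)) = m ^ 2 * (f * (m ^ e * r ^ (2 * l + 3))) := by ring
        _ ≤ (v / κ) ^ 2 * (f * (m ^ e * r ^ (2 * l + 3))) :=
            mul_le_mul_of_nonneg_right (pow_le_pow_left₀ hm c4.le 2) (by positivity)
    linarith
  by_cases c5 : r ≤ κ * Real.sqrt D
  swap
  · have : F ≤ t5 := by
      have e : t5 = (κ ^ 2 * D)⁻¹ * (F * r ^ 2) := by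
        rw [ht5, hF]
        ring
      rw [e, inv_mul_eq_div, le_div_iff₀ (by positivity)]
      push Not at c5
      refine mul_le_mul_of_nonneg_left ?_ hF0
      calc κ ^ 2 * D = (κ * Real.sqrt D) ^ 2 := by rw [mul_pow, hss]
        _ ≤ r ^ 2 := pow_le_pow_left₀ (by positivity) c5.le 2
    linarith
  by_cases c6 : 1 / (κ * Real.sqrt D) ≤ r
  swap
  · have : F ≤ t6 := by
      rw [ht6, hF]
      push Not at c6
      calc f * (m ^ ((p + 1) * (2 * l + 3)) * r ^ (2 * l + 3)) =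
            r ^ 2 * (f * (m ^ ((p + 1) * (2 * l + 3)) * r ^ (2 * l + 1))) := by ring
        _ ≤ (κ ^ 2 * D)⁻¹ * (f * (m ^ ((p + 1) * (2 * l + 3)) * r ^ (2 * l + 1))) := by
            refine mul_le_mul_of_nonneg_right ?_ (by positivity)
            calc r ^ 2 ≤ (1 / (κ * Real.sqrt D)) ^ 2 := pow_le_pow_left₀ hr c6.le 2
              _ = (κ ^ 2 * D)⁻¹ := by
                  rw [div_pow, one_pow, mul_pow, hss, one_div]
    linarith
  exact absurd ⟨c1, c2, c4, c3, c6, c5⟩ hn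

/-- Cauchy-Schwarz (AM-GM form). -/
lemma cs (ν : Measure ℝ) [IsFiniteMeasure ν] (φ m r : ℝ → ℝ) (B : ℝ) (hφ : Measurable φ)
    (hm : Measurable m) (hr : Measurable r) (h0 : ∀ x, 0 ≤ φ x) (h1 : ∀ x, 0 ≤ m x)
    (h2 : ∀ x, 0 ≤ r x) (hB : ∀ᵐ x ∂ν, φ x ≤ B ∧ m x ≤ B ∧ r x ≤ B) (a b c d M N : ℕ) (K : ℝ)
    (hM : M = a + b) (hN : N = c + d)
    (k1 : ∫ x, φ x ^ 2 * (m x ^ (2 * a) * r x ^ (2 * c)) ∂ν ≤ K)
    (k2 : ∫ x, m x ^ (2 * b) * r x ^ (2 * d) ∂ν ≤ K) :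
    ∫ x, φ x * (m x ^ M * r x ^ N) ∂ν ≤ K := by
  have i1 := intg ν φ m r B hφ hm hr h0 h1 h2 hB 2 (2 * a) (2 * c)
  have i2 := intg ν φ m r B hφ hm hr h0 h1 h2 hB 0 (2 * b) (2 * d)
  have i3 := intg ν φ m r B hφ hm hr h0 h1 h2 hB 1 M N
  simp only [pow_zero, one_mul, pow_one] at i2 i3
  have h : ∫ x, φ x * (m x ^ M * r x ^ N) ∂ν ≤ ∫ x, ((1 / 2 : ℝ) *
      (φ x ^ 2 * (m x ^ (2 * a) * r x ^ (2 * c))) + (1 / 2 : ℝ) * (m x ^ (2 * b) * r x ^ (2 * d))) ∂ν := by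
    refine integral_mono i3 ((i1.const_mul _).add (i2.const_mul _)) fun x => ?_
    have e1 : φ x * (m x ^ M * r x ^ N) = (φ x * (m x ^ a * r x ^ c)) * (m x ^ b * r x ^ d) := by
      rw [hM, hN, pow_add, pow_add]; ring
    have e2 : φ x ^ 2 * (m x ^ (2 * a) * r x ^ (2 * c)) = (φ x * (m x ^ a * r x ^ c)) ^ 2 := by
      rw [mul_pow, mul_pow, ← pow_mul, ← pow_mul, mul_comm 2 a, mul_comm 2 c]
    have e3 : m x ^ (2 * b) * r x ^ (2 * d) = (m x ^ b * r x ^ d) ^ 2 := by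
      rw [mul_pow, ← pow_mul, ← pow_mul, mul_comm 2 b, mul_comm 2 d]
    simp only
    rw [e1, e2, e3]
    nlinarith [sq_nonneg ((φ x * (m x ^ a * r x ^ c)) - (m x ^ b * r x ^ d))]
  rw [integral_add (i1.const_mul _) (i2.const_mul _), integral_const_mul, integral_const_mul] at h
  linarith

lemma seven (ν : Measure ℝ) (f1 f2 f3 f4 f5 f6 f7 F : ℝ → ℝ) (i1 : Integrable f1 ν)
    (i2 : Integrable f2 ν) (i3 : Integrable f3 ν) (i4 : Integrable f4 ν) (i5 : Integrable f5 ν)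
    (i6 : Integrable f6 ν) (i7 : Integrable f7 ν) (i : Integrable F ν)
    (h : ∀ x, F x ≤ f1 x + (f2 x + (f3 x + (f4 x + (f5 x + (f6 x + f7 x)))))) :
    ∫ x, F x ∂ν ≤ ∫ x, f1 x ∂ν + (∫ x, f2 x ∂ν + (∫ x, f3 x ∂ν + (∫ x, f4 x ∂ν +
      (∫ x, f5 x ∂ν + (∫ x, f6 x ∂ν + ∫ x, f7 x ∂ν))))) := by
  have j6 : Integrable (fun x => f6 x + f7 x) ν := i6.add i7
  have j5 : Integrable (fun x => f5 x + (f6 x + f7 x)) ν := i5.add j6
  have j4 : Integrable (fun x => f4 x + (f5 x + (f6 x + f7 x))) ν := i4.add j5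
  have j3 : Integrable (fun x => f3 x + (f4 x + (f5 x + (f6 x + f7 x)))) ν := i3.add j4
  have j2 : Integrable (fun x => f2 x + (f3 x + (f4 x + (f5 x + (f6 x + f7 x))))) ν := i2.add j3
  have j1 : Integrable (fun x => f1 x + (f2 x + (f3 x + (f4 x + (f5 x + (f6 x + f7 x)))))) ν :=
    i1.add j2
  have := integral_mono i j1 h
  rw [integral_add i1 j2, integral_add i2 j3, integral_add i3 j4, integral_add i4 j5,
    integral_add i5 j6, integral_add i6 i7] at this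
  exact this

end I_FinR

open I_FinR in
theorem FinR_pf : S_FinR := by
  intro k c₀ C₀ hk hc₀ hC₀
  obtain ⟨l, rfl⟩ := Nat.exists_eq_add_of_le' hk
  set A : ℝ := max 1 (12 * C₀ / c₀) with hA
  have hA1 : 1 ≤ A := le_max_left _ _
  have hA0 : 0 < A := by linarith
  have hAC : 6 * (C₀ * A⁻¹) ≤ c₀ / 2 := by
    have h : 12 * C₀ / c₀ ≤ A := le_max_right _ _
    rw [div_le_iff₀ hc₀] at h
    rw [← div_eq_mul_inv, ← mul_div_assoc, div_le_iff₀ hA0]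
    nlinarith
  have hi1 : A⁻¹ ≤ 1 := inv_le_one_of_one_le₀ hA1
  refine ⟨A, A⁻¹, A, c₀ / 2 * (A⁻¹) ^ (2 * l + 3), hA1, by positivity, hi1, hA1, by positivity, ?_⟩
  intro ν _ φ m r B hφ hm hr h0 h1 h2 hB q X v D hq hX hv hD hU hlow
  obtain ⟨p, rfl⟩ := Nat.exists_eq_add_of_le' hq
  have hD0 : 0 < D := by linarith
  obtain ⟨a1, a2, b1, b2, b3, b4, c1, c2, c3, c4⟩ := hU
  simp only [show l + 2 - 1 = l + 1 by omega, show l + 2 - 2 = l by omega,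
    show 2 * (l + 2) - 1 = 2 * l + 3 by omega] at *
  set G : Set ℝ := {x | φ x ≤ A * (m x ^ (p + 1) * r x) ∧ A⁻¹ * (m x ^ (p + 1) * r x) ≤ φ x ∧
      v / A ≤ m x ∧ m x ≤ A * v ∧ 1 / (A * Real.sqrt D) ≤ r x ∧ r x ≤ A * Real.sqrt D} with hG
  have hGm : MeasurableSet G := by
    have hy : Measurable fun x => m x ^ (p + 1) * r x := (hm.pow_const _).mul hr
    refine (measurableSet_le hφ (hy.const_mul A)).inter ((measurableSet_le (hy.const_mul A⁻¹) hφ).inter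
      ((measurableSet_le measurable_const hm).inter ((measurableSet_le hm measurable_const).inter
      ((measurableSet_le measurable_const hr).inter (measurableSet_le hr measurable_const)))))
  have I := intg ν φ m r B hφ hm hr h0 h1 h2 hB
  have J : ∀ b c : ℕ, Integrable (fun x => m x ^ b * r x ^ c) ν := fun b c => by
    simpa only [pow_zero, one_mul] using I 0 b c
  have J1 : ∀ b c : ℕ, Integrable (fun x => φ x * (m x ^ b * r x ^ c)) ν := fun b c => by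
    simpa only [pow_one] using I 1 b c
  have J3 : Integrable (fun x => φ x ^ (2 * (l + 2))) ν := by
    simpa only [pow_zero, mul_one] using I (2 * (l + 2)) 0 0
  set E := (p + 1) * (2 * l + 3) with hE
  have hE2 : 2 ≤ E := by
    have : 1 * 2 ≤ (p + 1) * (2 * l + 3) := Nat.mul_le_mul (by omega) (by omega)
    omega
  have hg1 : 1 ≤ (p + 1) * (l + 1) := Nat.mul_pos (by omega) (by omega)
  have hg2 : 1 ≤ (p + 1) * (l + 2) := Nat.mul_pos (by omega) (by omega)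
  have hEs : E = (p + 1) * (l + 1) + (p + 1) * (l + 2) := by rw [hE]; ring
  -- the four Cauchy-Schwarz bounds
  have d3 : ∫ x, φ x * (m x ^ (E + 2) * r x ^ (2 * l + 3)) ∂ν ≤ C₀ * X * v ^ 2 :=
    cs ν φ m r B hφ hm hr h0 h1 h2 hB ((p + 1) * (l + 1) + 1) ((p + 1) * (l + 2) + 1) (l + 1) (l + 2)
      _ _ _ (by omega) (by omega) b1 b2
  have d4 : ∫ x, φ x * (m x ^ (E - 2) * r x ^ (2 * l + 3)) ∂ν ≤ C₀ * X / v ^ 2 :=
    cs ν φ m r B hφ hm hr h0 h1 h2 hB ((p + 1) * (l + 1) - 1) ((p + 1) * (l + 2) - 1) (l + 1) (l + 2)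
      _ _ _ (by omega) (by omega) b3 b4
  have d5 : ∫ x, φ x * (m x ^ E * r x ^ (2 * l + 5)) ∂ν ≤ C₀ * X * D :=
    cs ν φ m r B hφ hm hr h0 h1 h2 hB ((p + 1) * (l + 1)) ((p + 1) * (l + 2)) (l + 2) (l + 2 + 1)
      _ _ _ (by omega) (by omega) c1 c2
  have d6 : ∫ x, φ x * (m x ^ E * r x ^ (2 * l + 1)) ∂ν ≤ C₀ * X :=
    cs ν φ m r B hφ hm hr h0 h1 h2 hB ((p + 1) * (l + 1)) ((p + 1) * (l + 2)) l (l + 1)
      _ _ _ (by omega) (by omega) c3 c4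
  -- the pointwise inequality
  have hpt : ∀ x, φ x * (m x ^ E * r x ^ (2 * l + 3)) ≤
      A⁻¹ * (φ x ^ 2 * (m x ^ (2 * ((p + 1) * (l + 1))) * r x ^ (2 * (l + 1)))) +
      (A⁻¹ * (m x ^ (2 * ((p + 1) * (l + 2))) * r x ^ (2 * (l + 2))) +
      (((A * v) ^ 2)⁻¹ * (φ x * (m x ^ (E + 2) * r x ^ (2 * l + 3))) +
      ((v / A) ^ 2 * (φ x * (m x ^ (E - 2) * r x ^ (2 * l + 3))) +
      ((A ^ 2 * D)⁻¹ * (φ x * (m x ^ E * r x ^ (2 * l + 5))) +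
      ((A ^ 2 * D)⁻¹ * (φ x * (m x ^ E * r x ^ (2 * l + 1))) +
      A ^ (2 * l + 3) * G.indicator (fun x => φ x ^ (2 * (l + 2))) x))))) := by
    intro x
    have k0 := h0 x
    have k1 := h1 x
    have k2 := h2 x
    by_cases hx : x ∈ G
    · rw [indicator_of_mem hx]
      have q1 : 0 ≤ A⁻¹ * (φ x ^ 2 * (m x ^ (2 * ((p + 1) * (l + 1))) * r x ^ (2 * (l + 1)))) := by
        positivity
      have q2 : 0 ≤ A⁻¹ * (m x ^ (2 * ((p + 1) * (l + 2))) * r x ^ (2 * (l + 2))) := by positivity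
      have q3 : 0 ≤ ((A * v) ^ 2)⁻¹ * (φ x * (m x ^ (E + 2) * r x ^ (2 * l + 3))) := by positivity
      have q4 : 0 ≤ (v / A) ^ 2 * (φ x * (m x ^ (E - 2) * r x ^ (2 * l + 3))) := by positivity
      have q5 : 0 ≤ (A ^ 2 * D)⁻¹ * (φ x * (m x ^ E * r x ^ (2 * l + 5))) := by positivity
      have q6 : 0 ≤ (A ^ 2 * D)⁻¹ * (φ x * (m x ^ E * r x ^ (2 * l + 1))) := by positivity
      have key : φ x * (m x ^ E * r x ^ (2 * l + 3)) ≤ A ^ (2 * l + 3) * φ x ^ (2 * (l + 2)) := by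
        have e : φ x * (m x ^ E * r x ^ (2 * l + 3)) = φ x * (m x ^ (p + 1) * r x) ^ (2 * l + 3) := by
          rw [hE, mul_pow, ← pow_mul]
        have hY : m x ^ (p + 1) * r x ≤ A * φ x := by
          have := hx.2.1
          rw [inv_mul_eq_div, div_le_iff₀ hA0] at this
          linarith
        rw [e]
        calc φ x * (m x ^ (p + 1) * r x) ^ (2 * l + 3) ≤ φ x * (A * φ x) ^ (2 * l + 3) :=
              mul_le_mul_of_nonneg_left (pow_le_pow_left₀ (by positivity) hY _) k0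
          _ = A ^ (2 * l + 3) * φ x ^ (2 * (l + 2)) := by rw [mul_pow]; ring
      linarith
    · rw [indicator_of_notMem hx, mul_zero, add_zero]
      exact pt l p A A⁻¹ A v D hA0 (by positivity) hA0 hv hD (φ x) (m x) (r x) k0 k1 k2 hx
  have i1 := (I 2 (2 * ((p + 1) * (l + 1))) (2 * (l + 1))).const_mul A⁻¹
  have i2 := (J (2 * ((p + 1) * (l + 2))) (2 * (l + 2))).const_mul A⁻¹
  have i3 := (J1 (E + 2) (2 * l + 3)).const_mul ((A * v) ^ 2)⁻¹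
  have i4 := (J1 (E - 2) (2 * l + 3)).const_mul ((v / A) ^ 2)
  have i5 := (J1 E (2 * l + 5)).const_mul (A ^ 2 * D)⁻¹
  have i6 := (J1 E (2 * l + 1)).const_mul (A ^ 2 * D)⁻¹
  have i7 := (J3.indicator hGm).const_mul (A ^ (2 * l + 3))
  have hint : ∫ x, φ x * (m x ^ E * r x ^ (2 * l + 3)) ∂ν ≤
      (A⁻¹ * ∫ x, φ x ^ 2 * (m x ^ (2 * ((p + 1) * (l + 1))) * r x ^ (2 * (l + 1))) ∂ν) +
      ((A⁻¹ * ∫ x, m x ^ (2 * ((p + 1) * (l + 2))) * r x ^ (2 * (l + 2)) ∂ν) +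
      ((((A * v) ^ 2)⁻¹ * ∫ x, φ x * (m x ^ (E + 2) * r x ^ (2 * l + 3)) ∂ν) +
      (((v / A) ^ 2 * ∫ x, φ x * (m x ^ (E - 2) * r x ^ (2 * l + 3)) ∂ν) +
      (((A ^ 2 * D)⁻¹ * ∫ x, φ x * (m x ^ E * r x ^ (2 * l + 5)) ∂ν) +
      (((A ^ 2 * D)⁻¹ * ∫ x, φ x * (m x ^ E * r x ^ (2 * l + 1)) ∂ν) +
      A ^ (2 * l + 3) * ∫ x in G, φ x ^ (2 * (l + 2)) ∂ν))))) := by
    refine seven ν _ _ _ _ _ _ _ _ i1 i2 i3 i4 i5 i6 i7 (J1 E (2 * l + 3)) hpt |>.trans (le_of_eq ?_)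
    rw [integral_const_mul, integral_const_mul, integral_const_mul, integral_const_mul,
      integral_const_mul, integral_const_mul, integral_const_mul, integral_indicator hGm]
  set I7 := ∫ x in G, φ x ^ (2 * (l + 2)) ∂ν with hI7
  have hCX : 0 < C₀ * X := by positivity
  have hA2 : (A ^ 2)⁻¹ ≤ A⁻¹ := inv_anti₀ hA0 (by nlinarith)
  have g1 : A⁻¹ * ∫ x, φ x ^ 2 * (m x ^ (2 * ((p + 1) * (l + 1))) * r x ^ (2 * (l + 1))) ∂ν ≤
      A⁻¹ * (C₀ * X) := mul_le_mul_of_nonneg_left a1 (by positivity)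
  have g2 : A⁻¹ * ∫ x, m x ^ (2 * ((p + 1) * (l + 2))) * r x ^ (2 * (l + 2)) ∂ν ≤
      A⁻¹ * (C₀ * X) := mul_le_mul_of_nonneg_left a2 (by positivity)
  have g3 : ((A * v) ^ 2)⁻¹ * ∫ x, φ x * (m x ^ (E + 2) * r x ^ (2 * l + 3)) ∂ν ≤
      A⁻¹ * (C₀ * X) := by
    calc _ ≤ ((A * v) ^ 2)⁻¹ * (C₀ * X * v ^ 2) := mul_le_mul_of_nonneg_left d3 (by positivity)
      _ = (A ^ 2)⁻¹ * (C₀ * X) := by field_simp
      _ ≤ _ := mul_le_mul_of_nonneg_right hA2 hCX.le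
  have g4 : (v / A) ^ 2 * ∫ x, φ x * (m x ^ (E - 2) * r x ^ (2 * l + 3)) ∂ν ≤
      A⁻¹ * (C₀ * X) := by
    calc _ ≤ (v / A) ^ 2 * (C₀ * X / v ^ 2) := mul_le_mul_of_nonneg_left d4 (by positivity)
      _ = (A ^ 2)⁻¹ * (C₀ * X) := by field_simp
      _ ≤ _ := mul_le_mul_of_nonneg_right hA2 hCX.le
  have g5 : (A ^ 2 * D)⁻¹ * ∫ x, φ x * (m x ^ E * r x ^ (2 * l + 5)) ∂ν ≤ A⁻¹ * (C₀ * X) := by
    calc _ ≤ (A ^ 2 * D)⁻¹ * (C₀ * X * D) := mul_le_mul_of_nonneg_left d5 (by positivity)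
      _ = (A ^ 2)⁻¹ * (C₀ * X) := by field_simp
      _ ≤ _ := mul_le_mul_of_nonneg_right hA2 hCX.le
  have g6 : (A ^ 2 * D)⁻¹ * ∫ x, φ x * (m x ^ E * r x ^ (2 * l + 1)) ∂ν ≤ A⁻¹ * (C₀ * X) := by
    calc _ ≤ (A ^ 2 * D)⁻¹ * (C₀ * X) := mul_le_mul_of_nonneg_left d6 (by positivity)
      _ ≤ (A ^ 2)⁻¹ * (C₀ * X) := by
          refine mul_le_mul_of_nonneg_right (inv_anti₀ (by positivity) ?_) hCX.le
          nlinarith [pow_pos hA0 2]
      _ ≤ _ := mul_le_mul_of_nonneg_right hA2 hCX.le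
  have hfin : c₀ / 2 * X ≤ A ^ (2 * l + 3) * I7 := by
    have h6 : 6 * (A⁻¹ * (C₀ * X)) ≤ c₀ / 2 * X := by
      calc 6 * (A⁻¹ * (C₀ * X)) = (6 * (C₀ * A⁻¹)) * X := by ring
        _ ≤ c₀ / 2 * X := mul_le_mul_of_nonneg_right hAC hX.le
    linarith
  calc c₀ / 2 * A⁻¹ ^ (2 * l + 3) * X = A⁻¹ ^ (2 * l + 3) * (c₀ / 2 * X) := by ring
    _ ≤ A⁻¹ ^ (2 * l + 3) * (A ^ (2 * l + 3) * I7) :=
        mul_le_mul_of_nonneg_left hfin (by positivity)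
    _ = I7 := by
        rw [← mul_assoc, ← mul_pow, inv_mul_cancel₀ hA0.ne', one_pow, one_mul]

end Pool.Agent.Work.MP_56b8f5_nt.WM
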