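import Pool.Agent.Work.MP_56b8f5_nt.WM.Stmts

/-!
# C2 (GW), the real variable part of the window
-/

set_option autoImplicit false

open MeasureTheory Set Filter Topology

noncomputable section

namespace Pool.Agent.Work.MP_56b8f5_nt.WM

open Pool.Agent.Work.MP_56b8f5_nt.EM

namespace I_GW

/-- The logarithmic estimate with all quantities as real numbers. -/
lemma core {k Q lq lA lη lκ lC S LL lφ lm lr : ℝ} (hk : 0 ≤ k) (hQ : 1 ≤ Q) (hlq : lq ≤ Q)
    (hlq0 : 0 ≤ lq) (hlA : 0 ≤ lA) (hlη : lη ≤ 0) (hlκ : 0 ≤ lκ) (hlC : 0 ≤ lC)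
    (h1 : S ≤ lC + LL) (h2 : LL ≤ lC + lq + S) (h3 : lφ ≤ lA + (Q * lm + lr))
    (h4 : lη + (Q * lm + lr) ≤ lφ) (h5 : k / Q * S - lκ ≤ lm) (h6 : lm ≤ lκ + k / Q * S)
    (h7 : -(lκ + (2 * k + 1) * lq / 2) ≤ lr) (h8 : lr ≤ lκ + (2 * k + 1) * lq / 2) :
    |lφ - k * LL| ≤ (lA - lη + 2 * lκ + k * lC + (2 * k + 1)) * Q := by
  have hQ0 : 0 < Q := by linarith
  have e1 : Q * (k / Q * S) = k * S := by field_simp
  have h6' : Q * lm ≤ Q * lκ + k * S := by
    have := mul_le_mul_of_nonneg_left h6 hQ0.le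
    rw [mul_add, e1] at this
    exact this
  have h5' : k * S - Q * lκ ≤ Q * lm := by
    have := mul_le_mul_of_nonneg_left h5 hQ0.le
    rw [mul_sub, e1] at this
    exact this
  have a1 : k * S ≤ k * lC + k * LL := by
    have := mul_le_mul_of_nonneg_left h1 hk
    linarith
  have a2 : k * LL ≤ k * lC + k * lq + k * S := by
    have := mul_le_mul_of_nonneg_left h2 hk
    linarith
  have b1 : lA ≤ lA * Q := le_mul_of_one_le_right hlA hQ
  have b2 : -lη ≤ -lη * Q := le_mul_of_one_le_right (by linarith) hQ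
  have b3 : lκ ≤ lκ * Q := le_mul_of_one_le_right hlκ hQ
  have b4 : k * lC ≤ k * lC * Q := le_mul_of_one_le_right (mul_nonneg hk hlC) hQ
  have b5 : (2 * k + 1) * lq ≤ (2 * k + 1) * Q := mul_le_mul_of_nonneg_left hlq (by linarith)
  have b6 : 0 ≤ k * lq := mul_nonneg hk hlq0
  rw [abs_le]
  constructor
  · nlinarith
  · nlinarith

end I_GW

open I_GW in
/-- **C2 (GW).** -/
theorem GW_pf (h7 : S_Num) : S_GW := by
  intro k C A η κ hC hA hη hη1 hκ
  obtain ⟨C₁, T₁, hC₁, hT₁, hN⟩ := h7 k C hC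
  have hlA : 0 ≤ Real.log A := Real.log_nonneg hA
  have hlη : Real.log η ≤ 0 := Real.log_nonpos hη.le hη1
  have hlκ : 0 ≤ Real.log κ := Real.log_nonneg hκ
  have hlC : 0 ≤ Real.log C₁ := Real.log_nonneg hC₁
  have hk : (0 : ℝ) ≤ k := Nat.cast_nonneg k
  set K : ℝ := Real.log A - Real.log η + 2 * Real.log κ + k * Real.log C₁ + (2 * k + 1) with hKd
  have hK : 0 ≤ K := by
    have : 0 ≤ (k : ℝ) * Real.log C₁ := mul_nonneg hk hlC
    rw [hKd]
    linarith
  have hKC : 0 ≤ K * C := mul_nonneg hK (by linarith)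
  refine ⟨A + K * C, T₁, by linarith, ?_⟩
  intro T hT q y z hP φ m r v D hv hD h1 h2 h3 h4 h5 h6
  obtain ⟨hS1, -, -, -, -, hE1, hE2⟩ := hN T hT q y z hP
  have hT3 : 3 ≤ T := hT₁.trans hT
  have hL : 1 < Real.log T := by
    have h8 : Real.log (Real.exp 1) < Real.log T := by
      refine Real.log_lt_log (Real.exp_pos 1) ?_
      have := Real.exp_one_lt_d9
      linarith
    rwa [Real.log_exp] at h8
  have hL0 : 0 < Real.log T := by linarith
  have hq1 : (1 : ℝ) ≤ q := by exact_mod_cast hP.hq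
  have hq0 : (0 : ℝ) < q := by linarith
  have hκ0 : 0 < κ := by linarith
  have hv0 : 0 < v := by rw [hv]; exact Real.exp_pos _
  have hm0 : 0 < m := lt_of_lt_of_le (div_pos hv0 hκ0) h3
  have hD0 : 0 < D := by rw [hD]; positivity
  have hsD : 0 < Real.sqrt D := Real.sqrt_pos.2 hD0
  have hr0 : 0 < r := lt_of_lt_of_le (by positivity) h5
  have hmr : 0 < m ^ q * r := by positivity
  have hφ0 : 0 < φ := lt_of_lt_of_le (by positivity) h2
  refine ⟨?_, ?_⟩
  · refine h1.trans (mul_le_mul_of_nonneg_right (by linarith) hmr.le)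
  · have lv : Real.log v = (k : ℝ) / q * S1 y := by rw [hv, Real.log_exp]
    have lD : Real.log (Real.sqrt D) = (2 * (k : ℝ) + 1) * Real.log q / 2 := by
      rw [Real.log_sqrt hD0.le, hD, Real.log_pow]
      push_cast
      ring
    have lmr : Real.log (m ^ q * r) = q * Real.log m + Real.log r := by
      rw [Real.log_mul (by positivity) hr0.ne', Real.log_pow]
    have c1 : S1 y ≤ Real.log C₁ + Real.log (Real.log T) := by
      rw [← Real.log_mul (by positivity) hL0.ne', Real.le_log_iff_exp_le (by positivity)]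
      exact hE1
    have c2 : Real.log (Real.log T) ≤ Real.log C₁ + Real.log q + S1 y := by
      have h8 := Real.log_le_log hL0 hE2
      rw [Real.log_mul (by positivity) (Real.exp_pos _).ne', Real.log_exp,
        Real.log_mul (by positivity) hq0.ne'] at h8
      exact h8
    have c3 : Real.log φ ≤ Real.log A + (q * Real.log m + Real.log r) := by
      have h8 := Real.log_le_log hφ0 h1
      rwa [Real.log_mul (by positivity) hmr.ne', lmr] at h8
    have c4 : Real.log η + (q * Real.log m + Real.log r) ≤ Real.log φ := by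
      have h8 := Real.log_le_log (by positivity) h2
      rwa [Real.log_mul hη.ne' hmr.ne', lmr] at h8
    have c5 : (k : ℝ) / q * S1 y - Real.log κ ≤ Real.log m := by
      have h8 := Real.log_le_log (by positivity) h3
      rwa [Real.log_div hv0.ne' hκ0.ne', lv] at h8
    have c6 : Real.log m ≤ Real.log κ + (k : ℝ) / q * S1 y := by
      have h8 := Real.log_le_log hm0 h4
      rwa [Real.log_mul hκ0.ne' hv0.ne', lv] at h8
    have c7 : -(Real.log κ + (2 * (k : ℝ) + 1) * Real.log q / 2) ≤ Real.log r := by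
      have h8 := Real.log_le_log (by positivity) h5
      rwa [one_div, Real.log_inv, Real.log_mul hκ0.ne' hsD.ne', lD] at h8
    have c8 : Real.log r ≤ Real.log κ + (2 * (k : ℝ) + 1) * Real.log q / 2 := by
      have h8 := Real.log_le_log hr0 h6
      rwa [Real.log_mul hκ0.ne' hsD.ne', lD] at h8
    have hlq : Real.log q ≤ q := (Real.log_le_sub_one_of_pos hq0).trans (by linarith)
    have h9 := core hk hq1 hlq (Real.log_nonneg hq1) hlA hlη hlκ hlC c1 c2 c3 c4 c5 c6 c7 c8
    refine h9.trans ?_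
    have h10 : K * q ≤ K * (C * Real.sqrt (Real.log (Real.log T))) :=
      mul_le_mul_of_nonneg_left hP.hqs hK
    refine h10.trans ?_
    have h11 : 0 ≤ A * Real.sqrt (Real.log (Real.log T)) :=
      mul_nonneg (by linarith) (Real.sqrt_nonneg _)
    nlinarith

end Pool.Agent.Work.MP_56b8f5_nt.WM
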