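import Pool.Agent.Work.MP_56b8f5_nt.WM.StmtsR

/-!
MP_56b8f5_nt, block WR, item R6 (GWr): the real variable part of the window, real exponents.
-/

set_option autoImplicit false

open MeasureTheory Set Filter Topology

noncomputable section

namespace Pool.Agent.Work.MP_56b8f5_nt.WM

open Pool.Agent.Work.MP_56b8f5_nt.EM

namespace I_GWr

/-- Bounds for `S1 y` in terms of `log log T`. -/
theorem s1_bd (C₁ T s q : ℝ) (hC : 1 ≤ C₁) (hT : 1 < T) (hq : 1 ≤ q)
    (h1 : Real.exp s ≤ C₁ * Real.log T) (h2 : Real.log T ≤ C₁ * q * Real.exp s) :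
    |s - Real.log (Real.log T)| ≤ Real.log C₁ + q := by
  have hL : 0 < Real.log T := Real.log_pos hT
  have hC0 : 0 < C₁ := by linarith
  have hq0 : 0 < q := by linarith
  have e1 : s ≤ Real.log C₁ + Real.log (Real.log T) := by
    have := Real.log_le_log (Real.exp_pos s) h1
    rw [Real.log_exp, Real.log_mul hC0.ne' hL.ne'] at this
    exact this
  have e2 : Real.log (Real.log T) ≤ Real.log C₁ + Real.log q + s := by
    have := Real.log_le_log hL h2
    rw [Real.log_mul (mul_pos hC0 hq0).ne' (Real.exp_pos s).ne', Real.log_exp,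
      Real.log_mul hC0.ne' hq0.ne'] at this
    exact this
  have e3 : Real.log q ≤ q := (Real.log_le_sub_one_of_pos hq0).trans (by linarith)
  rw [abs_le]
  constructor <;> linarith

theorem main (h7 : S_Num) : S_GWr := by
  intro k C A η κ hk hC hA hη hη1 hκ
  obtain ⟨C₁, T₁, hC₁, hT₁, hN⟩ := h7 k C hC
  have hlA : 0 ≤ Real.log A := Real.log_nonneg hA
  have hlη : Real.log η ≤ 0 := Real.log_nonpos hη.le hη1
  have hlκ : 0 ≤ Real.log κ := Real.log_nonneg hκ
  have hlC : 0 ≤ Real.log C₁ := Real.log_nonneg hC₁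
  have hk0 : (2 : ℝ) ≤ k := by exact_mod_cast hk
  set K₁ : ℝ := Real.log A - Real.log η + 2 * Real.log κ + k * Real.log C₁ + 2 * k + 2 with hK₁
  set K₂ : ℝ := Real.log A + 4 * k * Real.log κ + k * (2 * k + 1) with hK₂
  have hK₁0 : 1 ≤ K₁ := by
    have : 0 ≤ (k : ℝ) * Real.log C₁ := by positivity
    rw [hK₁]; linarith
  have hK₂0 : 0 ≤ K₂ := by rw [hK₂]; positivity
  refine ⟨C * (K₁ + K₂), max T₁ (Real.exp (Real.exp 1)), ?_, ?_⟩
  · nlinarith
  intro T hT q y z m₁ hp hm α hα φ m r v D hv hD hφ1 hφ2 hm1 hm2 hr1 hr2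
  have hTT₁ : T₁ ≤ T := (le_max_left _ _).trans hT
  have hTe : Real.exp (Real.exp 1) ≤ T := (le_max_right _ _).trans hT
  have hT1 : 1 < T := lt_of_lt_of_le (Real.one_lt_exp_iff.2 (Real.exp_pos 1)) hTe
  have hT0 : 0 < T := by linarith
  have hLe : Real.exp 1 ≤ Real.log T := (Real.le_log_iff_exp_le hT0).2 hTe
  have hL0 : 0 < Real.log T := lt_of_lt_of_le (Real.exp_pos 1) hLe
  have hLL1 : 1 ≤ Real.log (Real.log T) := (Real.le_log_iff_exp_le hL0).2 hLe
  obtain ⟨hs0, -, -, -, -, hs1, hs2⟩ := hN T hTT₁ q y z hp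
  set s : ℝ := S1 y with hs
  set LL : ℝ := Real.log (Real.log T) with hLL
  set Q : ℝ := Real.sqrt LL with hQ
  have hq1 : (1 : ℝ) ≤ q := by exact_mod_cast hp.hq
  have hq0 : (0 : ℝ) < q := by linarith
  have hqQ : (q : ℝ) ≤ C * Q := hp.hqs
  have hLq : LL ≤ (q : ℝ) ^ 2 := hp.hq2
  have hsL : |s - LL| ≤ Real.log C₁ + q := s1_bd C₁ T s q hC₁ hT1 hq1 hs1 hs2
  set b : ℝ := be q m₁ with hb
  have hbq : b * q = (m₁ : ℝ) + q := by
    rw [hb, be, div_mul_cancel₀ _ hq0.ne']
    push_cast
    ring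
  have hb0 : 0 ≤ b := by
    rw [hb, be]; positivity
  have hbk : b ≤ k := by
    have h1 : ((m₁ + q : ℕ) : ℝ) ≤ ((q * k : ℕ) : ℝ) := by exact_mod_cast hm
    rw [hb, be, div_le_iff₀ hq0]
    calc ((m₁ + q : ℕ) : ℝ) ≤ ((q * k : ℕ) : ℝ) := h1
      _ = (k : ℝ) * q := by push_cast; ring
  have hv0 : 0 < v := by rw [hv]; exact Real.exp_pos _
  have hκ0 : 0 < κ := by linarith
  have hm0 : 0 < m := lt_of_lt_of_le (div_pos hv0 hκ0) hm1
  have hD0 : 0 < D := by rw [hD]; positivity
  have hsD : 0 < Real.sqrt D := Real.sqrt_pos.2 hD0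
  have hr0 : 0 < r := lt_of_lt_of_le (by positivity) hr1
  have hlv : Real.log v = b / q * s := by rw [hv, Real.log_exp]
  have hlq0 : 0 ≤ Real.log (q : ℝ) := Real.log_nonneg hq1
  have hlq : Real.log (q : ℝ) ≤ q := (Real.log_le_sub_one_of_pos hq0).trans (by linarith)
  have hlD : Real.log (Real.sqrt D) = (2 * k + 1) / 2 * Real.log q := by
    rw [Real.log_sqrt hD0.le, hD, Real.log_pow]
    push_cast
    ring
  -- the logarithm of `m`
  have hlm1 : b / q * s - Real.log κ ≤ Real.log m := by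
    have := Real.log_le_log (div_pos hv0 hκ0) hm1
    rw [Real.log_div hv0.ne' hκ0.ne', hlv] at this
    exact this
  have hlm2 : Real.log m ≤ b / q * s + Real.log κ := by
    have := Real.log_le_log hm0 hm2
    rw [Real.log_mul hκ0.ne' hv0.ne', hlv] at this
    linarith
  -- the logarithm of `r`
  have hlr1 : -(Real.log κ + (2 * k + 1) / 2 * Real.log q) ≤ Real.log r := by
    have := Real.log_le_log (by positivity) hr1
    rw [Real.log_div one_ne_zero (mul_pos hκ0 hsD).ne', Real.log_one,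
      Real.log_mul hκ0.ne' hsD.ne', hlD] at this
    linarith
  have hlr2 : Real.log r ≤ Real.log κ + (2 * k + 1) / 2 * Real.log q := by
    have := Real.log_le_log hr0 hr2
    rw [Real.log_mul hκ0.ne' hsD.ne', hlD] at this
    exact this
  have hmr : 0 < m ^ q * r := by positivity
  have hφ0 : 0 < φ := lt_of_lt_of_le (mul_pos hη hmr) hφ2
  have hlmr : Real.log (m ^ q * r) = q * Real.log m + Real.log r := by
    rw [Real.log_mul (by positivity) hr0.ne', Real.log_pow]
  have hlφ1 : Real.log φ ≤ Real.log A + (q * Real.log m + Real.log r) := by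
    have := Real.log_le_log hφ0 hφ1
    rw [Real.log_mul (by positivity) hmr.ne', hlmr] at this
    exact this
  have hlφ2 : Real.log η + (q * Real.log m + Real.log r) ≤ Real.log φ := by
    have := Real.log_le_log (mul_pos hη hmr) hφ2
    rw [Real.log_mul hη.ne' hmr.ne', hlmr] at this
    exact this
  have hqm1 : b * s - q * Real.log κ ≤ q * Real.log m := by
    have h1 := mul_le_mul_of_nonneg_left hlm1 hq0.le
    have h2 : (q : ℝ) * (b / q * s - Real.log κ) = b * s - q * Real.log κ := by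
      field_simp
    rw [h2] at h1
    exact h1
  have hqm2 : q * Real.log m ≤ b * s + q * Real.log κ := by
    have h1 := mul_le_mul_of_nonneg_left hlm2 hq0.le
    have h2 : (q : ℝ) * (b / q * s + Real.log κ) = b * s + q * Real.log κ := by
      field_simp
    rw [h2] at h1
    exact h1
  have hkq : (2 * (k : ℝ) + 1) / 2 * Real.log q ≤ (k + 1) * q := by
    have h1 : (2 * (k : ℝ) + 1) / 2 * Real.log q ≤ (2 * (k : ℝ) + 1) / 2 * q :=
      mul_le_mul_of_nonneg_left hlq (by positivity)
    nlinarith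
  -- `b s` against `α LL`
  have hbs : |b * s - α * LL| ≤ k * (Real.log C₁ + q) + q := by
    have h1 : b * s - α * LL = b * (s - LL) + (b - α) * LL := by ring
    have hLL0 : 0 ≤ LL := by linarith
    calc |b * s - α * LL| = |b * (s - LL) + (b - α) * LL| := by rw [h1]
      _ ≤ |b * (s - LL)| + |(b - α) * LL| := abs_add_le _ _
      _ = b * |s - LL| + |b - α| * LL := by rw [abs_mul, abs_mul, abs_of_nonneg hb0,
          abs_of_nonneg hLL0]
      _ ≤ k * (Real.log C₁ + q) + 1 / q * (q : ℝ) ^ 2 := by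
          refine add_le_add ?_ ?_
          · exact mul_le_mul hbk hsL (abs_nonneg _) (by positivity)
          · exact mul_le_mul hα hLq hLL0 (by positivity)
      _ = k * (Real.log C₁ + q) + q := by field_simp
  have habs := abs_le.1 hbs
  have hQ0 : 0 ≤ Q := Real.sqrt_nonneg _
  have hKq1 : K₁ * q ≤ C * (K₁ + K₂) * Q := by
    have h1 : K₁ * q ≤ K₁ * (C * Q) := mul_le_mul_of_nonneg_left hqQ (by linarith)
    have h2 : 0 ≤ K₂ * (C * Q) := by positivity
    calc K₁ * q ≤ K₁ * (C * Q) + K₂ * (C * Q) := by linarith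
      _ = C * (K₁ + K₂) * Q := by ring
  have hKq2 : K₂ * q ≤ C * (K₁ + K₂) * Q := by
    have h1 : K₂ * q ≤ K₂ * (C * Q) := mul_le_mul_of_nonneg_left hqQ hK₂0
    have h2 : 0 ≤ K₁ * (C * Q) := by positivity
    calc K₂ * q ≤ K₂ * (C * Q) + K₁ * (C * Q) := by linarith
      _ = C * (K₁ + K₂) * Q := by ring
  have hc1 : (Real.log A - Real.log η + Real.log κ + k * Real.log C₁) ≤
      (Real.log A - Real.log η + Real.log κ + k * Real.log C₁) * q := by
    have h0 : 0 ≤ Real.log A - Real.log η + Real.log κ + k * Real.log C₁ := by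
      have : 0 ≤ (k : ℝ) * Real.log C₁ := by positivity
      linarith
    nlinarith
  have hKe : K₁ * q = (Real.log A - Real.log η + Real.log κ + k * Real.log C₁) * q +
      q * Real.log κ + (2 * k + 2) * q := by rw [hK₁]; ring
  refine ⟨?_, ?_⟩
  · refine le_trans ?_ hKq1
    rw [abs_le]
    constructor
    · linarith [habs.1, habs.2]
    · linarith [habs.1, habs.2]
  · -- the second bound
    have hpos : 0 < φ * (m ^ (2 * m₁ + q) * r ^ (2 * k - 1)) := by positivity
    have h1 : φ * (m ^ (2 * m₁ + q) * r ^ (2 * k - 1)) ≤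
        A * (m ^ (2 * (m₁ + q)) * r ^ (2 * k)) := by
      calc φ * (m ^ (2 * m₁ + q) * r ^ (2 * k - 1)) ≤
          A * (m ^ q * r) * (m ^ (2 * m₁ + q) * r ^ (2 * k - 1)) :=
            mul_le_mul_of_nonneg_right hφ1 (by positivity)
        _ = A * ((m ^ q * m ^ (2 * m₁ + q)) * (r ^ (2 * k - 1) * r)) := by ring
        _ = A * (m ^ (2 * (m₁ + q)) * r ^ (2 * k)) := by
            rw [← pow_add, ← pow_succ]
            congr 2
            · congr 1; ring
            · congr 1; omega
    have h2 : Real.log (A * (m ^ (2 * (m₁ + q)) * r ^ (2 * k))) =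
        Real.log A + (2 * (b * q) * Real.log m + 2 * k * Real.log r) := by
      rw [Real.log_mul (by positivity) (by positivity), Real.log_mul (by positivity)
        (by positivity), Real.log_pow, Real.log_pow, hbq]
      push_cast
      ring
    have h3 : b * (q * Real.log m) ≤ b * (b * s + q * Real.log κ) :=
      mul_le_mul_of_nonneg_left hqm2 hb0
    have h4 : b * (q * Real.log κ) ≤ k * (q * Real.log κ) :=
      mul_le_mul_of_nonneg_right hbk (by positivity)
    have h5 : 2 * k * Real.log r ≤ 2 * k * (Real.log κ + (2 * k + 1) / 2 * Real.log q) :=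
      mul_le_mul_of_nonneg_left hlr2 (by positivity)
    have h6 : (k : ℝ) * (2 * k + 1) * Real.log q ≤ k * (2 * k + 1) * q :=
      mul_le_mul_of_nonneg_left hlq (by positivity)
    have h8 : Real.log A + 2 * k * Real.log κ ≤ (Real.log A + 2 * k * Real.log κ) * q := by
      have h0 : 0 ≤ Real.log A + 2 * k * Real.log κ := by positivity
      nlinarith
    have h9 : Real.log (A * (m ^ (2 * (m₁ + q)) * r ^ (2 * k))) ≤ 2 * b ^ 2 * s + K₂ * q := by
      rw [h2, hK₂]
      have e1 : 2 * (b * q) * Real.log m = 2 * (b * (q * Real.log m)) := by ring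
      have e2 : 2 * (b * (b * s + q * Real.log κ)) = 2 * b ^ 2 * s + 2 * (b * (q * Real.log κ)) := by
        ring
      have e3 : (Real.log A + 4 * k * Real.log κ + k * (2 * k + 1)) * q =
        (Real.log A + 2 * k * Real.log κ) * q + 2 * (k * (q * Real.log κ)) +
          k * (2 * k + 1) * q := by ring
      have e4 : 2 * (k : ℝ) * (Real.log κ + (2 * k + 1) / 2 * Real.log q) =
        2 * k * Real.log κ + k * (2 * k + 1) * Real.log q := by ring
      rw [e1, e3]
      rw [e4] at h5
      linarith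
    calc φ * (m ^ (2 * m₁ + q) * r ^ (2 * k - 1)) ≤
        A * (m ^ (2 * (m₁ + q)) * r ^ (2 * k)) := h1
      _ = Real.exp (Real.log (A * (m ^ (2 * (m₁ + q)) * r ^ (2 * k)))) :=
          (Real.exp_log (by positivity)).symm
      _ ≤ Real.exp (2 * b ^ 2 * s + C * (K₁ + K₂) * Q) :=
          Real.exp_le_exp.2 (h9.trans (by linarith))

end I_GWr

/-- R6. -/
theorem GWr_pf (h7 : S_Num) : S_GWr := I_GWr.main h7

end Pool.Agent.Work.MP_56b8f5_nt.WM
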