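import Pool.Agent.Work.MP_56b8f5_nt.WM.Stmts

/-!
MP_56b8f5_nt, block WM, item Gcd (A4): the gcd sum.
-/

set_option autoImplicit false

open MeasureTheory Set Filter Topology

noncomputable section

namespace Pool.Agent.Work.MP_56b8f5_nt.WM

open Pool.Agent.Work.MP_56b8f5_nt.EM

namespace I_Gcd

/-- `(h, l)` as a sum over the common divisors. -/
lemma gcd_sum {h l X : ℕ} (hh : 1 ≤ h) (hX : h ≤ X) :
    (Nat.gcd h l : ℝ) = ∑ d ∈ Finset.range (X + 1),
      if d ∣ h ∧ d ∣ l then (Nat.totient d : ℝ) else 0 := by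
  have h0 : 0 < Nat.gcd h l := Nat.gcd_pos_of_pos_left _ hh
  have h1 : ∑ m ∈ (Nat.gcd h l).divisors, Nat.totient m = Nat.gcd h l := Nat.sum_totient _
  rw [← Finset.sum_filter]
  have h2 : (Finset.range (X + 1)).filter (fun d => d ∣ h ∧ d ∣ l) = (Nat.gcd h l).divisors := by
    ext d
    rw [Finset.mem_filter, Finset.mem_range, Nat.mem_divisors, Nat.dvd_gcd_iff]
    constructor
    · rintro ⟨_, h3⟩
      exact ⟨h3, h0.ne'⟩
    · rintro ⟨h3, _⟩
      refine ⟨?_, h3⟩
      have := Nat.le_of_dvd hh h3.1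
      omega
  rw [h2]
  exact_mod_cast h1.symm

end I_Gcd

open I_Gcd in
theorem Gcd_pf (h2 : S_PeBas) (h3 : S_PeSum) : S_Gcd := by
  classical
  intro a b z X ha haz hb hba
  obtain ⟨c1, c2, -, -, c5, -, c7, c8, -, -, -⟩ := h2 a ha
  have ha2 : ∀ p, 0 ≤ a p ^ 2 := fun p => sq_nonneg _
  obtain ⟨-, -, -, -, -, -, -, d8, -, -, -⟩ := h2 (fun p => a p ^ 2) ha2
  have hpe0 : ∀ c : ℕ → ℝ, pe c 0 = 0 := fun c => by simp [pe]
  have hb0 : b 0 = 0 := le_antisymm ((hba 0).trans_eq (hpe0 a)) (hb 0)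
  set S : ℝ := ∑ n ∈ Finset.range (X + 1), pe a n / (n : ℝ) with hS
  have hS0 : 0 ≤ S := Finset.sum_nonneg fun n _ => div_nonneg (c1 n) (Nat.cast_nonneg n)
  have hS1 : S ≤ Real.exp (∑ p ∈ pr z, a p / (p : ℝ)) := by
    have h4 : S = ∑ n ∈ Finset.range (X + 1), pe (fun p => a p / (p : ℝ)) n := by
      refine Finset.sum_congr rfl fun n _ => ?_
      rcases Nat.eq_zero_or_pos n with rfl | hn
      · rw [hpe0, hpe0, zero_div]
      · exact c8 n hn
    rw [h4]
    refine h3 _ z X (fun p => div_nonneg (ha p) (Nat.cast_nonneg p)) fun p hp => ?_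
    rw [haz p hp, zero_div]
  -- the inner sums
  have hin : ∀ d ∈ Finset.range (X + 1), 1 ≤ d →
      ∑ h ∈ (Finset.range (X + 1)).filter (fun h => d ∣ h), b h / (h : ℝ) ≤ pe a d / (d : ℝ) * S := by
    intro d _ hd
    have hd' : (0 : ℝ) < d := by exact_mod_cast hd
    calc ∑ h ∈ (Finset.range (X + 1)).filter (fun h => d ∣ h), b h / (h : ℝ)
        ≤ ∑ h ∈ (Finset.range (X + 1)).filter (fun h => d ∣ h),
            pe a d / (d : ℝ) * (pe a (h / d) / ((h / d : ℕ) : ℝ)) := by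
          refine Finset.sum_le_sum fun h hh => ?_
          obtain ⟨n, rfl⟩ := (Finset.mem_filter.1 hh).2
          rw [Nat.mul_div_cancel_left _ hd]
          rw [div_mul_div_comm, Nat.cast_mul]
          exact div_le_div_of_nonneg_right ((hba _).trans (c5 _ _)) (by positivity)
      _ = pe a d / (d : ℝ) * ∑ h ∈ (Finset.range (X + 1)).filter (fun h => d ∣ h),
            (pe a (h / d) / ((h / d : ℕ) : ℝ)) := by rw [Finset.mul_sum]
      _ = pe a d / (d : ℝ) * ∑ n ∈ ((Finset.range (X + 1)).filter (fun h => d ∣ h)).image (· / d),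
            (pe a n / (n : ℝ)) := by
          rw [Finset.sum_image]
          intro x hx y hy hxy
          obtain ⟨n, rfl⟩ := (Finset.mem_filter.1 hx).2
          obtain ⟨m, rfl⟩ := (Finset.mem_filter.1 hy).2
          simp only [Nat.mul_div_cancel_left _ hd] at hxy
          rw [hxy]
      _ ≤ pe a d / (d : ℝ) * S := by
          refine mul_le_mul_of_nonneg_left ?_ (div_nonneg (c1 d) hd'.le)
          refine Finset.sum_le_sum_of_subset_of_nonneg ?_ fun n _ _ =>
            div_nonneg (c1 n) (Nat.cast_nonneg n)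
          intro n hn
          obtain ⟨h, hh, rfl⟩ := Finset.mem_image.1 hn
          have h4 := Finset.mem_range.1 (Finset.mem_filter.1 hh).1
          have h5 := Nat.div_le_self h d
          exact Finset.mem_range.2 (by omega)
  -- the gcd sum
  have hGS : GS b X = ∑ d ∈ Finset.range (X + 1), (Nat.totient d : ℝ) *
      (∑ h ∈ (Finset.range (X + 1)).filter (fun h => d ∣ h), b h / (h : ℝ)) ^ 2 := by
    have h4 : ∀ d, (∑ h ∈ (Finset.range (X + 1)).filter (fun h => d ∣ h), b h / (h : ℝ)) ^ 2 =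
        ∑ h ∈ Finset.range (X + 1), ∑ l ∈ Finset.range (X + 1),
          (if d ∣ h ∧ d ∣ l then b h / (h : ℝ) * (b l / (l : ℝ)) else 0) := by
      intro d
      rw [sq, Finset.sum_filter, Finset.sum_mul_sum]
      refine Finset.sum_congr rfl fun h _ => Finset.sum_congr rfl fun l _ => ?_
      by_cases h5 : d ∣ h <;> by_cases h6 : d ∣ l <;> simp [h5, h6]
    simp only [h4, Finset.mul_sum]
    rw [Finset.sum_comm]
    unfold GS
    refine Finset.sum_congr rfl fun h hh => ?_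
    rw [Finset.sum_comm]
    refine Finset.sum_congr rfl fun l _ => ?_
    rcases Nat.eq_zero_or_pos h with rfl | hh0
    · simp [hb0]
    · rw [gcd_sum hh0 (Nat.lt_succ_iff.1 (Finset.mem_range.1 hh)), Finset.mul_sum,
        Finset.sum_div]
      refine Finset.sum_congr rfl fun d _ => ?_
      split_ifs
      · rw [div_mul_div_comm]
        ring
      · simp
  have hfin : GS b X ≤ S ^ 2 * ∑ d ∈ Finset.range (X + 1),
      pe (fun p => a p ^ 2 / (p : ℝ)) d := by
    rw [hGS, Finset.mul_sum]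
    refine Finset.sum_le_sum fun d hd => ?_
    rcases Nat.eq_zero_or_pos d with rfl | hd0
    · simp [hpe0]
    have hd' : (0 : ℝ) < d := by exact_mod_cast hd0
    have hI0 : 0 ≤ ∑ h ∈ (Finset.range (X + 1)).filter (fun h => d ∣ h), b h / (h : ℝ) :=
      Finset.sum_nonneg fun h _ => div_nonneg (hb h) (Nat.cast_nonneg h)
    have h5 : (Nat.totient d : ℝ) ≤ d := by exact_mod_cast Nat.totient_le d
    have h6 : pe a d ^ 2 / (d : ℝ) ≤ pe (fun p => a p ^ 2 / (p : ℝ)) d := by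
      rw [← d8 d hd0]
      exact div_le_div_of_nonneg_right (c7 d) hd'.le
    calc (Nat.totient d : ℝ) *
          (∑ h ∈ (Finset.range (X + 1)).filter (fun h => d ∣ h), b h / (h : ℝ)) ^ 2
        ≤ (d : ℝ) * (pe a d / (d : ℝ) * S) ^ 2 := by
          refine mul_le_mul h5 ?_ (sq_nonneg _) hd'.le
          exact pow_le_pow_left₀ hI0 (hin d hd hd0) 2
      _ = S ^ 2 * (pe a d ^ 2 / (d : ℝ)) := by
          field_simp
      _ ≤ S ^ 2 * pe (fun p => a p ^ 2 / (p : ℝ)) d :=
          mul_le_mul_of_nonneg_left h6 (sq_nonneg _)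
  have hQ : ∑ d ∈ Finset.range (X + 1), pe (fun p => a p ^ 2 / (p : ℝ)) d ≤
      Real.exp (∑ p ∈ pr z, a p ^ 2 / (p : ℝ)) := by
    refine h3 _ z X (fun p => div_nonneg (ha2 p) (Nat.cast_nonneg p)) fun p hp => ?_
    rw [haz p hp]
    simp
  have hQ0 : 0 ≤ ∑ d ∈ Finset.range (X + 1), pe (fun p => a p ^ 2 / (p : ℝ)) d := by
    refine Finset.sum_nonneg fun d _ => ?_
    exact (h2 _ fun p => div_nonneg (ha2 p) (Nat.cast_nonneg p)).1 d
  calc GS b X ≤ S ^ 2 * ∑ d ∈ Finset.range (X + 1), pe (fun p => a p ^ 2 / (p : ℝ)) d := hfin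
    _ ≤ Real.exp (∑ p ∈ pr z, a p / (p : ℝ)) ^ 2 * Real.exp (∑ p ∈ pr z, a p ^ 2 / (p : ℝ)) := by
        refine mul_le_mul (pow_le_pow_left₀ hS0 hS1 2) hQ hQ0 (sq_nonneg _)
    _ = Real.exp (∑ p ∈ pr z, (2 * a p + a p ^ 2) / (p : ℝ)) := by
        rw [← Real.exp_nat_mul, ← Real.exp_add, Finset.mul_sum, ← Finset.sum_add_distrib]
        congr 1
        refine Finset.sum_congr rfl fun p _ => ?_
        push_cast
        ring

end Pool.Agent.Work.MP_56b8f5_nt.WM
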