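import Pool.Agent.Work.MP_56b8f5_nt.WM.Stmts

/-!
MP_56b8f5_nt, block WM, item B5 (Jb): upper bounds for the twisted moments `J0` and `J2`.
-/

set_option autoImplicit false

open MeasureTheory Set Filter Topology

noncomputable section

namespace Pool.Agent.Work.MP_56b8f5_nt.WM

open Pool.Agent.Work.MP_56b8f5_nt.EM

namespace I_Jb

theorem aa_nonneg (q y z m j p : ℕ) : 0 ≤ aa q y z m j p := by
  unfold aa
  split_ifs
  · positivity
  · positivity
  · exact le_rfl

theorem aa_zero {q y z m j p : ℕ} (hyz : y ≤ z) (hp : z < p) : aa q y z m j p = 0 := by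
  unfold aa
  rw [if_neg (by omega), if_neg (by omega)]

/-- Sums of functions of `aa` over the primes up to `z`. -/
theorem sum_aa (q y z m j : ℕ) (hyz : y ≤ z) (F : ℝ → ℝ) :
    ∑ p ∈ pr z, F (aa q y z m j p) / (p : ℝ) = F ((m : ℝ) / q) * S1 y + F (j : ℝ) * S2 y z := by
  have h1 : (pr z).filter (fun p => ¬ y < p) = pr y := by
    ext p
    simp only [pr, Finset.mem_filter, Finset.mem_range]
    constructor
    · rintro ⟨⟨_, h2⟩, h3⟩
      exact ⟨by omega, h2⟩
    · rintro ⟨h2, h3⟩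
      exact ⟨⟨by omega, h3⟩, by omega⟩
  rw [← Finset.sum_filter_add_sum_filter_not (pr z) (fun p => y < p), h1, add_comm]
  unfold S1 S2
  rw [Finset.mul_sum, Finset.mul_sum]
  congr 1
  · refine Finset.sum_congr rfl fun p hp => ?_
    have hp' : p ≤ y := by
      simp only [pr, Finset.mem_filter, Finset.mem_range] at hp
      omega
    have : aa q y z m j p = (m : ℝ) / q := by
      unfold aa
      rw [if_pos hp']
    rw [this, mul_one_div]
  · refine Finset.sum_congr rfl fun p hp => ?_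
    have hp' : y < p ∧ p ≤ z := by
      simp only [pr, Finset.mem_filter, Finset.mem_range] at hp
      exact ⟨hp.2, by omega⟩
    have : aa q y z m j p = (j : ℝ) := by
      unfold aa
      rw [if_neg (by omega), if_pos hp'.2]
    rw [this, mul_one_div]

theorem norm_sq (h8 : S_BBp) {q y z : ℕ} (m j : ℕ) (hq : 1 ≤ q) (hyz : y ≤ z) (t : ℝ) :
    aM q y t ^ (2 * m) * aR y z t ^ (2 * j) =
      ‖DP (BB q y z m j) (y ^ m * z ^ j) t‖ ^ 2 := by
  rw [(h8 q y z m j hq hyz).2.2.2 _ le_rfl t, norm_mul, norm_pow, norm_pow]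
  unfold aM aR
  rw [mul_pow, ← pow_mul, ← pow_mul, mul_comm m 2, mul_comm j 2]

end I_Jb

open I_Jb in
/-- **B5.** -/
theorem Jb_pf (h1 : S_MVb) (h2 : S_TSb) (h4 : S_Gcd) (h5 : S_Sq) (h8 : S_BBp) : S_Jb := by
  intro w hw
  obtain ⟨C₁, hC₁, H1⟩ := h1 w hw
  obtain ⟨C₂, T₂, hC₂, H2⟩ := h2 w hw
  refine ⟨1 + C₁ + C₂, max 1 T₂, by linarith, fun T hT q y z m j hq hyz hX => ?_⟩
  have hT1 : 1 ≤ T := le_trans (le_max_left _ _) hT
  have hT2 : T₂ ≤ T := le_trans (le_max_right _ _) hT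
  have hlog : 0 ≤ Real.log T := Real.log_nonneg hT1
  have hb0 : BB q y z m j 0 = 0 := ArithmeticFunction.map_zero
  have hbn : ∀ n, 0 ≤ BB q y z m j n := fun n => ((h8 q y z m j hq hyz).1 n).1
  have hba : ∀ n, BB q y z m j n ≤ pe (aa q y z m j) n := fun n => ((h8 q y z m j hq hyz).1 n).2
  constructor
  · have hA := H1 T hT1 (y ^ m * z ^ j) hX (BB q y z m j) hb0
    have hB := h5 (aa q y z m j) (BB q y z m j) z (y ^ m * z ^ j) (aa_nonneg q y z m j)
      (fun p hp => aa_zero hyz hp) hbn hba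
    rw [sum_aa q y z m j hyz (fun x => x ^ 2)] at hB
    have hE : J0 w q y z T m j =
        ∫ u : ℝ, w u * ‖DP (BB q y z m j) (y ^ m * z ^ j) (T * u)‖ ^ 2 := by
      unfold J0
      congr 1
      funext u
      rw [norm_sq h8 m j hq hyz]
    rw [hE]
    calc _ ≤ C₁ * Q2 (BB q y z m j) (y ^ m * z ^ j) := hA
      _ ≤ C₁ * Real.exp (((m : ℝ) / q) ^ 2 * S1 y + (j : ℝ) ^ 2 * S2 y z) :=
        mul_le_mul_of_nonneg_left hB hC₁
      _ ≤ _ := mul_le_mul_of_nonneg_right (by linarith) (Real.exp_pos _).le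
  · have hA := H2 T hT2 (y ^ m * z ^ j) hX (BB q y z m j) hb0 hbn
    have hB := h4 (aa q y z m j) (BB q y z m j) z (y ^ m * z ^ j) (aa_nonneg q y z m j)
      (fun p hp => aa_zero hyz hp) hbn hba
    rw [sum_aa q y z m j hyz (fun x => 2 * x + x ^ 2)] at hB
    have hE : J2 w q y z T m j = ∫ u : ℝ, w u * (az (T * u) ^ 2 *
        ‖DP (BB q y z m j) (y ^ m * z ^ j) (T * u)‖ ^ 2) := by
      unfold J2
      congr 1
      funext u
      rw [norm_sq h8 m j hq hyz]
    rw [hE]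
    calc _ ≤ C₂ * Real.log T * GS (BB q y z m j) (y ^ m * z ^ j) := hA
      _ ≤ C₂ * Real.log T * Real.exp ((2 * ((m : ℝ) / q) + ((m : ℝ) / q) ^ 2) * S1 y +
          (2 * (j : ℝ) + (j : ℝ) ^ 2) * S2 y z) :=
        mul_le_mul_of_nonneg_left hB (mul_nonneg hC₂ hlog)
      _ ≤ _ := mul_le_mul_of_nonneg_right (mul_le_mul_of_nonneg_right (by linarith) hlog)
        (Real.exp_pos _).le

end Pool.Agent.Work.MP_56b8f5_nt.WM
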