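import Pool.Agent.Work.MP_56b8f5_nt.WM.Stmts

set_option autoImplicit false

open MeasureTheory Set Filter Topology

noncomputable section

namespace Pool.Agent.Work.MP_56b8f5_nt.WM

open Pool.Agent.Work.MP_56b8f5_nt.EM

namespace I_Low

lemma aa_nonneg (q y z m j p : ℕ) : 0 ≤ aa q y z m j p := by
  unfold aa
  split_ifs <;> positivity

lemma aa_zero (q y z m j p : ℕ) (hyz : y ≤ z) (hp : z < p) : aa q y z m j p = 0 := by
  unfold aa
  rw [if_neg (by omega), if_neg (by omega)]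

lemma split (y z : ℕ) (hyz : y ≤ z) : ∑ p ∈ pr z, 1 / (p : ℝ) = S1 y + S2 y z := by
  unfold S1 S2
  rw [← Finset.sum_filter_add_sum_filter_not (pr z) (fun p => p ≤ y)]
  congr 1
  · apply Finset.sum_congr _ (fun _ _ => rfl)
    ext p
    simp only [pr, Finset.mem_filter, Finset.mem_range]
    constructor
    · rintro ⟨⟨h1, h2⟩, h3⟩
      exact ⟨by omega, h2⟩
    · rintro ⟨h1, h2⟩
      exact ⟨⟨by omega, h2⟩, by omega⟩
  · apply Finset.sum_congr _ (fun _ _ => rfl)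
    ext p
    simp only [Finset.mem_filter, not_le]

lemma aa_le (q y z m j k p : ℕ) (hq : 1 ≤ q) (hm : m ≤ q * k) (hj : j ≤ k) :
    aa q y z m j p ≤ k := by
  unfold aa
  have hq' : (0 : ℝ) < q := by exact_mod_cast hq
  split_ifs
  · rw [div_le_iff₀ hq']
    have : (m : ℝ) ≤ ((q * k : ℕ) : ℝ) := by exact_mod_cast hm
    push_cast at this
    linarith
  · exact_mod_cast hj
  · positivity

lemma Q2_le (h8 : S_BBp) (h5 : S_Sq) (q y z m j k X : ℕ) (hq : 1 ≤ q) (hyz : y ≤ z)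
    (hm : m ≤ q * k) (hj : j ≤ k) :
    Q2 (BB q y z m j) X ≤ Real.exp ((k : ℝ) ^ 2 * (S1 y + S2 y z)) := by
  obtain ⟨h81, -, -, -⟩ := h8 q y z m j hq hyz
  refine le_trans (h5 (aa q y z m j) (BB q y z m j) z X (aa_nonneg q y z m j)
    (fun p hp => aa_zero q y z m j p hyz hp) (fun n => (h81 n).1) (fun n => (h81 n).2)) ?_
  apply Real.exp_le_exp.mpr
  rw [← split y z hyz, Finset.mul_sum]
  apply Finset.sum_le_sum
  intro p _
  rw [mul_one_div]
  apply div_le_div_of_nonneg_right _ (by positivity)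
  exact pow_le_pow_left₀ (aa_nonneg q y z m j p) (aa_le q y z m j k p hq hm hj) 2

end I_Low

open I_Low in
theorem Low_pf (h3 : S_FMb) (h8 : S_BBp) (hM : S_LowM) (h5 : S_Sq) (h7 : S_Num) : S_Low := by
  intro w hw hw0 k C hk hC
  obtain ⟨c₁, C₁, T₁, hc₁, hC₁, H3⟩ := h3 w hw hw0
  obtain ⟨c₂, hc₂, HM⟩ := hM k (by omega)
  obtain ⟨C₇, T₇, hC₇, hT₇, H7⟩ := h7 k C hC
  have hC0 : 0 < C := by linarith
  have hC70 : 0 < C₇ := by linarith
  set K : ℝ := 2 * C₁ * C₇ ^ (k ^ 2) * C ^ (k ^ 2) / (c₁ * c₂) with hK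
  have hK0 : 0 ≤ K := by positivity
  refine ⟨c₁ * c₂ / (2 * C ^ (k ^ 2)), max T₁ (max T₇ (K ^ 4)), by positivity, ?_⟩
  intro T hT q y z hp
  have hT1 : T₁ ≤ T := le_trans (le_max_left _ _) hT
  have hT7 : T₇ ≤ T := le_trans (le_trans (le_max_left _ _) (le_max_right _ _)) hT
  have hTK : K ^ 4 ≤ T := le_trans (le_trans (le_max_right _ _) (le_max_right _ _)) hT
  have hT3 : 3 ≤ T := by linarith
  have hlT : 0 ≤ Real.log T := Real.log_nonneg (by linarith)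
  obtain ⟨hs1, hs2, hs, -, -, -, -⟩ := H7 T hT7 q y z hp
  have hq := hp.hq
  have hy := hp.hy
  have hyz := hp.hyz
  have hy1 : 1 ≤ y := by omega
  have hz1 : 1 ≤ z := by omega
  set X : ℕ := y ^ (q * k) * z ^ k with hX
  have hXT : (X : ℝ) ^ 3 ≤ T := by
    refine le_trans ?_ hp.hlen
    apply pow_le_pow_left₀ (by positivity)
    have : X ≤ y ^ (q * k + 1) * z ^ (k + 1) :=
      Nat.mul_le_mul (Nat.pow_le_pow_right hy1 (by omega)) (Nat.pow_le_pow_right hz1 (by omega))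
    exact_mod_cast this
  have hyzX : y * z ≤ X := by
    apply Nat.mul_le_mul
    · calc y = y ^ 1 := (pow_one y).symm
        _ ≤ y ^ (q * k) := Nat.pow_le_pow_right hy1 (Nat.mul_pos hq (by omega))
    · calc z = z ^ 1 := (pow_one z).symm
        _ ≤ z ^ k := Nat.pow_le_pow_right hz1 (by omega)
  obtain ⟨ha1, -, -, ha4⟩ := h8 q y z (q * (k - 1)) (k - 1) hq hyz
  obtain ⟨hb1, -, -, hb4⟩ := h8 q y z (q * k) k hq hyz
  have haX : y ^ (q * (k - 1)) * z ^ (k - 1) ≤ X :=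
    Nat.mul_le_mul (Nat.pow_le_pow_right hy1 (Nat.mul_le_mul_left _ (by omega)))
      (Nat.pow_le_pow_right hz1 (by omega))
  have hmain := H3 T hT1 X hXT (BB q y z (q * (k - 1)) (k - 1)) (BB q y z (q * k) k)
    (ArithmeticFunction.map_zero) (ArithmeticFunction.map_zero) (fun n => (ha1 n).1)
    (fun n => (hb1 n).1)
  have hlow := HM q y z X hq hy hyz hyzX
  -- the integrand
  have hint : (∫ u : ℝ, w u * (az (T * u) * (‖DP (BB q y z (q * (k - 1)) (k - 1)) X (T * u)‖ *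
      ‖DP (BB q y z (q * k) k) X (T * u)‖))) = ∫ u : ℝ, w u * (az (T * u) *
      (aM q y (T * u) ^ (q * (2 * k - 1)) * aR y z (T * u) ^ (2 * k - 1))) := by
    apply integral_congr_ae
    refine Eventually.of_forall fun u => ?_
    show w u * (az (T * u) * (‖DP (BB q y z (q * (k - 1)) (k - 1)) X (T * u)‖ *
      ‖DP (BB q y z (q * k) k) X (T * u)‖)) = w u * (az (T * u) *
      (aM q y (T * u) ^ (q * (2 * k - 1)) * aR y z (T * u) ^ (2 * k - 1)))
    rw [ha4 X haX, hb4 X le_rfl, norm_mul, norm_mul, norm_pow, norm_pow, norm_pow, norm_pow]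
    have e1 : q * (2 * k - 1) = q * (k - 1) + q * k := by
      rw [← Nat.mul_add]; congr 1; omega
    have e2 : 2 * k - 1 = (k - 1) + k := by omega
    rw [e1, e2, pow_add, pow_add]
    unfold aM aR
    ring
  rw [hint] at hmain
  -- the error
  have hQ : ∀ m j : ℕ, m ≤ q * k → j ≤ k →
      Real.sqrt (Q2 (BB q y z m j) X) ≤ Real.sqrt ((C₇ * Real.log T) ^ (k ^ 2)) := by
    intro m j hm hj
    apply Real.sqrt_le_sqrt
    refine le_trans (Q2_le h8 h5 q y z m j k X hq hyz hm hj) ?_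
    have : Real.exp ((k : ℝ) ^ 2 * (S1 y + S2 y z)) = Real.exp (S1 y + S2 y z) ^ (k ^ 2) := by
      rw [← Real.exp_nat_mul]
      push_cast
      ring_nf
    rw [this]
    exact pow_le_pow_left₀ (Real.exp_pos _).le hs _
  have hQQ : Real.sqrt (Q2 (BB q y z (q * (k - 1)) (k - 1)) X) *
      Real.sqrt (Q2 (BB q y z (q * k) k) X) ≤ (C₇ * Real.log T) ^ (k ^ 2) := by
    calc _ ≤ Real.sqrt ((C₇ * Real.log T) ^ (k ^ 2)) * Real.sqrt ((C₇ * Real.log T) ^ (k ^ 2)) :=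
          mul_le_mul (hQ _ _ (Nat.mul_le_mul_left _ (by omega)) (by omega))
            (hQ _ _ le_rfl le_rfl) (Real.sqrt_nonneg _) (Real.sqrt_nonneg _)
      _ = _ := Real.mul_self_sqrt (by positivity)
  have hT0 : 0 < T := by linarith
  have hT4 : 0 < T ^ (1 / 4 : ℝ) := Real.rpow_pos_of_pos hT0 _
  have hKT : K ≤ T ^ (1 / 4 : ℝ) := by
    calc K = (K ^ 4) ^ (1 / 4 : ℝ) := by
          rw [← Real.rpow_natCast, ← Real.rpow_mul hK0]
          norm_num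
      _ ≤ T ^ (1 / 4 : ℝ) := Real.rpow_le_rpow (by positivity) hTK (by norm_num)
  have herr : C₁ / T ^ (1 / 4 : ℝ) * C₇ ^ (k ^ 2) ≤ c₁ * c₂ / (2 * C ^ (k ^ 2)) := by
    have h1 : 2 * C₁ * C₇ ^ (k ^ 2) * C ^ (k ^ 2) ≤ T ^ (1 / 4 : ℝ) * (c₁ * c₂) := by
      rw [hK, div_le_iff₀ (by positivity)] at hKT
      exact hKT
    rw [div_mul_eq_mul_div, div_le_div_iff₀ hT4 (by positivity)]
    nlinarith [h1]
  have hlz : (Real.log T / C) ^ (k ^ 2) ≤ Real.log z ^ (k ^ 2) := by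
    apply pow_le_pow_left₀ (by positivity)
    rw [div_le_iff₀ hC0]
    have := hp.hz
    linarith
  have hL : 0 ≤ Real.log T ^ (k ^ 2) := by positivity
  have e3 : C₁ / T ^ (1 / 4 : ℝ) * (Real.sqrt (Q2 (BB q y z (q * (k - 1)) (k - 1)) X) *
      Real.sqrt (Q2 (BB q y z (q * k) k) X)) ≤
      c₁ * c₂ / (2 * C ^ (k ^ 2)) * Real.log T ^ (k ^ 2) := by
    calc _ ≤ C₁ / T ^ (1 / 4 : ℝ) * (C₇ * Real.log T) ^ (k ^ 2) :=
          mul_le_mul_of_nonneg_left hQQ (by positivity)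
      _ = C₁ / T ^ (1 / 4 : ℝ) * C₇ ^ (k ^ 2) * Real.log T ^ (k ^ 2) := by
          rw [mul_pow]; ring
      _ ≤ _ := mul_le_mul_of_nonneg_right herr hL
  have e4 : c₁ * c₂ / C ^ (k ^ 2) * Real.log T ^ (k ^ 2) ≤
      c₁ * ∑ l ∈ Finset.range (X + 1),
        BB q y z (q * k) k l / (l : ℝ) * ∑ h ∈ l.divisors, BB q y z (q * (k - 1)) (k - 1) h := by
    calc c₁ * c₂ / C ^ (k ^ 2) * Real.log T ^ (k ^ 2)
        = c₁ * (c₂ * (Real.log T / C) ^ (k ^ 2)) := by rw [div_pow]; ring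
      _ ≤ c₁ * (c₂ * Real.log z ^ (k ^ 2)) :=
          mul_le_mul_of_nonneg_left (mul_le_mul_of_nonneg_left hlz hc₂.le) hc₁.le
      _ ≤ _ := mul_le_mul_of_nonneg_left hlow hc₁.le
  have e5 : c₁ * c₂ / C ^ (k ^ 2) * Real.log T ^ (k ^ 2) =
      2 * (c₁ * c₂ / (2 * C ^ (k ^ 2)) * Real.log T ^ (k ^ 2)) := by
    field_simp
  linarith

end Pool.Agent.Work.MP_56b8f5_nt.WM
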