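import Pool.Agent.Work.MP_56b8f5_nt.WM.Stmts

/-!
Item A10 (LowM): main term of the first moment from below.
-/

set_option autoImplicit false

open MeasureTheory Set Filter Topology

noncomputable section

namespace Pool.Agent.Work.MP_56b8f5_nt.WM

open Pool.Agent.Work.MP_56b8f5_nt.EM

namespace I_LowM

/-- The value of `aa` at the primes up to `z`. -/
lemma aa_le {q y z k p : ℕ} (hq : 1 ≤ q) (hp : p ≤ z) : aa q y z (q * k) k p = (k : ℝ) := by
  unfold aa
  have hq0 : (q : ℝ) ≠ 0 := by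
    have : (1 : ℝ) ≤ q := by exact_mod_cast hq
    linarith
  split_ifs with h
  · push_cast
    field_simp
  · rfl

lemma aa_nonneg (q y z m j p : ℕ) : 0 ≤ aa q y z m j p := by
  unfold aa
  split_ifs
  · positivity
  · positivity
  · exact le_rfl

/-- `pe` on squarefree numbers whose primes are at most `z`. -/
lemma pe_eq (h2 : S_PeBas) {q y z k l : ℕ} (hq : 1 ≤ q) (hl : l ≠ 0) (hs : Squarefree l)
    (hp : ∀ p, p.Prime → p ∣ l → p ≤ z) :
    pe (aa q y z (q * k) k) l = (k : ℝ) ^ l.primeFactors.card := by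
  obtain ⟨-, -, -, -, -, -, -, -, -, -, h⟩ := h2 (aa q y z (q * k) k) (fun p => aa_nonneg _ _ _ _ _ p)
  rw [h l hl hs, ← Finset.prod_const]
  refine Finset.prod_congr rfl fun p hp' => ?_
  exact aa_le hq (hp p (Nat.prime_of_mem_primeFactors hp') (Nat.dvd_of_mem_primeFactors hp'))

/-- The divisor sum. -/
lemma sum_div (h2 : S_PeBas) {q y z k l : ℕ} (hq : 1 ≤ q) (hs : Squarefree l)
    (hp : ∀ p, p.Prime → p ∣ l → p ≤ z) :
    ∑ h ∈ l.divisors, pe (aa q y z (q * k) k) h = ((k : ℝ) + 1) ^ l.primeFactors.card := by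
  obtain ⟨a, ha⟩ : ∃ a, a = aa q y z (q * k) k := ⟨_, rfl⟩
  have ha0 : ∀ p, 0 ≤ a p := fun p => by rw [ha]; exact aa_nonneg _ _ _ _ _ p
  have hmul : (pa a).IsMultiplicative := by
    obtain ⟨-, h1, -, -, -, h6, -⟩ := h2 a ha0
    exact ⟨h1, fun {m n} hmn => h6 m n hmn⟩
  have h := hmul.prodPrimeFactors_one_add_of_squarefree hs
  have h' : ∑ h ∈ l.divisors, pe (aa q y z (q * k) k) h = ∑ d ∈ l.divisors, pa a d := by
    rw [ha]
    rfl
  rw [h', ← h, ← Finset.prod_const]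
  refine Finset.prod_congr rfl fun p hp' => ?_
  have hpp := Nat.prime_of_mem_primeFactors hp'
  have h3 : pa a p = (k : ℝ) := by
    change pe a p = (k : ℝ)
    rw [ha, pe_eq h2 hq hpp.ne_zero hpp.prime.squarefree
      (fun r _ hr' => (Nat.le_of_dvd hpp.pos hr').trans
        (hp p hpp (Nat.dvd_of_mem_primeFactors hp'))), hpp.primeFactors, Finset.card_singleton,
      pow_one]
  rw [h3, add_comm]

/-- The first set of the pairs. -/
def sA (y : ℕ) : Finset ℕ := (Finset.Icc 1 y).filter Squarefree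

/-- The second set of the pairs. -/
def sB (y z : ℕ) : Finset ℕ :=
  (Finset.Icc 1 z).filter fun n => Squarefree n ∧ ∀ p ∈ n.primeFactors, y < p

lemma mem_sA {y n : ℕ} : n ∈ sA y ↔ (1 ≤ n ∧ n ≤ y) ∧ Squarefree n := by
  simp only [sA, Finset.mem_filter, Finset.mem_Icc]

lemma mem_sB {y z n : ℕ} : n ∈ sB y z ↔ (1 ≤ n ∧ n ≤ z) ∧ Squarefree n ∧
    ∀ p ∈ n.primeFactors, y < p := by
  simp only [sB, Finset.mem_filter, Finset.mem_Icc]

/-- Elements of the two sets are coprime. -/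
lemma cop {y z a b : ℕ} (ha : a ∈ sA y) (hb : b ∈ sB y z) : Nat.Coprime a b := by
  rw [mem_sA] at ha
  rw [mem_sB] at hb
  rw [Nat.coprime_iff_gcd_eq_one]
  by_contra h
  obtain ⟨p, hp, hpd⟩ := Nat.exists_prime_and_dvd h
  have h1 : p ∣ a := hpd.trans (Nat.gcd_dvd_left _ _)
  have h2 : p ∣ b := hpd.trans (Nat.gcd_dvd_right _ _)
  have h3 := hb.2.2 p (Nat.mem_primeFactors.2 ⟨hp, h2, by omega⟩)
  have h4 := Nat.le_of_dvd (by omega) h1
  omega

/-- The pairs are determined by the products. -/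
lemma inj {y z a b a' b' : ℕ} (ha : a ∈ sA y) (hb : b ∈ sB y z) (ha' : a' ∈ sA y)
    (hb' : b' ∈ sB y z) (h : a * b = a' * b') : a = a' ∧ b = b' := by
  have h1 : a ∣ a' := (cop ha hb').dvd_of_dvd_mul_right (h ▸ Dvd.intro b rfl)
  have h2 : a' ∣ a := (cop ha' hb).dvd_of_dvd_mul_right (h ▸ Dvd.intro b' rfl)
  have h3 : a = a' := Nat.dvd_antisymm h1 h2
  refine ⟨h3, ?_⟩
  have h4 : 0 < a := by
    rw [mem_sA] at ha
    omega
  subst h3
  exact Nat.eq_of_mul_eq_mul_left h4 h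

/-- The term of a pair. -/
lemma term (h2 : S_PeBas) (h8 : S_BBp) {k q y z a b : ℕ} (hq : 1 ≤ q) (hyz : y ≤ z)
    (ha : a ∈ sA y) (hb : b ∈ sB y z) :
    BB q y z (q * (k + 1)) (k + 1) (a * b) / ((a * b : ℕ) : ℝ) *
      ∑ h ∈ (a * b).divisors, BB q y z (q * k) k h =
      ((((k + 1) ^ 2 : ℕ) : ℝ) ^ a.primeFactors.card / (a : ℝ)) *
        ((((k + 1) ^ 2 : ℕ) : ℝ) ^ b.primeFactors.card / (b : ℝ)) := by
  have hcop := cop ha hb
  have ha' := mem_sA.1 ha
  have hb' := mem_sB.1 hb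
  have hb2 : ∀ p, p.Prime → p ∣ b → y < p := fun p hp hpb =>
    hb'.2.2 p (Nat.mem_primeFactors.2 ⟨hp, hpb, by omega⟩)
  have hs : Squarefree (a * b) := (Nat.squarefree_mul hcop).2 ⟨ha'.2, hb'.2.1⟩
  have hab : a * b ≠ 0 := hs.ne_zero
  have hpz : ∀ p, p.Prime → p ∣ a * b → p ≤ z := by
    intro p hp hpd
    rcases (Nat.Prime.dvd_mul hp).1 hpd with h | h
    · exact (Nat.le_of_dvd (by omega) h).trans (ha'.1.2.trans hyz)
    · exact (Nat.le_of_dvd (by omega) h).trans hb'.1.2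
  have e1 : BB q y z (q * (k + 1)) (k + 1) (a * b) =
      ((k + 1 : ℕ) : ℝ) ^ (a * b).primeFactors.card := by
    rw [(h8 q y z (q * (k + 1)) (k + 1) hq hyz).2.2.1 a b ha'.1.1 ha'.1.2 hb'.1.1 hb'.1.2 hb2]
    exact pe_eq h2 hq hab hs hpz
  have e2 : ∑ h ∈ (a * b).divisors, BB q y z (q * k) k h =
      ((k + 1 : ℕ) : ℝ) ^ (a * b).primeFactors.card := by
    have e3 : ∑ h ∈ (a * b).divisors, BB q y z (q * k) k h =
        ∑ h ∈ (a * b).divisors, pe (aa q y z (q * k) k) h := by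
      refine Finset.sum_congr rfl fun h hh => ?_
      have hd := Nat.dvd_of_mem_divisors hh
      have hh0 : h ≠ 0 := by
        rintro rfl
        exact hab (Nat.eq_zero_of_zero_dvd hd)
      have e4 : h = Nat.gcd h a * Nat.gcd h b := by
        rw [← Nat.Coprime.gcd_mul h hcop]
        exact (Nat.gcd_eq_left hd).symm
      have g1 : 1 ≤ Nat.gcd h a := Nat.gcd_pos_of_pos_left _ (Nat.pos_of_ne_zero hh0)
      have g2 : 1 ≤ Nat.gcd h b := Nat.gcd_pos_of_pos_left _ (Nat.pos_of_ne_zero hh0)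
      have g3 : Nat.gcd h a ≤ y := (Nat.le_of_dvd (by omega) (Nat.gcd_dvd_right h a)).trans ha'.1.2
      have g4 : Nat.gcd h b ≤ z := (Nat.le_of_dvd (by omega) (Nat.gcd_dvd_right h b)).trans hb'.1.2
      have h5 := (h8 q y z (q * k) k hq hyz).2.2.1 (Nat.gcd h a) (Nat.gcd h b) g1 g3 g2 g4
        (fun p hp hpd => hb2 p hp (hpd.trans (Nat.gcd_dvd_right h b)))
      rw [← e4] at h5
      exact h5
    rw [e3, sum_div h2 hq hs hpz]
    push_cast
    rfl
  have e5 : (a * b).primeFactors.card = a.primeFactors.card + b.primeFactors.card := by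
    rw [hcop.primeFactors_mul, Finset.card_union_of_disjoint hcop.disjoint_primeFactors]
  have ha0 : (a : ℝ) ≠ 0 := by
    have : a ≠ 0 := by omega
    exact_mod_cast this
  have hb0 : (b : ℝ) ≠ 0 := by
    have : b ≠ 0 := by omega
    exact_mod_cast this
  rw [e1, e2, e5]
  push_cast
  rw [← pow_mul, ← pow_mul, pow_add, mul_comm 2, mul_comm 2, pow_mul, pow_mul]
  field_simp

end I_LowM

open I_LowM

theorem LowM_pf (h2 : S_PeBas) (h7 : S_LowS) (h8 : S_BBp) (h9 : S_LowR) : S_LowM := by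
  intro k hk
  obtain ⟨k, rfl⟩ : ∃ k', k = k' + 1 := ⟨k - 1, by omega⟩
  obtain ⟨c₁, hc₁, H₁⟩ := h7 ((k + 1) ^ 2)
  obtain ⟨c₂, hc₂, H₂⟩ := h9 ((k + 1) ^ 2)
  refine ⟨c₁ * c₂, mul_pos hc₁ hc₂, ?_⟩
  intro q y z X hq hy hyz hX
  rw [Nat.add_sub_cancel]
  have hsub : Finset.image (fun o : ℕ × ℕ => o.1 * o.2) (sA y ×ˢ sB y z) ⊆
      Finset.range (X + 1) := by
    intro l hl
    obtain ⟨⟨a, b⟩, hab, rfl⟩ := Finset.mem_image.1 hl
    rw [Finset.mem_product] at hab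
    have ha := mem_sA.1 hab.1
    have hb := mem_sB.1 hab.2
    rw [Finset.mem_range]
    have : a * b ≤ y * z := Nat.mul_le_mul ha.1.2 hb.1.2
    change a * b < X + 1
    omega
  have hnn : ∀ l, 0 ≤ BB q y z (q * (k + 1)) (k + 1) l / (l : ℝ) *
      ∑ h ∈ l.divisors, BB q y z (q * k) k h := by
    intro l
    refine mul_nonneg (div_nonneg ((h8 q y z _ _ hq hyz).1 l).1 (Nat.cast_nonneg _)) ?_
    exact Finset.sum_nonneg fun h _ => ((h8 q y z _ _ hq hyz).1 h).1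
  have hmain : sK ((k + 1) ^ 2) y * sR ((k + 1) ^ 2) y z ≤ ∑ l ∈ Finset.range (X + 1),
      BB q y z (q * (k + 1)) (k + 1) l / (l : ℝ) *
        ∑ h ∈ l.divisors, BB q y z (q * k) k h := by
    refine le_trans (le_of_eq ?_) (Finset.sum_le_sum_of_subset_of_nonneg hsub fun l _ _ => hnn l)
    rw [Finset.sum_image]
    · have e : sK ((k + 1) ^ 2) y * sR ((k + 1) ^ 2) y z = ∑ o ∈ sA y ×ˢ sB y z,
          ((((k + 1) ^ 2 : ℕ) : ℝ) ^ o.1.primeFactors.card / (o.1 : ℝ)) *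
            ((((k + 1) ^ 2 : ℕ) : ℝ) ^ o.2.primeFactors.card / (o.2 : ℝ)) := by
        rw [Finset.sum_product]
        exact Finset.sum_mul_sum (sA y) (sB y z)
          (fun n => (((k + 1) ^ 2 : ℕ) : ℝ) ^ n.primeFactors.card / (n : ℝ))
          (fun n => (((k + 1) ^ 2 : ℕ) : ℝ) ^ n.primeFactors.card / (n : ℝ))
      rw [e]
      refine Finset.sum_congr rfl fun o ho => ?_
      rw [Finset.mem_product] at ho
      exact (term h2 h8 hq hyz ho.1 ho.2).symm
    · intro o ho o' ho' h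
      rw [Finset.mem_coe, Finset.mem_product] at ho ho'
      obtain ⟨e1, e2⟩ := inj ho.1 ho.2 ho'.1 ho'.2 h
      exact Prod.ext e1 e2
  have hR : 0 ≤ sR ((k + 1) ^ 2) y z := by
    unfold sR
    exact Finset.sum_nonneg fun n _ => by positivity
  have hy1 := H₁ y hy
  have hz1 := H₂ y z hy hyz
  calc c₁ * c₂ * Real.log z ^ ((k + 1) ^ 2)
      = c₁ * (c₂ * Real.log z ^ ((k + 1) ^ 2)) := by ring
    _ ≤ c₁ * (Real.log y ^ ((k + 1) ^ 2) * sR ((k + 1) ^ 2) y z) :=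
        mul_le_mul_of_nonneg_left hz1 hc₁.le
    _ = c₁ * Real.log y ^ ((k + 1) ^ 2) * sR ((k + 1) ^ 2) y z := by ring
    _ ≤ sK ((k + 1) ^ 2) y * sR ((k + 1) ^ 2) y z := mul_le_mul_of_nonneg_right hy1 hR
    _ ≤ _ := hmain

end Pool.Agent.Work.MP_56b8f5_nt.WM
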