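import Pool.Agent.Work.MP_56b8f5_nt.WM.Stmts

set_option autoImplicit false

open Finset

noncomputable section

namespace Pool.Agent.Work.MP_56b8f5_nt.WM

open Pool.Agent.Work.MP_56b8f5_nt.EM

namespace I_LowS

def sq (x : ℕ) : Finset ℕ := (Finset.Icc 1 x).filter Squarefree

lemma mem_sq {x n : ℕ} : n ∈ sq x ↔ 1 ≤ n ∧ n ≤ x ∧ Squarefree n := by
  simp [sq, and_assoc]

def A (K : ℕ) (n : ℕ) : ℝ := pe (fun _ => (K : ℝ)) n

lemma A_eq (h2 : S_PeBas) (K : ℕ) {n : ℕ} (hn : n ≠ 0) (hs : Squarefree n) :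
    A K n = (K : ℝ) ^ n.primeFactors.card := by
  obtain ⟨-, -, -, -, -, -, -, -, -, -, h11⟩ :=
    h2 (fun _ => (K : ℝ)) (fun _ => Nat.cast_nonneg K)
  unfold A
  rw [h11 n hn hs, Finset.prod_const]

lemma A_nonneg (h2 : S_PeBas) (K n : ℕ) : 0 ≤ A K n :=
  (h2 (fun _ => (K : ℝ)) (fun _ => Nat.cast_nonneg K)).1 n

lemma A_mul (h2 : S_PeBas) (K : ℕ) {m n : ℕ} (h : Nat.Coprime m n) :
    A K (m * n) = A K m * A K n := by
  obtain ⟨-, -, -, -, -, h6, -⟩ := h2 (fun _ => (K : ℝ)) (fun _ => Nat.cast_nonneg K)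
  exact h6 m n h

lemma A_one (h2 : S_PeBas) (K : ℕ) : A K 1 = 1 :=
  (h2 (fun _ => (K : ℝ)) (fun _ => Nat.cast_nonneg K)).2.1

lemma sK_eq (h2 : S_PeBas) (K x : ℕ) : sK K x = ∑ n ∈ sq x, A K n / (n : ℝ) := by
  unfold sK
  refine Finset.sum_congr rfl fun n hn => ?_
  rw [← mem_coe, mem_coe] at hn
  have h := mem_sq.1 hn
  rw [A_eq h2 K (by omega) h.2.2]

lemma sum_div (h2 : S_PeBas) (K : ℕ) {l : ℕ} (hl : l ≠ 0) (hs : Squarefree l) :
    ∑ d ∈ l.divisors, A K d = A (K + 1) l := by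
  have hm : (pa (fun _ => (K : ℝ))).IsMultiplicative := by
    refine ⟨?_, ?_⟩
    · exact A_one h2 K
    · intro m n h
      exact A_mul h2 K h
  have h := hm.prodPrimeFactors_one_add_of_squarefree hs
  have h' : ∑ d ∈ l.divisors, A K d = ∑ d ∈ l.divisors, (pa (fun _ => (K : ℝ))) d := rfl
  rw [h', ← h, A_eq h2 (K + 1) hl hs]
  rw [Finset.prod_congr rfl (g := fun _ => ((K + 1 : ℕ) : ℝ))]
  · rw [Finset.prod_const]
  · intro p hp
    have hp' := Nat.prime_of_mem_primeFactors hp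
    have : (pa (fun _ => (K : ℝ))) p = A K p := rfl
    rw [this, A_eq h2 K hp'.ne_zero hp'.squarefree, hp'.primeFactors, Finset.card_singleton]
    push_cast
    ring

def im (q : ℕ × ℕ) : ℕ × (Σ _ : ℕ, ℕ) :=
  (Nat.gcd q.1 q.2, ⟨(q.1 / Nat.gcd q.1 q.2) * (q.2 / Nat.gcd q.1 q.2), q.1 / Nat.gcd q.1 q.2⟩)

def G (K : ℕ) (q : ℕ × (Σ _ : ℕ, ℕ)) : ℝ :=
  A K q.1 / (q.1 : ℝ) ^ 2 * (A K q.2.2 / (q.2.1 : ℝ))

lemma key (h2 : S_PeBas) (K x : ℕ) :
    sK K x * sK 1 x ≤ (∑ g ∈ sq x, A K g / (g : ℝ) ^ 2) * sK (K + 1) (x ^ 2) := by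
  have h1 : sK 1 x = ∑ n ∈ sq x, 1 / (n : ℝ) := by
    rw [sK_eq h2]
    refine Finset.sum_congr rfl fun n hn => ?_
    have h := mem_sq.1 hn
    rw [A_eq h2 1 (by omega) h.2.2]
    simp
  have e1 : sK K x * sK 1 x = ∑ q ∈ sq x ×ˢ sq x, A K q.1 / (q.1 : ℝ) * (1 / (q.2 : ℝ)) := by
    rw [sK_eq h2, h1, Finset.sum_mul_sum, Finset.sum_product]
  have e2 : (∑ g ∈ sq x, A K g / (g : ℝ) ^ 2) * sK (K + 1) (x ^ 2) =
      ∑ q ∈ sq x ×ˢ ((sq (x ^ 2)).sigma fun l => l.divisors), G K q := by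
    rw [sK_eq h2, Finset.sum_mul_sum, Finset.sum_product]
    refine Finset.sum_congr rfl fun g hg => ?_
    rw [Finset.sum_sigma]
    refine Finset.sum_congr rfl fun l hl => ?_
    have h := mem_sq.1 hl
    rw [← sum_div h2 K (by omega) h.2.2, Finset.sum_div, Finset.mul_sum]
    rfl
  rw [e1, e2]
  have hmaps : ∀ q ∈ sq x ×ˢ sq x, im q ∈ sq x ×ˢ ((sq (x ^ 2)).sigma fun l => l.divisors) := by
    rintro ⟨a, b⟩ hq
    rw [Finset.mem_product] at hq
    obtain ⟨ha, hb⟩ := hq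
    have ha' := mem_sq.1 ha
    have hb' := mem_sq.1 hb
    simp only at ha' hb'
    have hg0 : 0 < Nat.gcd a b := Nat.gcd_pos_of_pos_left _ (by omega)
    have hga : Nat.gcd a b ∣ a := Nat.gcd_dvd_left a b
    have hgb : Nat.gcd a b ∣ b := Nat.gcd_dvd_right a b
    have ha1 : 0 < a / Nat.gcd a b := Nat.div_pos (Nat.le_of_dvd (by omega) hga) hg0
    have hb1 : 0 < b / Nat.gcd a b := Nat.div_pos (Nat.le_of_dvd (by omega) hgb) hg0
    have hco : Nat.Coprime (a / Nat.gcd a b) (b / Nat.gcd a b) := Nat.coprime_div_gcd_div_gcd hg0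
    have hsa : Squarefree (a / Nat.gcd a b) := ha'.2.2.squarefree_of_dvd (Nat.div_dvd_of_dvd hga)
    have hsb : Squarefree (b / Nat.gcd a b) := hb'.2.2.squarefree_of_dvd (Nat.div_dvd_of_dvd hgb)
    rw [Finset.mem_product, Finset.mem_sigma]
    refine ⟨mem_sq.2 ⟨hg0, ?_, ha'.2.2.squarefree_of_dvd hga⟩, mem_sq.2 ⟨?_, ?_, ?_⟩, ?_⟩
    · exact (Nat.le_of_dvd (by omega) hga).trans ha'.2.1
    · exact Nat.mul_pos ha1 hb1
    · have u1 : a / Nat.gcd a b ≤ x := (Nat.div_le_self _ _).trans ha'.2.1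
      have u2 : b / Nat.gcd a b ≤ x := (Nat.div_le_self _ _).trans hb'.2.1
      have := Nat.mul_le_mul u1 u2
      simpa [im, pow_two] using this
    · exact (Nat.squarefree_mul hco).2 ⟨hsa, hsb⟩
    · rw [Nat.mem_divisors]
      exact ⟨Dvd.intro _ rfl, (Nat.mul_pos ha1 hb1).ne'⟩
  have hinj : Set.InjOn im (sq x ×ˢ sq x : Finset (ℕ × ℕ)) := by
    rintro ⟨a, b⟩ hq ⟨a', b'⟩ hq' h
    rw [Finset.mem_coe, Finset.mem_product] at hq hq'
    have ha := mem_sq.1 hq.1
    have ha' := mem_sq.1 hq'.1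
    simp only at ha ha'
    have hg0 : 0 < Nat.gcd a b := Nat.gcd_pos_of_pos_left _ (by omega)
    have hga : Nat.gcd a b ∣ a := Nat.gcd_dvd_left a b
    have hgb : Nat.gcd a b ∣ b := Nat.gcd_dvd_right a b
    have hga' : Nat.gcd a' b' ∣ a' := Nat.gcd_dvd_left a' b'
    have hgb' : Nat.gcd a' b' ∣ b' := Nat.gcd_dvd_right a' b'
    have ha1 : 0 < a / Nat.gcd a b := Nat.div_pos (Nat.le_of_dvd (by omega) hga) hg0
    simp only [im, Prod.mk.injEq, Sigma.mk.injEq] at h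
    obtain ⟨e1, e2, e3⟩ := h
    have e3' := eq_of_heq e3
    rw [← e3'] at e2
    have e4 := Nat.eq_of_mul_eq_mul_left ha1 e2
    have f1 : a = a' := by
      calc a = Nat.gcd a b * (a / Nat.gcd a b) := (Nat.mul_div_cancel' hga).symm
        _ = Nat.gcd a' b' * (a' / Nat.gcd a' b') := by rw [e3', e1]
        _ = a' := Nat.mul_div_cancel' hga'
    have f2 : b = b' := by
      calc b = Nat.gcd a b * (b / Nat.gcd a b) := (Nat.mul_div_cancel' hgb).symm
        _ = Nat.gcd a' b' * (b' / Nat.gcd a' b') := by rw [e4, e1]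
        _ = b' := Nat.mul_div_cancel' hgb'
    rw [f1, f2]
  have hval : ∀ q ∈ sq x ×ˢ sq x, A K q.1 / (q.1 : ℝ) * (1 / (q.2 : ℝ)) = G K (im q) := by
    rintro ⟨a, b⟩ hq
    rw [Finset.mem_product] at hq
    have ha := mem_sq.1 hq.1
    have hb := mem_sq.1 hq.2
    simp only at ha hb
    set g := Nat.gcd a b with hg
    have hg0 : 0 < g := Nat.gcd_pos_of_pos_left _ (by omega)
    have hga : g ∣ a := Nat.gcd_dvd_left a b
    have hgb : g ∣ b := Nat.gcd_dvd_right a b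
    obtain ⟨u, hu⟩ := hga
    obtain ⟨v, hv⟩ := hgb
    have hu0 : 0 < u := by
      rcases Nat.eq_zero_or_pos u with h | h
      · rw [h, mul_zero] at hu; omega
      · exact h
    have hv0 : 0 < v := by
      rcases Nat.eq_zero_or_pos v with h | h
      · rw [h, mul_zero] at hv; omega
      · exact h
    have d1 : a / g = u := by rw [hu]; exact Nat.mul_div_cancel_left u hg0
    have d2 : b / g = v := by rw [hv]; exact Nat.mul_div_cancel_left v hg0
    have hco : Nat.Coprime g u := by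
      have := ha.2.2
      rw [hu] at this
      exact Nat.coprime_of_squarefree_mul this
    have hGi : G K (im (a, b)) = A K g / (g : ℝ) ^ 2 * (A K u / ((u * v : ℕ) : ℝ)) := by
      simp only [G, im, ← hg, d1, d2]
    rw [hGi]
    have hA : A K a = A K g * A K u := by rw [hu]; exact A_mul h2 K hco
    have ca : (a : ℝ) = g * u := by rw [hu]; push_cast; ring
    have cb : (b : ℝ) = g * v := by rw [hv]; push_cast; ring
    simp only
    rw [hA, ca, cb]
    have hg' : (g : ℝ) ≠ 0 := by exact_mod_cast hg0.ne'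
    have hu' : (u : ℝ) ≠ 0 := by exact_mod_cast hu0.ne'
    have hv' : (v : ℝ) ≠ 0 := by exact_mod_cast hv0.ne'
    push_cast
    field_simp
  rw [Finset.sum_congr rfl hval, ← Finset.sum_image (f := G K) hinj]
  refine Finset.sum_le_sum_of_subset_of_nonneg ?_ ?_
  · intro q hq
    obtain ⟨r, hr, rfl⟩ := Finset.mem_image.1 hq
    exact hmaps r hr
  · intro q _ _
    unfold G
    have := A_nonneg h2 K q.1
    have := A_nonneg h2 K q.2.2
    positivity

lemma inv_sq_le (s : Finset ℕ) (hs : ∀ n ∈ s, 1 ≤ n) : ∑ n ∈ s, 1 / (n : ℝ) ^ 2 ≤ 2 := by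
  have h1 : ∀ N : ℕ, ∑ n ∈ Finset.Icc 1 (N + 1), 1 / (n : ℝ) ^ 2 ≤ 2 - 1 / (N + 1 : ℝ) := by
    intro N
    induction N with
    | zero => norm_num
    | succ N ih =>
      rw [Finset.sum_Icc_succ_top (by omega)]
      have h0 : (0 : ℝ) < (N : ℝ) + 1 := by positivity
      have h3 : (0 : ℝ) < (N : ℝ) + 2 := by positivity
      have h4 : 1 / ((N + 1 + 1 : ℕ) : ℝ) ^ 2 ≤ 1 / ((N : ℝ) + 1) - 1 / ((N : ℝ) + 2) := by
        push_cast
        rw [div_sub_div _ _ h0.ne' h3.ne', div_le_div_iff₀ (by positivity) (by positivity)]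
        nlinarith
      have h5 : ((N + 1 : ℕ) : ℝ) + 1 = (N : ℝ) + 2 := by push_cast; ring
      rw [h5]
      linarith
  obtain ⟨N, hN⟩ : ∃ N : ℕ, ∀ n ∈ s, n ≤ N + 1 :=
    ⟨s.sup id, fun n hn => (Finset.le_sup (f := id) hn).trans (by simp)⟩
  calc ∑ n ∈ s, 1 / (n : ℝ) ^ 2 ≤ ∑ n ∈ Finset.Icc 1 (N + 1), 1 / (n : ℝ) ^ 2 := by
        refine Finset.sum_le_sum_of_subset_of_nonneg ?_ fun _ _ _ => by positivity
        intro n hn
        exact Finset.mem_Icc.2 ⟨hs n hn, hN n hn⟩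
    _ ≤ 2 - 1 / (N + 1 : ℝ) := h1 N
    _ ≤ 2 := by
        have : (0 : ℝ) ≤ 1 / (N + 1 : ℝ) := by positivity
        linarith

lemma gsum (h2 : S_PeBas) (h3 : S_PeSum) (K x : ℕ) :
    ∑ g ∈ sq x, A K g / (g : ℝ) ^ 2 ≤ Real.exp (2 * K) := by
  set a : ℕ → ℝ := fun p => if p ≤ x then (K : ℝ) / (p : ℝ) / (p : ℝ) else 0 with ha
  have ha0 : ∀ p, 0 ≤ a p := by
    intro p
    simp only [ha]
    split_ifs <;> positivity
  have hle := h3 a x x ha0 (fun p hp => by simp only [ha]; rw [if_neg (by omega)])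
  have hterm : ∀ g ∈ sq x, A K g / (g : ℝ) ^ 2 = pe a g := by
    intro g hg
    have h := mem_sq.1 hg
    obtain ⟨-, -, -, -, -, -, -, h8, -⟩ := h2 (fun _ => (K : ℝ)) (fun _ => Nat.cast_nonneg K)
    obtain ⟨-, -, -, -, -, -, -, h8', -⟩ := h2 (fun p => (K : ℝ) / (p : ℝ))
      (fun p => by positivity)
    obtain ⟨-, -, -, h4, -⟩ := h2 (fun p => (K : ℝ) / (p : ℝ) / (p : ℝ))
      (fun p => by positivity)
    have e : A K g / (g : ℝ) ^ 2 = pe (fun p => (K : ℝ) / (p : ℝ) / (p : ℝ)) g := by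
      rw [pow_two, ← div_div]
      unfold A
      rw [h8 g h.1, h8' g h.1]
    rw [e]
    refine h4 a g fun p hp hpg => ?_
    have : p ≤ x := (Nat.le_of_dvd (by omega) hpg).trans h.2.1
    simp only [ha]
    rw [if_pos this]
  rw [Finset.sum_congr rfl hterm]
  have hpe0 : ∀ n, 0 ≤ pe a n := (h2 a ha0).1
  calc ∑ g ∈ sq x, pe a g ≤ ∑ n ∈ Finset.range (x + 1), pe a n := by
        refine Finset.sum_le_sum_of_subset_of_nonneg ?_ fun n _ _ => hpe0 n
        intro n hn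
        have := mem_sq.1 hn
        exact Finset.mem_range.2 (by omega)
    _ ≤ Real.exp (∑ p ∈ pr x, a p) := hle
    _ ≤ Real.exp (2 * K) := by
        refine Real.exp_le_exp.2 ?_
        have h5 : ∑ p ∈ pr x, a p ≤ ∑ p ∈ pr x, (K : ℝ) * (1 / (p : ℝ) ^ 2) := by
          refine Finset.sum_le_sum fun p _ => ?_
          simp only [ha]
          split_ifs
          · rw [div_div, ← pow_two, mul_one_div]
          · positivity
        have h6 : ∑ p ∈ pr x, 1 / (p : ℝ) ^ 2 ≤ 2 := by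
          refine inv_sq_le _ fun n hn => ?_
          have := (Finset.mem_filter.1 hn).2
          exact this.one_lt.le
        rw [← Finset.mul_sum] at h5
        have hK : (0 : ℝ) ≤ K := Nat.cast_nonneg K
        nlinarith

lemma one_low (h2 : S_PeBas) (x : ℕ) (hx : 1 ≤ x) : Real.log x ≤ 2 * sK 1 x := by
  have h1 : sK 1 x = ∑ n ∈ sq x, 1 / (n : ℝ) := by
    rw [sK_eq h2]
    refine Finset.sum_congr rfl fun n hn => ?_
    have h := mem_sq.1 hn
    rw [A_eq h2 1 (by omega) h.2.2]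
    simp
  -- harmonic sum
  have hH : Real.log x ≤ ∑ n ∈ Finset.Icc 1 x, 1 / (n : ℝ) := by
    have h := log_add_one_le_harmonic x
    rw [harmonic_eq_sum_Icc] at h
    push_cast at h
    have h0 : Real.log x ≤ Real.log ((x : ℝ) + 1) :=
      Real.log_le_log (by exact_mod_cast hx) (by linarith)
    refine h0.trans (h.trans (le_of_eq ?_))
    exact Finset.sum_congr rfl fun n _ => (one_div _).symm
  have hcov : ∑ n ∈ Finset.Icc 1 x, 1 / (n : ℝ) ≤
      ∑ q ∈ Finset.Icc 1 x ×ˢ sq x, 1 / (q.1 : ℝ) ^ 2 * (1 / (q.2 : ℝ)) := by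
    choose s m hms hsq using Nat.sq_mul_squarefree
    have hval : ∀ n ∈ Finset.Icc 1 x, 1 / (n : ℝ) =
        (fun q : ℕ × ℕ => 1 / (q.1 : ℝ) ^ 2 * (1 / (q.2 : ℝ))) (m n, s n) := by
      intro n _
      have : (n : ℝ) = (m n : ℝ) ^ 2 * (s n : ℝ) := by exact_mod_cast (hms n).symm
      simp only
      rw [one_div_mul_one_div, ← this]
    have hinj : Set.InjOn (fun n => (m n, s n)) (Finset.Icc 1 x : Finset ℕ) := by
      intro n _ n' _ h
      simp only [Prod.mk.injEq] at h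
      rw [← hms n, ← hms n', h.1, h.2]
    rw [Finset.sum_congr rfl hval,
      ← Finset.sum_image (f := fun q : ℕ × ℕ => 1 / (q.1 : ℝ) ^ 2 * (1 / (q.2 : ℝ))) hinj]
    refine Finset.sum_le_sum_of_subset_of_nonneg ?_ fun _ _ _ => by positivity
    intro q hq
    obtain ⟨n, hn, rfl⟩ := Finset.mem_image.1 hq
    have hn' := Finset.mem_Icc.1 hn
    have hs0 : s n ≠ 0 := by
      intro h
      have := hms n
      rw [h, mul_zero] at this
      omega
    have hm0 : m n ≠ 0 := by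
      intro h
      have := hms n
      rw [h] at this
      simp at this
      omega
    have hm1 : m n ≤ n := by
      calc m n ≤ m n ^ 2 := Nat.le_self_pow (by norm_num) _
        _ ≤ m n ^ 2 * s n := Nat.le_mul_of_pos_right _ (Nat.pos_of_ne_zero hs0)
        _ = n := hms n
    have hs1 : s n ≤ n := by
      calc s n ≤ m n ^ 2 * s n :=
            Nat.le_mul_of_pos_left _ (pow_pos (Nat.pos_of_ne_zero hm0) 2)
        _ = n := hms n
    rw [Finset.mem_product]
    refine ⟨Finset.mem_Icc.2 ⟨Nat.pos_of_ne_zero hm0, ?_⟩, mem_sq.2 ⟨Nat.pos_of_ne_zero hs0, ?_, hsq n⟩⟩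
    · exact hm1.trans hn'.2
    · exact hs1.trans hn'.2
  have hp : ∑ q ∈ Finset.Icc 1 x ×ˢ sq x, 1 / (q.1 : ℝ) ^ 2 * (1 / (q.2 : ℝ)) =
      (∑ m ∈ Finset.Icc 1 x, 1 / (m : ℝ) ^ 2) * sK 1 x := by
    rw [h1, Finset.sum_mul_sum, Finset.sum_product]
  have h6 : ∑ m ∈ Finset.Icc 1 x, 1 / (m : ℝ) ^ 2 ≤ 2 :=
    inv_sq_le _ fun n hn => (Finset.mem_Icc.1 hn).1
  have h7 : 0 ≤ sK 1 x := by
    rw [h1]
    exact Finset.sum_nonneg fun _ _ => by positivity
  calc Real.log x ≤ _ := hH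
    _ ≤ _ := hcov
    _ = _ := hp
    _ ≤ 2 * sK 1 x := mul_le_mul_of_nonneg_right h6 h7

lemma sK_ge_one (h2 : S_PeBas) (K x : ℕ) (hx : 1 ≤ x) : 1 ≤ sK K x := by
  rw [sK_eq h2]
  have h1 : (1 : ℕ) ∈ sq x := mem_sq.2 ⟨le_rfl, hx, squarefree_one⟩
  have h := Finset.single_le_sum (f := fun n : ℕ => A K n / (n : ℝ))
    (fun n _ => div_nonneg (A_nonneg h2 K n) (Nat.cast_nonneg n)) h1
  simp only [A_one h2 K, Nat.cast_one, div_one] at h
  exact h

lemma sK_mono (h2 : S_PeBas) (K : ℕ) {x y : ℕ} (h : x ≤ y) : sK K x ≤ sK K y := by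
  rw [sK_eq h2, sK_eq h2]
  refine Finset.sum_le_sum_of_subset_of_nonneg ?_ fun n _ _ =>
    div_nonneg (A_nonneg h2 K n) (Nat.cast_nonneg n)
  intro n hn
  have := mem_sq.1 hn
  exact mem_sq.2 ⟨this.1, this.2.1.trans h, this.2.2⟩

end I_LowS

open I_LowS in
theorem LowS_pf (h2 : S_PeBas) (h3 : S_PeSum) : S_LowS := by
  intro K
  induction K with
  | zero =>
    refine ⟨1, one_pos, fun x hx => ?_⟩
    have := sK_ge_one h2 0 x (by omega)
    simpa using this
  | succ K ih =>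
    obtain ⟨c, hc, h⟩ := ih
    set c1 : ℝ := Real.exp (-(2 * K)) * c / 2 / 4 ^ (K + 1) with hc1
    have hc1' : 0 < c1 := by positivity
    refine ⟨min c1 (1 / 2 ^ (K + 1)), lt_min hc1' (by positivity), fun y hy => ?_⟩
    have hly : 0 ≤ Real.log y := Real.log_natCast_nonneg y
    by_cases hy4 : y < 4
    · have h1 := sK_ge_one h2 (K + 1) y (by omega)
      have h4 : Real.log y ≤ 2 := by
        have h5 : Real.log y ≤ Real.log 4 :=
          Real.log_le_log (by exact_mod_cast (by omega : 0 < y)) (by exact_mod_cast hy4.le)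
        have h6 : Real.log 4 = 2 * Real.log 2 := by
          rw [show (4 : ℝ) = 2 ^ 2 by norm_num, Real.log_pow]; norm_num
        have := Real.log_two_lt_d9
        linarith
      calc min c1 (1 / 2 ^ (K + 1)) * Real.log y ^ (K + 1)
          ≤ 1 / 2 ^ (K + 1) * 2 ^ (K + 1) := by
            refine mul_le_mul (min_le_right _ _) (pow_le_pow_left₀ hly h4 _) (by positivity)
              (by positivity)
        _ = 1 := by field_simp
        _ ≤ _ := h1
    · rw [not_lt] at hy4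
      set x := Nat.sqrt y with hx
      have hx2 : 2 ≤ x := by
        rw [hx, Nat.le_sqrt]
        omega
      have hxy : x ^ 2 ≤ y := Nat.sqrt_le' y
      have hyx : y < (x + 1) ^ 2 := Nat.lt_succ_sqrt' y
      have hyx4 : y ≤ x ^ 4 := by
        have : x + 1 ≤ x ^ 2 := by nlinarith
        calc y ≤ (x + 1) ^ 2 := hyx.le
          _ ≤ (x ^ 2) ^ 2 := Nat.pow_le_pow_left this 2
          _ = x ^ 4 := by ring
      have hlog : Real.log y ≤ 4 * Real.log x := by
        have h5 : Real.log y ≤ Real.log ((x : ℝ) ^ 4) :=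
          Real.log_le_log (by exact_mod_cast (by omega : 0 < y)) (by exact_mod_cast hyx4)
        rw [Real.log_pow] at h5
        exact_mod_cast h5
      have hk := key h2 K x
      have hg := gsum h2 h3 K x
      have hih := h x hx2
      have hone := one_low h2 x (by omega)
      have hmono := sK_mono h2 (K + 1) hxy
      have hlx : 0 ≤ Real.log x := Real.log_natCast_nonneg x
      have hsK : 0 ≤ sK (K + 1) (x ^ 2) :=
        zero_le_one.trans (sK_ge_one h2 (K + 1) (x ^ 2) (by nlinarith))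
      have hA : c * Real.log x ^ K * (Real.log x / 2) ≤ Real.exp (2 * K) * sK (K + 1) (x ^ 2) := by
        calc c * Real.log x ^ K * (Real.log x / 2) ≤ sK K x * sK 1 x := by
              refine mul_le_mul hih (by linarith) (by positivity) ?_
              exact zero_le_one.trans (sK_ge_one h2 K x (by omega))
          _ ≤ _ := hk
          _ ≤ _ := mul_le_mul_of_nonneg_right hg hsK
      have hB : Real.exp (-(2 * K)) * (c * Real.log x ^ K * (Real.log x / 2)) ≤
          sK (K + 1) (x ^ 2) := by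
        have := mul_le_mul_of_nonneg_left hA (Real.exp_pos (-(2 * (K : ℝ)))).le
        rwa [← mul_assoc (Real.exp (-(2 * (K : ℝ)))) (Real.exp (2 * (K : ℝ))), ← Real.exp_add,
          neg_add_cancel, Real.exp_zero, one_mul] at this
      calc min c1 (1 / 2 ^ (K + 1)) * Real.log y ^ (K + 1)
          ≤ c1 * (4 * Real.log x) ^ (K + 1) := by
            refine mul_le_mul (min_le_left _ _) (pow_le_pow_left₀ hly hlog _) (by positivity)
              hc1'.le
        _ = Real.exp (-(2 * K)) * (c * Real.log x ^ K * (Real.log x / 2)) := by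
            rw [hc1, mul_pow, pow_succ (Real.log (x : ℝ)) K]
            field_simp
        _ ≤ _ := hB
        _ ≤ _ := hmono

end Pool.Agent.Work.MP_56b8f5_nt.WM
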