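import Pool.Agent.Work.MP_56b8f5_nt.WM.StmtsR
import Pool.Agent.Work.MP_56b8f5_nt.WM.I_Mert

/-!
MP_56b8f5_nt, block WR, item R1: lower bound for the squarefree sum of `K^ω(n)/n`, `K` real.
-/

set_option autoImplicit false

open MeasureTheory Set Filter Topology

noncomputable section

namespace Pool.Agent.Work.MP_56b8f5_nt.WM

open Pool.Agent.Work.MP_56b8f5_nt.EM

namespace I_LowSr

/-- First moment of an additive function over the subsets. -/
theorem moment (P : Finset ℕ) (a l : ℕ → ℝ) (ha : ∀ p ∈ P, 0 ≤ a p) (hl : ∀ p ∈ P, 0 ≤ l p) :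
    ∑ S ∈ P.powerset, (∏ p ∈ S, a p) * ∑ p ∈ S, l p ≤
      (∏ p ∈ P, (1 + a p)) * ∑ p ∈ P, a p * l p := by
  classical
  induction P using Finset.induction_on with
  | empty => simp
  | insert q P hq ih =>
    have ih' := ih (fun p hp => ha p (Finset.mem_insert_of_mem hp))
      (fun p hp => hl p (Finset.mem_insert_of_mem hp))
    have hq0 := ha q (Finset.mem_insert_self q P)
    have hl0 := hl q (Finset.mem_insert_self q P)
    rw [Finset.sum_powerset_insert hq, Finset.prod_insert hq, Finset.sum_insert hq]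
    have h1 : ∑ S ∈ P.powerset, (∏ p ∈ insert q S, a p) * ∑ p ∈ insert q S, l p =
        a q * (∑ S ∈ P.powerset, (∏ p ∈ S, a p) * ∑ p ∈ S, l p) +
          a q * l q * ∏ p ∈ P, (1 + a p) := by
      rw [Finset.prod_one_add, Finset.mul_sum, Finset.mul_sum, ← Finset.sum_add_distrib]
      refine Finset.sum_congr rfl fun S hS => ?_
      have hqS : q ∉ S := fun h => hq (Finset.mem_powerset.1 hS h)
      rw [Finset.prod_insert hqS, Finset.sum_insert hqS]
      ring
    rw [h1]
    have hG : 0 ≤ ∏ p ∈ P, (1 + a p) := Finset.prod_nonneg fun p hp => by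
      have := ha p (Finset.mem_insert_of_mem hp)
      linarith
    have h2 := mul_le_mul_of_nonneg_left ih' (by linarith : (0 : ℝ) ≤ 1 + a q)
    have h3 : 0 ≤ a q * (a q * l q) * ∏ p ∈ P, (1 + a p) := by positivity
    nlinarith

/-- The sum over all squarefree numbers up to `x` is at least the smooth part, with weights. -/
theorem lower (P : Finset ℕ) (hP : ∀ p ∈ P, p.Prime) (K : ℝ) (hK : 0 ≤ K) (x : ℕ) (hx : 2 ≤ x) :
    (∏ p ∈ P, (1 + K / (p : ℝ))) * (1 - (∑ p ∈ P, K / (p : ℝ) * Real.log p) / Real.log x) ≤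
      ∑ n ∈ (Finset.Icc 1 x).filter Squarefree, K ^ n.primeFactors.card / (n : ℝ) := by
  classical
  have hlx : 0 < Real.log (x : ℝ) := Real.log_pos (by exact_mod_cast hx)
  have ha : ∀ p ∈ P, 0 ≤ K / (p : ℝ) := fun p _ => by positivity
  have hl : ∀ p ∈ P, 0 ≤ Real.log (p : ℝ) := fun p hp => Real.log_natCast_nonneg p
  have hm := moment P (fun p => K / (p : ℝ)) (fun p => Real.log p) ha hl
  have hG := Finset.prod_one_add (s := P) (f := fun p : ℕ => K / (p : ℝ))
  set G := ∏ p ∈ P, (1 + K / (p : ℝ)) with hGd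
  have h1 : G * (1 - (∑ p ∈ P, K / (p : ℝ) * Real.log p) / Real.log x) ≤
      ∑ S ∈ P.powerset, (∏ p ∈ S, K / (p : ℝ)) * (1 - (∑ p ∈ S, Real.log (p : ℝ)) / Real.log x) := by
    have h2 : ∑ S ∈ P.powerset,
        (∏ p ∈ S, K / (p : ℝ)) * (1 - (∑ p ∈ S, Real.log (p : ℝ)) / Real.log x) =
        G - (∑ S ∈ P.powerset, (∏ p ∈ S, K / (p : ℝ)) * ∑ p ∈ S, Real.log (p : ℝ)) /
          Real.log x := by
      rw [hG, Finset.sum_div, ← Finset.sum_sub_distrib]
      refine Finset.sum_congr rfl fun S _ => ?_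
      ring
    rw [h2]
    have h3 := div_le_div_of_nonneg_right hm hlx.le
    have h4 : G * (1 - (∑ p ∈ P, K / (p : ℝ) * Real.log p) / Real.log x) =
        G - G * (∑ p ∈ P, K / (p : ℝ) * Real.log p) / Real.log x := by ring
    rw [h4]
    linarith
  refine h1.trans ?_
  have h5 : ∑ S ∈ P.powerset,
      (∏ p ∈ S, K / (p : ℝ)) * (1 - (∑ p ∈ S, Real.log (p : ℝ)) / Real.log x) ≤
      ∑ S ∈ P.powerset.filter (fun S => ∏ p ∈ S, p ≤ x), ∏ p ∈ S, K / (p : ℝ) := by
    rw [Finset.sum_filter]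
    refine Finset.sum_le_sum fun S hS => ?_
    have hSP := Finset.mem_powerset.1 hS
    have hg : 0 ≤ ∏ p ∈ S, K / (p : ℝ) := Finset.prod_nonneg fun p hp => ha p (hSP hp)
    have hs : ∑ p ∈ S, Real.log (p : ℝ) = Real.log ((∏ p ∈ S, p : ℕ) : ℝ) := by
      rw [Nat.cast_prod, Real.log_prod]
      intro p hp
      exact_mod_cast (hP p (hSP hp)).pos.ne'
    split_ifs with h
    · have h6 : 0 ≤ ∑ p ∈ S, Real.log (p : ℝ) :=
        Finset.sum_nonneg fun p hp => hl p (hSP hp)
      have h7 : 0 ≤ (∑ p ∈ S, Real.log (p : ℝ)) / Real.log x := div_nonneg h6 hlx.le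
      nlinarith
    · have h8 : 1 ≤ (∑ p ∈ S, Real.log (p : ℝ)) / Real.log x := by
        rw [le_div_iff₀ hlx, one_mul, hs]
        apply Real.log_le_log (by exact_mod_cast (by omega : 0 < x))
        exact_mod_cast (not_le.1 h).le
      nlinarith
  refine h5.trans ?_
  have hinj : Set.InjOn (fun S : Finset ℕ => ∏ p ∈ S, p)
      ((P.powerset.filter (fun S => ∏ p ∈ S, p ≤ x) : Finset (Finset ℕ)) : Set (Finset ℕ)) := by
    intro S hS S' hS' h
    have hSP := Finset.mem_powerset.1 (Finset.mem_filter.1 hS).1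
    have hSP' := Finset.mem_powerset.1 (Finset.mem_filter.1 hS').1
    have h1 := Nat.primeFactors_prod (fun p hp => hP p (hSP hp))
    have h2 := Nat.primeFactors_prod (fun p hp => hP p (hSP' hp))
    have h3 : ∏ p ∈ S, p = ∏ p ∈ S', p := h
    rw [← h1, ← h2, h3]
  have h9 : ∑ S ∈ P.powerset.filter (fun S => ∏ p ∈ S, p ≤ x), ∏ p ∈ S, K / (p : ℝ) =
      ∑ n ∈ (P.powerset.filter (fun S => ∏ p ∈ S, p ≤ x)).image (fun S => ∏ p ∈ S, p),
        K ^ n.primeFactors.card / (n : ℝ) := by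
    rw [Finset.sum_image hinj]
    refine Finset.sum_congr rfl fun S hS => ?_
    have hSP := Finset.mem_powerset.1 (Finset.mem_filter.1 hS).1
    rw [Nat.primeFactors_prod (fun p hp => hP p (hSP hp)), Finset.prod_div_distrib,
      Finset.prod_const, Nat.cast_prod]
  rw [h9]
  refine Finset.sum_le_sum_of_subset_of_nonneg ?_ fun n _ _ => by positivity
  intro n hn
  obtain ⟨S, hS, rfl⟩ := Finset.mem_image.1 hn
  obtain ⟨hS1, hS2⟩ := Finset.mem_filter.1 hS
  have hSP := Finset.mem_powerset.1 hS1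
  rw [Finset.mem_filter, Finset.mem_Icc]
  refine ⟨⟨Nat.one_le_iff_ne_zero.2 (Finset.prod_ne_zero_iff.2 fun p hp =>
    (hP p (hSP hp)).ne_zero), hS2⟩, ?_⟩
  exact Finset.squarefree_prod_of_pairwise_isCoprime
    (fun p hp q hq hpq => Nat.coprime_iff_isRelPrime.1
      ((Nat.coprime_primes (hP p (hSP hp)) (hP q (hSP hq))).2 hpq))
    fun p hp => (hP p (hSP hp)).squarefree

/-- `1 + u ≥ exp (u - u²)`. -/
theorem one_add_ge {u : ℝ} (hu : 0 ≤ u) : Real.exp (u - u ^ 2) ≤ 1 + u := by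
  have h0 : 0 < 1 + u := by linarith
  have h1 : (1 + u)⁻¹ ≤ Real.exp (-(u / (1 + u))) := by
    have h2 := Real.add_one_le_exp (-(u / (1 + u)))
    refine le_trans (le_of_eq ?_) h2
    field_simp
    ring
  have h3 : Real.exp (u / (1 + u)) ≤ 1 + u := by
    have h4 := inv_anti₀ (by positivity) h1
    rwa [inv_inv, ← Real.exp_neg, neg_neg] at h4
  refine le_trans (Real.exp_le_exp.2 ?_) h3
  rw [le_div_iff₀ h0]
  nlinarith [mul_nonneg hu (mul_nonneg hu hu)]

theorem prod_ge (w : ℕ) (K K₀ : ℝ) (hK : 0 ≤ K) (hK₀ : K ≤ K₀) :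
    Real.exp (K * S1 w - K₀ ^ 2) ≤ ∏ p ∈ pr w, (1 + K / (p : ℝ)) := by
  have h1 : ∏ p ∈ pr w, Real.exp (K / (p : ℝ) - (K / (p : ℝ)) ^ 2) ≤
      ∏ p ∈ pr w, (1 + K / (p : ℝ)) :=
    Finset.prod_le_prod (fun p _ => (Real.exp_pos _).le) fun p _ => one_add_ge (by positivity)
  refine le_trans ?_ h1
  rw [← Real.exp_sum]
  refine Real.exp_le_exp.2 ?_
  rw [Finset.sum_sub_distrib]
  have h2 : ∑ p ∈ pr w, K / (p : ℝ) = K * S1 w := by
    unfold S1
    rw [Finset.mul_sum]
    exact Finset.sum_congr rfl fun p _ => by ring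
  have h3 : ∑ p ∈ pr w, (K / (p : ℝ)) ^ 2 ≤ K ^ 2 := by
    have h4 : ∑ p ∈ pr w, (K / (p : ℝ)) ^ 2 = K ^ 2 * ∑ p ∈ pr w, ((p : ℝ) ^ 2)⁻¹ := by
      rw [Finset.mul_sum]
      exact Finset.sum_congr rfl fun p _ => by rw [div_pow, div_eq_mul_inv]
    have h5 : ∑ p ∈ pr w, ((p : ℝ) ^ 2)⁻¹ ≤ 1 := by
      rcases Nat.lt_or_ge w 1 with hw | hw
      · have : pr w = ∅ := by
          ext p
          simp only [pr, Finset.mem_filter, Finset.mem_range, Finset.notMem_empty, iff_false,
            not_and]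
          intro hp hp'
          have := hp'.two_le
          omega
        rw [this, Finset.sum_empty]
        exact zero_le_one
      · have h6 : pr w ⊆ Finset.Ioc 1 w := by
          intro p hp
          simp only [pr, Finset.mem_filter, Finset.mem_range] at hp
          rw [Finset.mem_Ioc]
          exact ⟨hp.2.one_lt, by omega⟩
        refine (Finset.sum_le_sum_of_subset_of_nonneg h6 fun p _ _ => by positivity).trans ?_
        refine (sum_Ioc_inv_sq_le_sub one_ne_zero hw).trans ?_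
        have : (0 : ℝ) ≤ ((w : ℕ) : ℝ)⁻¹ := by positivity
        simp only [Nat.cast_one, inv_one]
        linarith
    rw [h4]
    nlinarith [sq_nonneg K]
  have h7 : K ^ 2 ≤ K₀ ^ 2 := pow_le_pow_left₀ hK hK₀ 2
  rw [h2]
  linarith

end I_LowSr

open I_LowSr in
/-- **R1 (LowSr).** -/
theorem LowSr_pf (h6 : S_Mert) : S_LowSr := by
  classical
  obtain ⟨C₁, hC₁, hMe⟩ := h6
  obtain ⟨C0', hM'⟩ := Pool.Agent.Work.MP_e0c7e8_nt.Mert.mertens1.2
  set C₀ : ℝ := max C0' 0 with hC0d
  have hC₀ : 0 ≤ C₀ := le_max_right _ _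
  have hA : ∀ n : ℕ, 1 ≤ n → ∑ p ∈ pr n, Real.log p / (p : ℝ) ≤ Real.log n + C₀ := by
    intro n hn
    have h1 := (hM' n (by exact_mod_cast hn)).trans (le_max_left C0' 0)
    rw [Nat.floor_natCast, ← I_Mert.pr_eq] at h1
    have := (abs_le.1 h1).2
    linarith
  intro K₀ hK₀
  -- the constant `B`
  obtain ⟨B, hB1, hB2⟩ : ∃ B : ℝ, 1 ≤ B ∧ 4 * K₀ ≤ B :=
    ⟨max 1 (4 * K₀), le_max_left _ _, le_max_right _ _⟩
  have hB0 : 0 < B := by linarith
  -- threshold
  set L₀ : ℝ := max (2 * B * Real.log 2) (4 * K₀ * C₀) with hL₀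
  set D : ℝ := C₁ ^ 2 * (2 * B) with hD
  have hD1 : 1 ≤ D := by
    have : 1 ≤ C₁ ^ 2 := one_le_pow₀ hC₁
    nlinarith
  have hC₁0 : 0 < C₁ := by linarith
  have hE0 : 0 ≤ C₁ * L₀ + 1 := by
    have : 0 ≤ L₀ := (mul_nonneg (mul_nonneg (by norm_num) hB0.le)
      (Real.log_nonneg (by norm_num))).trans (le_max_left _ _)
    positivity
  have hE1 : 1 ≤ C₁ * L₀ + 1 := by
    have : 0 ≤ L₀ := (mul_nonneg (mul_nonneg (by norm_num) hB0.le)
      (Real.log_nonneg (by norm_num))).trans (le_max_left _ _)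
    have := mul_nonneg hC₁0.le this
    linarith
  refine ⟨min (Real.exp (-(K₀ * Real.log (C₁ * L₀ + 1))))
    (Real.exp (-(K₀ ^ 2)) / 2 * Real.exp (-(K₀ * Real.log D))), by positivity, ?_⟩
  intro K hK hKK x hx
  have hlx : 0 < Real.log (x : ℝ) := Real.log_pos (by exact_mod_cast hx)
  have hone : 1 ≤ ∑ n ∈ (Finset.Icc 1 x).filter Squarefree, K ^ n.primeFactors.card / (n : ℝ) := by
    have h1 : (1 : ℕ) ∈ (Finset.Icc 1 x).filter Squarefree := by
      rw [Finset.mem_filter, Finset.mem_Icc]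
      exact ⟨⟨le_rfl, by omega⟩, squarefree_one⟩
    refine le_trans ?_ (Finset.single_le_sum (f := fun n : ℕ =>
      K ^ n.primeFactors.card / (n : ℝ)) (fun n _ => by positivity) h1)
    simp
  have hS0 : 0 ≤ S1 x := Finset.sum_nonneg fun p _ => by positivity
  rcases lt_or_ge (Real.log (x : ℝ)) L₀ with hs | hs
  · -- small `x`
    refine le_trans ?_ hone
    have h1 : Real.exp (S1 x) ≤ C₁ * L₀ + 1 := by
      have := (hMe x hx).1
      have h2 : C₁ * Real.log x ≤ C₁ * L₀ := mul_le_mul_of_nonneg_left hs.le hC₁0.le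
      linarith
    have h2 : S1 x ≤ Real.log (C₁ * L₀ + 1) := by
      rw [← Real.log_exp (S1 x)]
      exact Real.log_le_log (Real.exp_pos _) h1
    have h3 : K * S1 x ≤ K₀ * Real.log (C₁ * L₀ + 1) := by
      have h4 : 0 ≤ Real.log (C₁ * L₀ + 1) := Real.log_nonneg hE1
      exact mul_le_mul hKK h2 hS0 hK₀
    calc _ ≤ Real.exp (-(K₀ * Real.log (C₁ * L₀ + 1))) * Real.exp (K * S1 x) :=
          mul_le_mul_of_nonneg_right (min_le_left _ _) (Real.exp_pos _).le
      _ = Real.exp (-(K₀ * Real.log (C₁ * L₀ + 1)) + K * S1 x) := (Real.exp_add _ _).symm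
      _ ≤ Real.exp 0 := Real.exp_le_exp.2 (by linarith)
      _ = 1 := Real.exp_zero
  · -- large `x`
    have hs1 : 2 * B * Real.log 2 ≤ Real.log x := (le_max_left _ _).trans hs
    have hs2 : 4 * K₀ * C₀ ≤ Real.log x := (le_max_right _ _).trans hs
    have hx0 : (0 : ℝ) < x := by exact_mod_cast (by omega : 0 < x)
    set u : ℝ := Real.exp (Real.log x / B) with hu
    have hlu : Real.log u = Real.log x / B := Real.log_exp _
    have hu4 : 4 ≤ u := by
      have h1 : Real.log 4 ≤ Real.log x / B := by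
        rw [le_div_iff₀ hB0]
        have : Real.log 4 = 2 * Real.log 2 := by
          rw [show (4 : ℝ) = 2 ^ 2 by norm_num, Real.log_pow]
          norm_num
        nlinarith
      calc (4 : ℝ) = Real.exp (Real.log 4) := (Real.exp_log (by norm_num)).symm
        _ ≤ u := Real.exp_le_exp.2 h1
    set w : ℕ := ⌊u⌋₊ with hw
    have hw2 : 2 ≤ w := Nat.le_floor (by push_cast; linarith)
    have hwu : (w : ℝ) ≤ u := Nat.floor_le (by linarith)
    have huw : u < (w : ℝ) + 1 := Nat.lt_floor_add_one u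
    have hw0 : (0 : ℝ) < w := by exact_mod_cast (by omega : 0 < w)
    have hlw1 : Real.log w ≤ Real.log x / B := by
      rw [← hlu]
      exact Real.log_le_log hw0 hwu
    have hlw2 : Real.log x / (2 * B) ≤ Real.log w := by
      have h1 : u / 2 ≤ w := by
        have : (2 : ℝ) ≤ w := by exact_mod_cast hw2
        linarith
      have h2 : Real.log (u / 2) ≤ Real.log w := Real.log_le_log (by linarith) h1
      rw [Real.log_div (by linarith) (by norm_num), hlu] at h2
      have h3 : Real.log 2 ≤ Real.log x / (2 * B) := by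
        rw [le_div_iff₀ (by linarith)]
        linarith
      have h4 : Real.log x / B = Real.log x / (2 * B) + Real.log x / (2 * B) := by
        field_simp
        ring
      linarith
    have hlow := lower (pr w) (fun p hp => (Finset.mem_filter.1 hp).2) K hK x hx
    have hG := prod_ge w K K₀ hK hKK
    set G := ∏ p ∈ pr w, (1 + K / (p : ℝ)) with hGd
    have hGpos : 0 < G := (Real.exp_pos _).trans_le hG
    -- the weight is at least one half
    have hhalf : (∑ p ∈ pr w, K / (p : ℝ) * Real.log p) / Real.log x ≤ 1 / 2 := by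
      have h1 : ∑ p ∈ pr w, K / (p : ℝ) * Real.log p =
          K * ∑ p ∈ pr w, Real.log p / (p : ℝ) := by
        rw [Finset.mul_sum]
        exact Finset.sum_congr rfl fun p _ => by ring
      have h2 := hA w (by omega)
      have h3 : 0 ≤ ∑ p ∈ pr w, Real.log p / (p : ℝ) := Finset.sum_nonneg fun p _ =>
        div_nonneg (Real.log_natCast_nonneg p) (Nat.cast_nonneg p)
      rw [div_le_iff₀ hlx, h1]
      have h4 : K * ∑ p ∈ pr w, Real.log p / (p : ℝ) ≤ K₀ * (Real.log x / B + C₀) :=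
        mul_le_mul hKK (by linarith) h3 hK₀
      have h5 : K₀ * (Real.log x / B) ≤ Real.log x / 4 := by
        rw [mul_div_assoc', div_le_iff₀ hB0]
        nlinarith
      nlinarith
    have h7 : G / 2 ≤
        ∑ n ∈ (Finset.Icc 1 x).filter Squarefree, K ^ n.primeFactors.card / (n : ℝ) := by
      refine le_trans ?_ hlow
      nlinarith
    refine le_trans ?_ h7
    -- comparison of `S1 x` and `S1 w`
    have h8 : Real.exp (S1 x) ≤ D * Real.exp (S1 w) := by
      have h9 := (hMe x hx).1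
      have h10 := (hMe w hw2).2
      have h11 : Real.log x ≤ 2 * B * Real.log w := by
        rw [div_le_iff₀ (by linarith)] at hlw2
        linarith
      calc Real.exp (S1 x) ≤ C₁ * Real.log x := h9
        _ ≤ C₁ * (2 * B * Real.log w) := mul_le_mul_of_nonneg_left h11 hC₁0.le
        _ ≤ C₁ * (2 * B * (C₁ * Real.exp (S1 w))) := by gcongr
        _ = D * Real.exp (S1 w) := by rw [hD]; ring
    have h12 : S1 x ≤ Real.log D + S1 w := by
      have h13 := Real.log_le_log (Real.exp_pos _) h8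
      rwa [Real.log_exp, Real.log_mul (by linarith) (Real.exp_pos _).ne', Real.log_exp] at h13
    have h14 : K * S1 x ≤ K₀ * Real.log D + K * S1 w := by
      have h15 : 0 ≤ Real.log D := Real.log_nonneg hD1
      have h16 := mul_le_mul_of_nonneg_left h12 hK
      have h17 : K * Real.log D ≤ K₀ * Real.log D := mul_le_mul_of_nonneg_right hKK h15
      linarith
    calc _ ≤ (Real.exp (-(K₀ ^ 2)) / 2 * Real.exp (-(K₀ * Real.log D))) * Real.exp (K * S1 x) :=
          mul_le_mul_of_nonneg_right (min_le_right _ _) (Real.exp_pos _).le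
      _ = Real.exp (-(K₀ ^ 2) + -(K₀ * Real.log D) + K * S1 x) / 2 := by
          rw [Real.exp_add, Real.exp_add]; ring
      _ ≤ Real.exp (K * S1 w - K₀ ^ 2) / 2 := by
          gcongr
          linarith
      _ ≤ G / 2 := by linarith

end Pool.Agent.Work.MP_56b8f5_nt.WM
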