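import Pool.Agent.Work.MP_56b8f5_nt.WM.Stmts

/-!
MP_56b8f5_nt, block WM, item MVb: mean value theorem for short Dirichlet polynomials.
-/

set_option autoImplicit false

open MeasureTheory Set Filter Topology

noncomputable section

namespace Pool.Agent.Work.MP_56b8f5_nt.WM

open Pool.Agent.Work.MP_56b8f5_nt.EM

namespace I_MVb

/-- normalised coefficients -/
def cn (b : ℕ → ℝ) (n : ℕ) : ℝ := b n / Real.sqrt n

lemma cn_sq (b : ℕ → ℝ) (n : ℕ) : cn b n ^ 2 = b n ^ 2 / (n : ℝ) := by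
  unfold cn
  rw [div_pow, Real.sq_sqrt (Nat.cast_nonneg n)]

lemma cn_zero {b : ℕ → ℝ} (hb : b 0 = 0) : cn b 0 = 0 := by
  unfold cn; rw [hb]; simp

lemma cpow_eq {k : ℕ} (hk : 0 < k) (t : ℝ) : (k : ℂ) ^ (-(1 / 2 + t * Complex.I)) =
    ((1 / Real.sqrt k : ℝ) : ℂ) * Complex.exp (Complex.I * ((-(t * Real.log k) : ℝ) : ℂ)) := by
  have hk' : (0 : ℝ) < k := by exact_mod_cast hk
  have hk0 : (k : ℂ) ≠ 0 := by exact_mod_cast hk.ne'
  have hs : Real.sqrt k = Real.exp (Real.log k / 2) := by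
    rw [Real.sqrt_eq_rpow, Real.rpow_def_of_pos hk']; ring_nf
  have h2 : (1 / Real.exp (Real.log k / 2) : ℝ) = Real.exp (-(Real.log k / 2)) := by
    rw [Real.exp_neg, one_div]
  rw [Complex.cpow_def_of_ne_zero hk0, ← Complex.natCast_log, hs, h2,
    Complex.ofReal_exp, ← Complex.exp_add]
  congr 1
  push_cast
  ring

lemma dp_term (b : ℕ → ℝ) (hb : b 0 = 0) (t : ℝ) (k : ℕ) :
    (b k : ℂ) * (k : ℂ) ^ (-(1 / 2 + t * Complex.I)) =
      (cn b k : ℂ) * Complex.exp (Complex.I * ((-(t * Real.log k) : ℝ) : ℂ)) := by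
  rcases Nat.eq_zero_or_pos k with hk | hk
  · subst hk; rw [hb, cn_zero hb]; simp
  · rw [cpow_eq hk, cn]
    push_cast
    ring

lemma dp_eq (b : ℕ → ℝ) (hb : b 0 = 0) (X : ℕ) (t : ℝ) :
    DP b X t = ∑ k ∈ Finset.range (X + 1), (cn b k : ℂ) *
      Complex.exp (Complex.I * ((-(t * Real.log k) : ℝ) : ℂ)) := by
  unfold DP
  exact Finset.sum_congr rfl fun k _ => dp_term b hb t k

lemma dp_conj (b : ℕ → ℝ) (hb : b 0 = 0) (X : ℕ) (t : ℝ) :
    (starRingEnd ℂ) (DP b X t) = ∑ k ∈ Finset.range (X + 1), (cn b k : ℂ) *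
      Complex.exp (Complex.I * ((t * Real.log k : ℝ) : ℂ)) := by
  rw [dp_eq b hb, map_sum]
  refine Finset.sum_congr rfl fun k _ => ?_
  rw [map_mul, Complex.conj_ofReal, ← Complex.exp_conj, map_mul, Complex.conj_I,
    Complex.conj_ofReal]
  congr 2
  push_cast
  ring

lemma w_comp {w : ℝ → ℝ} (hw : IsW w) : HasCompactSupport w := by
  obtain ⟨c, hc, hs⟩ := hw.supp
  refine HasCompactSupport.intro (isCompact_Icc (a := c) (b := 1)) ?_
  intro x hx
  by_contra h
  exact hx ⟨(hs x h).1, (hs x h).2⟩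

lemma w_intC {w : ℝ → ℝ} (hw : IsW w) {g : ℝ → ℂ} (hg : Continuous g) :
    Integrable fun u => (w u : ℂ) * g u := by
  refine ((Complex.continuous_ofReal.comp hw.smooth.continuous).mul hg).integrable_of_hasCompactSupport ?_
  refine HasCompactSupport.mul_right ?_
  exact (w_comp hw).comp_left (g := fun x : ℝ => (x : ℂ)) (by simp)

lemma expand {w : ℝ → ℝ} (hw : IsW w) (T : ℝ) (X : ℕ) (b : ℕ → ℝ) (hb : b 0 = 0) :
    ((∫ u : ℝ, w u * ‖DP b X (T * u)‖ ^ 2 : ℝ) : ℂ) =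
      ∑ h ∈ Finset.range (X + 1), ∑ l ∈ Finset.range (X + 1),
        ((cn b h * cn b l : ℝ) : ℂ) * W w 0 (T * (Real.log l - Real.log h)) := by
  have e0 : ((∫ u : ℝ, w u * ‖DP b X (T * u)‖ ^ 2 : ℝ) : ℂ) =
      ∫ u : ℝ, ((w u * ‖DP b X (T * u)‖ ^ 2 : ℝ) : ℂ) := integral_ofReal.symm
  have e : ∀ u : ℝ, ((w u * ‖DP b X (T * u)‖ ^ 2 : ℝ) : ℂ) =
      ∑ h ∈ Finset.range (X + 1), ∑ l ∈ Finset.range (X + 1), ((cn b h * cn b l : ℝ) : ℂ) *
        ((w u : ℂ) * Complex.exp (Complex.I * ((T * (Real.log l - Real.log h)) * u : ℝ))) := by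
    intro u
    have h1 : ((‖DP b X (T * u)‖ ^ 2 : ℝ) : ℂ) =
        DP b X (T * u) * (starRingEnd ℂ) (DP b X (T * u)) := by
      rw [Complex.mul_conj, Complex.normSq_eq_norm_sq]
    rw [Complex.ofReal_mul, h1, dp_conj b hb, dp_eq b hb, Finset.sum_mul_sum, Finset.mul_sum]
    refine Finset.sum_congr rfl fun h _ => ?_
    rw [Finset.mul_sum]
    refine Finset.sum_congr rfl fun l _ => ?_
    have e4 : Complex.exp (Complex.I * ((T * (Real.log l - Real.log h)) * u : ℝ)) =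
        Complex.exp (Complex.I * ((-(T * u * Real.log h) : ℝ) : ℂ)) *
          Complex.exp (Complex.I * ((T * u * Real.log l : ℝ) : ℂ)) := by
      rw [← Complex.exp_add]
      congr 1
      push_cast
      ring
    rw [e4]
    push_cast
    ring
  have hi : ∀ h l : ℕ, Integrable fun u : ℝ => ((cn b h * cn b l : ℝ) : ℂ) *
        ((w u : ℂ) * Complex.exp (Complex.I * ((T * (Real.log l - Real.log h)) * u : ℝ))) := by
    intro h l
    refine (w_intC hw ?_).const_mul _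
    fun_prop
  rw [e0]
  simp_rw [e]
  rw [integral_finsetSum _ fun h _ => integrable_finsetSum _ fun l _ => hi h l]
  refine Finset.sum_congr rfl fun h _ => ?_
  rw [integral_finsetSum _ fun l _ => hi h l]
  refine Finset.sum_congr rfl fun l _ => ?_
  rw [integral_const_mul]
  congr 1
  unfold W
  congr 1
  funext u
  rw [pow_zero, one_mul]

lemma log_gap_aux {h l X : ℕ} (h1 : 1 ≤ h) (hl : h < l) (hX : l ≤ X) :
    1 / (X : ℝ) ≤ Real.log l - Real.log h := by
  have hh : (0 : ℝ) < h := by exact_mod_cast h1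
  have hl0 : (0 : ℝ) < l := by exact_mod_cast (lt_trans h1 hl)
  have hX0 : (0 : ℝ) < X := by exact_mod_cast (lt_of_lt_of_le (lt_trans h1 hl) hX)
  have h2 : Real.log ((h : ℝ) / l) ≤ (h : ℝ) / l - 1 := Real.log_le_sub_one_of_pos (by positivity)
  rw [Real.log_div hh.ne' hl0.ne'] at h2
  have h3 : (h : ℝ) + 1 ≤ l := by exact_mod_cast hl
  have h4 : (h : ℝ) / l - 1 ≤ -(1 / (l : ℝ)) := by
    have : (h : ℝ) / l - 1 + 1 / l = (h + 1 - l) / l := by field_simp; ring
    have h5 : ((h : ℝ) + 1 - l) / l ≤ 0 := div_nonpos_of_nonpos_of_nonneg (by linarith) hl0.le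
    linarith
  have h6 : 1 / (X : ℝ) ≤ 1 / (l : ℝ) := one_div_le_one_div_of_le hl0 (by exact_mod_cast hX)
  linarith

lemma log_gap {h l X : ℕ} (h1 : 1 ≤ h) (l1 : 1 ≤ l) (hne : h ≠ l) (hX : h ≤ X) (lX : l ≤ X) :
    1 / (X : ℝ) ≤ |Real.log l - Real.log h| := by
  rcases lt_or_gt_of_ne hne with hlt | hlt
  · exact (log_gap_aux h1 hlt lX).trans (le_abs_self _)
  · have := log_gap_aux l1 hlt hX
    refine this.trans ?_
    rw [abs_sub_comm]
    exact le_abs_self _

end I_MVb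

open I_MVb in
/-- **MVb.** -/
theorem MVb_pf (hW : StW) : S_MVb := by
  intro w hw
  obtain ⟨-, hdec, hb0, h00, hW0, hW1⟩ := hW w hw
  obtain ⟨C1, hC1, hd⟩ := hdec 0 3
  refine ⟨1 + 2 * C1, by positivity, ?_⟩
  intro T hT X hX b hb
  have hT0 : (0 : ℝ) < T := by linarith
  have hXT : (X : ℝ) ≤ T := by
    rcases Nat.eq_zero_or_pos X with h0 | h0
    · subst h0; simp; linarith
    · have h1 : (1 : ℝ) ≤ X := by exact_mod_cast h0
      have : (X : ℝ) ≤ (X : ℝ) ^ 3 := by nlinarith [mul_nonneg (sub_nonneg.2 h1) (sub_nonneg.2 h1)]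
      linarith
  have hex := expand hw T X b hb
  set R : ℝ := ∫ u : ℝ, w u * ‖DP b X (T * u)‖ ^ 2 with hR
  have hterm : ∀ h ∈ Finset.range (X + 1), ∀ l ∈ Finset.range (X + 1),
      ‖((cn b h * cn b l : ℝ) : ℂ) * W w 0 (T * (Real.log l - Real.log h))‖ ≤
        (if h = l then cn b h ^ 2 else 0) + |cn b h| * |cn b l| * (C1 / T ^ 2) := by
    intro h hh l hl
    have hh' : h ≤ X := Nat.lt_succ_iff.1 (Finset.mem_range.1 hh)
    have hl' : l ≤ X := Nat.lt_succ_iff.1 (Finset.mem_range.1 hl)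
    rw [norm_mul, Complex.norm_real, Real.norm_eq_abs, abs_mul]
    by_cases he : h = l
    · subst he
      rw [if_pos rfl, sub_self, mul_zero]
      have h1 : ‖W w 0 0‖ ≤ 1 := (hb0 0).trans hW1
      have h2 : |cn b h| * |cn b h| = cn b h ^ 2 := by rw [← sq, sq_abs]
      rw [h2]
      have h3 : cn b h ^ 2 * ‖W w 0 0‖ ≤ cn b h ^ 2 * 1 :=
        mul_le_mul_of_nonneg_left h1 (sq_nonneg _)
      have h4 : 0 ≤ cn b h ^ 2 * (C1 / T ^ 2) := by positivity
      linarith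
    · rw [if_neg he, zero_add]
      rcases Nat.eq_zero_or_pos h with h0 | h0
      · subst h0; rw [cn_zero hb]; simp
      rcases Nat.eq_zero_or_pos l with l0 | l0
      · subst l0; rw [cn_zero hb]; simp
      refine mul_le_mul_of_nonneg_left ?_ (by positivity)
      refine (hd _).trans ?_
      have hg := log_gap h0 l0 he hh' hl'
      have hX0 : (0 : ℝ) < X := by exact_mod_cast (lt_of_lt_of_le h0 hh')
      have h5 : T / X ≤ 1 + |T * (Real.log l - Real.log h)| := by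
        rw [abs_mul, abs_of_pos hT0]
        have : T * (1 / X) ≤ T * |Real.log l - Real.log h| := mul_le_mul_of_nonneg_left hg hT0.le
        have h6 : T * (1 / X) = T / X := by ring
        linarith
      have h7 : T ^ 2 ≤ (1 + |T * (Real.log l - Real.log h)|) ^ 3 := by
        have h8 : (T / X) ^ 3 ≤ (1 + |T * (Real.log l - Real.log h)|) ^ 3 :=
          pow_le_pow_left₀ (by positivity) h5 3
        have h9 : T ^ 2 ≤ (T / X) ^ 3 := by
          rw [div_pow, le_div_iff₀ (by positivity)]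
          have : T ^ 2 * (X : ℝ) ^ 3 ≤ T ^ 2 * T := mul_le_mul_of_nonneg_left hX (by positivity)
          calc T ^ 2 * (X : ℝ) ^ 3 ≤ T ^ 2 * T := this
            _ = T ^ 3 := by ring
        linarith
      exact div_le_div_of_nonneg_left hC1 (by positivity) h7
  have hRle : R ≤ ∑ h ∈ Finset.range (X + 1), ∑ l ∈ Finset.range (X + 1),
      ((if h = l then cn b h ^ 2 else 0) + |cn b h| * |cn b l| * (C1 / T ^ 2)) := by
    have h1 : R ≤ ‖((R : ℝ) : ℂ)‖ := by
      rw [Complex.norm_real]; exact le_abs_self _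
    refine h1.trans ?_
    rw [hex]
    refine (norm_sum_le _ _).trans (Finset.sum_le_sum fun h hh => ?_)
    refine (norm_sum_le _ _).trans (Finset.sum_le_sum fun l hl => ?_)
    exact hterm h hh l hl
  have hsplit : ∑ h ∈ Finset.range (X + 1), ∑ l ∈ Finset.range (X + 1),
      ((if h = l then cn b h ^ 2 else 0) + |cn b h| * |cn b l| * (C1 / T ^ 2)) =
      Q2 b X + (∑ h ∈ Finset.range (X + 1), |cn b h|) ^ 2 * (C1 / T ^ 2) := by
    simp_rw [Finset.sum_add_distrib]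
    congr 1
    · unfold Q2
      refine Finset.sum_congr rfl fun h hh => ?_
      rw [Finset.sum_ite_eq, if_pos hh, cn_sq]
    · rw [sq (∑ h ∈ Finset.range (X + 1), |cn b h|), Finset.sum_mul_sum, Finset.sum_mul]
      refine Finset.sum_congr rfl fun h _ => ?_
      rw [Finset.sum_mul]
  have hCS : (∑ h ∈ Finset.range (X + 1), |cn b h|) ^ 2 ≤ ((X : ℝ) + 1) * Q2 b X := by
    have h1 := sq_sum_le_card_mul_sum_sq (s := Finset.range (X + 1)) (f := fun h => |cn b h|)
    have h2 : ∑ h ∈ Finset.range (X + 1), |cn b h| ^ 2 = Q2 b X := by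
      unfold Q2
      exact Finset.sum_congr rfl fun h _ => by rw [sq_abs, cn_sq]
    rw [Finset.card_range] at h1
    rw [h2] at h1
    push_cast at h1
    exact h1
  have hQ : 0 ≤ Q2 b X := by
    unfold Q2
    exact Finset.sum_nonneg fun h _ => by positivity
  have hfin : (∑ h ∈ Finset.range (X + 1), |cn b h|) ^ 2 * (C1 / T ^ 2) ≤ 2 * C1 * Q2 b X := by
    have h1 : (∑ h ∈ Finset.range (X + 1), |cn b h|) ^ 2 * (C1 / T ^ 2) ≤
        (((X : ℝ) + 1) * Q2 b X) * (C1 / T ^ 2) :=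
      mul_le_mul_of_nonneg_right hCS (by positivity)
    have h2 : ((X : ℝ) + 1) / T ^ 2 ≤ 2 := by
      rw [div_le_iff₀ (by positivity)]
      nlinarith
    have h3 : (((X : ℝ) + 1) * Q2 b X) * (C1 / T ^ 2) = (((X : ℝ) + 1) / T ^ 2) * (C1 * Q2 b X) := by
      ring
    have h4 : (((X : ℝ) + 1) / T ^ 2) * (C1 * Q2 b X) ≤ 2 * (C1 * Q2 b X) :=
      mul_le_mul_of_nonneg_right h2 (by positivity)
    linarith
  rw [hsplit] at hRle
  linarith

end Pool.Agent.Work.MP_56b8f5_nt.WM
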