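import Pool.Agent.Work.MP_56b8f5_nt.WM.Stmts

/-!
MP_56b8f5_nt, block WM, item C6 (Main): the final theorem from the window theorem on `[T, 2T]`.
-/

set_option autoImplicit false

open MeasureTheory Set Filter Topology

noncomputable section

namespace Pool.Agent.Work.MP_56b8f5_nt.WM

open Pool.Agent.Work.MP_56b8f5_nt.EM

namespace I_Main

theorem az_cont : Continuous az := by
  unfold az
  refine continuous_norm.comp ?_
  rw [continuous_iff_continuousAt]
  intro t
  have hne : (1 / 2 + (t : ℂ) * Complex.I) ≠ 1 := by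
    intro h
    have := congrArg Complex.re h
    norm_num at this
  have h1 : ContinuousAt riemannZeta (1 / 2 + (t : ℂ) * Complex.I) :=
    (differentiableAt_riemannZeta hne).continuousAt
  have h2 : ContinuousAt (fun t : ℝ => (1 / 2 + (t : ℂ) * Complex.I)) t := by fun_prop
  exact ContinuousAt.comp (f := fun t : ℝ => (1 / 2 + (t : ℂ) * Complex.I)) h1 h2

theorem az_nonneg (t : ℝ) : 0 ≤ az t := norm_nonneg _

theorem bound_on {k : ℕ} {C T x : ℝ} (hT : 1 < Real.log T)
    (hx : 0 ≤ x)
    (h : |Real.log x - k * Real.log (Real.log T)| ≤ C * Real.sqrt (Real.log (Real.log T))) (hk : 2 ≤ k) :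
    x ^ (2 * k) ≤ Real.log T ^ (2 * k ^ 2) *
      Real.exp (2 * k * C * Real.sqrt (Real.log (Real.log T))) := by
  have hL : 0 < Real.log T := by linarith
  rcases hx.eq_or_lt with h0 | h0
  · rw [← h0, zero_pow (by omega)]
    positivity
  have h1 : Real.log x ≤ k * Real.log (Real.log T) + C * Real.sqrt (Real.log (Real.log T)) := by
    have := (abs_le.mp h).2
    linarith
  have h2 : x ^ (2 * k) = Real.exp ((2 * k : ℕ) * Real.log x) := by
    rw [Real.exp_nat_mul, Real.exp_log h0]
  have h3 : Real.log T ^ (2 * k ^ 2) = Real.exp ((2 * k ^ 2 : ℕ) * Real.log (Real.log T)) := by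
    rw [Real.exp_nat_mul, Real.exp_log hL]
  rw [h2, h3, ← Real.exp_add]
  apply Real.exp_le_exp.mpr
  push_cast
  have hk0 : (0 : ℝ) ≤ 2 * k := by positivity
  nlinarith [mul_le_mul_of_nonneg_left h1 hk0]

end I_Main

open I_Main in
theorem Main_pf (h2 : S_PeBas) (h8 : S_BBp) (h5 : S_Sca) : S_Main := by
  intro k hk
  obtain ⟨c, C0, hc, hC0, hev⟩ := h5 k hk
  have hk1 : (1 : ℝ) ≤ k := by exact_mod_cast (by omega : 1 ≤ k)
  set C : ℝ := 2 * k * C0 + 1 with hC
  have hCC0 : C0 ≤ C := by rw [hC]; nlinarith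
  refine ⟨c, C, hc, le_trans hC0 hCC0, ?_⟩
  -- for large T: log T > 1, T > 0, exp (-(√ log log T)) ≤ c
  have hlog : Tendsto Real.log atTop atTop := Real.tendsto_log_atTop
  have hll : Tendsto (fun T : ℝ => Real.sqrt (Real.log (Real.log T))) atTop atTop :=
    Real.tendsto_sqrt_atTop.comp (hlog.comp hlog)
  have e1 : ∀ᶠ T : ℝ in atTop, 1 < Real.log T := hlog.eventually_gt_atTop 1
  have e2 : ∀ᶠ T : ℝ in atTop, -Real.log c ≤ Real.sqrt (Real.log (Real.log T)) :=
    hll.eventually_ge_atTop _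
  filter_upwards [hev, e1, e2, eventually_gt_atTop (0 : ℝ)] with T hT hT1 hT2 hT0
  obtain ⟨q, y, z, hq, hy, hyz, hX, hup, hlow⟩ := hT
  obtain ⟨b1, b2, b3, b4⟩ := h8 q y z q 1 hq hyz
  have haa : ∀ p, 0 ≤ aa q y z q 1 p := by
    intro p
    unfold aa
    split_ifs <;> positivity
  have haa1 : ∀ p, aa q y z q 1 p ≤ 1 := by
    intro p
    unfold aa
    have hq0 : (q : ℝ) ≠ 0 := by
      have : 0 < q := by omega
      positivity
    split_ifs
    · rw [div_self hq0]
    · norm_num
    · norm_num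
  obtain ⟨p1, p2, p3, p4, p5, p6, p7, p8, p9, p10, p11⟩ := h2 (aa q y z q 1) haa
  have hDP : ∀ t : ℝ, ‖DP (BB q y z q 1) (y ^ q * z) t‖ = aM q y t ^ q * aR y z t := by
    intro t
    have h := b4 (y ^ q * z) (by rw [pow_one]) t
    rw [h, norm_mul, norm_pow, norm_pow, pow_one]
    rfl
  have hL : 0 < Real.log T := by linarith
  have hazc : Continuous az := az_cont
  have hint : IntegrableOn (fun t => az t ^ (2 * k)) (Icc T (2 * T)) volume :=
    (hazc.pow _).continuousOn.integrableOn_Icc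
  -- the two sets
  set S0 : Set ℝ := {t | t ∈ Icc T (2 * T) ∧ az t ≤ C0 * (aM q y t ^ q * aR y z t) ∧
      |Real.log (az t) - k * Real.log (Real.log T)| ≤ C0 * Real.sqrt (Real.log (Real.log T))} with hS0
  set S : Set ℝ := {t | t ∈ Icc T (2 * T) ∧ az t ≤ C * ‖DP (BB q y z q 1) (y ^ q * z) t‖ ∧
      |Real.log (az t) - k * Real.log (Real.log T)| ≤ C * Real.sqrt (Real.log (Real.log T))} with hS
  have hsub : S0 ⊆ S := by
    intro t ht
    obtain ⟨u1, u2, u3⟩ := ht
    refine ⟨u1, ?_, ?_⟩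
    · rw [hDP t]
      refine le_trans u2 (mul_le_mul_of_nonneg_right hCC0 ?_)
      have : 0 ≤ ‖DP (BB q y z q 1) (y ^ q * z) t‖ := norm_nonneg _
      rwa [hDP t] at this
    · exact le_trans u3 (mul_le_mul_of_nonneg_right hCC0 (Real.sqrt_nonneg _))
  have hSI : S ⊆ Icc T (2 * T) := fun t ht => ht.1
  have hSfin : volume S < ⊤ := lt_of_le_of_lt (measure_mono hSI) (by simp)
  have hlow' : c * T * Real.log T ^ (k ^ 2) ≤ ∫ t in S, az t ^ (2 * k) := by
    refine le_trans hlow ?_
    refine setIntegral_mono_set (hint.mono_set hSI) ?_ hsub.eventuallyLE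
    exact Eventually.of_forall fun t => pow_nonneg (az_nonneg t) _
  refine ⟨y ^ q * z, fun n => BB q y z q 1 n, ?_, ?_, ?_, hlow', ?_⟩
  · exact_mod_cast hX
  · intro n
    refine ⟨(b1 n).1, le_trans (b1 n).2 (p9 n fun p _ _ => haa1 p)⟩
  · intro A hA
    have h := hup A hA
    have hset : {t | t ∈ Icc T (2 * T) ∧ az t ≤ A * ‖DP (BB q y z q 1) (y ^ q * z) t‖} =
        {t | t ∈ Icc T (2 * T) ∧ az t ≤ A * (aM q y t ^ q * aR y z t)} := by
      ext t
      simp only [mem_setOf_eq, hDP t]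
    have hset' : (∫ t in {t | t ∈ Icc T (2 * T) ∧ az t ≤ A * ‖DP (fun n => BB q y z q 1 n) (y ^ q * z) t‖},
        az t ^ (2 * k)) = ∫ t in {t | t ∈ Icc T (2 * T) ∧ az t ≤ A * (aM q y t ^ q * aR y z t)},
        az t ^ (2 * k) := by
      rw [hset]
    rw [hset']
    refine le_trans h ?_
    have hA2 : 0 ≤ A ^ (2 * k - 2) := pow_nonneg (by linarith) _
    have : C0 * A ^ (2 * k - 2) ≤ C * A ^ (2 * k - 2) := mul_le_mul_of_nonneg_right hCC0 hA2
    have h3 : 0 ≤ T * Real.log T ^ (k ^ 2) := by positivity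
    calc C0 * A ^ (2 * k - 2) * T * Real.log T ^ (k ^ 2)
        = (C0 * A ^ (2 * k - 2)) * (T * Real.log T ^ (k ^ 2)) := by ring
      _ ≤ (C * A ^ (2 * k - 2)) * (T * Real.log T ^ (k ^ 2)) := mul_le_mul_of_nonneg_right this h3
      _ = C * A ^ (2 * k - 2) * T * Real.log T ^ (k ^ 2) := by ring
  · -- the measure
    have hS0I : S0 ⊆ Icc T (2 * T) := fun t ht => ht.1
    have hS0fin : volume S0 < ⊤ := lt_of_le_of_lt (measure_mono hS0I) (by simp)
    set M : ℝ := Real.log T ^ (2 * k ^ 2) *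
      Real.exp (2 * k * C0 * Real.sqrt (Real.log (Real.log T))) with hM
    have hMpos : 0 < M := by positivity
    have hb : ‖∫ t in S0, az t ^ (2 * k)‖ ≤ M * volume.real S0 := by
      refine norm_setIntegral_le_of_norm_le_const hS0fin fun t ht => ?_
      rw [Real.norm_of_nonneg (pow_nonneg (az_nonneg t) _)]
      exact bound_on hT1 (az_nonneg t) ht.2.2 hk
    have hb2 : c * T * Real.log T ^ (k ^ 2) ≤ M * volume.real S0 :=
      le_trans hlow (le_trans (Real.le_norm_self _) hb)
    have hb3 : volume.real S0 ≤ volume.real S := measureReal_mono hsub hSfin.ne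
    have hb4 : c * T * Real.log T ^ (k ^ 2) ≤ M * volume.real S :=
      le_trans hb2 (mul_le_mul_of_nonneg_left hb3 hMpos.le)
    have hexpc : Real.exp (-Real.sqrt (Real.log (Real.log T))) ≤ c := by
      rw [← Real.exp_log hc]
      apply Real.exp_le_exp.mpr
      linarith
    have key : M * (T / Real.log T ^ (k ^ 2) *
        Real.exp (-(C * Real.sqrt (Real.log (Real.log T))))) ≤ c * T * Real.log T ^ (k ^ 2) := by
      have e3 : Real.exp (2 * k * C0 * Real.sqrt (Real.log (Real.log T))) *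
          Real.exp (-(C * Real.sqrt (Real.log (Real.log T)))) =
          Real.exp (-Real.sqrt (Real.log (Real.log T))) := by
        rw [← Real.exp_add]
        congr 1
        rw [hC]
        ring
      have e4 : Real.log T ^ (2 * k ^ 2) = Real.log T ^ (k ^ 2) * Real.log T ^ (k ^ 2) := by
        rw [← pow_add]
        congr 1
        ring
      have e5 : M * (T / Real.log T ^ (k ^ 2) *
          Real.exp (-(C * Real.sqrt (Real.log (Real.log T))))) =
          Real.exp (-Real.sqrt (Real.log (Real.log T))) * (T * Real.log T ^ (k ^ 2)) := by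
        rw [hM, ← e3, e4]
        have : Real.log T ^ (k ^ 2) ≠ 0 := (pow_pos hL _).ne'
        field_simp
      rw [e5]
      calc Real.exp (-Real.sqrt (Real.log (Real.log T))) * (T * Real.log T ^ (k ^ 2))
          ≤ c * (T * Real.log T ^ (k ^ 2)) := mul_le_mul_of_nonneg_right hexpc (by positivity)
        _ = c * T * Real.log T ^ (k ^ 2) := by ring
    have key2 := le_trans key hb4
    exact le_of_mul_le_mul_left key2 hMpos

end Pool.Agent.Work.MP_56b8f5_nt.WM
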