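import Pool.Agent.Work.MP_56b8f5_nt.WM.Stmts

/-!
MP_56b8f5_nt, block WM, item TSb: twisted second moment, upper bound.
-/

set_option autoImplicit false

open MeasureTheory Set Filter Topology

noncomputable section

namespace Pool.Agent.Work.MP_56b8f5_nt.WM

open Pool.Agent.Work.MP_56b8f5_nt.EM

namespace I_TSb

lemma compact {w : ℝ → ℝ} (hw : IsW w) : HasCompactSupport w := by
  obtain ⟨c, hc, hs⟩ := hw.supp
  refine HasCompactSupport.intro (K := Icc c 1) isCompact_Icc ?_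
  intro u hu
  by_contra h
  exact hu (hs u h)

lemma az_cont : Continuous az := by
  unfold az
  refine Continuous.norm ?_
  rw [continuous_iff_continuousAt]
  intro u
  have h1 : ContinuousAt (fun u : ℝ => (1 / 2 + (u : ℂ) * Complex.I : ℂ)) u := by
    fun_prop
  have h2 : (1 / 2 + (u : ℂ) * Complex.I : ℂ) ≠ 1 := by
    intro h
    have := congrArg Complex.re h
    simp at this
  exact ContinuousAt.comp (g := riemannZeta) (f := fun u : ℝ => (1 / 2 + (u : ℂ) * Complex.I : ℂ))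
    (differentiableAt_riemannZeta h2).continuousAt h1

lemma DP_cont (b : ℕ → ℝ) (X : ℕ) : Continuous (DP b X) := by
  unfold DP
  refine continuous_finsetSum _ fun n _ => continuous_const.mul ?_
  refine Continuous.const_cpow (by fun_prop) (Or.inr fun t h => ?_)
  have := congrArg Complex.re h
  simp at this

lemma int_w {w : ℝ → ℝ} (hw : IsW w) {g : ℝ → ℝ} (hg : Continuous g) :
    Integrable fun u : ℝ => w u * g u := by
  refine Continuous.integrable_of_hasCompactSupport (hw.smooth.continuous.mul hg) ?_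
  exact (compact hw).mul_right

lemma cpow_eq (n : ℕ) (hn : 0 < n) (t : ℝ) : (n : ℂ) ^ (-(1 / 2 + t * Complex.I)) =
    ((1 / Real.sqrt n : ℝ) : ℂ) * Complex.exp (-(Complex.I * (t * Real.log n : ℝ))) := by
  have hn' : (0 : ℝ) < n := by exact_mod_cast hn
  have h1 : ((1 / Real.sqrt n : ℝ) : ℂ) = Complex.exp (((-(1 / 2) * Real.log n : ℝ)) : ℂ) := by
    rw [← Complex.ofReal_exp]
    congr 1
    rw [Real.sqrt_eq_rpow, Real.rpow_def_of_pos hn', one_div, ← Real.exp_neg]
    congr 1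
    ring
  rw [Complex.cpow_def_of_ne_zero (by exact_mod_cast hn.ne'), h1, ← Complex.exp_add,
    ← Complex.natCast_log]
  congr 1
  push_cast
  ring

lemma DP_sq (b : ℕ → ℝ) (hb : b 0 = 0) (X : ℕ) (t : ℝ) :
    ((‖DP b X t‖ ^ 2 : ℝ) : ℂ) = ∑ h ∈ Finset.range (X + 1), ∑ l ∈ Finset.range (X + 1),
      ((b h * b l / Real.sqrt ((h : ℝ) * l) : ℝ) : ℂ) *
        Complex.exp (Complex.I * (t * Real.log ((l : ℝ) / h) : ℝ)) := by
  have h1 : ((‖DP b X t‖ ^ 2 : ℝ) : ℂ) = DP b X t * (starRingEnd ℂ) (DP b X t) := by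
    rw [Complex.mul_conj, Complex.normSq_eq_norm_sq]
  rw [h1]
  unfold DP
  rw [map_sum, Finset.sum_mul_sum]
  refine Finset.sum_congr rfl fun h _ => Finset.sum_congr rfl fun l _ => ?_
  rcases Nat.eq_zero_or_pos h with rfl | hh
  · simp [hb]
  rcases Nat.eq_zero_or_pos l with rfl | hl
  · simp [hb]
  have hh' : (0 : ℝ) < h := by exact_mod_cast hh
  have hl' : (0 : ℝ) < l := by exact_mod_cast hl
  rw [cpow_eq h hh t, cpow_eq l hl t, map_mul, map_mul, Complex.conj_ofReal, Complex.conj_ofReal,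
    ← Complex.exp_conj, map_neg, map_mul, Complex.conj_I, Complex.conj_ofReal,
    Real.log_div hl'.ne' hh'.ne', Real.sqrt_mul hh'.le]
  have h2 : Complex.exp (Complex.I * ((t * (Real.log l - Real.log h) : ℝ) : ℂ)) =
      Complex.exp (-(Complex.I * ((t * Real.log h : ℝ) : ℂ))) *
        Complex.exp (-(-Complex.I * ((t * Real.log l : ℝ) : ℂ))) := by
    rw [← Complex.exp_add]
    congr 1
    push_cast
    ring
  rw [h2]
  push_cast
  ring

lemma Q2_le_GS (b : ℕ → ℝ) (X : ℕ) (hb0 : b 0 = 0) (hb : ∀ n, 0 ≤ b n) : Q2 b X ≤ GS b X := by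
  unfold Q2 GS
  refine Finset.sum_le_sum fun h hh => ?_
  have h1 : b h ^ 2 / (h : ℝ) = b h * b h * (Nat.gcd h h : ℝ) / ((h : ℝ) * (h : ℝ)) := by
    rcases Nat.eq_zero_or_pos h with rfl | hpos
    · simp [hb0]
    · have : (0 : ℝ) < h := by exact_mod_cast hpos
      rw [Nat.gcd_self]
      field_simp
  rw [h1]
  refine Finset.single_le_sum (f := fun l : ℕ => b h * b l * (Nat.gcd h l : ℝ) / ((h : ℝ) * (l : ℝ)))
    (fun l _ => ?_) hh
  have := hb h
  have := hb l
  positivity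

lemma GS_nonneg (b : ℕ → ℝ) (X : ℕ) (hb : ∀ n, 0 ≤ b n) : 0 ≤ GS b X := by
  unfold GS
  refine Finset.sum_nonneg fun h _ => Finset.sum_nonneg fun l _ => ?_
  have := hb h
  have := hb l
  positivity

/-- The bound for one pair. -/
lemma pair_bd (hW : StW) (hS : StSec) {w : ℝ → ℝ} (hw : IsW w) : ∃ C : ℝ, 0 ≤ C ∧
    ∀ T : ℝ, 3 ≤ T → ∀ h l : ℕ, 0 < h → 0 < l → (h : ℝ) * l ≤ T →
      ‖∫ u : ℝ, ((w u * ‖P (T ^ 3) (T * u)‖ ^ 2 : ℝ) : ℂ) *
        Complex.exp (Complex.I * (T * u * Real.log ((l : ℝ) / h) : ℝ))‖ ≤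
      C * Real.log T * ((Nat.gcd h l : ℝ) / Real.sqrt ((h : ℝ) * l)) := by
  obtain ⟨C, hC, hS⟩ := hS w hw
  obtain ⟨-, -, -, -, hW0, hW1⟩ := hW w hw
  refine ⟨1 + 2 * C, by positivity, ?_⟩
  intro T hT h l hh hl hhl
  set g := Nat.gcd h l with hg
  have hg0 : 0 < g := Nat.gcd_pos_of_pos_left _ hh
  obtain ⟨m, hm⟩ : g ∣ h := Nat.gcd_dvd_left h l
  obtain ⟨n, hn⟩ : g ∣ l := Nat.gcd_dvd_right h l
  have hm0 : 0 < m := by
    rcases Nat.eq_zero_or_pos m with rfl | h0
    · simp at hm; omega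
    · exact h0
  have hn0 : 0 < n := by
    rcases Nat.eq_zero_or_pos n with rfl | h0
    · simp at hn; omega
    · exact h0
  have hcop : Nat.Coprime n m := by
    have h1 : Nat.Coprime (h / g) (l / g) := Nat.coprime_div_gcd_div_gcd hg0
    have h2 : h / g = m := by rw [hm]; exact Nat.mul_div_cancel_left m hg0
    have h3 : l / g = n := by rw [hn]; exact Nat.mul_div_cancel_left n hg0
    rw [h2, h3] at h1
    exact h1.symm
  have hgR : (0 : ℝ) < g := by exact_mod_cast hg0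
  have hg1 : (1 : ℝ) ≤ g := by exact_mod_cast hg0
  have hmR : (0 : ℝ) < m := by exact_mod_cast hm0
  have hm1 : (1 : ℝ) ≤ m := by exact_mod_cast hm0
  have hnR : (0 : ℝ) < n := by exact_mod_cast hn0
  have hn1 : (1 : ℝ) ≤ n := by exact_mod_cast hn0
  have hhR : (h : ℝ) = g * m := by exact_mod_cast hm
  have hlR : (l : ℝ) = g * n := by exact_mod_cast hn
  have hnm1 : 1 ≤ (n : ℝ) * m := by nlinarith
  have hprod : (h : ℝ) * l = g ^ 2 * (n * m) := by rw [hhR, hlR]; ring
  have hnmT : (n : ℝ) * m ≤ T := by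
    have : (n : ℝ) * m ≤ g ^ 2 * (n * m) := by
      have : (1 : ℝ) ≤ (g : ℝ) ^ 2 := one_le_pow₀ hg1
      nlinarith
    linarith [hprod ▸ hhl]
  have hdiv : (l : ℝ) / h = n / m := by
    rw [hhR, hlR]
    field_simp
  have hT0 : 0 < T := by linarith
  have hlogT : 1 ≤ Real.log T := by
    rw [Real.le_log_iff_exp_le hT0]
    have := Real.exp_one_lt_d9
    linarith
  have h1 := hS T (by linarith) n m hn0 hm0 hcop hnmT
  rw [← hdiv] at h1
  set I := ∫ u : ℝ, ((w u * ‖P (T ^ 3) (T * u)‖ ^ 2 : ℝ) : ℂ) *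
        Complex.exp (Complex.I * (T * u * Real.log ((l : ℝ) / h) : ℝ)) with hI
  set s := Real.sqrt ((n : ℝ) * m) with hs
  have hs0 : 0 < s := Real.sqrt_pos.2 (by linarith)
  have hss : s * s = (n : ℝ) * m := Real.mul_self_sqrt (by linarith)
  have h2 : ‖((W0 w / s * Real.log (T / (n * m)) : ℝ) : ℂ)‖ ≤ 1 / s * Real.log T := by
    rw [Complex.norm_real, Real.norm_eq_abs, abs_of_nonneg]
    · have h3 : Real.log (T / (n * m)) ≤ Real.log T := by
        refine Real.log_le_log (by positivity) ?_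
        exact div_le_self hT0.le hnm1
      have h4 : 0 ≤ Real.log (T / (n * m)) := Real.log_nonneg (by
        rw [le_div_iff₀ (by positivity)]; linarith)
      refine mul_le_mul ?_ h3 h4 (by positivity)
      exact div_le_div_of_nonneg_right hW1 hs0.le
    · refine mul_nonneg (div_nonneg hW0 hs0.le) (Real.log_nonneg ?_)
      rw [le_div_iff₀ (by positivity)]
      linarith
  have h5 : s * Real.log T / T ≤ Real.log T * (1 / s) := by
    rw [div_le_iff₀ hT0, mul_assoc, ← sub_nonneg]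
    have : Real.log T * (1 / s * T) - s * Real.log T = Real.log T / s * (T - s * s) := by
      field_simp
    rw [this]
    refine mul_nonneg (by positivity) ?_
    rw [hss]
    linarith
  have h6 : 1 / s ≤ Real.log T * (1 / s) := by
    have : 0 < 1 / s := by positivity
    nlinarith
  have h7 : ‖I‖ ≤ C * (1 / s + s * Real.log T / T) + 1 / s * Real.log T := by
    calc ‖I‖ = ‖(I - ((W0 w / s * Real.log (T / (n * m)) : ℝ) : ℂ)) +
          ((W0 w / s * Real.log (T / (n * m)) : ℝ) : ℂ)‖ := by ring_nf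
      _ ≤ _ := norm_add_le _ _
      _ ≤ _ := add_le_add h1 h2
  have h8 : (g : ℝ) / Real.sqrt ((h : ℝ) * l) = 1 / s := by
    rw [hprod, Real.sqrt_mul (by positivity), Real.sqrt_sq hgR.le, ← hs]
    field_simp
  rw [h8]
  calc ‖I‖ ≤ C * (1 / s + s * Real.log T / T) + 1 / s * Real.log T := h7
    _ ≤ C * (Real.log T * (1 / s) + Real.log T * (1 / s)) + 1 / s * Real.log T := by
        gcongr
    _ = (1 + 2 * C) * Real.log T * (1 / s) := by ring

end I_TSb

open I_TSb in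
theorem TSb_pf (hW : StW) (hP : StPc) (hS : StSec) (h0 : S_ZP) (h1 : S_MVb) : S_TSb := by
  intro w hw
  obtain ⟨C₀, hC₀, hS⟩ := pair_bd hW hS hw
  obtain ⟨C₁, T₁, hC₁, hT₁, h0⟩ := h0 w hw
  obtain ⟨C₂, hC₂, h1⟩ := h1 w hw
  refine ⟨2 * C₀ + 2 * C₁ ^ 2 * C₂, max 3 T₁, by positivity, ?_⟩
  intro T hT X hX b hb0 hb
  have hT3 : 3 ≤ T := (le_max_left _ _).trans hT
  have hTT₁ : T₁ ≤ T := (le_max_right _ _).trans hT
  have hT0 : 0 < T := by linarith
  have hlogT : 1 ≤ Real.log T := by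
    rw [Real.le_log_iff_exp_le hT0]
    have := Real.exp_one_lt_d9
    linarith
  have hPc : Continuous (P (T ^ 3)) := (hP (T ^ 3) (one_le_pow₀ (by linarith))).1
  have hDc := DP_cont b X
  have hG := GS_nonneg b X hb
  have hQG := Q2_le_GS b X hb0 hb
  -- first step
  have hpt : ∀ u, w u * (az (T * u) ^ 2 * ‖DP b X (T * u)‖ ^ 2) ≤
      2 * (w u * (‖P (T ^ 3) (T * u)‖ ^ 2 * ‖DP b X (T * u)‖ ^ 2)) +
      2 * C₁ ^ 2 * (w u * ‖DP b X (T * u)‖ ^ 2) := by
    intro u
    by_cases hu : w u = 0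
    · simp [hu]
    have h2 := h0 T hTT₁ u hu
    have hs1 : 1 ≤ Real.sqrt T := by
      rw [Real.one_le_sqrt]
      linarith
    have h3 : ‖riemannZeta (1 / 2 + ((T * u : ℝ) : ℂ) * Complex.I) - P (T ^ 3) (T * u)‖ ≤ C₁ :=
      h2.trans (div_le_self hC₁ hs1)
    have h4 : az (T * u) ≤ ‖P (T ^ 3) (T * u)‖ + C₁ := by
      unfold az
      calc ‖riemannZeta (1 / 2 + ((T * u : ℝ) : ℂ) * Complex.I)‖ =
            ‖(riemannZeta (1 / 2 + ((T * u : ℝ) : ℂ) * Complex.I) - P (T ^ 3) (T * u)) +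
              P (T ^ 3) (T * u)‖ := by ring_nf
        _ ≤ _ := norm_add_le _ _
        _ ≤ _ := by linarith
    have h5 : 0 ≤ az (T * u) := norm_nonneg _
    have h6 : az (T * u) ^ 2 ≤ 2 * ‖P (T ^ 3) (T * u)‖ ^ 2 + 2 * C₁ ^ 2 := by
      have h7 : az (T * u) ^ 2 ≤ (‖P (T ^ 3) (T * u)‖ + C₁) ^ 2 := pow_le_pow_left₀ h5 h4 2
      nlinarith [sq_nonneg (‖P (T ^ 3) (T * u)‖ - C₁)]
    have h8 : 0 ≤ w u * ‖DP b X (T * u)‖ ^ 2 := mul_nonneg (hw.nonneg u) (sq_nonneg _)
    calc w u * (az (T * u) ^ 2 * ‖DP b X (T * u)‖ ^ 2) =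
          az (T * u) ^ 2 * (w u * ‖DP b X (T * u)‖ ^ 2) := by ring
      _ ≤ (2 * ‖P (T ^ 3) (T * u)‖ ^ 2 + 2 * C₁ ^ 2) * (w u * ‖DP b X (T * u)‖ ^ 2) :=
          mul_le_mul_of_nonneg_right h6 h8
      _ = _ := by ring
  have hi1 : Integrable fun u : ℝ => w u * (az (T * u) ^ 2 * ‖DP b X (T * u)‖ ^ 2) := by
    refine int_w hw (g := fun u => az (T * u) ^ 2 * ‖DP b X (T * u)‖ ^ 2) ?_
    have := az_cont
    fun_prop
  have hi2 : Integrable fun u : ℝ =>
      w u * (‖P (T ^ 3) (T * u)‖ ^ 2 * ‖DP b X (T * u)‖ ^ 2) := by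
    refine int_w hw (g := fun u => ‖P (T ^ 3) (T * u)‖ ^ 2 * ‖DP b X (T * u)‖ ^ 2) ?_
    fun_prop
  have hi3 : Integrable fun u : ℝ => w u * ‖DP b X (T * u)‖ ^ 2 := by
    refine int_w hw (g := fun u => ‖DP b X (T * u)‖ ^ 2) ?_
    fun_prop
  have hst : ∫ u : ℝ, w u * (az (T * u) ^ 2 * ‖DP b X (T * u)‖ ^ 2) ≤
      2 * (∫ u : ℝ, w u * (‖P (T ^ 3) (T * u)‖ ^ 2 * ‖DP b X (T * u)‖ ^ 2)) +
      2 * C₁ ^ 2 * (∫ u : ℝ, w u * ‖DP b X (T * u)‖ ^ 2) := by
    rw [← integral_const_mul, ← integral_const_mul, ← integral_add (hi2.const_mul 2)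
      (hi3.const_mul (2 * C₁ ^ 2))]
    exact integral_mono hi1 ((hi2.const_mul 2).add (hi3.const_mul (2 * C₁ ^ 2))) hpt
  -- second part
  have hsec : ∫ u : ℝ, w u * ‖DP b X (T * u)‖ ^ 2 ≤ C₂ * GS b X :=
    (h1 T (by linarith) X hX b hb0).trans (mul_le_mul_of_nonneg_left hQG hC₂)
  -- first part
  have hXT : (X : ℝ) ^ 2 ≤ T := by
    rcases Nat.eq_zero_or_pos X with rfl | hXp
    · simp
      linarith
    · have : (1 : ℝ) ≤ X := by exact_mod_cast hXp
      calc (X : ℝ) ^ 2 ≤ (X : ℝ) ^ 3 := pow_le_pow_right₀ this (by norm_num)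
        _ ≤ T := hX
  have hfirst : ∫ u : ℝ, w u * (‖P (T ^ 3) (T * u)‖ ^ 2 * ‖DP b X (T * u)‖ ^ 2) ≤
      C₀ * Real.log T * GS b X := by
    have he : ((∫ u : ℝ, w u * (‖P (T ^ 3) (T * u)‖ ^ 2 * ‖DP b X (T * u)‖ ^ 2) : ℝ) : ℂ) =
        ∑ h ∈ Finset.range (X + 1), ∑ l ∈ Finset.range (X + 1),
          ((b h * b l / Real.sqrt ((h : ℝ) * l) : ℝ) : ℂ) *
            ∫ u : ℝ, ((w u * ‖P (T ^ 3) (T * u)‖ ^ 2 : ℝ) : ℂ) *
              Complex.exp (Complex.I * (T * u * Real.log ((l : ℝ) / h) : ℝ)) := by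
      have hint : ∀ h l : ℕ, Integrable fun u : ℝ => ((w u * ‖P (T ^ 3) (T * u)‖ ^ 2 : ℝ) : ℂ) *
              Complex.exp (Complex.I * (T * u * Real.log ((l : ℝ) / h) : ℝ)) := by
        intro h l
        have hwc := hw.smooth.continuous
        refine Continuous.integrable_of_hasCompactSupport (by fun_prop) ?_
        refine HasCompactSupport.mul_right ?_
        refine ((compact hw).mul_right (f' := fun u => ‖P (T ^ 3) (T * u)‖ ^ 2)).comp_left
          (g := fun x : ℝ => (x : ℂ)) Complex.ofReal_zero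
      rw [← integral_complex_ofReal]
      calc ∫ u : ℝ, ((w u * (‖P (T ^ 3) (T * u)‖ ^ 2 * ‖DP b X (T * u)‖ ^ 2) : ℝ) : ℂ) =
            ∫ u : ℝ, ∑ h ∈ Finset.range (X + 1), ∑ l ∈ Finset.range (X + 1),
              ((b h * b l / Real.sqrt ((h : ℝ) * l) : ℝ) : ℂ) *
              (((w u * ‖P (T ^ 3) (T * u)‖ ^ 2 : ℝ) : ℂ) *
              Complex.exp (Complex.I * (T * u * Real.log ((l : ℝ) / h) : ℝ))) := by
            refine integral_congr_ae (Eventually.of_forall fun u => ?_)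
            have h2 := DP_sq b hb0 X (T * u)
            calc ((w u * (‖P (T ^ 3) (T * u)‖ ^ 2 * ‖DP b X (T * u)‖ ^ 2) : ℝ) : ℂ) =
                  ((w u * ‖P (T ^ 3) (T * u)‖ ^ 2 : ℝ) : ℂ) *
                    ((‖DP b X (T * u)‖ ^ 2 : ℝ) : ℂ) := by push_cast; ring
              _ = _ := by
                  rw [h2, Finset.mul_sum]
                  refine Finset.sum_congr rfl fun h _ => ?_
                  rw [Finset.mul_sum]
                  refine Finset.sum_congr rfl fun l _ => ?_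
                  ring
        _ = _ := by
            rw [integral_finsetSum _ fun h _ => integrable_finsetSum _ fun l _ =>
              (hint h l).const_mul _]
            refine Finset.sum_congr rfl fun h _ => ?_
            rw [integral_finsetSum _ fun l _ => (hint h l).const_mul _]
            refine Finset.sum_congr rfl fun l _ => ?_
            rw [integral_const_mul]
    calc ∫ u : ℝ, w u * (‖P (T ^ 3) (T * u)‖ ^ 2 * ‖DP b X (T * u)‖ ^ 2) ≤
          ‖((∫ u : ℝ, w u * (‖P (T ^ 3) (T * u)‖ ^ 2 * ‖DP b X (T * u)‖ ^ 2) : ℝ) : ℂ)‖ := by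
          rw [Complex.norm_real]
          exact Real.le_norm_self _
      _ ≤ ∑ h ∈ Finset.range (X + 1), ∑ l ∈ Finset.range (X + 1),
          C₀ * Real.log T * (b h * b l * (Nat.gcd h l : ℝ) / ((h : ℝ) * (l : ℝ))) := by
          rw [he]
          refine (norm_sum_le _ _).trans (Finset.sum_le_sum fun h hh => ?_)
          refine (norm_sum_le _ _).trans (Finset.sum_le_sum fun l hl => ?_)
          rcases Nat.eq_zero_or_pos h with rfl | hh0
          · simp [hb0]
          rcases Nat.eq_zero_or_pos l with rfl | hl0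
          · simp [hb0]
          have hhX : (h : ℝ) ≤ X := by
            have := Finset.mem_range.1 hh
            exact_mod_cast (by omega : h ≤ X)
          have hlX : (l : ℝ) ≤ X := by
            have := Finset.mem_range.1 hl
            exact_mod_cast (by omega : l ≤ X)
          have hhp : (0 : ℝ) < h := by exact_mod_cast hh0
          have hlp : (0 : ℝ) < l := by exact_mod_cast hl0
          have hhl : (h : ℝ) * l ≤ T := by
            calc (h : ℝ) * l ≤ X * X := mul_le_mul hhX hlX hlp.le (by positivity)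
              _ = (X : ℝ) ^ 2 := by ring
              _ ≤ T := hXT
          rw [norm_mul]
          have hbh := hb h
          have hbl := hb l
          have hsq : 0 < Real.sqrt ((h : ℝ) * l) := Real.sqrt_pos.2 (by positivity)
          have hsq2 : Real.sqrt ((h : ℝ) * l) * Real.sqrt ((h : ℝ) * l) = (h : ℝ) * l :=
            Real.mul_self_sqrt (by positivity)
          have hn1 : ‖((b h * b l / Real.sqrt ((h : ℝ) * l) : ℝ) : ℂ)‖ =
              b h * b l / Real.sqrt ((h : ℝ) * l) := by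
            rw [Complex.norm_real, Real.norm_eq_abs, abs_of_nonneg (by positivity)]
          rw [hn1]
          calc b h * b l / Real.sqrt ((h : ℝ) * l) * ‖∫ u : ℝ,
                ((w u * ‖P (T ^ 3) (T * u)‖ ^ 2 : ℝ) : ℂ) *
                Complex.exp (Complex.I * (T * u * Real.log ((l : ℝ) / h) : ℝ))‖ ≤
                b h * b l / Real.sqrt ((h : ℝ) * l) *
                  (C₀ * Real.log T * ((Nat.gcd h l : ℝ) / Real.sqrt ((h : ℝ) * l))) :=
                mul_le_mul_of_nonneg_left (hS T hT3 h l hh0 hl0 hhl) (by positivity)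
            _ = C₀ * Real.log T * (b h * b l * (Nat.gcd h l : ℝ) /
                  (Real.sqrt ((h : ℝ) * l) * Real.sqrt ((h : ℝ) * l))) := by
                field_simp
            _ = _ := by rw [hsq2]
      _ = C₀ * Real.log T * GS b X := by
          unfold GS
          rw [Finset.mul_sum]
          refine Finset.sum_congr rfl fun h _ => ?_
          rw [Finset.mul_sum]
  calc ∫ u : ℝ, w u * (az (T * u) ^ 2 * ‖DP b X (T * u)‖ ^ 2) ≤
        2 * (∫ u : ℝ, w u * (‖P (T ^ 3) (T * u)‖ ^ 2 * ‖DP b X (T * u)‖ ^ 2)) +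
        2 * C₁ ^ 2 * (∫ u : ℝ, w u * ‖DP b X (T * u)‖ ^ 2) := hst
    _ ≤ 2 * (C₀ * Real.log T * GS b X) + 2 * C₁ ^ 2 * (C₂ * GS b X) := by gcongr
    _ ≤ 2 * (C₀ * Real.log T * GS b X) + 2 * C₁ ^ 2 * (C₂ * GS b X) * Real.log T := by
        have : 0 ≤ 2 * C₁ ^ 2 * (C₂ * GS b X) := by positivity
        nlinarith
    _ = (2 * C₀ + 2 * C₁ ^ 2 * C₂) * Real.log T * GS b X := by ring

end Pool.Agent.Work.MP_56b8f5_nt.WM
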