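import Pool.Agent.Work.MP_56b8f5_nt.WM.Stmts

/-!
MP_56b8f5_nt, block WM (window theorem), item Ten: the ten upper bounds.
-/

set_option autoImplicit false

open MeasureTheory Set Filter Topology

noncomputable section

namespace Pool.Agent.Work.MP_56b8f5_nt.WM

open Pool.Agent.Work.MP_56b8f5_nt.EM

namespace I_Ten

/-- Lengths. -/
lemma len {y z a b m j : ℕ} {T : ℝ} (hy : 1 ≤ y) (hz : 1 ≤ z)
    (h : ((y ^ a * z ^ b : ℕ) : ℝ) ^ 3 ≤ T) (hm : m ≤ a) (hj : j ≤ b) :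
    ((y ^ m * z ^ j : ℕ) : ℝ) ^ 3 ≤ T := by
  refine le_trans ?_ h
  have h1 : y ^ m * z ^ j ≤ y ^ a * z ^ b :=
    Nat.mul_le_mul (Nat.pow_le_pow_right hy hm) (Nat.pow_le_pow_right hz hj)
  have h2 : ((y ^ m * z ^ j : ℕ) : ℝ) ≤ ((y ^ a * z ^ b : ℕ) : ℝ) := by exact_mod_cast h1
  exact pow_le_pow_left₀ (Nat.cast_nonneg _) h2 3

/-- The common estimate. -/
lemma est {A L s C7 F G : ℝ} {N K : ℕ} (hC : 1 ≤ C7) (hL : 0 ≤ L)
    (h1 : Real.exp s ≤ C7 * L) (hA : A ≤ (N : ℝ) * s + F)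
    (hG : Real.exp F ≤ C7 ^ K * G) :
    Real.exp A ≤ C7 ^ N * L ^ N * (C7 ^ K * G) := by
  have h2 : Real.exp A ≤ Real.exp ((N : ℝ) * s + F) := Real.exp_le_exp.2 hA
  refine h2.trans ?_
  rw [Real.exp_add, Real.exp_nat_mul, ← mul_pow]
  have h3 : Real.exp s ^ N ≤ (C7 * L) ^ N := pow_le_pow_left₀ (Real.exp_pos _).le h1 N
  have h4 : 0 ≤ C7 * L := mul_nonneg (by linarith) hL
  exact mul_le_mul h3 hG (Real.exp_pos _).le (pow_nonneg h4 N)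

end I_Ten

open I_Ten in
/-- **B8 (Ten).** -/
theorem Ten_pf (h5 : S_Jb) (h7 : S_Num) : S_Ten := by
  intro w hw k C hk hC
  obtain ⟨C5, T5, hC5, H5⟩ := h5 w hw
  obtain ⟨C7, T7, hC7, hT7, H7⟩ := h7 k C hC
  have hC7p : ∀ n : ℕ, 1 ≤ C7 ^ n := fun n => one_le_pow₀ hC7
  refine ⟨C5 * C7 ^ (k ^ 2) * C7 ^ (2 * k + 1), max T5 T7, ?_, fun T hT q y z hp => ?_⟩
  · exact one_le_mul_of_one_le_of_one_le
      (one_le_mul_of_one_le_of_one_le hC5 (hC7p _)) (hC7p _)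
  have hT5 : T5 ≤ T := (le_max_left _ _).trans hT
  have hT7' : T7 ≤ T := (le_max_right _ _).trans hT
  obtain ⟨hs1, hs2, e1, e2, e3, -, -⟩ := H7 T hT7' q y z hp
  have hT3 : 3 ≤ T := hT7.trans hT7'
  have hq0 : (0 : ℝ) < q := by exact_mod_cast hp.hq
  have hq1 : (1 : ℝ) ≤ q := by exact_mod_cast hp.hq
  have hk1 : (2 : ℝ) ≤ k := by exact_mod_cast hk
  have hL1 : 1 ≤ Real.log T := by
    rw [Real.le_log_iff_exp_le (by linarith)]
    have := Real.exp_one_lt_d9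
    linarith
  generalize hS1 : S1 y = s1 at *
  generalize hS2 : S2 y z = s2 at *
  generalize hLL : Real.log T = L at *
  have hL0 : 0 ≤ L := by linarith
  have hy1 : 1 ≤ y := le_trans (by norm_num) hp.hy
  have hz1 : 1 ≤ z := hy1.trans hp.hyz
  -- the two families
  have P0 : ∀ (m j : ℕ) (F G : ℝ), m ≤ q * k + 1 → j ≤ k + 1 →
      ((m : ℝ) / q) ^ 2 * s1 + (j : ℝ) ^ 2 * s2 ≤ (k : ℝ) ^ 2 * (s1 + s2) + F →
      Real.exp F ≤ C7 ^ (2 * k + 1) * G →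
      J0 w q y z T m j ≤ C5 * C7 ^ (k ^ 2) * C7 ^ (2 * k + 1) * L ^ (k ^ 2) * G := by
    intro m j F G hm hj hA hG
    have h1 := (H5 T hT5 q y z m j hp.hq hp.hyz (len hy1 hz1 hp.hlen hm hj)).1
    rw [hS1, hS2] at h1
    have hA' : ((m : ℝ) / q) ^ 2 * s1 + (j : ℝ) ^ 2 * s2 ≤ ((k ^ 2 : ℕ) : ℝ) * (s1 + s2) + F := by
      push_cast
      exact hA
    have h2 := est (N := k ^ 2) (K := 2 * k + 1) hC7 hL0 e1 hA' hG
    calc J0 w q y z T m j ≤ C5 * Real.exp (((m : ℝ) / q) ^ 2 * s1 + (j : ℝ) ^ 2 * s2) := h1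
      _ ≤ C5 * (C7 ^ (k ^ 2) * L ^ (k ^ 2) * (C7 ^ (2 * k + 1) * G)) :=
          mul_le_mul_of_nonneg_left h2 (by linarith)
      _ = C5 * C7 ^ (k ^ 2) * C7 ^ (2 * k + 1) * L ^ (k ^ 2) * G := by ring
  have P2 : ∀ (m j : ℕ) (F G : ℝ), m ≤ q * k + 1 → j ≤ k + 1 → 0 ≤ G →
      (2 * ((m : ℝ) / q) + ((m : ℝ) / q) ^ 2) * s1 + (2 * (j : ℝ) + (j : ℝ) ^ 2) * s2 ≤
        ((k : ℝ) ^ 2 - 1) * (s1 + s2) + F →
      Real.exp F ≤ C7 ^ (2 * k + 1) * G →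
      J2 w q y z T m j ≤ C5 * C7 ^ (k ^ 2) * C7 ^ (2 * k + 1) * L ^ (k ^ 2) * G := by
    intro m j F G hm hj hG0 hA hG
    have h1 := (H5 T hT5 q y z m j hp.hq hp.hyz (len hy1 hz1 hp.hlen hm hj)).2
    rw [hS1, hS2, hLL] at h1
    have hk2 : 1 ≤ k ^ 2 := Nat.one_le_pow _ _ (by omega)
    have hA' : (2 * ((m : ℝ) / q) + ((m : ℝ) / q) ^ 2) * s1 + (2 * (j : ℝ) + (j : ℝ) ^ 2) * s2 ≤
        ((k ^ 2 - 1 : ℕ) : ℝ) * (s1 + s2) + F := by
      rw [Nat.cast_sub hk2]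
      push_cast
      exact hA
    have h2 := est (N := k ^ 2 - 1) (K := 2 * k + 1) hC7 hL0 e1 hA' hG
    have h3 : L * L ^ (k ^ 2 - 1) = L ^ (k ^ 2) := by
      rw [← pow_succ', Nat.sub_add_cancel hk2]
    have h4 : C7 ^ (k ^ 2 - 1) ≤ C7 ^ (k ^ 2) := pow_le_pow_right₀ hC7 (Nat.sub_le _ _)
    calc J2 w q y z T m j ≤ C5 * L * Real.exp ((2 * ((m : ℝ) / q) + ((m : ℝ) / q) ^ 2) * s1 +
            (2 * (j : ℝ) + (j : ℝ) ^ 2) * s2) := h1
      _ ≤ C5 * L * (C7 ^ (k ^ 2 - 1) * L ^ (k ^ 2 - 1) * (C7 ^ (2 * k + 1) * G)) :=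
          mul_le_mul_of_nonneg_left h2 (mul_nonneg (by linarith) hL0)
      _ = C5 * C7 ^ (k ^ 2 - 1) * C7 ^ (2 * k + 1) * (L * L ^ (k ^ 2 - 1)) * G := by ring
      _ = C5 * C7 ^ (k ^ 2 - 1) * C7 ^ (2 * k + 1) * L ^ (k ^ 2) * G := by rw [h3]
      _ ≤ C5 * C7 ^ (k ^ 2) * C7 ^ (2 * k + 1) * L ^ (k ^ 2) * G := by
          have := pow_nonneg hL0 (k ^ 2)
          have h6 := hC7p (2 * k + 1)
          gcongr
  -- the factors
  have hv : Real.exp ((k : ℝ) / q * s1) ^ 2 = Real.exp (2 * k / q * s1) := by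
    rw [← Real.exp_nat_mul]
    congr 1
    push_cast
    ring
  have hvpos : 0 < Real.exp ((k : ℝ) / q * s1) ^ 2 := by positivity
  have hC7' : C7 ≤ C7 ^ (2 * k + 1) := le_self_pow₀ hC7 (by omega)
  have g0 : Real.exp 0 ≤ C7 ^ (2 * k + 1) * 1 := by
    rw [Real.exp_zero, mul_one]
    exact hC7p _
  have g1 : Real.exp (2 * k / q * s1 + s1 / (q : ℝ) ^ 2) ≤
      C7 ^ (2 * k + 1) * Real.exp ((k : ℝ) / q * s1) ^ 2 := by
    rw [Real.exp_add, hv, mul_comm]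
    exact mul_le_mul_of_nonneg_right (e3.trans hC7') (Real.exp_pos _).le
  have g2 : Real.exp (-(2 * k / q * s1) + s1 / (q : ℝ) ^ 2) ≤
      C7 ^ (2 * k + 1) * (1 / Real.exp ((k : ℝ) / q * s1) ^ 2) := by
    rw [Real.exp_add, hv, Real.exp_neg, mul_comm, ← one_div]
    exact mul_le_mul_of_nonneg_right (e3.trans hC7') (by positivity)
  have g3 : Real.exp (((2 * k + 1 : ℕ) : ℝ) * s2) ≤ C7 ^ (2 * k + 1) * (q : ℝ) ^ (2 * k + 1) := by
    rw [Real.exp_nat_mul, ← mul_pow]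
    exact pow_le_pow_left₀ (Real.exp_pos _).le e2 _
  -- the ratios
  have hqne : (q : ℝ) ≠ 0 := hq0.ne'
  have hkc : ((k - 1 : ℕ) : ℝ) = (k : ℝ) - 1 := by
    rw [Nat.cast_sub (by omega)]
    simp
  have hkc2 : ((k - 2 : ℕ) : ℝ) = (k : ℝ) - 2 := by
    rw [Nat.cast_sub (by omega)]
    simp
  have r1 : ((q * (k - 1) : ℕ) : ℝ) / q = (k : ℝ) - 1 := by
    rw [Nat.cast_mul, hkc]
    field_simp
  have r2 : ((q * k : ℕ) : ℝ) / q = (k : ℝ) := by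
    rw [Nat.cast_mul]
    field_simp
  have r3 : ((q * (k - 1) + 1 : ℕ) : ℝ) / q = (k : ℝ) - 1 + 1 / q := by
    rw [Nat.cast_add, add_div, r1]
    simp
  have r4 : ((q * k + 1 : ℕ) : ℝ) / q = (k : ℝ) + 1 / q := by
    rw [Nat.cast_add, add_div, r2]
    simp
  have hqk1 : 1 ≤ q * (k - 1) := Nat.mul_pos hp.hq (by omega)
  have hqk : 1 ≤ q * k := Nat.mul_pos hp.hq (by omega)
  have r5 : ((q * (k - 1) - 1 : ℕ) : ℝ) / q = (k : ℝ) - 1 - 1 / q := by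
    rw [Nat.cast_sub hqk1, sub_div, r1]
    simp
  have r6 : ((q * k - 1 : ℕ) : ℝ) / q = (k : ℝ) - 1 / q := by
    rw [Nat.cast_sub hqk, sub_div, r2]
    simp
  have m1 : q * (k - 1) ≤ q * k := Nat.mul_le_mul_left _ (by omega)
  have hD0 : (0 : ℝ) ≤ (q : ℝ) ^ (2 * k + 1) := by positivity
  refine ⟨?_, ?_, ?_, ?_, ?_, ?_, ?_, ?_, ?_, ?_⟩
  · have h := P2 (q * (k - 1)) (k - 1) 0 1 (by omega) (by omega) zero_le_one
      (by rw [r1, hkc]; apply le_of_eq; ring) g0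
    rwa [mul_one] at h
  · have h := P0 (q * k) k 0 1 (by omega) (by omega)
      (by rw [r2]; apply le_of_eq; ring) g0
    rwa [mul_one] at h
  · exact P2 (q * (k - 1) + 1) (k - 1) _ _ (by omega) (by omega) hvpos.le
      (by rw [r3, hkc]; apply le_of_eq; field_simp; ring) g1
  · exact P0 (q * k + 1) k _ _ (by omega) (by omega)
      (by rw [r4]; apply le_of_eq; field_simp; ring) g1
  · have h := P2 (q * (k - 1) - 1) (k - 1) _ _ (by omega) (by omega) (by positivity)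
      (by rw [r5, hkc]; apply le_of_eq; field_simp; ring) g2
    rwa [mul_one_div] at h
  · have h := P0 (q * k - 1) k _ _ (by omega) (by omega)
      (by rw [r6]; apply le_of_eq; field_simp; ring) g2
    rwa [mul_one_div] at h
  · exact P2 (q * (k - 1)) k _ _ (by omega) (by omega) hD0
      (by rw [r1]; apply le_of_eq; push_cast; ring) g3
  · exact P0 (q * k) (k + 1) _ _ (by omega) (by omega)
      (by rw [r2]; apply le_of_eq; push_cast; ring) g3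
  · have h := P2 (q * (k - 1)) (k - 2) 0 1 (by omega) (by omega) zero_le_one
      (by
        rw [r1, hkc2]
        have : 0 ≤ (2 * (k : ℝ) - 1) * s2 := mul_nonneg (by linarith) hs2
        nlinarith) g0
    rwa [mul_one] at h
  · have h := P0 (q * k) (k - 1) 0 1 (by omega) (by omega)
      (by
        rw [r2, hkc]
        have : 0 ≤ (2 * (k : ℝ) - 1) * s2 := mul_nonneg (by linarith) hs2
        nlinarith) g0
    rwa [mul_one] at h

end Pool.Agent.Work.MP_56b8f5_nt.WM
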