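import Pool.Agent.Work.MP_56b8f5_nt.WM.StmtsR

/-!
MP_56b8f5_nt, block WR (large values, real exponents), item R3 (TenR): the ten upper bounds.
-/

set_option autoImplicit false

open MeasureTheory Set Filter Topology

noncomputable section

namespace Pool.Agent.Work.MP_56b8f5_nt.WM

open Pool.Agent.Work.MP_56b8f5_nt.EM

namespace I_TenR

/-- Lengths. -/
lemma len {y z a b m j : ℕ} {T : ℝ} (hy : 1 ≤ y) (hz : 1 ≤ z)
    (h : ((y ^ a * z ^ b : ℕ) : ℝ) ^ 3 ≤ T) (hm : m ≤ a) (hj : j ≤ b) :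
    ((y ^ m * z ^ j : ℕ) : ℝ) ^ 3 ≤ T := by
  refine le_trans ?_ h
  have h1 : y ^ m * z ^ j ≤ y ^ a * z ^ b :=
    Nat.mul_le_mul (Nat.pow_le_pow_right hy hm) (Nat.pow_le_pow_right hz hj)
  have h2 : ((y ^ m * z ^ j : ℕ) : ℝ) ≤ ((y ^ a * z ^ b : ℕ) : ℝ) := by exact_mod_cast h1
  exact pow_le_pow_left₀ (Nat.cast_nonneg _) h2 3

/-- `S1 z = S1 y + S2 y z`. -/
lemma S1_split {y z : ℕ} (h : y ≤ z) : S1 z = S1 y + S2 y z := by
  unfold S1 S2
  have h1 := Finset.sum_filter_add_sum_filter_not (pr z) (fun p => p ≤ y) (fun p => 1 / (p : ℝ))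
  simp only [not_le] at h1
  have h2 : (pr z).filter (fun p => p ≤ y) = pr y := by
    ext p
    simp only [pr, Finset.mem_filter, Finset.mem_range]
    constructor
    · rintro ⟨⟨_, h4⟩, h5⟩
      exact ⟨by omega, h4⟩
    · rintro ⟨h3, h4⟩
      exact ⟨⟨by omega, h4⟩, by omega⟩
  rw [h2] at h1
  exact h1.symm

end I_TenR

open I_TenR in
/-- **R3 (TenR).** -/
theorem TenR_pf (h5 : S_Jb) (h6 : S_Mert) (h7 : S_Num) : S_TenR := by
  intro w hw k C hk hC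
  obtain ⟨C5, T5, hC5, H5⟩ := h5 w hw
  obtain ⟨C6, hC6, H6⟩ := h6
  obtain ⟨C7, T7, hC7, hT7, H7⟩ := h7 k C hC
  have hC7p : ∀ n : ℕ, 1 ≤ C7 ^ n := fun n => one_le_pow₀ hC7
  have hCC : 1 ≤ C * C6 := one_le_mul_of_one_le_of_one_le hC hC6
  refine ⟨C5 * (C * C6) * C7 ^ (2 * k + 1), max T5 T7, ?_, fun T hT q y z m₁ hp hm₁ hm₁k => ?_⟩
  · exact one_le_mul_of_one_le_of_one_le
      (one_le_mul_of_one_le_of_one_le hC5 hCC) (hC7p _)
  have hT5 : T5 ≤ T := (le_max_left _ _).trans hT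
  have hT7' : T7 ≤ T := (le_max_right _ _).trans hT
  obtain ⟨hs1, hs2, -, e2, e3, -, -⟩ := H7 T hT7' q y z hp
  have hT3 : 3 ≤ T := hT7.trans hT7'
  have hq0 : (0 : ℝ) < q := by exact_mod_cast hp.hq
  have hk1 : (2 : ℝ) ≤ k := by exact_mod_cast hk
  have hL1 : 1 ≤ Real.log T := by
    rw [Real.le_log_iff_exp_le (by linarith)]
    have := Real.exp_one_lt_d9
    linarith
  have hLe : Real.log T ≤ C * C6 * Real.exp (S1 y + S2 y z) := by
    have h1 := (H6 z (hp.hy.trans hp.hyz)).2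
    rw [S1_split hp.hyz] at h1
    calc Real.log T ≤ C * Real.log z := hp.hz
      _ ≤ C * (C6 * Real.exp (S1 y + S2 y z)) := mul_le_mul_of_nonneg_left h1 (by linarith)
      _ = C * C6 * Real.exp (S1 y + S2 y z) := by ring
  have hXb : Xb k q y z m₁ = Real.exp (be q m₁ ^ 2 * S1 y + (k : ℝ) ^ 2 * S2 y z) := rfl
  have hbe : be q m₁ = ((m₁ + q : ℕ) : ℝ) / q := rfl
  generalize hβ : be q m₁ = β at *
  generalize hX : Xb k q y z m₁ = X at *
  generalize hS1 : S1 y = s1 at *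
  generalize hS2 : S2 y z = s2 at *
  generalize hLL : Real.log T = L at *
  have hL0 : 0 ≤ L := by linarith
  have hX0 : 0 < X := by rw [hXb]; exact Real.exp_pos _
  have hy1 : 1 ≤ y := le_trans (by norm_num) hp.hy
  have hz1 : 1 ≤ z := hy1.trans hp.hyz
  have hC50 : 0 ≤ C5 := by linarith
  have hCC0 : 0 ≤ C * C6 := by linarith
  -- the two families
  have P0 : ∀ (m j : ℕ) (F G : ℝ), m ≤ q * k + 1 → j ≤ k + 1 →
      ((m : ℝ) / q) ^ 2 * s1 + (j : ℝ) ^ 2 * s2 ≤ β ^ 2 * s1 + (k : ℝ) ^ 2 * s2 + F →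
      Real.exp F ≤ C7 ^ (2 * k + 1) * G →
      J0 w q y z T m j ≤ C5 * (C * C6) * C7 ^ (2 * k + 1) * X * G := by
    intro m j F G hm hj hA hG
    have h1 := (H5 T hT5 q y z m j hp.hq hp.hyz (len hy1 hz1 hp.hlen hm hj)).1
    rw [hS1, hS2] at h1
    have h2 : Real.exp (((m : ℝ) / q) ^ 2 * s1 + (j : ℝ) ^ 2 * s2) ≤ X * Real.exp F := by
      rw [hXb, ← Real.exp_add]
      exact Real.exp_le_exp.2 hA
    have h3 : X * Real.exp F ≤ X * (C7 ^ (2 * k + 1) * G) := mul_le_mul_of_nonneg_left hG hX0.le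
    have hG0 : 0 ≤ X * (C7 ^ (2 * k + 1) * G) := le_trans (by positivity) h3
    calc J0 w q y z T m j ≤ C5 * Real.exp (((m : ℝ) / q) ^ 2 * s1 + (j : ℝ) ^ 2 * s2) := h1
      _ ≤ C5 * (X * (C7 ^ (2 * k + 1) * G)) := mul_le_mul_of_nonneg_left (h2.trans h3) hC50
      _ ≤ C5 * (C * C6) * (X * (C7 ^ (2 * k + 1) * G)) :=
          mul_le_mul_of_nonneg_right (le_mul_of_one_le_right hC50 hCC) hG0
      _ = C5 * (C * C6) * C7 ^ (2 * k + 1) * X * G := by ring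
  have P2 : ∀ (m j : ℕ) (F G : ℝ), m ≤ q * k + 1 → j ≤ k + 1 →
      (2 * ((m : ℝ) / q) + ((m : ℝ) / q) ^ 2) * s1 + (2 * (j : ℝ) + (j : ℝ) ^ 2) * s2 ≤
        (β ^ 2 - 1) * s1 + ((k : ℝ) ^ 2 - 1) * s2 + F →
      Real.exp F ≤ C7 ^ (2 * k + 1) * G →
      J2 w q y z T m j ≤ C5 * (C * C6) * C7 ^ (2 * k + 1) * X * G := by
    intro m j F G hm hj hA hG
    have h1 := (H5 T hT5 q y z m j hp.hq hp.hyz (len hy1 hz1 hp.hlen hm hj)).2
    rw [hS1, hS2, hLL] at h1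
    have h2 : Real.exp (s1 + s2) * Real.exp ((2 * ((m : ℝ) / q) + ((m : ℝ) / q) ^ 2) * s1 +
        (2 * (j : ℝ) + (j : ℝ) ^ 2) * s2) ≤ X * Real.exp F := by
      rw [hXb, ← Real.exp_add, ← Real.exp_add]
      refine Real.exp_le_exp.2 ?_
      linarith
    have h3 : X * Real.exp F ≤ X * (C7 ^ (2 * k + 1) * G) := mul_le_mul_of_nonneg_left hG hX0.le
    calc J2 w q y z T m j ≤ C5 * L * Real.exp ((2 * ((m : ℝ) / q) + ((m : ℝ) / q) ^ 2) * s1 +
            (2 * (j : ℝ) + (j : ℝ) ^ 2) * s2) := h1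
      _ ≤ C5 * (C * C6 * Real.exp (s1 + s2)) * Real.exp ((2 * ((m : ℝ) / q) +
            ((m : ℝ) / q) ^ 2) * s1 + (2 * (j : ℝ) + (j : ℝ) ^ 2) * s2) :=
          mul_le_mul_of_nonneg_right (mul_le_mul_of_nonneg_left hLe hC50) (Real.exp_pos _).le
      _ = C5 * (C * C6) * (Real.exp (s1 + s2) * Real.exp ((2 * ((m : ℝ) / q) +
            ((m : ℝ) / q) ^ 2) * s1 + (2 * (j : ℝ) + (j : ℝ) ^ 2) * s2)) := by ring
      _ ≤ C5 * (C * C6) * (X * (C7 ^ (2 * k + 1) * G)) :=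
          mul_le_mul_of_nonneg_left (h2.trans h3) (mul_nonneg hC50 hCC0)
      _ = C5 * (C * C6) * C7 ^ (2 * k + 1) * X * G := by ring
  -- the factors
  have hv : Real.exp (β / q * s1) ^ 2 = Real.exp (2 * β / q * s1) := by
    rw [← Real.exp_nat_mul]
    congr 1
    push_cast
    ring
  have hC7' : C7 ≤ C7 ^ (2 * k + 1) := le_self_pow₀ hC7 (by omega)
  have g0 : Real.exp 0 ≤ C7 ^ (2 * k + 1) * 1 := by
    rw [Real.exp_zero, mul_one]
    exact hC7p _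
  have g1 : Real.exp (2 * β / q * s1 + s1 / (q : ℝ) ^ 2) ≤
      C7 ^ (2 * k + 1) * Real.exp (β / q * s1) ^ 2 := by
    rw [Real.exp_add, hv, mul_comm]
    exact mul_le_mul_of_nonneg_right (e3.trans hC7') (Real.exp_pos _).le
  have g2 : Real.exp (-(2 * β / q * s1) + s1 / (q : ℝ) ^ 2) ≤
      C7 ^ (2 * k + 1) * (1 / Real.exp (β / q * s1) ^ 2) := by
    rw [Real.exp_add, hv, Real.exp_neg, mul_comm, ← one_div]
    exact mul_le_mul_of_nonneg_right (e3.trans hC7') (by positivity)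
  have g3 : Real.exp (((2 * k + 1 : ℕ) : ℝ) * s2) ≤ C7 ^ (2 * k + 1) * (q : ℝ) ^ (2 * k + 1) := by
    rw [Real.exp_nat_mul, ← mul_pow]
    exact pow_le_pow_left₀ (Real.exp_pos _).le e2 _
  -- the ratios
  have hqne : (q : ℝ) ≠ 0 := hq0.ne'
  have hkc : ((k - 1 : ℕ) : ℝ) = (k : ℝ) - 1 := by
    rw [Nat.cast_sub (by omega)]
    simp
  have hkc2 : ((k - 2 : ℕ) : ℝ) = (k : ℝ) - 2 := by
    rw [Nat.cast_sub (by omega)]
    simp
  have r2 : ((m₁ + q : ℕ) : ℝ) / q = β := hbe.symm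
  have r1 : (m₁ : ℝ) / q = β - 1 := by
    rw [← r2, Nat.cast_add, add_div, div_self hqne]
    ring
  have r3 : ((m₁ + 1 : ℕ) : ℝ) / q = β - 1 + 1 / q := by
    rw [Nat.cast_add, add_div, r1]
    simp
  have r4 : ((m₁ + q + 1 : ℕ) : ℝ) / q = β + 1 / q := by
    rw [Nat.cast_add (m₁ + q) 1, add_div, r2]
    simp
  have r5 : ((m₁ - 1 : ℕ) : ℝ) / q = β - 1 - 1 / q := by
    rw [Nat.cast_sub hm₁, sub_div, r1]
    simp
  have r6 : ((m₁ + q - 1 : ℕ) : ℝ) / q = β - 1 / q := by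
    rw [Nat.cast_sub (by omega), sub_div, r2]
    simp
  refine ⟨?_, ?_, ?_, ?_, ?_, ?_, ?_, ?_, ?_, ?_⟩
  · have h := P2 m₁ (k - 1) 0 1 (by omega) (by omega)
      (by rw [r1, hkc]; apply le_of_eq; ring) g0
    rwa [mul_one] at h
  · have h := P0 (m₁ + q) k 0 1 (by omega) (by omega)
      (by rw [r2]; apply le_of_eq; ring) g0
    rwa [mul_one] at h
  · exact P2 (m₁ + 1) (k - 1) _ _ (by omega) (by omega)
      (by rw [r3, hkc]; apply le_of_eq; field_simp; ring) g1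
  · exact P0 (m₁ + q + 1) k _ _ (by omega) (by omega)
      (by rw [r4]; apply le_of_eq; field_simp; ring) g1
  · have h := P2 (m₁ - 1) (k - 1) _ _ (by omega) (by omega)
      (by rw [r5, hkc]; apply le_of_eq; field_simp; ring) g2
    rwa [mul_one_div] at h
  · have h := P0 (m₁ + q - 1) k _ _ (by omega) (by omega)
      (by rw [r6]; apply le_of_eq; field_simp; ring) g2
    rwa [mul_one_div] at h
  · exact P2 m₁ k _ _ (by omega) (by omega)
      (by rw [r1]; apply le_of_eq; push_cast; ring) g3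
  · exact P0 (m₁ + q) (k + 1) _ _ (by omega) (by omega)
      (by rw [r2]; apply le_of_eq; push_cast; ring) g3
  · have h := P2 m₁ (k - 2) 0 1 (by omega) (by omega)
      (by
        rw [r1, hkc2]
        have : 0 ≤ (2 * (k : ℝ) - 1) * s2 := mul_nonneg (by linarith) hs2
        nlinarith) g0
    rwa [mul_one] at h
  · have h := P0 (m₁ + q) (k - 1) 0 1 (by omega) (by omega)
      (by
        rw [r2, hkc]
        have : 0 ≤ (2 * (k : ℝ) - 1) * s2 := mul_nonneg (by linarith) hs2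
        nlinarith) g0
    rwa [mul_one] at h

end Pool.Agent.Work.MP_56b8f5_nt.WM
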