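import Pool.Agent.Work.MP_56b8f5_nt.WM.Stmts

/-!
MP_56b8f5_nt, block WM, item C4 (UpS): the upper bound on the set `az ≤ A aM^q aR` at scale `T`.
-/

set_option autoImplicit false

open MeasureTheory Set Filter Topology

noncomputable section

namespace Pool.Agent.Work.MP_56b8f5_nt.WM

open Pool.Agent.Work.MP_56b8f5_nt.EM

namespace I_UpS

lemma cont_az : Continuous az := by
  unfold az
  refine continuous_iff_continuousAt.2 fun t => ?_
  have h1 : (1 / 2 + (t : ℂ) * Complex.I) ≠ 1 := by
    intro h
    have := congrArg Complex.re h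
    norm_num at this
  have h2 : ContinuousAt riemannZeta (1 / 2 + (t : ℂ) * Complex.I) :=
    (differentiableAt_riemannZeta h1).continuousAt
  have h3 : ContinuousAt (fun t : ℝ => (1 / 2 + (t : ℂ) * Complex.I)) t := by fun_prop
  exact (ContinuousAt.comp (f := fun t : ℝ => (1 / 2 + (t : ℂ) * Complex.I)) h2 h3).norm

lemma cont_DP (b : ℕ → ℝ) (X : ℕ) : Continuous (DP b X) := by
  unfold DP
  refine continuous_finsetSum _ fun n _ => ?_
  refine continuous_const.mul ?_
  rcases Nat.eq_zero_or_pos n with rfl | hn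
  · have : (fun t : ℝ => ((0 : ℕ) : ℂ) ^ (-(1 / 2 + (t : ℂ) * Complex.I))) = fun _ => 0 := by
      funext t
      rw [Nat.cast_zero, Complex.zero_cpow]
      intro h
      have := congrArg Complex.re h
      simp at this
    rw [this]
    exact continuous_const
  · refine Continuous.const_cpow (by fun_prop) (Or.inl ?_)
    exact_mod_cast hn.ne'

lemma cont_aM (q y : ℕ) : Continuous (aM q y) := (cont_DP _ _).norm

lemma cont_aR (y z : ℕ) : Continuous (aR y z) := (cont_DP _ _).norm

lemma az_nonneg (t : ℝ) : 0 ≤ az t := norm_nonneg _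

lemma aM_nonneg (q y : ℕ) (t : ℝ) : 0 ≤ aM q y t := norm_nonneg _

lemma aR_nonneg (y z : ℕ) (t : ℝ) : 0 ≤ aR y z t := norm_nonneg _

/-- `w` times a continuous function is integrable. -/
lemma int_mul {w : ℝ → ℝ} (hw : IsW w) {g : ℝ → ℝ} (hg : Continuous g) :
    Integrable fun u => w u * g u := by
  have hc : Continuous fun u => w u * g u := hw.smooth.continuous.mul hg
  rw [← integrableOn_iff_integrable_of_support_subset (s := Icc (0 : ℝ) 1)]
  · exact hc.integrableOn_Icc
  · obtain ⟨c, hc, h⟩ := hw.supp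
    intro u hu
    have hu' : w u ≠ 0 := fun h0 => hu (by simp [h0])
    exact ⟨hc.le.trans (h u hu').1, (h u hu').2⟩

end I_UpS

open I_UpS in
/-- **C4 (UpS).** -/
theorem UpS_pf (h2 : S_Ten) : S_UpS := by
  intro w hw k C hk hC
  obtain ⟨C₀, T₀, hC₀, hTen⟩ := h2 w hw k C hk hC
  refine ⟨C₀, max T₀ 3, hC₀, ?_⟩
  intro T hT q y z hpar A hA
  have hT1 : T₀ ≤ T := (le_max_left _ _).trans hT
  have hT3 : 3 ≤ T := (le_max_right _ _).trans hT
  have hJ := (hTen T hT1 q y z hpar).a1
  have hA0 : 0 ≤ A := by linarith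
  have cφ : Continuous fun u : ℝ => az (T * u) := cont_az.comp (by fun_prop)
  have cm : Continuous fun u : ℝ => aM q y (T * u) := (cont_aM q y).comp (by fun_prop)
  have cr : Continuous fun u : ℝ => aR y z (T * u) := (cont_aR y z).comp (by fun_prop)
  have cG : Continuous fun u : ℝ => az (T * u) ^ 2 *
      (aM q y (T * u) ^ (2 * (q * (k - 1))) * aR y z (T * u) ^ (2 * (k - 1))) := by fun_prop
  have cF : Continuous fun u : ℝ => az (T * u) ^ (2 * k) := by fun_prop
  have iG := int_mul hw cG
  have iF := int_mul hw cF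
  have hS : MeasurableSet {u | az (T * u) ≤ A * (aM q y (T * u) ^ q * aR y z (T * u))} :=
    measurableSet_le cφ.measurable (by fun_prop : Continuous fun u : ℝ =>
      A * (aM q y (T * u) ^ q * aR y z (T * u))).measurable
  calc ∫ u in {u | az (T * u) ≤ A * (aM q y (T * u) ^ q * aR y z (T * u))},
        w u * az (T * u) ^ (2 * k)
      ≤ ∫ u in {u | az (T * u) ≤ A * (aM q y (T * u) ^ q * aR y z (T * u))},
        A ^ (2 * k - 2) * (w u * (az (T * u) ^ 2 *
          (aM q y (T * u) ^ (2 * (q * (k - 1))) * aR y z (T * u) ^ (2 * (k - 1))))) := by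
        refine setIntegral_mono_on iF.integrableOn (iG.const_mul _).integrableOn hS ?_
        intro u hu
        simp only [mem_setOf_eq] at hu
        have e1 : 2 * k = 2 + 2 * (k - 1) := by omega
        have e2 : 2 * k - 2 = 2 * (k - 1) := by omega
        have h3 : az (T * u) ^ (2 * (k - 1)) ≤
            (A * (aM q y (T * u) ^ q * aR y z (T * u))) ^ (2 * (k - 1)) :=
          pow_le_pow_left₀ (az_nonneg _) hu _
        have h4 : (A * (aM q y (T * u) ^ q * aR y z (T * u))) ^ (2 * (k - 1)) =
            A ^ (2 * (k - 1)) * (aM q y (T * u) ^ (2 * (q * (k - 1))) *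
              aR y z (T * u) ^ (2 * (k - 1))) := by
          rw [mul_pow, mul_pow, ← pow_mul]
          congr 3
          ring
        rw [e2]
        calc w u * az (T * u) ^ (2 * k)
            = w u * (az (T * u) ^ 2 * az (T * u) ^ (2 * (k - 1))) := by
              rw [← pow_add, ← e1]
          _ ≤ w u * (az (T * u) ^ 2 * (A ^ (2 * (k - 1)) * (aM q y (T * u) ^ (2 * (q * (k - 1))) *
              aR y z (T * u) ^ (2 * (k - 1))))) := by
              refine mul_le_mul_of_nonneg_left ?_ (hw.nonneg u)
              refine mul_le_mul_of_nonneg_left ?_ (by positivity)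
              exact h3.trans h4.le
          _ = _ := by ring
    _ ≤ ∫ u : ℝ, A ^ (2 * k - 2) * (w u * (az (T * u) ^ 2 *
          (aM q y (T * u) ^ (2 * (q * (k - 1))) * aR y z (T * u) ^ (2 * (k - 1))))) := by
        refine setIntegral_le_integral (iG.const_mul _) (ae_of_all _ fun u => ?_)
        have a1 := hw.nonneg u
        have a2 := aM_nonneg q y (T * u)
        have a3 := aR_nonneg y z (T * u)
        simp only [Pi.zero_apply]
        positivity
    _ = A ^ (2 * k - 2) * J2 w q y z T (q * (k - 1)) (k - 1) := by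
        rw [integral_const_mul]
        rfl
    _ ≤ A ^ (2 * k - 2) * (C₀ * Real.log T ^ (k ^ 2)) :=
        mul_le_mul_of_nonneg_left hJ (by positivity)
    _ = C₀ * A ^ (2 * k - 2) * Real.log T ^ (k ^ 2) := by ring

end Pool.Agent.Work.MP_56b8f5_nt.WM
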