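import Pool.Agent.Work.MP_56b8f5_nt.WM.Stmts

/-!
MP_56b8f5_nt, block WM, item C3 (WinS): the window theorem at scale `T`.
-/

set_option autoImplicit false

open MeasureTheory Set Filter Topology

noncomputable section

namespace Pool.Agent.Work.MP_56b8f5_nt.WM

open Pool.Agent.Work.MP_56b8f5_nt.EM

namespace I_WinS

lemma cont_az : Continuous az := by
  unfold az
  refine continuous_iff_continuousAt.2 fun t => ?_
  have h1 : (1 / 2 + (t : ℂ) * Complex.I) ≠ 1 := by
    intro h
    have := congrArg Complex.re h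
    norm_num at this
  have h2 : ContinuousAt riemannZeta (1 / 2 + (t : ℂ) * Complex.I) :=
    (differentiableAt_riemannZeta h1).continuousAt
  have h3 : ContinuousAt (fun t : ℝ => (1 / 2 + (t : ℂ) * Complex.I)) t := by fun_prop
  exact (ContinuousAt.comp (f := fun t : ℝ => (1 / 2 + (t : ℂ) * Complex.I)) h2 h3).norm

lemma cont_DP (b : ℕ → ℝ) (X : ℕ) : Continuous (DP b X) := by
  unfold DP
  refine continuous_finsetSum _ fun n _ => ?_
  refine continuous_const.mul ?_
  rcases Nat.eq_zero_or_pos n with rfl | hn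
  · have : (fun t : ℝ => ((0 : ℕ) : ℂ) ^ (-(1 / 2 + (t : ℂ) * Complex.I))) = fun _ => 0 := by
      funext t
      rw [Nat.cast_zero, Complex.zero_cpow]
      intro h
      have := congrArg Complex.re h
      simp at this
    rw [this]
    exact continuous_const
  · refine Continuous.const_cpow (by fun_prop) (Or.inl ?_)
    exact_mod_cast hn.ne'

lemma cont_aM (q y : ℕ) : Continuous (aM q y) := (cont_DP _ _).norm

lemma cont_aR (y z : ℕ) : Continuous (aR y z) := (cont_DP _ _).norm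

/-- integral with respect to the measure `w du` -/
lemma int_nu {w : ℝ → ℝ} (hw : IsW w) (g : ℝ → ℝ) :
    ∫ x, g x ∂(volume.withDensity fun u => ENNReal.ofReal (w u)) = ∫ x, w x * g x := by
  rw [integral_withDensity_eq_integral_toReal_smul]
  · refine integral_congr_ae (ae_of_all _ fun x => ?_)
    simp only [smul_eq_mul]
    rw [ENNReal.toReal_ofReal (hw.nonneg x)]
  · exact hw.smooth.continuous.measurable.ennreal_ofReal
  · exact ae_of_all _ fun x => ENNReal.ofReal_lt_top

lemma intS_nu {w : ℝ → ℝ} (hw : IsW w) (g : ℝ → ℝ) {S : Set ℝ} (hS : MeasurableSet S) :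
    ∫ x in S, g x ∂(volume.withDensity fun u => ENNReal.ofReal (w u)) = ∫ x in S, w x * g x := by
  rw [setIntegral_withDensity_eq_setIntegral_toReal_smul]
  · refine integral_congr_ae (ae_of_all _ fun x => ?_)
    simp only [smul_eq_mul]
    rw [ENNReal.toReal_ofReal (hw.nonneg x)]
  · exact hw.smooth.continuous.measurable.ennreal_ofReal
  · exact ae_of_all _ fun x => ENNReal.ofReal_lt_top
  · exact hS

lemma supp_Icc {w : ℝ → ℝ} (hw : IsW w) : {u | w u ≠ 0} ⊆ Icc (0 : ℝ) 1 := by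
  obtain ⟨c, hc, h⟩ := hw.supp
  intro u hu
  exact ⟨hc.le.trans (h u hu).1, (h u hu).2⟩

lemma fin_nu {w : ℝ → ℝ} (hw : IsW w) :
    IsFiniteMeasure (volume.withDensity fun u => ENNReal.ofReal (w u)) := by
  refine isFiniteMeasure_withDensity_ofReal (f := w) ?_
  have h1 : IntegrableOn w (Icc (0 : ℝ) 1) := hw.smooth.continuous.integrableOn_Icc
  have h2 : Integrable w := by
    rw [← integrableOn_iff_integrable_of_support_subset (s := Icc (0 : ℝ) 1)]
    · exact h1
    · exact supp_Icc hw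
  exact h2.2

end I_WinS

open I_WinS in
/-- **C3 (WinS).** -/
theorem WinS_pf (h1 : S_FinR) (h2 : S_Ten) (h3 : S_Low) (h4 : S_GW) : S_WinS := by
  intro w hw hW0 k C hk hC
  obtain ⟨c₀, T₁, hc₀, hLow⟩ := h3 w hw hW0 k C hk hC
  obtain ⟨C₀, T₂, hC₀, hTen⟩ := h2 w hw k C hk hC
  obtain ⟨A, η, κ, c₁, hA, hη, hη1, hκ, hc₁, hFin⟩ := h1 k c₀ C₀ hk hc₀ (by linarith)
  obtain ⟨C', T₃, hC', hGW⟩ := h4 k C A η κ hC hA hη hη1 hκ
  refine ⟨c₁, C', max (max T₁ T₂) (max T₃ 3), hc₁, hC', ?_⟩
  intro T hT q y z hpar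
  have hT1 : T₁ ≤ T := le_trans (le_trans (le_max_left _ _) (le_max_left _ _)) hT
  have hT2 : T₂ ≤ T := le_trans (le_trans (le_max_right _ _) (le_max_left _ _)) hT
  have hT3 : T₃ ≤ T := le_trans (le_trans (le_max_left _ _) (le_max_right _ _)) hT
  have hT4 : 3 ≤ T := le_trans (le_trans (le_max_right _ _) (le_max_right _ _)) hT
  have hLow' := hLow T hT1 q y z hpar
  have hTen' := hTen T hT2 q y z hpar
  have hGW' := hGW T hT3 q y z hpar
  set ν : Measure ℝ := volume.withDensity fun u => ENNReal.ofReal (w u) with hν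
  have : IsFiniteMeasure ν := fin_nu hw
  have cφ : Continuous fun u : ℝ => az (T * u) := cont_az.comp (by fun_prop)
  have cm : Continuous fun u : ℝ => aM q y (T * u) := (cont_aM q y).comp (by fun_prop)
  have cr : Continuous fun u : ℝ => aR y z (T * u) := (cont_aR y z).comp (by fun_prop)
  -- bound
  obtain ⟨B₁, hB₁⟩ := (isCompact_Icc (a := (0 : ℝ)) (b := 1)).bddAbove_image cφ.continuousOn
  obtain ⟨B₂, hB₂⟩ := (isCompact_Icc (a := (0 : ℝ)) (b := 1)).bddAbove_image cm.continuousOn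
  obtain ⟨B₃, hB₃⟩ := (isCompact_Icc (a := (0 : ℝ)) (b := 1)).bddAbove_image cr.continuousOn
  have hbd : ∀ᵐ x ∂ν, az (T * x) ≤ max B₁ (max B₂ B₃) ∧ aM q y (T * x) ≤ max B₁ (max B₂ B₃) ∧
      aR y z (T * x) ≤ max B₁ (max B₂ B₃) := by
    rw [hν, ae_withDensity_iff hw.smooth.continuous.measurable.ennreal_ofReal]
    refine ae_of_all _ fun x hx => ?_
    have hx' : x ∈ Icc (0 : ℝ) 1 := by
      refine supp_Icc hw ?_
      intro h0
      apply hx
      rw [h0, ENNReal.ofReal_zero]
    refine ⟨(hB₁ (mem_image_of_mem _ hx')).trans (le_max_left _ _),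
      (hB₂ (mem_image_of_mem _ hx')).trans ((le_max_left _ _).trans (le_max_right _ _)),
      (hB₃ (mem_image_of_mem _ hx')).trans ((le_max_right _ _).trans (le_max_right _ _))⟩
  have hX : 0 < Real.log T ^ (k ^ 2) := pow_pos (Real.log_pos (by linarith)) _
  have hq1 : (1 : ℝ) ≤ q := by exact_mod_cast hpar.hq
  have hD : 1 ≤ (q : ℝ) ^ (2 * k + 1) := one_le_pow₀ hq1
  have e0 : (fun a b : ℕ => ∫ x, aM q y (T * x) ^ (2 * a) * aR y z (T * x) ^ (2 * b) ∂ν) =
      J0 w q y z T := by
    funext a b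
    rw [hν, int_nu hw]
    rfl
  have e2 : (fun a b : ℕ => ∫ x, az (T * x) ^ 2 *
      (aM q y (T * x) ^ (2 * a) * aR y z (T * x) ^ (2 * b)) ∂ν) = J2 w q y z T := by
    funext a b
    rw [hν, int_nu hw]
    rfl
  have key := hFin ν (fun u => az (T * u)) (fun u => aM q y (T * u)) (fun u => aR y z (T * u))
    (max B₁ (max B₂ B₃)) cφ.measurable cm.measurable cr.measurable
    (fun x => norm_nonneg _) (fun x => norm_nonneg _) (fun x => norm_nonneg _) hbd q
    (Real.log T ^ (k ^ 2)) (Real.exp ((k : ℝ) / q * S1 y)) ((q : ℝ) ^ (2 * k + 1)) hpar.hq hX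
    (Real.exp_pos _) hD (by rw [e0, e2]; exact hTen') (by rw [hν, int_nu hw]; exact hLow')
  refine key.trans ?_
  set v : ℝ := Real.exp ((k : ℝ) / q * S1 y) with hv
  set D : ℝ := (q : ℝ) ^ (2 * k + 1) with hDd
  set S : Set ℝ := {x | az (T * x) ≤ A * (aM q y (T * x) ^ q * aR y z (T * x)) ∧
    η * (aM q y (T * x) ^ q * aR y z (T * x)) ≤ az (T * x) ∧
      v / κ ≤ aM q y (T * x) ∧ aM q y (T * x) ≤ κ * v ∧
      1 / (κ * Real.sqrt D) ≤ aR y z (T * x) ∧ aR y z (T * x) ≤ κ * Real.sqrt D} with hSd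
  have hSm : MeasurableSet S := by
    have m1 : MeasurableSet {x | az (T * x) ≤ A * (aM q y (T * x) ^ q * aR y z (T * x))} :=
      measurableSet_le cφ.measurable (by fun_prop)
    have m2 : MeasurableSet {x | η * (aM q y (T * x) ^ q * aR y z (T * x)) ≤ az (T * x)} :=
      measurableSet_le (by fun_prop) cφ.measurable
    have m3 : MeasurableSet {x | v / κ ≤ aM q y (T * x)} :=
      measurableSet_le measurable_const cm.measurable
    have m4 : MeasurableSet {x | aM q y (T * x) ≤ κ * v} :=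
      measurableSet_le cm.measurable measurable_const
    have m5 : MeasurableSet {x | 1 / (κ * Real.sqrt D) ≤ aR y z (T * x)} :=
      measurableSet_le measurable_const cr.measurable
    have m6 : MeasurableSet {x | aR y z (T * x) ≤ κ * Real.sqrt D} :=
      measurableSet_le cr.measurable measurable_const
    exact m1.inter (m2.inter (m3.inter (m4.inter (m5.inter m6))))
  have hwm : MeasurableSet {u | w u ≠ 0} :=
    (measurableSet_eq_fun hw.smooth.continuous.measurable measurable_const).compl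
  have hint : IntegrableOn (fun u => az (T * u) ^ (2 * k)) {u | w u ≠ 0} :=
    ((cφ.pow (2 * k)).integrableOn_Icc (a := 0) (b := 1)).mono_set (supp_Icc hw)
  have hst : (∫ x in S, az (T * x) ^ (2 * k) ∂ν) = ∫ x in S, w x * az (T * x) ^ (2 * k) := by
    rw [hν, intS_nu hw _ hSm]
  rw [hst]
  have h5 : ∫ x in S, w x * az (T * x) ^ (2 * k) =
      ∫ x in S ∩ {u | w u ≠ 0}, w x * az (T * x) ^ (2 * k) := by
    refine setIntegral_eq_of_subset_of_forall_sdiff_eq_zero hSm inter_subset_left ?_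
    intro x hx
    have : w x = 0 := by
      by_contra h
      exact hx.2 ⟨hx.1, h⟩
    rw [this, zero_mul]
  rw [h5]
  have h6 : ∫ x in S ∩ {u | w u ≠ 0}, w x * az (T * x) ^ (2 * k) ≤
      ∫ x in S ∩ {u | w u ≠ 0}, az (T * x) ^ (2 * k) := by
    have hi : IntegrableOn (fun u => az (T * u) ^ (2 * k)) (S ∩ {u | w u ≠ 0}) :=
      hint.mono_set inter_subset_right
    refine integral_mono_of_nonneg (ae_of_all _ fun x => ?_) hi (ae_of_all _ fun x => ?_)
    · exact mul_nonneg (hw.nonneg x) (pow_nonneg (norm_nonneg _) _)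
    · exact mul_le_of_le_one_left (pow_nonneg (norm_nonneg _) _) (hw.le_one x)
  refine h6.trans ?_
  refine setIntegral_mono_set (hint.mono_set inter_subset_left)
    (ae_of_all _ fun x => pow_nonneg (norm_nonneg _) _) (LE.le.eventuallyLE ?_)
  rintro x ⟨⟨a1, a2, a3, a4, a5, a6⟩, hx⟩
  exact ⟨hx, hGW' _ _ _ v D hv hDd a1 a2 a3 a4 a5 a6⟩

end Pool.Agent.Work.MP_56b8f5_nt.WM
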