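import Pool.Agent.Work.MP_56b8f5_nt.EM.All
import Pool.Agent.Work.MP_56b8f5_nt.WM.I_PeMul
import Pool.Agent.Work.MP_56b8f5_nt.WM.I_PeBas
import Pool.Agent.Work.MP_56b8f5_nt.WM.I_PeSum
import Pool.Agent.Work.MP_56b8f5_nt.WM.I_Gcd
import Pool.Agent.Work.MP_56b8f5_nt.WM.I_Sq
import Pool.Agent.Work.MP_56b8f5_nt.WM.I_Mert
import Pool.Agent.Work.MP_56b8f5_nt.WM.I_LowS
import Pool.Agent.Work.MP_56b8f5_nt.WM.I_BBp
import Pool.Agent.Work.MP_56b8f5_nt.WM.I_LowR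
import Pool.Agent.Work.MP_56b8f5_nt.WM.I_LowM
import Pool.Agent.Work.MP_56b8f5_nt.WM.I_ZP
import Pool.Agent.Work.MP_56b8f5_nt.WM.I_MVb
import Pool.Agent.Work.MP_56b8f5_nt.WM.I_TSb
import Pool.Agent.Work.MP_56b8f5_nt.WM.I_FMx
import Pool.Agent.Work.MP_56b8f5_nt.WM.I_FMb
import Pool.Agent.Work.MP_56b8f5_nt.WM.I_Wts
import Pool.Agent.Work.MP_56b8f5_nt.WM.I_Jb
import Pool.Agent.Work.MP_56b8f5_nt.WM.I_Par
import Pool.Agent.Work.MP_56b8f5_nt.WM.I_Num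
import Pool.Agent.Work.MP_56b8f5_nt.WM.I_Ten
import Pool.Agent.Work.MP_56b8f5_nt.WM.I_Low
import Pool.Agent.Work.MP_56b8f5_nt.WM.I_FinR
import Pool.Agent.Work.MP_56b8f5_nt.WM.I_GW
import Pool.Agent.Work.MP_56b8f5_nt.WM.I_WinS
import Pool.Agent.Work.MP_56b8f5_nt.WM.I_UpS
import Pool.Agent.Work.MP_56b8f5_nt.WM.I_Sca
import Pool.Agent.Work.MP_56b8f5_nt.WM.I_Main
import Pool.Agent.Work.MP_56b8f5_nt.WM.I_LowSr
import Pool.Agent.Work.MP_56b8f5_nt.WM.I_LowMr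
import Pool.Agent.Work.MP_56b8f5_nt.WM.I_TenR
import Pool.Agent.Work.MP_56b8f5_nt.WM.I_LowF
import Pool.Agent.Work.MP_56b8f5_nt.WM.I_FinG
import Pool.Agent.Work.MP_56b8f5_nt.WM.I_GWr
import Pool.Agent.Work.MP_56b8f5_nt.WM.I_WinV
import Pool.Agent.Work.MP_56b8f5_nt.WM.I_MainV

/-!
MP_56b8f5_nt, blocks WM and WR: assembly.
-/

set_option autoImplicit false

noncomputable section

namespace Pool.Agent.Work.MP_56b8f5_nt.WM

open Pool.Agent.Work.MP_56b8f5_nt.EM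

/-! ### Arithmetic -/

theorem wm_PeMul : S_PeMul := PeMul_pf
theorem wm_PeBas : S_PeBas := PeBas_pf
theorem wm_PeSum : S_PeSum := PeSum_pf
theorem wm_Gcd : S_Gcd := Gcd_pf wm_PeBas wm_PeSum
theorem wm_Sq : S_Sq := Sq_pf wm_PeBas wm_PeSum
theorem wm_Mert : S_Mert := Mert_pf
theorem wm_LowS : S_LowS := LowS_pf wm_PeBas wm_PeSum
theorem wm_BBp : S_BBp := BBp_pf wm_PeMul wm_PeBas
theorem wm_LowR : S_LowR := LowR_pf wm_PeBas wm_PeSum wm_Mert wm_LowS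
theorem wm_LowM : S_LowM := LowM_pf wm_PeBas wm_LowS wm_BBp wm_LowR

/-! ### Analysis -/

theorem wm_ZP : S_ZP := ZP_pf all_Z
theorem wm_MVb : S_MVb := MVb_pf all_W
theorem wm_TSb : S_TSb := TSb_pf all_W all_Pc all_Sec wm_ZP wm_MVb
theorem wm_FMx : S_FMx := FMx_pf all_Pc
theorem wm_FMb : S_FMb := FMb_pf all_W all_Pc wm_ZP wm_MVb wm_FMx
theorem wm_Wts : S_Wts := Wts_pf
theorem wm_Jb : S_Jb := Jb_pf wm_MVb wm_TSb wm_Gcd wm_Sq wm_BBp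
theorem wm_Par : S_Par := Par_pf
theorem wm_Num : S_Num := Num_pf wm_Mert
theorem wm_Ten : S_Ten := Ten_pf wm_Jb wm_Num
theorem wm_Low : S_Low := Low_pf wm_FMb wm_BBp wm_LowM wm_Sq wm_Num

/-! ### The window theorem -/

theorem wm_FinR : S_FinR := FinR_pf
theorem wm_GW : S_GW := GW_pf wm_Num
theorem wm_WinS : S_WinS := WinS_pf wm_FinR wm_Ten wm_Low wm_GW
theorem wm_UpS : S_UpS := UpS_pf wm_Ten
theorem wm_Sca : S_Sca := Sca_pf wm_Par wm_WinS wm_UpS wm_Wts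

/-- The window theorem. -/
theorem wm_Main : S_Main := Main_pf wm_PeBas wm_BBp wm_Sca

/-! ### Real exponents -/

theorem wm_LowSr : S_LowSr := LowSr_pf wm_Mert
theorem wm_LowMr : S_LowMr := LowMr_pf wm_PeBas wm_Mert wm_BBp wm_LowR wm_LowSr
theorem wm_TenR : S_TenR := TenR_pf wm_Jb wm_Mert wm_Num
theorem wm_LowF : S_LowF := LowF_pf wm_FMb wm_BBp wm_LowMr wm_Sq
theorem wm_FinG : S_FinG := FinG_pf
theorem wm_GWr : S_GWr := GWr_pf wm_Num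
theorem wm_WinV : S_WinV := WinV_pf wm_FinG wm_TenR wm_LowF wm_GWr wm_Num

/-- Large values on the critical line. -/
theorem wm_MainV : S_MainV := MainV_pf wm_Par wm_WinV wm_Wts

end Pool.Agent.Work.MP_56b8f5_nt.WM
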