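import Pool.Agent.Work.MP_56b8f5_nt.WM.StmtsG

/-!
MP_56b8f5_nt, block WM, item G8: Markov's inequality for `|zeta|` on `[T, 2T]`.
-/

set_option autoImplicit false

open MeasureTheory Set Filter Topology

noncomputable section

namespace Pool.Agent.Work.MP_56b8f5_nt.WM

open Pool.Agent.Work.MP_56b8f5_nt.EM

namespace I_Cheb

lemma cont_az : Continuous az := by
  unfold az
  refine Continuous.norm ?_
  rw [continuous_iff_continuousAt]
  intro t
  have hne : (1 / 2 + t * Complex.I : ℂ) ≠ 1 := by
    intro h
    have h1 := congrArg Complex.re h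
    simp at h1
  have h1 : ContinuousAt riemannZeta (1 / 2 + t * Complex.I : ℂ) :=
    (differentiableAt_riemannZeta hne).continuousAt
  have h2 : ContinuousAt (fun t : ℝ => (1 / 2 + t * Complex.I : ℂ)) t := by
    have : Continuous (fun t : ℝ => (1 / 2 + t * Complex.I : ℂ)) := by fun_prop
    exact this.continuousAt
  exact ContinuousAt.comp (f := fun t : ℝ => (1 / 2 + t * Complex.I : ℂ)) h1 h2

end I_Cheb

open I_Cheb in
theorem Cheb_pf : S_Cheb := by
  intro f hf k T m _ hm
  have hcz : Continuous az := cont_az
  set S : Set ℝ := {t | t ∈ Icc T (2 * T) ∧ az t ≤ f t ∧ m ≤ az t} with hS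
  set U : Set ℝ := {t | t ∈ Icc T (2 * T) ∧ az t ≤ f t} with hU
  have hUm : MeasurableSet U := by
    have h1 : MeasurableSet {t | az t ≤ f t} := measurableSet_le hcz.measurable hf.measurable
    exact measurableSet_Icc.inter h1
  have hSm : MeasurableSet S := by
    have h1 : MeasurableSet {t | az t ≤ f t} := measurableSet_le hcz.measurable hf.measurable
    have h2 : MeasurableSet {t | m ≤ az t} := measurableSet_le measurable_const hcz.measurable
    exact measurableSet_Icc.inter (h1.inter h2)
  have hSU : S ⊆ U := fun t ht => ⟨ht.1, ht.2.1⟩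
  have hUI : U ⊆ Icc T (2 * T) := fun t ht => ht.1
  have hint : IntegrableOn (fun t => az t ^ (2 * k)) U :=
    ((hcz.pow (2 * k)).continuousOn.integrableOn_Icc).mono_set hUI
  have hintS : IntegrableOn (fun t => az t ^ (2 * k)) S := hint.mono_set hSU
  have hfin : volume S ≠ ⊤ := by
    refine ne_top_of_le_ne_top ?_ (measure_mono (hSU.trans hUI))
    rw [Real.volume_Icc]
    exact ENNReal.ofReal_ne_top
  rw [le_div_iff₀ (pow_pos hm _)]
  calc volume.real S * m ^ (2 * k) = ∫ _ in S, m ^ (2 * k) := by
        rw [setIntegral_const, smul_eq_mul]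
    _ ≤ ∫ t in S, az t ^ (2 * k) := by
        refine setIntegral_mono_on (integrableOn_const hfin) hintS hSm ?_
        intro t ht
        exact pow_le_pow_left₀ hm.le ht.2.2 _
    _ ≤ ∫ t in U, az t ^ (2 * k) := by
        refine setIntegral_mono_set hint ?_ (Eventually.of_forall hSU)
        exact Eventually.of_forall fun t => pow_nonneg (norm_nonneg _) _

end Pool.Agent.Work.MP_56b8f5_nt.WM
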