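import Pool.Agent.Work.MP_56b8f5_nt.WM.StmtsG

/-!
MP_56b8f5_nt, block WM (window theorem), extension G, item G2 (J2G): tilted twisted second moments.
-/

set_option autoImplicit false

open MeasureTheory Set Filter Topology

noncomputable section

namespace Pool.Agent.Work.MP_56b8f5_nt.WM

open Pool.Agent.Work.MP_56b8f5_nt.EM

namespace I_J2G

/-- Lengths. -/
lemma len {y z a b m j : ℕ} {T : ℝ} (hy : 1 ≤ y) (hz : 1 ≤ z)
    (h : ((y ^ a * z ^ b : ℕ) : ℝ) ^ 3 ≤ T) (hm : m ≤ a) (hj : j ≤ b) :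
    ((y ^ m * z ^ j : ℕ) : ℝ) ^ 3 ≤ T := by
  refine le_trans ?_ h
  have h1 : y ^ m * z ^ j ≤ y ^ a * z ^ b :=
    Nat.mul_le_mul (Nat.pow_le_pow_right hy hm) (Nat.pow_le_pow_right hz hj)
  have h2 : ((y ^ m * z ^ j : ℕ) : ℝ) ≤ ((y ^ a * z ^ b : ℕ) : ℝ) := by exact_mod_cast h1
  exact pow_le_pow_left₀ (Nat.cast_nonneg _) h2 3

/-- The common estimate. -/
lemma est {A L s C7 F : ℝ} {N : ℕ} (h1 : Real.exp s ≤ C7 * L) (hA : A ≤ (N : ℝ) * s + F) :
    Real.exp A ≤ C7 ^ N * L ^ N * Real.exp F := by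
  have h2 : Real.exp A ≤ Real.exp ((N : ℝ) * s + F) := Real.exp_le_exp.2 hA
  refine h2.trans ?_
  rw [Real.exp_add, Real.exp_nat_mul, ← mul_pow]
  have h3 : Real.exp s ^ N ≤ (C7 * L) ^ N := pow_le_pow_left₀ (Real.exp_pos _).le h1 N
  exact mul_le_mul_of_nonneg_right h3 (Real.exp_pos _).le

/-- exponentials of multiples -/
lemma expN {a b C : ℝ} {N : ℕ} (hC : 1 ≤ C) (h : a ≤ b + (N : ℝ) * Real.log C) :
    Real.exp a ≤ C ^ N * Real.exp b := by
  have h2 : Real.exp a ≤ Real.exp (b + (N : ℝ) * Real.log C) := Real.exp_le_exp.2 h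
  refine h2.trans (le_of_eq ?_)
  rw [Real.exp_add, Real.exp_nat_mul, Real.exp_log (by linarith)]
  ring

end I_J2G

open I_J2G in
/-- **G2 (J2G).** -/
theorem J2G_pf (h1 : S_Jb) (h2 : S_Num) : S_J2G := by
  intro w hw k C hk hC
  obtain ⟨C5, T5, hC5, H5⟩ := h1 w hw
  obtain ⟨C7, T7, hC7, hT7, H7⟩ := h2 k C hC
  have hC7p : ∀ n : ℕ, 1 ≤ C7 ^ n := fun n => one_le_pow₀ hC7
  refine ⟨C5 * C7 ^ (k ^ 2) * C7 ^ (2 * k + 1) * C7 ^ (2 * k + 1), max T5 T7, ?_,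
    fun T hT q y z hp i hi => ?_⟩
  · exact one_le_mul_of_one_le_of_one_le (one_le_mul_of_one_le_of_one_le
      (one_le_mul_of_one_le_of_one_le hC5 (hC7p _)) (hC7p _)) (hC7p _)
  have hT5 : T5 ≤ T := (le_max_left _ _).trans hT
  have hT7' : T7 ≤ T := (le_max_right _ _).trans hT
  obtain ⟨hs1, hs2, e1, e2, -, e4, e5⟩ := H7 T hT7' q y z hp
  have hT3 : 3 ≤ T := hT7.trans hT7'
  have hq0 : (0 : ℝ) < q := by exact_mod_cast hp.hq
  have hk1 : (2 : ℝ) ≤ k := by exact_mod_cast hk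
  have hL1 : 1 ≤ Real.log T := by
    rw [Real.le_log_iff_exp_le (by linarith)]
    have := Real.exp_one_lt_d9
    linarith
  generalize hS1 : S1 y = s1 at *
  generalize hS2 : S2 y z = s2 at *
  generalize hLL : Real.log T = L at *
  have hL0 : 0 < L := by linarith
  have hy1 : 1 ≤ y := le_trans (by norm_num) hp.hy
  have hz1 : 1 ≤ z := hy1.trans hp.hyz
  have hC70 : 0 < C7 := by linarith
  have hlC7 : 0 ≤ Real.log C7 := Real.log_nonneg hC7
  have hlq : 0 ≤ Real.log q := Real.log_nonneg (by exact_mod_cast hp.hq)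
  -- the sizes of `s1`
  have u1 : s1 ≤ Real.log L + Real.log C7 := by
    have h := Real.log_le_log (Real.exp_pos _) e4
    rw [Real.log_exp, Real.log_mul hC70.ne' hL0.ne'] at h
    linarith
  have u2 : Real.log L - (Real.log C7 + Real.log q) ≤ s1 := by
    have h := Real.log_le_log hL0 e5
    rw [Real.log_mul (mul_pos hC70 hq0).ne' (Real.exp_pos _).ne', Real.log_exp,
      Real.log_mul hC70.ne' hq0.ne'] at h
    linarith
  -- the family
  have P2 : ∀ (m j : ℕ) (F : ℝ), m ≤ q * k + 1 → j ≤ k + 1 →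
      (2 * ((m : ℝ) / q) + ((m : ℝ) / q) ^ 2) * s1 + (2 * (j : ℝ) + (j : ℝ) ^ 2) * s2 ≤
        ((k : ℝ) ^ 2 - 1) * (s1 + s2) + F →
      J2 w q y z T m j ≤ C5 * C7 ^ (k ^ 2) * L ^ (k ^ 2) * Real.exp F := by
    intro m j F hm hj hA
    have h1 := (H5 T hT5 q y z m j hp.hq hp.hyz (len hy1 hz1 hp.hlen hm hj)).2
    rw [hS1, hS2, hLL] at h1
    have hk2 : 1 ≤ k ^ 2 := Nat.one_le_pow _ _ (by omega)
    have hA' : (2 * ((m : ℝ) / q) + ((m : ℝ) / q) ^ 2) * s1 + (2 * (j : ℝ) + (j : ℝ) ^ 2) * s2 ≤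
        ((k ^ 2 - 1 : ℕ) : ℝ) * (s1 + s2) + F := by
      rw [Nat.cast_sub hk2]
      push_cast
      exact hA
    have h2 := est (N := k ^ 2 - 1) e1 hA'
    have h3 : L * L ^ (k ^ 2 - 1) = L ^ (k ^ 2) := by
      rw [← pow_succ', Nat.sub_add_cancel hk2]
    have h4 : C7 ^ (k ^ 2 - 1) ≤ C7 ^ (k ^ 2) := pow_le_pow_right₀ hC7 (Nat.sub_le _ _)
    calc J2 w q y z T m j ≤ C5 * L * Real.exp ((2 * ((m : ℝ) / q) + ((m : ℝ) / q) ^ 2) * s1 +
            (2 * (j : ℝ) + (j : ℝ) ^ 2) * s2) := h1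
      _ ≤ C5 * L * (C7 ^ (k ^ 2 - 1) * L ^ (k ^ 2 - 1) * Real.exp F) :=
          mul_le_mul_of_nonneg_left h2 (mul_nonneg (by linarith) hL0.le)
      _ = C5 * C7 ^ (k ^ 2 - 1) * (L * L ^ (k ^ 2 - 1)) * Real.exp F := by ring
      _ = C5 * C7 ^ (k ^ 2 - 1) * L ^ (k ^ 2) * Real.exp F := by rw [h3]
      _ ≤ C5 * C7 ^ (k ^ 2) * L ^ (k ^ 2) * Real.exp F := by
          have := pow_nonneg hL0.le (k ^ 2)
          have := (Real.exp_pos F).le
          gcongr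
  -- the ratios
  have hqne : (q : ℝ) ≠ 0 := hq0.ne'
  have hkc : ((k - 1 : ℕ) : ℝ) = (k : ℝ) - 1 := by
    rw [Nat.cast_sub (by omega)]
    simp
  have hkc2 : ((k - 2 : ℕ) : ℝ) = (k : ℝ) - 2 := by
    rw [Nat.cast_sub (by omega)]
    simp
  have hqk1 : q ≤ q * (k - 1) := Nat.le_mul_of_pos_right q (by omega)
  have hqk2 : q * (k - 1) + q = q * k := by
    rw [← Nat.mul_succ]
    congr 1
    omega
  have hx0 : 0 ≤ (i : ℝ) / q := by positivity
  have hx1 : (i : ℝ) / q ≤ 1 := by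
    rw [div_le_one hq0]
    exact_mod_cast hi
  have r0 : ((q * (k - 1) : ℕ) : ℝ) / q = (k : ℝ) - 1 := by
    rw [Nat.cast_mul, hkc]
    field_simp
  have r1 : ((q * (k - 1) + i : ℕ) : ℝ) / q = (k : ℝ) - 1 + (i : ℝ) / q := by
    rw [Nat.cast_add, add_div, r0]
  have r2 : ((q * (k - 1) - i : ℕ) : ℝ) / q = (k : ℝ) - 1 - (i : ℝ) / q := by
    rw [Nat.cast_sub (hi.trans hqk1), sub_div, r0]
  generalize hx : (i : ℝ) / q = x at *
  have hx2 : x ^ 2 ≤ 1 := by nlinarith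
  -- the factors
  have g1 : Real.exp ((2 * k * x + x ^ 2) * s1) ≤
      C7 ^ (2 * k + 1) * Real.exp ((2 * k * x + x ^ 2) * Real.log L) := by
    refine expN hC7 ?_
    have a0 : 0 ≤ 2 * k * x + x ^ 2 := by positivity
    have a1 : 2 * k * x + x ^ 2 ≤ 2 * k + 1 := by nlinarith
    have a2 := mul_le_mul_of_nonneg_left u1 a0
    have a3 := mul_le_mul_of_nonneg_right a1 hlC7
    push_cast
    linarith
  have g2 : Real.exp ((-(2 * k * x) + x ^ 2) * s1) ≤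
      C7 ^ (2 * k + 1) * (Real.exp (2 * k * x * Real.log q) *
        Real.exp ((-(2 * k * x) + x ^ 2) * Real.log L)) := by
    rw [← Real.exp_add]
    refine expN hC7 ?_
    have a0 : 0 ≤ 2 * k * x := by positivity
    have a1 : 2 * k * x ≤ 2 * k := by nlinarith
    have a2 := mul_le_mul_of_nonneg_left u2 a0
    have a3 := mul_le_mul_of_nonneg_right a1 hlC7
    have a4 := mul_le_mul_of_nonneg_left u1 (sq_nonneg x)
    have a5 := mul_le_mul_of_nonneg_right hx2 hlC7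
    push_cast
    linarith
  have g3 : Real.exp (((2 * k + 1 : ℕ) : ℝ) * s2) ≤ C7 ^ (2 * k + 1) * (q : ℝ) ^ (2 * k + 1) := by
    rw [Real.exp_nat_mul, ← mul_pow]
    exact pow_le_pow_left₀ (Real.exp_pos _).le e2 _
  have hCx : 0 ≤ C5 * C7 ^ (k ^ 2) * L ^ (k ^ 2) := by
    have := pow_nonneg hL0.le (k ^ 2)
    positivity
  refine ⟨?_, ?_, ?_, ?_⟩
  · have h := P2 (q * (k - 1) + i) (k - 1) ((2 * k * x + x ^ 2) * s1) (by omega) (by omega)
      (by rw [r1, hkc]; apply le_of_eq; ring)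
    calc J2 w q y z T (q * (k - 1) + i) (k - 1) ≤ _ := h
      _ ≤ C5 * C7 ^ (k ^ 2) * L ^ (k ^ 2) * (C7 ^ (2 * k + 1) *
          Real.exp ((2 * k * x + x ^ 2) * Real.log L)) := mul_le_mul_of_nonneg_left g1 hCx
      _ ≤ C5 * C7 ^ (k ^ 2) * L ^ (k ^ 2) * (C7 ^ (2 * k + 1) *
          Real.exp ((2 * k * x + x ^ 2) * Real.log L)) * C7 ^ (2 * k + 1) :=
          le_mul_of_one_le_right (by positivity) (hC7p _)
      _ = _ := by ring
  · have h := P2 (q * (k - 1) + i) k ((2 * k * x + x ^ 2) * s1 + ((2 * k + 1 : ℕ) : ℝ) * s2)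
      (by omega) (by omega) (by rw [r1]; apply le_of_eq; push_cast; ring)
    rw [Real.exp_add] at h
    calc J2 w q y z T (q * (k - 1) + i) k ≤ _ := h
      _ ≤ C5 * C7 ^ (k ^ 2) * L ^ (k ^ 2) * ((C7 ^ (2 * k + 1) *
          Real.exp ((2 * k * x + x ^ 2) * Real.log L)) * (C7 ^ (2 * k + 1) *
            (q : ℝ) ^ (2 * k + 1))) :=
          mul_le_mul_of_nonneg_left (mul_le_mul g1 g3 (Real.exp_pos _).le (by positivity)) hCx
      _ = _ := by ring
  · have h := P2 (q * (k - 1) - i) (k - 1) ((-(2 * k * x) + x ^ 2) * s1) (by omega) (by omega)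
      (by rw [r2, hkc]; apply le_of_eq; ring)
    calc J2 w q y z T (q * (k - 1) - i) (k - 1) ≤ _ := h
      _ ≤ C5 * C7 ^ (k ^ 2) * L ^ (k ^ 2) * (C7 ^ (2 * k + 1) *
          (Real.exp (2 * k * x * Real.log q) *
            Real.exp ((-(2 * k * x) + x ^ 2) * Real.log L))) := mul_le_mul_of_nonneg_left g2 hCx
      _ ≤ C5 * C7 ^ (k ^ 2) * L ^ (k ^ 2) * (C7 ^ (2 * k + 1) *
          (Real.exp (2 * k * x * Real.log q) *
            Real.exp ((-(2 * k * x) + x ^ 2) * Real.log L))) * C7 ^ (2 * k + 1) :=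
          le_mul_of_one_le_right (by positivity) (hC7p _)
      _ = _ := by ring
  · have h := P2 (q * (k - 1) - i) (k - 2) ((-(2 * k * x) + x ^ 2) * s1) (by omega) (by omega)
      (by
        rw [r2, hkc2]
        have : 0 ≤ (2 * (k : ℝ) - 1) * s2 := mul_nonneg (by linarith) hs2
        nlinarith)
    calc J2 w q y z T (q * (k - 1) - i) (k - 2) ≤ _ := h
      _ ≤ C5 * C7 ^ (k ^ 2) * L ^ (k ^ 2) * (C7 ^ (2 * k + 1) *
          (Real.exp (2 * k * x * Real.log q) *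
            Real.exp ((-(2 * k * x) + x ^ 2) * Real.log L))) := mul_le_mul_of_nonneg_left g2 hCx
      _ ≤ C5 * C7 ^ (k ^ 2) * L ^ (k ^ 2) * (C7 ^ (2 * k + 1) *
          (Real.exp (2 * k * x * Real.log q) *
            Real.exp ((-(2 * k * x) + x ^ 2) * Real.log L))) * C7 ^ (2 * k + 1) :=
          le_mul_of_one_le_right (by positivity) (hC7p _)
      _ = _ := by ring

end Pool.Agent.Work.MP_56b8f5_nt.WM
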