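import Pool.Agent.Work.MP_56b8f5_nt.WM.StmtsG

/-!
MP_56b8f5_nt, block WMG, item G4: frequency of large values at scale `T`.
-/

set_option autoImplicit false

open MeasureTheory Set Filter Topology

noncomputable section

namespace Pool.Agent.Work.MP_56b8f5_nt.WM

open Pool.Agent.Work.MP_56b8f5_nt.EM

namespace I_LdG

theorem hcs {w : ℝ → ℝ} (hw : IsW w) : HasCompactSupport w := by
  obtain ⟨c, hc, h⟩ := hw.supp
  refine HasCompactSupport.intro (K := Icc c 1) isCompact_Icc fun u hu => ?_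
  by_contra h0
  exact hu (h u h0)

theorem intw {w : ℝ → ℝ} (hw : IsW w) {f : ℝ → ℝ} (hf : Continuous f) :
    Integrable (fun u => w u * f u) :=
  (hw.smooth.continuous.mul hf).integrable_of_hasCompactSupport ((hcs hw).mul_right)

theorem cDP (b : ℕ → ℝ) (X : ℕ) : Continuous (DP b X) := by
  unfold DP
  refine continuous_finsetSum _ fun n _ => ?_
  apply Continuous.mul continuous_const
  apply Continuous.const_cpow
  · fun_prop
  · right
    intro t h
    have := congrArg Complex.re h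
    simp at this

theorem caz : Continuous az := by
  unfold az
  apply Continuous.norm
  rw [continuous_iff_continuousAt]
  intro t
  have h1 : (1 / 2 + (t : ℂ) * Complex.I) ≠ 1 := by
    intro h
    have := congrArg Complex.re h
    norm_num at this
  have h2 : ContinuousAt riemannZeta (1 / 2 + (t : ℂ) * Complex.I) :=
    (differentiableAt_riemannZeta h1).continuousAt
  exact ContinuousAt.comp (f := fun t : ℝ => (1 / 2 + (t : ℂ) * Complex.I)) h2 (by fun_prop)

theorem caM (q y : ℕ) : Continuous (aM q y) := (cDP _ _).norm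

theorem caR (y z : ℕ) : Continuous (aR y z) := (cDP _ _).norm

theorem cmT (T : ℝ) {f : ℝ → ℝ} (hf : Continuous f) : Continuous fun u : ℝ => f (T * u) :=
  hf.comp (continuous_const.mul continuous_id)

/-- Markov's inequality with two terms. -/
theorem markov {w : ℝ → ℝ} (hw : IsW w) {S : Set ℝ} (hS : MeasurableSet S) {F G : ℝ → ℝ}
    (hF : Continuous F) (hG : Continuous G) (hF0 : ∀ u, 0 ≤ F u) (hG0 : ∀ u, 0 ≤ G u)
    {D B : ℝ} (hD : 0 < D) (hB : 0 ≤ B) (h : ∀ u ∈ S, D ≤ B * (F u + G u)) :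
    ∫ u in S, w u ≤ B * ((∫ u, w u * F u) + ∫ u, w u * G u) / D := by
  have iw : Integrable w := by
    have := intw hw (f := fun _ => (1 : ℝ)) continuous_const
    simpa using this
  have iFG : Integrable (fun u => B * (w u * F u + w u * G u)) :=
    ((intw hw hF).add (intw hw hG)).const_mul B
  rw [le_div_iff₀ hD]
  calc (∫ u in S, w u) * D = ∫ u in S, w u * D := (integral_mul_const _ _).symm
    _ ≤ ∫ u in S, B * (w u * F u + w u * G u) := by
        refine setIntegral_mono_on (iw.mul_const D).integrableOn iFG.integrableOn hS ?_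
        intro u hu
        have h1 := mul_le_mul_of_nonneg_left (h u hu) (hw.nonneg u)
        calc w u * D ≤ w u * (B * (F u + G u)) := h1
          _ = B * (w u * F u + w u * G u) := by ring
    _ ≤ ∫ u, B * (w u * F u + w u * G u) := by
        refine setIntegral_le_integral iFG (ae_of_all _ fun u => ?_)
        exact mul_nonneg hB (add_nonneg (mul_nonneg (hw.nonneg u) (hF0 u))
          (mul_nonneg (hw.nonneg u) (hG0 u)))
    _ = B * ((∫ u, w u * F u) + ∫ u, w u * G u) := by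
        rw [integral_const_mul, integral_add (intw hw hF) (intw hw hG)]

/-- `q ^ (2k+2) ≤ C ^ (2k+2) * LL ^ (k+1)`. -/
theorem q_bd {C l : ℝ} {q k : ℕ} (hC : 1 ≤ C) (hl : 0 ≤ l) (h : (q : ℝ) ≤ C * Real.sqrt l) :
    (q : ℝ) ^ (2 * k + 2) ≤ C ^ (2 * k + 2) * l ^ (k + 1) := by
  have h1 : (q : ℝ) ^ 2 ≤ C ^ 2 * l := by
    calc (q : ℝ) ^ 2 ≤ (C * Real.sqrt l) ^ 2 := pow_le_pow_left₀ (Nat.cast_nonneg q) h 2
      _ = C ^ 2 * l := by rw [mul_pow, Real.sq_sqrt hl]
  calc (q : ℝ) ^ (2 * k + 2) = ((q : ℝ) ^ 2) ^ (k + 1) := by rw [← pow_mul]; ring_nf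
    _ ≤ (C ^ 2 * l) ^ (k + 1) := pow_le_pow_left₀ (sq_nonneg _) h1 _
    _ = C ^ (2 * k + 2) * l ^ (k + 1) := by rw [mul_pow, ← pow_mul]; ring_nf

/-- The final comparison of the exponents. -/
theorem fin_bd {C C₁ A l V D Q J K : ℝ} {k q : ℕ} (hC : 1 ≤ C) (hC₁ : 1 ≤ C₁) (hA : 1 ≤ A)
    (hl : 0 ≤ l) (hq : (q : ℝ) ^ (2 * k + 2) ≤ C ^ (2 * k + 2) * l ^ (k + 1))
    (hQ : Q ≤ (q : ℝ) ^ (2 * k + 2)) (hQ0 : 0 ≤ Q) (hD : 0 < D)
    (hJ : J ≤ C₁ * Q * K) (hKD : K ≤ Real.exp (4 - V ^ 2 / l) * D) :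
    A ^ (2 * k) * (J + J) / D ≤
      2 * C₁ * Real.exp 4 * C ^ (2 * k + 2) * A ^ (2 * k) * Real.exp (-(V ^ 2 / l)) * l ^ (k + 1) := by
  have hA0 : 0 ≤ A ^ (2 * k) := by positivity
  rw [div_le_iff₀ hD]
  have h1 : J ≤ C₁ * (C ^ (2 * k + 2) * l ^ (k + 1)) * (Real.exp (4 - V ^ 2 / l) * D) := by
    refine hJ.trans ?_
    have h2 : C₁ * Q ≤ C₁ * (C ^ (2 * k + 2) * l ^ (k + 1)) :=
      mul_le_mul_of_nonneg_left (hQ.trans hq) (by linarith)
    have h3 : 0 ≤ Real.exp (4 - V ^ 2 / l) * D := by positivity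
    calc C₁ * Q * K ≤ C₁ * Q * (Real.exp (4 - V ^ 2 / l) * D) :=
          mul_le_mul_of_nonneg_left hKD (mul_nonneg (by linarith) hQ0)
      _ ≤ _ := mul_le_mul_of_nonneg_right h2 h3
  have h4 : Real.exp (4 - V ^ 2 / l) = Real.exp 4 * Real.exp (-(V ^ 2 / l)) := by
    rw [← Real.exp_add]
    ring_nf
  rw [h4] at h1
  calc A ^ (2 * k) * (J + J) ≤ A ^ (2 * k) *
        (C₁ * (C ^ (2 * k + 2) * l ^ (k + 1)) * (Real.exp 4 * Real.exp (-(V ^ 2 / l)) * D) +
          C₁ * (C ^ (2 * k + 2) * l ^ (k + 1)) * (Real.exp 4 * Real.exp (-(V ^ 2 / l)) * D)) :=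
        mul_le_mul_of_nonneg_left (add_le_add h1 h1) hA0
    _ = _ := by ring

end I_LdG

open I_LdG in
/-- **G4** -/
theorem LdG_pf (h1 : S_PwG) (h2 : S_J2G) : S_LdG := by
  intro w hw k C hk hC
  obtain ⟨C₁, T₁, hC₁, hJ⟩ := h2 w hw k C hk hC
  refine ⟨2 * C₁ * Real.exp 4 * C ^ (2 * k + 2), max T₁ (Real.exp (Real.exp 1)), ?_, ?_⟩
  · have e1 : (1 : ℝ) ≤ Real.exp 4 := Real.one_le_exp (by norm_num)
    have e2 : (1 : ℝ) ≤ C ^ (2 * k + 2) := one_le_pow₀ hC
    have e3 : (1 : ℝ) ≤ 2 * C₁ := by linarith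
    have e4 : (1 : ℝ) ≤ 2 * C₁ * Real.exp 4 := one_le_mul_of_one_le_of_one_le e3 e1
    exact one_le_mul_of_one_le_of_one_le e4 e2
  intro T hT q y z hp A V hA hV1 hV2
  have hT1 : T₁ ≤ T := (le_max_left _ _).trans hT
  have hT2 : Real.exp (Real.exp 1) ≤ T := (le_max_right _ _).trans hT
  have hTpos : 0 < T := (Real.exp_pos _).trans_le hT2
  have hL1 : Real.exp 1 ≤ Real.log T := by
    rw [Real.le_log_iff_exp_le hTpos]
    exact hT2
  have hLpos : 0 < Real.log T := (Real.exp_pos _).trans_le hL1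
  set l : ℝ := Real.log (Real.log T) with hl
  have hl1 : 1 ≤ l := by
    rw [hl, Real.le_log_iff_exp_le hLpos]
    exact hL1
  have hl0 : 0 < l := by linarith
  have hX : Real.log T ^ (k ^ 2) = Real.exp ((k : ℝ) ^ 2 * l) := by
    have : Real.exp l = Real.log T := by rw [hl, Real.exp_log hLpos]
    rw [← this, ← Real.exp_nat_mul]
    push_cast
    ring_nf
  have hq1 : (1 : ℝ) ≤ q := by exact_mod_cast hp.hq
  have hq0 : (0 : ℝ) < q := by linarith
  have hqb := q_bd (k := k) hC hl0.le hp.hqs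
  have hS : MeasurableSet {u : ℝ | az (T * u) ≤ A * (aM q y (T * u) ^ q * aR y z (T * u)) ∧
      Real.exp V ≤ az (T * u)} := by
    refine (IsClosed.and ?_ ?_).measurableSet
    · exact isClosed_le (cmT T caz) (continuous_const.mul
        (((cmT T (caM q y)).pow q).mul (cmT T (caR y z))))
    · exact isClosed_le continuous_const (cmT T caz)
  have hk1 : (1 : ℝ) ≤ k := by
    have : (2 : ℝ) ≤ k := by exact_mod_cast hk
    linarith
  rcases le_or_gt ((k : ℝ) * l) V with hV | hV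
  · -- large `V`
    set x₀ : ℝ := V / l - k with hx₀
    have hx₀0 : 0 ≤ x₀ := by
      rw [hx₀, sub_nonneg, le_div_iff₀ hl0]
      exact hV
    have hx₀1 : x₀ ≤ 1 := by
      rw [hx₀, sub_le_iff_le_add, div_le_iff₀ hl0]
      linarith
    set i : ℕ := ⌊x₀ * q⌋₊ with hi
    have hi1 : (i : ℝ) ≤ x₀ * q := Nat.floor_le (by positivity)
    have hi2 : x₀ * q < i + 1 := Nat.lt_floor_add_one _
    have hiq : i ≤ q := by
      have : (i : ℝ) ≤ q := by nlinarith
      exact_mod_cast this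
    have hx1 : (i : ℝ) / q ≤ x₀ := by rw [div_le_iff₀ hq0]; exact hi1
    have hx2 : x₀ - (i : ℝ) / q ≤ 1 / q := by
      rw [sub_le_iff_le_add, ← add_div, le_div_iff₀ hq0]
      linarith
    have hV' : V = (k + x₀) * l := by
      rw [hx₀]
      field_simp
      ring
    obtain ⟨j1, j2, -, -⟩ := hJ T hT1 q y z hp i hiq
    set x : ℝ := (i : ℝ) / q with hx
    have hbd : ∀ u ∈ {u : ℝ | az (T * u) ≤ A * (aM q y (T * u) ^ q * aR y z (T * u)) ∧
        Real.exp V ≤ az (T * u)}, Real.exp (2 * ((k : ℝ) + x) * V) ≤ A ^ (2 * k) *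
        (az (T * u) ^ 2 * (aM q y (T * u) ^ (2 * (q * (k - 1) + i)) *
          aR y z (T * u) ^ (2 * (k - 1))) +
        az (T * u) ^ 2 * (aM q y (T * u) ^ (2 * (q * (k - 1) + i)) *
          aR y z (T * u) ^ (2 * k))) := by
      intro u hu
      exact (h1 k q i A (az (T * u)) (aM q y (T * u)) (aR y z (T * u)) hk hp.hq hiq hA
        (norm_nonneg _) (norm_nonneg _) (norm_nonneg _) hu.1).2.2.1 V hu.2
    have hm := markov hw hS
      (F := fun u => az (T * u) ^ 2 * (aM q y (T * u) ^ (2 * (q * (k - 1) + i)) *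
          aR y z (T * u) ^ (2 * (k - 1))))
      (G := fun u => az (T * u) ^ 2 * (aM q y (T * u) ^ (2 * (q * (k - 1) + i)) *
          aR y z (T * u) ^ (2 * k)))
      (((cmT T caz).pow 2).mul (((cmT T (caM q y)).pow _).mul ((cmT T (caR y z)).pow _)))
      (((cmT T caz).pow 2).mul (((cmT T (caM q y)).pow _).mul ((cmT T (caR y z)).pow _)))
      (fun u => by unfold az aM aR; positivity) (fun u => by unfold az aM aR; positivity)
      (Real.exp_pos (2 * ((k : ℝ) + x) * V)) (B := A ^ (2 * k)) (by positivity) hbd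
    refine hm.trans ?_
    set J : ℝ := C₁ * Real.log T ^ (k ^ 2) * (q : ℝ) ^ (2 * k + 1) *
      Real.exp ((2 * k * x + x ^ 2) * l) with hJd
    have hj1 : J2 w q y z T (q * (k - 1) + i) (k - 1) ≤ J := by
      refine j1.trans ?_
      rw [hJd]
      have e1 : (1 : ℝ) ≤ (q : ℝ) ^ (2 * k + 1) := one_le_pow₀ hq1
      have e2 : 0 ≤ C₁ * Real.log T ^ (k ^ 2) := by positivity
      have e3 := mul_le_mul_of_nonneg_left e1 e2
      rw [mul_one] at e3
      exact mul_le_mul_of_nonneg_right e3 (Real.exp_pos _).le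
    have hj2 : J2 w q y z T (q * (k - 1) + i) k ≤ J := j2
    have hstep : A ^ (2 * k) * (J2 w q y z T (q * (k - 1) + i) (k - 1) +
        J2 w q y z T (q * (k - 1) + i) k) / Real.exp (2 * ((k : ℝ) + x) * V) ≤
        A ^ (2 * k) * (J + J) / Real.exp (2 * ((k : ℝ) + x) * V) := by
      have hA0 : 0 ≤ A ^ (2 * k) := by positivity
      gcongr
    refine hstep.trans ?_
    refine fin_bd (K := Real.exp ((k : ℝ) ^ 2 * l) * Real.exp ((2 * k * x + x ^ 2) * l))
      (Q := (q : ℝ) ^ (2 * k + 1)) hC hC₁ hA hl0.le hqb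
      (pow_le_pow_right₀ hq1 (by omega)) (by positivity) (Real.exp_pos _) ?_ ?_
    · rw [hJd, hX]
      apply le_of_eq
      ring
    · rw [← Real.exp_add, ← Real.exp_add]
      apply Real.exp_le_exp.2
      have e1 : (k : ℝ) ^ 2 * l + (2 * k * x + x ^ 2) * l =
          2 * ((k : ℝ) + x) * V - V ^ 2 / l + (x₀ - x) ^ 2 * l := by
        rw [hV']
        field_simp
        ring
      have e2 : (x₀ - x) ^ 2 * l ≤ 4 := by
        have e3 : (x₀ - x) ^ 2 ≤ (1 / (q : ℝ)) ^ 2 :=
          pow_le_pow_left₀ (by linarith) hx2 2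
        have e4 : (1 / (q : ℝ)) ^ 2 * l ≤ 1 := by
          rw [one_div, inv_pow, inv_mul_le_iff₀ (by positivity), mul_one]
          exact hp.hq2
        have e5 := mul_le_mul_of_nonneg_right e3 hl0.le
        linarith
      linarith
  · -- small `V`
    set x₀ : ℝ := k - V / l with hx₀
    have hx₀0 : 0 < x₀ := by
      rw [hx₀, sub_pos, div_lt_iff₀ hl0]
      exact hV
    have hx₀1 : x₀ ≤ 1 + 1 / l := by
      have e1 : (k : ℝ) - 1 - 1 / l ≤ V / l := by
        rw [le_div_iff₀ hl0, sub_mul, one_div, inv_mul_cancel₀ hl0.ne']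
        exact hV1
      rw [hx₀]
      linarith
    have hm0 : 0 < min x₀ 1 := lt_min hx₀0 one_pos
    have hm1 : min x₀ 1 ≤ 1 := min_le_right _ _
    set i : ℕ := ⌊min x₀ 1 * q⌋₊ with hi
    have hi1 : (i : ℝ) ≤ min x₀ 1 * q := Nat.floor_le (by positivity)
    have hi2 : min x₀ 1 * q < i + 1 := Nat.lt_floor_add_one _
    have hiq : i ≤ q := by
      have : (i : ℝ) ≤ q := by nlinarith
      exact_mod_cast this
    have hx1 : (i : ℝ) / q ≤ min x₀ 1 := by rw [div_le_iff₀ hq0]; exact hi1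
    have hx2 : min x₀ 1 - (i : ℝ) / q ≤ 1 / q := by
      rw [sub_le_iff_le_add, ← add_div, le_div_iff₀ hq0]
      linarith
    have hx0 : 0 ≤ (i : ℝ) / q := by positivity
    have hxl : (i : ℝ) / q ≤ 1 := hx1.trans hm1
    have hmx : x₀ - min x₀ 1 ≤ 1 / l := by
      rcases le_total x₀ 1 with h | h
      · rw [min_eq_left h, sub_self]
        positivity
      · rw [min_eq_right h]
        linarith
    have hV' : V = (k - x₀) * l := by
      rw [hx₀]
      field_simp
      ring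
    obtain ⟨-, -, j1, j2⟩ := hJ T hT1 q y z hp i hiq
    set x : ℝ := (i : ℝ) / q with hx
    have hbd : ∀ u ∈ {u : ℝ | az (T * u) ≤ A * (aM q y (T * u) ^ q * aR y z (T * u)) ∧
        Real.exp V ≤ az (T * u)}, Real.exp (2 * ((k : ℝ) - x) * V) ≤ A ^ (2 * k) *
        (az (T * u) ^ 2 * (aM q y (T * u) ^ (2 * (q * (k - 1) - i)) *
          aR y z (T * u) ^ (2 * (k - 1))) +
        az (T * u) ^ 2 * (aM q y (T * u) ^ (2 * (q * (k - 1) - i)) *
          aR y z (T * u) ^ (2 * (k - 2)))) := by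
      intro u hu
      exact (h1 k q i A (az (T * u)) (aM q y (T * u)) (aR y z (T * u)) hk hp.hq hiq hA
        (norm_nonneg _) (norm_nonneg _) (norm_nonneg _) hu.1).2.2.2 V hu.2
    have hm := markov hw hS
      (F := fun u => az (T * u) ^ 2 * (aM q y (T * u) ^ (2 * (q * (k - 1) - i)) *
          aR y z (T * u) ^ (2 * (k - 1))))
      (G := fun u => az (T * u) ^ 2 * (aM q y (T * u) ^ (2 * (q * (k - 1) - i)) *
          aR y z (T * u) ^ (2 * (k - 2))))
      (((cmT T caz).pow 2).mul (((cmT T (caM q y)).pow _).mul ((cmT T (caR y z)).pow _)))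
      (((cmT T caz).pow 2).mul (((cmT T (caM q y)).pow _).mul ((cmT T (caR y z)).pow _)))
      (fun u => by unfold az aM aR; positivity) (fun u => by unfold az aM aR; positivity)
      (Real.exp_pos (2 * ((k : ℝ) - x) * V)) (B := A ^ (2 * k)) (by positivity) hbd
    refine hm.trans ?_
    set J : ℝ := C₁ * Real.log T ^ (k ^ 2) * Real.exp (2 * k * x * Real.log q) *
      Real.exp ((-(2 * k * x) + x ^ 2) * l) with hJd
    have hj1 : J2 w q y z T (q * (k - 1) - i) (k - 1) ≤ J := j1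
    have hj2 : J2 w q y z T (q * (k - 1) - i) (k - 2) ≤ J := j2
    have hstep : A ^ (2 * k) * (J2 w q y z T (q * (k - 1) - i) (k - 1) +
        J2 w q y z T (q * (k - 1) - i) (k - 2)) / Real.exp (2 * ((k : ℝ) - x) * V) ≤
        A ^ (2 * k) * (J + J) / Real.exp (2 * ((k : ℝ) - x) * V) := by
      have hA0 : 0 ≤ A ^ (2 * k) := by positivity
      gcongr
    refine hstep.trans ?_
    have hlq : 0 ≤ Real.log q := Real.log_nonneg hq1
    refine fin_bd (K := Real.exp ((k : ℝ) ^ 2 * l) * Real.exp ((-(2 * k * x) + x ^ 2) * l))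
      (Q := Real.exp (2 * k * x * Real.log q)) hC hC₁ hA hl0.le hqb ?_
      (Real.exp_pos _).le (Real.exp_pos _) ?_ ?_
    · have e1 : (q : ℝ) ^ (2 * k + 2) = Real.exp ((2 * k + 2) * Real.log q) := by
        rw [← Real.exp_log (x := (q : ℝ) ^ (2 * k + 2)) (by positivity), Real.log_pow]
        push_cast
        ring_nf
      rw [e1]
      apply Real.exp_le_exp.2
      apply mul_le_mul_of_nonneg_right _ hlq
      nlinarith
    · rw [hJd, hX]
      apply le_of_eq
      ring
    · rw [← Real.exp_add, ← Real.exp_add]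
      apply Real.exp_le_exp.2
      have e1 : (k : ℝ) ^ 2 * l + (-(2 * k * x) + x ^ 2) * l =
          2 * ((k : ℝ) - x) * V - V ^ 2 / l + (x₀ - x) ^ 2 * l := by
        rw [hV']
        field_simp
        ring
      have e2 : (x₀ - x) ^ 2 * l ≤ 4 := by
        have hsl : 0 < Real.sqrt l := Real.sqrt_pos.2 hl0
        have hsl1 : 1 ≤ Real.sqrt l := by
          rw [show (1 : ℝ) = Real.sqrt 1 by simp]
          exact Real.sqrt_le_sqrt hl1
        have e6 : Real.sqrt l ≤ q := by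
          rw [Real.sqrt_le_left hq0.le]
          exact hp.hq2
        have e7 : 1 / (q : ℝ) ≤ 1 / Real.sqrt l := one_div_le_one_div_of_le hsl e6
        have e8 : 1 / l ≤ 1 / Real.sqrt l := by
          apply one_div_le_one_div_of_le hsl
          nlinarith [Real.mul_self_sqrt hl0.le]
        have e3 : x₀ - x ≤ 2 / Real.sqrt l := by
          have : (2 : ℝ) / Real.sqrt l = 1 / Real.sqrt l + 1 / Real.sqrt l := by ring
          rw [this]
          linarith
        have e9 : 0 ≤ x₀ - x := by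
          have := min_le_left x₀ (1 : ℝ)
          linarith
        have e4 : (x₀ - x) ^ 2 ≤ (2 / Real.sqrt l) ^ 2 := pow_le_pow_left₀ e9 e3 2
        have e5 : (2 / Real.sqrt l) ^ 2 * l = 4 := by
          rw [div_pow, Real.sq_sqrt hl0.le]
          field_simp
          norm_num
        have e10 := mul_le_mul_of_nonneg_right e4 hl0.le
        linarith
      linarith

end Pool.Agent.Work.MP_56b8f5_nt.WM
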