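import Pool.Agent.Work.MP_56b8f5_nt.WM.StmtsG

/-!
MP_56b8f5_nt, block WM, extension G, item G1: pointwise inequalities.
-/

set_option autoImplicit false

open MeasureTheory Set Filter Topology

noncomputable section

namespace Pool.Agent.Work.MP_56b8f5_nt.WM

open Pool.Agent.Work.MP_56b8f5_nt.EM

namespace I_PwG

/-- `φ^s ≤ A^N m^n r^s` if `φ ≤ A m^q r`, `q s = n`, `0 ≤ s ≤ N`. -/
theorem key (q n N : ℕ) (A φ m r s : ℝ) (hA : 1 ≤ A) (hφ : 0 ≤ φ) (hm : 0 < m) (hr : 0 < r)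
    (h : φ ≤ A * (m ^ q * r)) (hs : 0 ≤ s) (hsN : s ≤ N) (hn : (q : ℝ) * s = n) :
    φ ^ s ≤ A ^ N * (m ^ n * r ^ s) := by
  have hA0 : 0 ≤ A := by linarith
  calc φ ^ s ≤ (A * (m ^ q * r)) ^ s := Real.rpow_le_rpow hφ h hs
    _ = A ^ s * ((m ^ q) ^ s * r ^ s) := by
        rw [Real.mul_rpow hA0 (by positivity), Real.mul_rpow (by positivity) hr.le]
    _ = A ^ s * (m ^ n * r ^ s) := by
        rw [← Real.rpow_natCast m q, ← Real.rpow_mul hm.le, hn, Real.rpow_natCast]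
    _ ≤ A ^ N * (m ^ n * r ^ s) := by
        have h1 : A ^ s ≤ A ^ N := by
          rw [← Real.rpow_natCast A N]
          exact Real.rpow_le_rpow_of_exponent_le hA hsN
        exact mul_le_mul_of_nonneg_right h1 (by positivity)

/-- `r^s ≤ r^a + r^b` for `b ≤ s ≤ a`. -/
theorem rsum (r s : ℝ) (a b : ℕ) (hr : 0 < r) (ha : s ≤ a) (hb : (b : ℝ) ≤ s) :
    r ^ s ≤ r ^ a + r ^ b := by
  rcases le_total 1 r with h | h
  · have h1 : r ^ s ≤ r ^ a := by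
      rw [← Real.rpow_natCast r a]
      exact Real.rpow_le_rpow_of_exponent_le h ha
    have : 0 ≤ r ^ b := by positivity
    linarith
  · have h1 : r ^ s ≤ r ^ b := by
      rw [← Real.rpow_natCast r b]
      exact Real.rpow_le_rpow_of_exponent_ge hr h hb
    have : 0 ≤ r ^ a := by positivity
    linarith

theorem pos_of {q : ℕ} {A φ m r : ℝ} (hq : 1 ≤ q) (hm : 0 ≤ m) (hr : 0 ≤ r)
    (h : φ ≤ A * (m ^ q * r)) (hφ : 0 < φ) : 0 < m ∧ 0 < r := by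
  constructor
  · rcases hm.lt_or_eq with h1 | h1
    · exact h1
    · exfalso
      rw [← h1, zero_pow (by omega)] at h
      simp at h
      linarith
  · rcases hr.lt_or_eq with h1 | h1
    · exact h1
    · exfalso
      rw [← h1] at h
      simp at h
      linarith

/-- The two inequalities with the tilted exponent, `k = j + 2`. -/
theorem plus (j q i : ℕ) (A φ m r : ℝ) (hq : 1 ≤ q) (hi : i ≤ q) (hA : 1 ≤ A) (hφ : 0 < φ)
    (hm : 0 < m) (hr : 0 < r) (h : φ ≤ A * (m ^ q * r)) :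
    φ ^ (2 * ((j : ℝ) + 1) + 2 * ((i : ℝ) / q)) ≤ A ^ (2 * (j + 2)) *
      (m ^ (2 * (q * (j + 1) + i)) * (r ^ (2 * (j + 1)) + r ^ (2 * (j + 2)))) := by
  have hq0 : (0 : ℝ) < q := by exact_mod_cast hq
  have hx0 : 0 ≤ (i : ℝ) / q := by positivity
  have hx1 : (i : ℝ) / q ≤ 1 := by
    rw [div_le_one hq0]
    exact_mod_cast hi
  have h1 := key q (2 * (q * (j + 1) + i)) (2 * (j + 2)) A φ m r
    (2 * ((j : ℝ) + 1) + 2 * ((i : ℝ) / q)) hA hφ.le hm hr h (by positivity)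
    (by push_cast; linarith) (by push_cast; field_simp)
  have h2 := rsum r (2 * ((j : ℝ) + 1) + 2 * ((i : ℝ) / q)) (2 * (j + 2)) (2 * (j + 1)) hr
    (by push_cast; linarith) (by push_cast; linarith)
  refine h1.trans ?_
  have hA0 : 0 ≤ A := by linarith
  gcongr
  linarith

theorem minus (j q i : ℕ) (A φ m r : ℝ) (hq : 1 ≤ q) (hi : i ≤ q) (hA : 1 ≤ A) (hφ : 0 < φ)
    (hm : 0 < m) (hr : 0 < r) (h : φ ≤ A * (m ^ q * r)) :
    φ ^ (2 * ((j : ℝ) + 1) - 2 * ((i : ℝ) / q)) ≤ A ^ (2 * (j + 2)) *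
      (m ^ (2 * (q * (j + 1) - i)) * (r ^ (2 * (j + 1)) + r ^ (2 * j))) := by
  have hq0 : (0 : ℝ) < q := by exact_mod_cast hq
  have hx0 : 0 ≤ (i : ℝ) / q := by positivity
  have hx1 : (i : ℝ) / q ≤ 1 := by
    rw [div_le_one hq0]
    exact_mod_cast hi
  have hle : i ≤ q * (j + 1) := le_trans hi (Nat.le_mul_of_pos_right q (by omega))
  have hj : (0 : ℝ) ≤ j := Nat.cast_nonneg j
  have h1 := key q (2 * (q * (j + 1) - i)) (2 * (j + 2)) A φ m r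
    (2 * ((j : ℝ) + 1) - 2 * ((i : ℝ) / q)) hA hφ.le hm hr h (by linarith)
    (by push_cast; linarith) (by push_cast [Nat.cast_sub hle]; field_simp)
  have h2 := rsum r (2 * ((j : ℝ) + 1) - 2 * ((i : ℝ) / q)) (2 * (j + 1)) (2 * j) hr
    (by push_cast; linarith) (by push_cast; linarith)
  refine h1.trans ?_
  have hA0 : 0 ≤ A := by linarith
  gcongr

theorem P1 (j q i : ℕ) (A φ m r : ℝ) (hq : 1 ≤ q) (hi : i ≤ q) (hA : 1 ≤ A)
    (hm : 0 ≤ m) (hr : 0 ≤ r) (h : φ ≤ A * (m ^ q * r)) (a b : ℝ) (ha : Real.exp a < φ) :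
    φ ^ (2 * (j + 2)) ≤ A ^ (2 * (j + 2)) *
    (Real.exp (-(2 * b)) * (φ ^ 2 * (m ^ (2 * (q * (j + 1))) * r ^ (2 * (j + 2)))) +
      Real.exp (-(2 * ((i : ℝ) / q) * (a - b))) *
        (φ ^ 2 * (m ^ (2 * (q * (j + 1) + i)) * r ^ (2 * (j + 1))))) := by
  have hφ : 0 < φ := lt_trans (Real.exp_pos a) ha
  obtain ⟨hm0, hr0⟩ := pos_of hq hm hr h hφ
  have hA0 : 0 ≤ A := by linarith
  have hq0 : (0 : ℝ) < q := by exact_mod_cast hq
  have hx0 : 0 ≤ (i : ℝ) / q := by positivity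
  have hx1 : (i : ℝ) / q ≤ 1 := by
    rw [div_le_one hq0]
    exact_mod_cast hi
  have hbase : φ ^ (2 * (j + 2)) ≤ A ^ (2 * (j + 1)) *
      (φ ^ 2 * (m ^ (2 * (q * (j + 1))) * r ^ (2 * (j + 1)))) := by
    calc φ ^ (2 * (j + 2)) = φ ^ 2 * φ ^ (2 * (j + 1)) := by ring
      _ ≤ φ ^ 2 * (A * (m ^ q * r)) ^ (2 * (j + 1)) := by gcongr
      _ = A ^ (2 * (j + 1)) * (φ ^ 2 * (m ^ (2 * (q * (j + 1))) * r ^ (2 * (j + 1)))) := by
        rw [mul_pow, mul_pow, ← pow_mul]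
        ring
  rcases lt_or_ge (Real.exp b) r with hb | hb
  · have h1 : r ^ (2 * (j + 1)) ≤ Real.exp (-(2 * b)) * r ^ (2 * (j + 2)) := by
      have h2 : Real.exp (2 * b) ≤ r ^ 2 := by
        rw [two_mul, Real.exp_add, pow_two]
        gcongr
      have h3 : 1 ≤ Real.exp (-(2 * b)) * r ^ 2 := by
        rw [Real.exp_neg, inv_mul_eq_div, le_div_iff₀ (Real.exp_pos _)]
        linarith
      calc r ^ (2 * (j + 1)) = 1 * r ^ (2 * (j + 1)) := (one_mul _).symm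
        _ ≤ (Real.exp (-(2 * b)) * r ^ 2) * r ^ (2 * (j + 1)) := by gcongr
        _ = Real.exp (-(2 * b)) * r ^ (2 * (j + 2)) := by ring
    have h4 : A ^ (2 * (j + 1)) ≤ A ^ (2 * (j + 2)) := pow_le_pow_right₀ hA (by omega)
    calc φ ^ (2 * (j + 2)) ≤ A ^ (2 * (j + 1)) *
          (φ ^ 2 * (m ^ (2 * (q * (j + 1))) * r ^ (2 * (j + 1)))) := hbase
      _ ≤ A ^ (2 * (j + 2)) *
          (φ ^ 2 * (m ^ (2 * (q * (j + 1))) * (Real.exp (-(2 * b)) * r ^ (2 * (j + 2))))) := by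
        gcongr
      _ = A ^ (2 * (j + 2)) *
          (Real.exp (-(2 * b)) * (φ ^ 2 * (m ^ (2 * (q * (j + 1))) * r ^ (2 * (j + 2))))) := by
        ring
      _ ≤ _ := by
        gcongr
        exact le_add_of_nonneg_right (by positivity)
  · have h1 : 1 ≤ A ^ 2 * (m ^ (2 * i) * Real.exp (-(2 * ((i : ℝ) / q) * (a - b)))) := by
      have h2 : (1 : ℝ) ≤ (φ * Real.exp (-a)) ^ (2 * ((i : ℝ) / q)) := by
        apply Real.one_le_rpow _ (by positivity)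
        rw [Real.exp_neg, ← div_eq_mul_inv, le_div_iff₀ (Real.exp_pos a)]
        linarith
      have h3 : φ ^ (2 * ((i : ℝ) / q)) ≤ A ^ 2 * (m ^ (2 * i) * r ^ (2 * ((i : ℝ) / q))) :=
        key q (2 * i) 2 A φ m r (2 * ((i : ℝ) / q)) hA hφ.le hm0 hr0 h (by positivity)
          (by push_cast; linarith) (by push_cast; field_simp)
      have h4 : r ^ (2 * ((i : ℝ) / q)) ≤ Real.exp (2 * ((i : ℝ) / q) * b) := by
        calc r ^ (2 * ((i : ℝ) / q)) ≤ (Real.exp b) ^ (2 * ((i : ℝ) / q)) :=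
              Real.rpow_le_rpow hr hb (by positivity)
          _ = Real.exp (2 * ((i : ℝ) / q) * b) := by rw [← Real.exp_mul, mul_comm b]
      have h5 : (Real.exp (-a)) ^ (2 * ((i : ℝ) / q)) = Real.exp (-(2 * ((i : ℝ) / q) * a)) := by
        rw [← Real.exp_mul]
        congr 1
        ring
      calc (1 : ℝ) ≤ (φ * Real.exp (-a)) ^ (2 * ((i : ℝ) / q)) := h2
        _ = φ ^ (2 * ((i : ℝ) / q)) * Real.exp (-(2 * ((i : ℝ) / q) * a)) := by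
          rw [Real.mul_rpow hφ.le (Real.exp_pos _).le, h5]
        _ ≤ (A ^ 2 * (m ^ (2 * i) * Real.exp (2 * ((i : ℝ) / q) * b))) *
            Real.exp (-(2 * ((i : ℝ) / q) * a)) := by
          gcongr
          refine h3.trans ?_
          gcongr
        _ = A ^ 2 * (m ^ (2 * i) * (Real.exp (2 * ((i : ℝ) / q) * b) *
            Real.exp (-(2 * ((i : ℝ) / q) * a)))) := by ring
        _ = A ^ 2 * (m ^ (2 * i) * Real.exp (-(2 * ((i : ℝ) / q) * (a - b)))) := by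
          rw [← Real.exp_add]
          congr 3
          ring
    calc φ ^ (2 * (j + 2)) ≤ A ^ (2 * (j + 1)) *
          (φ ^ 2 * (m ^ (2 * (q * (j + 1))) * r ^ (2 * (j + 1)))) := hbase
      _ = (A ^ (2 * (j + 1)) *
          (φ ^ 2 * (m ^ (2 * (q * (j + 1))) * r ^ (2 * (j + 1))))) * 1 := (mul_one _).symm
      _ ≤ (A ^ (2 * (j + 1)) *
          (φ ^ 2 * (m ^ (2 * (q * (j + 1))) * r ^ (2 * (j + 1))))) *
          (A ^ 2 * (m ^ (2 * i) * Real.exp (-(2 * ((i : ℝ) / q) * (a - b))))) := by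
        gcongr
      _ = A ^ (2 * (j + 2)) * (Real.exp (-(2 * ((i : ℝ) / q) * (a - b))) *
        (φ ^ 2 * (m ^ (2 * (q * (j + 1) + i)) * r ^ (2 * (j + 1))))) := by ring
      _ ≤ _ := by
        gcongr
        exact le_add_of_nonneg_left (by positivity)

theorem P2 (j q i : ℕ) (A φ m r : ℝ) (hq : 1 ≤ q) (hi : i ≤ q) (hA : 1 ≤ A) (hφ : 0 ≤ φ)
    (hm : 0 ≤ m) (hr : 0 ≤ r) (h : φ ≤ A * (m ^ q * r)) (a : ℝ) (ha : φ < Real.exp a) :
    φ ^ (2 * (j + 2)) ≤ A ^ (2 * (j + 2)) * (Real.exp (2 * ((i : ℝ) / q) * a) *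
    (φ ^ 2 * (m ^ (2 * (q * (j + 1) - i)) * r ^ (2 * (j + 1))) +
      φ ^ 2 * (m ^ (2 * (q * (j + 1) - i)) * r ^ (2 * j)))) := by
  have hA0 : 0 ≤ A := by linarith
  rcases hφ.lt_or_eq with hφ0 | hφ0
  swap
  · rw [← hφ0, zero_pow (by omega)]
    positivity
  obtain ⟨hm0, hr0⟩ := pos_of hq hm hr h hφ0
  have h1 := minus j q i A φ m r hq hi hA hφ0 hm0 hr0 h
  have h2 : φ ^ (2 * ((i : ℝ) / q)) ≤ Real.exp (2 * ((i : ℝ) / q) * a) := by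
    calc φ ^ (2 * ((i : ℝ) / q)) ≤ (Real.exp a) ^ (2 * ((i : ℝ) / q)) :=
          Real.rpow_le_rpow hφ ha.le (by positivity)
      _ = Real.exp (2 * ((i : ℝ) / q) * a) := by rw [← Real.exp_mul, mul_comm a]
  have h3 : φ ^ (2 * (j + 2)) = φ ^ 2 * (φ ^ (2 * ((j : ℝ) + 1) - 2 * ((i : ℝ) / q)) *
      φ ^ (2 * ((i : ℝ) / q))) := by
    rw [← Real.rpow_add hφ0, show (2 * ((j : ℝ) + 1) - 2 * ((i : ℝ) / q)) + 2 * ((i : ℝ) / q) =
      ((2 * (j + 1) : ℕ) : ℝ) by push_cast; ring, Real.rpow_natCast]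
    ring
  rw [h3]
  calc φ ^ 2 * (φ ^ (2 * ((j : ℝ) + 1) - 2 * ((i : ℝ) / q)) * φ ^ (2 * ((i : ℝ) / q)))
      ≤ φ ^ 2 * ((A ^ (2 * (j + 2)) *
      (m ^ (2 * (q * (j + 1) - i)) * (r ^ (2 * (j + 1)) + r ^ (2 * j)))) *
        Real.exp (2 * ((i : ℝ) / q) * a)) := by gcongr
    _ = _ := by ring

theorem P3 (j q i : ℕ) (A φ m r : ℝ) (hq : 1 ≤ q) (hi : i ≤ q) (hA : 1 ≤ A)
    (hm : 0 ≤ m) (hr : 0 ≤ r) (h : φ ≤ A * (m ^ q * r)) (V : ℝ) (hV : Real.exp V ≤ φ) :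
    Real.exp (2 * (((j + 2 : ℕ) : ℝ) + (i : ℝ) / q) * V) ≤ A ^ (2 * (j + 2)) *
    (φ ^ 2 * (m ^ (2 * (q * (j + 1) + i)) * r ^ (2 * (j + 1))) +
      φ ^ 2 * (m ^ (2 * (q * (j + 1) + i)) * r ^ (2 * (j + 2)))) := by
  have hφ : 0 < φ := lt_of_lt_of_le (Real.exp_pos V) hV
  obtain ⟨hm0, hr0⟩ := pos_of hq hm hr h hφ
  have hA0 : 0 ≤ A := by linarith
  have h1 := plus j q i A φ m r hq hi hA hφ hm0 hr0 h
  have h2 : Real.exp (2 * (((j + 2 : ℕ) : ℝ) + (i : ℝ) / q) * V) =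
      (Real.exp V) ^ (2 * (((j + 2 : ℕ) : ℝ) + (i : ℝ) / q)) := by
    rw [← Real.exp_mul, mul_comm V]
  have h3 : (Real.exp V) ^ (2 * (((j + 2 : ℕ) : ℝ) + (i : ℝ) / q)) ≤
      φ ^ (2 * (((j + 2 : ℕ) : ℝ) + (i : ℝ) / q)) :=
    Real.rpow_le_rpow (Real.exp_pos V).le hV (by positivity)
  have h4 : φ ^ (2 * (((j + 2 : ℕ) : ℝ) + (i : ℝ) / q)) =
      φ ^ 2 * φ ^ (2 * ((j : ℝ) + 1) + 2 * ((i : ℝ) / q)) := by
    rw [← Real.rpow_natCast φ 2, ← Real.rpow_add hφ]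
    congr 1
    push_cast
    ring
  rw [h2]
  refine h3.trans ?_
  rw [h4]
  calc φ ^ 2 * φ ^ (2 * ((j : ℝ) + 1) + 2 * ((i : ℝ) / q))
      ≤ φ ^ 2 * (A ^ (2 * (j + 2)) *
      (m ^ (2 * (q * (j + 1) + i)) * (r ^ (2 * (j + 1)) + r ^ (2 * (j + 2))))) := by gcongr
    _ = _ := by ring

theorem P4 (j q i : ℕ) (A φ m r : ℝ) (hq : 1 ≤ q) (hi : i ≤ q) (hA : 1 ≤ A)
    (hm : 0 ≤ m) (hr : 0 ≤ r) (h : φ ≤ A * (m ^ q * r)) (V : ℝ) (hV : Real.exp V ≤ φ) :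
    Real.exp (2 * (((j + 2 : ℕ) : ℝ) - (i : ℝ) / q) * V) ≤ A ^ (2 * (j + 2)) *
    (φ ^ 2 * (m ^ (2 * (q * (j + 1) - i)) * r ^ (2 * (j + 1))) +
      φ ^ 2 * (m ^ (2 * (q * (j + 1) - i)) * r ^ (2 * j))) := by
  have hφ : 0 < φ := lt_of_lt_of_le (Real.exp_pos V) hV
  obtain ⟨hm0, hr0⟩ := pos_of hq hm hr h hφ
  have hA0 : 0 ≤ A := by linarith
  have hq0 : (0 : ℝ) < q := by exact_mod_cast hq
  have hx1 : (i : ℝ) / q ≤ 1 := by
    rw [div_le_one hq0]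
    exact_mod_cast hi
  have hj : (0 : ℝ) ≤ j := Nat.cast_nonneg j
  have h1 := minus j q i A φ m r hq hi hA hφ hm0 hr0 h
  have h2 : Real.exp (2 * (((j + 2 : ℕ) : ℝ) - (i : ℝ) / q) * V) =
      (Real.exp V) ^ (2 * (((j + 2 : ℕ) : ℝ) - (i : ℝ) / q)) := by
    rw [← Real.exp_mul, mul_comm V]
  have h3 : (Real.exp V) ^ (2 * (((j + 2 : ℕ) : ℝ) - (i : ℝ) / q)) ≤
      φ ^ (2 * (((j + 2 : ℕ) : ℝ) - (i : ℝ) / q)) :=
    Real.rpow_le_rpow (Real.exp_pos V).le hV (by push_cast; linarith)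
  have h4 : φ ^ (2 * (((j + 2 : ℕ) : ℝ) - (i : ℝ) / q)) =
      φ ^ 2 * φ ^ (2 * ((j : ℝ) + 1) - 2 * ((i : ℝ) / q)) := by
    rw [← Real.rpow_natCast φ 2, ← Real.rpow_add hφ]
    congr 1
    push_cast
    ring
  rw [h2]
  refine h3.trans ?_
  rw [h4]
  calc φ ^ 2 * φ ^ (2 * ((j : ℝ) + 1) - 2 * ((i : ℝ) / q))
      ≤ φ ^ 2 * (A ^ (2 * (j + 2)) *
      (m ^ (2 * (q * (j + 1) - i)) * (r ^ (2 * (j + 1)) + r ^ (2 * j)))) := by gcongr
    _ = _ := by ring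

end I_PwG

/-- **G1 (PwG).** -/
theorem PwG_pf : S_PwG := by
  intro k q i A φ m r hk hq hi hA hφ hm hr h
  obtain ⟨j, rfl⟩ : ∃ j, k = j + 2 := ⟨k - 2, by omega⟩
  have e1 : j + 2 - 1 = j + 1 := by omega
  have e2 : j + 2 - 2 = j := by omega
  rw [e1, e2]
  exact ⟨fun a b ha => I_PwG.P1 j q i A φ m r hq hi hA hm hr h a b ha,
    fun a ha => I_PwG.P2 j q i A φ m r hq hi hA hφ hm hr h a ha,
    fun V hV => I_PwG.P3 j q i A φ m r hq hi hA hm hr h V hV,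
    fun V hV => I_PwG.P4 j q i A φ m r hq hi hA hm hr h V hV⟩

end Pool.Agent.Work.MP_56b8f5_nt.WM
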