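import Pool.Agent.Work.MP_56b8f5_nt.WM.StmtsG
import Pool.Agent.Work.MP_56b8f5_nt.WM.I_Sca

/-!
MP_56b8f5_nt, block WMG, item G7 (ScaG): `S_Sca` with two more parts.
-/

set_option autoImplicit false

open MeasureTheory Set Filter Topology

noncomputable section

namespace Pool.Agent.Work.MP_56b8f5_nt.WM

open Pool.Agent.Work.MP_56b8f5_nt.EM

namespace I_ScaG

/-- The integral over a smaller part of `[T, 2T]`. -/
lemma int_mono (k : ℕ) (T : ℝ) (P Q : ℝ → Prop) (h : ∀ t, t ∈ Icc T (2 * T) ∧ P t →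
    t ∈ Icc T (2 * T) ∧ Q t) :
    ∫ t in {t | t ∈ Icc T (2 * T) ∧ P t}, az t ^ (2 * k) ≤
      ∫ t in {t | t ∈ Icc T (2 * T) ∧ Q t}, az t ^ (2 * k) := by
  refine setIntegral_mono_set ?_ (ae_of_all _ fun x => pow_nonneg (norm_nonneg _) _)
    (LE.le.eventuallyLE fun t ht => h t ht)
  exact ((I_Sca.cont_az.pow (2 * k)).integrableOn_Icc (a := T) (b := 2 * T)).mono_set
    fun t ht => ht.1

end I_ScaG

open I_Sca I_ScaG in
/-- **G7 (ScaG).** -/
theorem ScaG_pf (h1 : S_Par) (h2 : S_WinS) (h3 : S_UpS) (h4 : S_Wts) (h5 : S_ScaU)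
    (h6 : S_ScaL) : S_ScaG := by
  intro k hk
  obtain ⟨w₁, w₂, hw1, hw2, hW0, hs1, hs2⟩ := h4
  obtain ⟨C₁, hC₁, hpar⟩ := h1 k (by omega)
  obtain ⟨c₂, C₂, T₂, hc₂, hC₂, hWin⟩ := h2 w₁ hw1 hW0 k C₁ hk hC₁
  obtain ⟨C₃, T₃, hC₃, hUp⟩ := h3 w₂ hw2 k C₁ hk hC₁
  obtain ⟨C₅, hC₅, hSU⟩ := h5 k C₁ hk hC₁
  obtain ⟨C₆, hC₆, hSL⟩ := h6 k C₁ hk hC₁
  have hp2 : (1 : ℝ) ≤ 2 ^ (k ^ 2) := one_le_pow₀ (by norm_num)
  have hk0 : (0 : ℝ) ≤ k := Nat.cast_nonneg k
  have hCC : 0 ≤ 4 * 2 ^ (k ^ 2) * C₃ := by positivity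
  have h4T : Tendsto (fun T : ℝ => 4 * T) atTop atTop :=
    tendsto_id.const_mul_atTop (by norm_num)
  obtain ⟨E, hE⟩ : ∃ E : ℝ, E = C₅ + C₆ := ⟨_, rfl⟩
  refine ⟨c₂, 2 * C₂ + k + 4 * 2 ^ (k ^ 2) * C₃ + E, hc₂, by linarith, ?_⟩
  filter_upwards [h4T.eventually hpar, eventually_ge_atTop (65536 : ℝ), eventually_ge_atTop T₂,
    eventually_ge_atTop T₃, hSU, hSL] with T hpT hT hT2 hT3 hTU hTL
  obtain ⟨q, y, z, hp⟩ := hpT
  have hT0 : (0 : ℝ) < T := by linarith
  have h4T0 : (0 : ℝ) < 4 * T := by linarith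
  obtain ⟨l1, l2, l3, l4, l5⟩ := logs hT
  have hlog : 0 < Real.log T := by
    have := Real.log_pos (by linarith : 1 < T)
    exact this
  refine ⟨q, y, z, hp.hq, hp.hy, hp.hyz, len hT hp.hN, ?_, ?_, ?_, ?_⟩
  · intro A hA
    have hU := hUp (4 * T) (by linarith) q y z hp A hA
    have hSm : MeasurableSet {t | t ∈ Icc T (2 * T) ∧ az t ≤ A * (aM q y t ^ q * aR y z t)} := by
      refine measurableSet_Icc.inter ?_
      exact measurableSet_le cont_az.measurable
        (((((cont_aM q y).pow q).mul (cont_aR y z)).measurable).const_mul A)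
    rw [cov h4T0 hSm]
    have cφ : Continuous fun u : ℝ => az (4 * T * u) := cont_az.comp (by fun_prop)
    have cm : Continuous fun u : ℝ => aM q y (4 * T * u) := (cont_aM q y).comp (by fun_prop)
    have cr : Continuous fun u : ℝ => aR y z (4 * T * u) := (cont_aR y z).comp (by fun_prop)
    set U : Set ℝ := {u | az (4 * T * u) ≤ A * (aM q y (4 * T * u) ^ q * aR y z (4 * T * u))}
      with hUd
    have hUm : MeasurableSet U := measurableSet_le cφ.measurable
      ((((cm.pow q).mul cr).measurable).const_mul A)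
    set V : Set ℝ := {u | 4 * T * u ∈ {t | t ∈ Icc T (2 * T) ∧
      az t ≤ A * (aM q y t ^ q * aR y z t)}} with hVd
    have hVm : MeasurableSet V := (measurable_const_mul (4 * T)) hSm
    have hVU : V ⊆ U := fun u hu => hu.2
    have hV1 : ∀ u ∈ V, w₂ u = 1 := by
      intro u hu
      have h5 : T ≤ 4 * T * u := hu.1.1
      have h6 : 4 * T * u ≤ 2 * T := hu.1.2
      apply hs2
      · by_contra hc
        push Not at hc
        nlinarith
      · by_contra hc
        push Not at hc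
        nlinarith
    have hint : Integrable fun u => w₂ u * az (4 * T * u) ^ (2 * k) := by
      have h7 : Continuous fun u => w₂ u * az (4 * T * u) ^ (2 * k) :=
        hw2.smooth.continuous.mul (cφ.pow _)
      rw [← integrableOn_iff_integrable_of_support_subset (s := Icc (0 : ℝ) 1)]
      · exact h7.integrableOn_Icc
      · intro u hu
        obtain ⟨c, hc, h⟩ := hw2.supp
        have hu' : w₂ u ≠ 0 := by
          intro h0
          apply hu
          simp [h0]
        exact ⟨hc.le.trans (h u hu').1, (h u hu').2⟩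
    have e1 : ∫ u in V, az (4 * T * u) ^ (2 * k) = ∫ u in V, w₂ u * az (4 * T * u) ^ (2 * k) := by
      refine setIntegral_congr_fun hVm fun u hu => ?_
      simp only [hV1 u hu, one_mul]
    have e2 : ∫ u in V, w₂ u * az (4 * T * u) ^ (2 * k) ≤
        ∫ u in U, w₂ u * az (4 * T * u) ^ (2 * k) := by
      refine setIntegral_mono_set hint.integrableOn
        (ae_of_all _ fun x => mul_nonneg (hw2.nonneg x) (pow_nonneg (norm_nonneg _) _))
        (LE.le.eventuallyLE hVU)
    have e3 : ∫ u in V, az (4 * T * u) ^ (2 * k) ≤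
        C₃ * A ^ (2 * k - 2) * Real.log (4 * T) ^ (k ^ 2) := by
      rw [e1]
      exact e2.trans hU
    have e4 : Real.log (4 * T) ^ (k ^ 2) ≤ 2 ^ (k ^ 2) * Real.log T ^ (k ^ 2) := by
      rw [← mul_pow]
      exact pow_le_pow_left₀ (by linarith) l3 _
    have hA0 : 0 ≤ A ^ (2 * k - 2) := pow_nonneg (by linarith) _
    calc 4 * T * ∫ u in V, az (4 * T * u) ^ (2 * k)
        ≤ 4 * T * (C₃ * A ^ (2 * k - 2) * Real.log (4 * T) ^ (k ^ 2)) :=
          mul_le_mul_of_nonneg_left e3 h4T0.le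
      _ ≤ 4 * T * (C₃ * A ^ (2 * k - 2) * (2 ^ (k ^ 2) * Real.log T ^ (k ^ 2))) := by
          refine mul_le_mul_of_nonneg_left ?_ h4T0.le
          exact mul_le_mul_of_nonneg_left e4 (by positivity)
      _ = (4 * 2 ^ (k ^ 2) * C₃) * (A ^ (2 * k - 2) * T * Real.log T ^ (k ^ 2)) := by ring
      _ ≤ (2 * C₂ + k + 4 * 2 ^ (k ^ 2) * C₃ + E) *
            (A ^ (2 * k - 2) * T * Real.log T ^ (k ^ 2)) := by
          refine mul_le_mul_of_nonneg_right (by linarith) ?_
          positivity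
      _ = (2 * C₂ + k + 4 * 2 ^ (k ^ 2) * C₃ + E) * A ^ (2 * k - 2) * T *
            Real.log T ^ (k ^ 2) := by
          ring
  · have hW := hWin (4 * T) (by linarith) q y z hp
    set C : ℝ := 2 * C₂ + k + 4 * 2 ^ (k ^ 2) * C₃ + E with hCd
    have hSm : MeasurableSet {t | t ∈ Icc T (2 * T) ∧ az t ≤ C * (aM q y t ^ q * aR y z t) ∧
      |Real.log (az t) - k * Real.log (Real.log T)| ≤ C * Real.sqrt (Real.log (Real.log T))} := by
      refine measurableSet_Icc.inter (MeasurableSet.inter ?_ ?_)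
      · exact measurableSet_le cont_az.measurable
          (((((cont_aM q y).pow q).mul (cont_aR y z)).measurable).const_mul C)
      · have h7 : Measurable fun t : ℝ => Real.log (az t) :=
          Real.measurable_log.comp cont_az.measurable
        have h8 : Measurable fun t : ℝ => |Real.log (az t) - k * Real.log (Real.log T)| :=
          continuous_abs.measurable.comp (h7.sub_const _)
        exact measurableSet_le h8 measurable_const
    rw [cov h4T0 hSm]
    have cφ : Continuous fun u : ℝ => az (4 * T * u) := cont_az.comp (by fun_prop)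
    set V : Set ℝ := {u | 4 * T * u ∈ {t | t ∈ Icc T (2 * T) ∧
      az t ≤ C * (aM q y t ^ q * aR y z t) ∧
      |Real.log (az t) - k * Real.log (Real.log T)| ≤ C * Real.sqrt (Real.log (Real.log T))}}
      with hVd
    have hVI : V ⊆ Icc (0 : ℝ) 1 := by
      intro u hu
      have h5 : T ≤ 4 * T * u := hu.1.1
      have h6 : 4 * T * u ≤ 2 * T := hu.1.2
      refine ⟨?_, ?_⟩
      · by_contra hc
        push Not at hc
        nlinarith
      · by_contra hc
        push Not at hc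
        nlinarith
    have hint : IntegrableOn (fun u => az (4 * T * u) ^ (2 * k)) V :=
      ((cφ.pow (2 * k)).integrableOn_Icc (a := 0) (b := 1)).mono_set hVI
    have hsub : {u | w₁ u ≠ 0} ∩ Win k q y z C₂ (4 * T) ⊆ V := by
      rintro u ⟨hu, hu1, hu2⟩
      obtain ⟨h5, h6⟩ := hs1 u hu
      have hMR : 0 ≤ aM q y (4 * T * u) ^ q * aR y z (4 * T * u) :=
        mul_nonneg (pow_nonneg (norm_nonneg _) _) (norm_nonneg _)
      refine ⟨⟨by nlinarith, by nlinarith⟩, ?_, ?_⟩
      · refine hu1.trans (mul_le_mul_of_nonneg_right ?_ hMR)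
        rw [hCd]
        linarith
      · set s : ℝ := Real.sqrt (Real.log (Real.log T)) with hs
        have hs1' : 1 ≤ s := by
          rw [hs]
          exact Real.one_le_sqrt.2 l1
        have hs2' : Real.sqrt (Real.log (Real.log (4 * T))) ≤ 2 * s := by
          rw [Real.sqrt_le_left (by linarith), mul_pow, hs, Real.sq_sqrt (by linarith)]
          linarith
        have h8 : |Real.log (az (4 * T * u)) - k * Real.log (Real.log (4 * T))| ≤ C₂ * (2 * s) :=
          hu2.trans (mul_le_mul_of_nonneg_left hs2' (by linarith))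
        rw [abs_le] at h8 ⊢
        have h9 : (k : ℝ) * Real.log (Real.log T) ≤ k * Real.log (Real.log (4 * T)) :=
          mul_le_mul_of_nonneg_left l4 hk0
        have h10 : (k : ℝ) * Real.log (Real.log (4 * T)) ≤ k * Real.log (Real.log T) + k * s := by
          nlinarith [mul_le_mul_of_nonneg_left l5 hk0, mul_le_mul_of_nonneg_left hs1' hk0]
        have h11 : 0 ≤ 4 * 2 ^ (k ^ 2) * C₃ * s := mul_nonneg hCC (by linarith)
        have h12 : C * s = C₂ * (2 * s) + k * s + 4 * 2 ^ (k ^ 2) * C₃ * s + E * s := by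
          rw [hCd]
          ring
        have h14 : 0 ≤ E * s := mul_nonneg (by linarith) (by linarith)
        have h13 : 0 ≤ (k : ℝ) * s := mul_nonneg hk0 (by linarith)
        rw [h12]
        constructor
        · linarith [h8.1]
        · linarith [h8.2]
    have e1 : ∫ u in {u | w₁ u ≠ 0} ∩ Win k q y z C₂ (4 * T), az (4 * T * u) ^ (2 * k) ≤
        ∫ u in V, az (4 * T * u) ^ (2 * k) :=
      setIntegral_mono_set hint (ae_of_all _ fun x => pow_nonneg (norm_nonneg _) _)
        (LE.le.eventuallyLE hsub)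
    have e2 : Real.log T ^ (k ^ 2) ≤ Real.log (4 * T) ^ (k ^ 2) :=
      pow_le_pow_left₀ hlog.le l2 _
    have e3 : c₂ * Real.log T ^ (k ^ 2) ≤ ∫ u in V, az (4 * T * u) ^ (2 * k) :=
      (mul_le_mul_of_nonneg_left e2 hc₂.le).trans (hW.trans e1)
    have e4 : 0 ≤ c₂ * Real.log T ^ (k ^ 2) := by positivity
    calc c₂ * T * Real.log T ^ (k ^ 2) = T * (c₂ * Real.log T ^ (k ^ 2)) := by ring
      _ ≤ 4 * T * (c₂ * Real.log T ^ (k ^ 2)) := by nlinarith
      _ ≤ 4 * T * ∫ u in V, az (4 * T * u) ^ (2 * k) := mul_le_mul_of_nonneg_left e3 h4T0.le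
  · intro A K hA hK hKs
    have hU := hTU q y z hp A K hA hK hKs
    refine (int_mono k T _ _ ?_).trans (hU.trans ?_)
    · rintro t ⟨a1, a2, a3⟩
      refine ⟨a1, a2, lt_of_le_of_lt ?_ a3⟩
      refine mul_le_mul_of_nonneg_right (mul_le_mul_of_nonneg_right ?_ (by linarith))
        (Real.sqrt_nonneg _)
      linarith
    · have hA0 : 0 ≤ A ^ (2 * k) := pow_nonneg (by linarith) _
      have hX : 0 ≤ A ^ (2 * k) * Real.exp (-(K ^ 2)) * T * Real.log T ^ (k ^ 2) := by positivity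
      calc C₅ * A ^ (2 * k) * Real.exp (-(K ^ 2)) * T * Real.log T ^ (k ^ 2)
          = C₅ * (A ^ (2 * k) * Real.exp (-(K ^ 2)) * T * Real.log T ^ (k ^ 2)) := by ring
        _ ≤ (2 * C₂ + k + 4 * 2 ^ (k ^ 2) * C₃ + E) *
            (A ^ (2 * k) * Real.exp (-(K ^ 2)) * T * Real.log T ^ (k ^ 2)) :=
          mul_le_mul_of_nonneg_right (by linarith) hX
        _ = (2 * C₂ + k + 4 * 2 ^ (k ^ 2) * C₃ + E) * A ^ (2 * k) * Real.exp (-(K ^ 2)) * T *
            Real.log T ^ (k ^ 2) := by ring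
  · intro A V hA hV1 hV2
    have hU := hTL q y z hp A V hA hV1 hV2
    refine hU.trans ?_
    have hA0 : 0 ≤ A ^ (2 * k) := pow_nonneg (by linarith) _
    have hL0 : 0 ≤ Real.log (Real.log T) ^ (k + 1) := pow_nonneg (by linarith) _
    have hX : 0 ≤ A ^ (2 * k) * T * Real.exp (-(V ^ 2 / Real.log (Real.log T))) *
        Real.log (Real.log T) ^ (k + 1) :=
      mul_nonneg (mul_nonneg (mul_nonneg hA0 hT0.le) (Real.exp_pos _).le) hL0
    calc C₆ * A ^ (2 * k) * T * Real.exp (-(V ^ 2 / Real.log (Real.log T))) *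
          Real.log (Real.log T) ^ (k + 1)
        = C₆ * (A ^ (2 * k) * T * Real.exp (-(V ^ 2 / Real.log (Real.log T))) *
          Real.log (Real.log T) ^ (k + 1)) := by ring
      _ ≤ (2 * C₂ + k + 4 * 2 ^ (k ^ 2) * C₃ + E) *
          (A ^ (2 * k) * T * Real.exp (-(V ^ 2 / Real.log (Real.log T))) *
          Real.log (Real.log T) ^ (k + 1)) :=
        mul_le_mul_of_nonneg_right (by linarith) hX
      _ = (2 * C₂ + k + 4 * 2 ^ (k ^ 2) * C₃ + E) * A ^ (2 * k) * T *
          Real.exp (-(V ^ 2 / Real.log (Real.log T))) * Real.log (Real.log T) ^ (k + 1) := by ring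

end Pool.Agent.Work.MP_56b8f5_nt.WM
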