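import Pool.Agent.Work.MP_56b8f5_nt.WM.StmtsG

/-!
MP_56b8f5_nt, block WMG, item G6 (ScaL): G4 from the scale `4T` to `[T, 2T]`.
-/

set_option autoImplicit false

open MeasureTheory Set Filter Topology

noncomputable section

namespace Pool.Agent.Work.MP_56b8f5_nt.WM

open Pool.Agent.Work.MP_56b8f5_nt.EM

namespace I_ScaL

lemma cont_az : Continuous az := by
  unfold az
  refine continuous_iff_continuousAt.2 fun t => ?_
  have h1 : (1 / 2 + (t : ℂ) * Complex.I) ≠ 1 := by
    intro h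
    have := congrArg Complex.re h
    norm_num at this
  have h2 : ContinuousAt riemannZeta (1 / 2 + (t : ℂ) * Complex.I) :=
    (differentiableAt_riemannZeta h1).continuousAt
  have h3 : ContinuousAt (fun t : ℝ => (1 / 2 + (t : ℂ) * Complex.I)) t := by fun_prop
  exact (ContinuousAt.comp (f := fun t : ℝ => (1 / 2 + (t : ℂ) * Complex.I)) h2 h3).norm

lemma cont_DP (b : ℕ → ℝ) (X : ℕ) : Continuous (DP b X) := by
  unfold DP
  refine continuous_finsetSum _ fun n _ => ?_
  refine continuous_const.mul ?_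
  rcases Nat.eq_zero_or_pos n with rfl | hn
  · have : (fun t : ℝ => ((0 : ℕ) : ℂ) ^ (-(1 / 2 + (t : ℂ) * Complex.I))) = fun _ => 0 := by
      funext t
      rw [Nat.cast_zero, Complex.zero_cpow]
      intro h
      have := congrArg Complex.re h
      simp at this
    rw [this]
    exact continuous_const
  · refine Continuous.const_cpow (by fun_prop) (Or.inl ?_)
    exact_mod_cast hn.ne'

lemma cont_aM (q y : ℕ) : Continuous (aM q y) := (cont_DP _ _).norm

lemma cont_aR (y z : ℕ) : Continuous (aR y z) := (cont_DP _ _).norm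

/-- change of variables -/
lemma cov {a : ℝ} (ha : 0 < a) {S : Set ℝ} (hS : MeasurableSet S) (f : ℝ → ℝ) :
    ∫ t in S, f t = a * ∫ u in {u | a * u ∈ S}, f (a * u) := by
  have hS' : MeasurableSet {u | a * u ∈ S} := (measurable_const_mul a) hS
  rw [← integral_indicator hS, ← integral_indicator hS']
  have h := Measure.integral_comp_mul_left (S.indicator f) a
  have h2 : ({u | a * u ∈ S}.indicator fun u => f (a * u)) = fun x => S.indicator f (a * x) := by
    funext x
    by_cases hx : a * x ∈ S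
    · rw [indicator_of_mem hx, indicator_of_mem (show x ∈ {u | a * u ∈ S} from hx)]
    · rw [indicator_of_notMem hx, indicator_of_notMem (show x ∉ {u | a * u ∈ S} from hx)]
  rw [h2, h, abs_of_pos (inv_pos.2 ha), smul_eq_mul, ← mul_assoc, mul_inv_cancel₀ ha.ne', one_mul]

/-- logarithms -/
lemma logs {T : ℝ} (hT : 65536 ≤ T) : 1 ≤ Real.log (Real.log T) ∧
    Real.log T ≤ Real.log (4 * T) ∧ Real.log (4 * T) ≤ 2 * Real.log T ∧
    Real.log (Real.log T) ≤ Real.log (Real.log (4 * T)) ∧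
    Real.log (Real.log (4 * T)) ≤ Real.log (Real.log T) + 1 := by
  have hT0 : (0 : ℝ) < T := by linarith
  have he : Real.exp 1 ≤ 3 := by linarith [Real.exp_one_lt_d9]
  have h1 : 3 ≤ Real.log T := by
    rw [Real.le_log_iff_exp_le hT0]
    have : Real.exp 3 = Real.exp 1 ^ 3 := by
      rw [← Real.exp_nat_mul]
      norm_num
    rw [this]
    calc Real.exp 1 ^ 3 ≤ 3 ^ 3 := pow_le_pow_left₀ (Real.exp_pos _).le he 3
      _ ≤ T := by linarith
  have h2 : 1 ≤ Real.log (Real.log T) := by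
    rw [Real.le_log_iff_exp_le (by linarith)]
    linarith
  have h3 : Real.log T ≤ Real.log (4 * T) := Real.log_le_log hT0 (by linarith)
  have h4 : Real.log (4 * T) ≤ 2 * Real.log T := by
    rw [Real.log_mul (by norm_num) hT0.ne']
    have : Real.log 4 ≤ Real.log T := Real.log_le_log (by norm_num) (by linarith)
    linarith
  refine ⟨h2, h3, h4, Real.log_le_log (by linarith) h3, ?_⟩
  have h5 : Real.log (Real.log (4 * T)) ≤ Real.log (2 * Real.log T) :=
    Real.log_le_log (by linarith) h4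
  rw [Real.log_mul (by norm_num) (by linarith : (0:ℝ) < Real.log T).ne'] at h5
  have : Real.log 2 ≤ 1 := by linarith [Real.log_two_lt_d9]
  linarith

/-- the difference of the double logarithms is small -/
lemma loglog {T : ℝ} (hT : 65536 ≤ T) (k : ℕ) (h : ((k : ℝ) + 1) * Real.log 4 ≤ Real.log T) :
    Real.log (Real.log (4 * T)) ≤ Real.log (Real.log T) + 1 / ((k : ℝ) + 1) := by
  have hT0 : (0 : ℝ) < T := by linarith
  have hlog : 0 < Real.log T := Real.log_pos (by linarith : 1 < T)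
  have hk : (0 : ℝ) < (k : ℝ) + 1 := by positivity
  have h1 : Real.log (4 * T) ≤ (1 + 1 / ((k : ℝ) + 1)) * Real.log T := by
    rw [Real.log_mul (by norm_num) hT0.ne']
    have h2 : Real.log 4 ≤ 1 / ((k : ℝ) + 1) * Real.log T := by
      rw [one_div, inv_mul_eq_div, le_div_iff₀ hk]
      linarith
    linarith
  have h2 : Real.log (Real.log (4 * T)) ≤ Real.log ((1 + 1 / ((k : ℝ) + 1)) * Real.log T) :=
    Real.log_le_log (Real.log_pos (by linarith)) h1
  have h3 : (0 : ℝ) < 1 + 1 / ((k : ℝ) + 1) := by positivity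
  rw [Real.log_mul h3.ne' hlog.ne'] at h2
  have h4 := Real.log_le_sub_one_of_pos h3
  linarith

end I_ScaL

open I_ScaL in
/-- **G6 (ScaL).** -/
theorem ScaL_pf (h1 : S_LdG) (h2 : S_Wts) : S_ScaL := by
  intro k C hk hC
  obtain ⟨_, w₂, _, hw2, _, _, hs2⟩ := h2
  obtain ⟨C₂, T₂, hC₂, hUp⟩ := h1 w₂ hw2 k C hk hC
  have hp2 : (1 : ℝ) ≤ 2 ^ (k + 1) := one_le_pow₀ (by norm_num)
  have hk0 : (0 : ℝ) ≤ k := Nat.cast_nonneg k
  have hk2 : (2 : ℝ) ≤ k := by exact_mod_cast hk
  have hE : (1 : ℝ) ≤ Real.exp ((k : ℝ) + 1) := Real.one_le_exp (by linarith)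
  have hC1 : 1 ≤ 4 * 2 ^ (k + 1) * Real.exp ((k : ℝ) + 1) * C₂ := by
    have h3 : (1 : ℝ) ≤ 2 ^ (k + 1) * Real.exp ((k : ℝ) + 1) := one_le_mul_of_one_le_of_one_le hp2 hE
    have h4 : (1 : ℝ) ≤ 2 ^ (k + 1) * Real.exp ((k : ℝ) + 1) * C₂ :=
      one_le_mul_of_one_le_of_one_le h3 hC₂
    nlinarith
  refine ⟨4 * 2 ^ (k + 1) * Real.exp ((k : ℝ) + 1) * C₂, hC1, ?_⟩
  filter_upwards [eventually_ge_atTop (65536 : ℝ), eventually_ge_atTop T₂,
    Real.tendsto_log_atTop.eventually_ge_atTop (((k : ℝ) + 1) * Real.log 4)] with T hT hT2 hT3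
  intro q y z hp A V hA hV1 hV2
  have hT0 : (0 : ℝ) < T := by linarith
  have h4T0 : (0 : ℝ) < 4 * T := by linarith
  obtain ⟨l1, l2, l3, l4, _⟩ := logs hT
  have l5 := loglog hT k hT3
  set L : ℝ := Real.log (Real.log T) with hL
  set L' : ℝ := Real.log (Real.log (4 * T)) with hL'
  have hL'0 : 0 < L' := by linarith
  have hk1 : (0 : ℝ) < (k : ℝ) + 1 := by linarith
  have hδ : 1 / ((k : ℝ) + 1) * ((k : ℝ) + 1) = 1 := by
    rw [one_div, inv_mul_cancel₀ hk1.ne']
  have hδ0 : 0 < 1 / ((k : ℝ) + 1) := by positivity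
  have hV0 : 0 ≤ V := le_trans (mul_nonneg (by linarith) (by linarith)) hV1
  have hVa : ((k : ℝ) - 1) * L' - 1 ≤ V := by
    have h5 : ((k : ℝ) - 1) * L' ≤ ((k : ℝ) - 1) * (L + 1 / ((k : ℝ) + 1)) :=
      mul_le_mul_of_nonneg_left l5 (by linarith)
    nlinarith
  have hVb : V ≤ ((k : ℝ) + 1) * L' := hV2.trans (mul_le_mul_of_nonneg_left l4 hk1.le)
  have hU := hUp (4 * T) (by linarith) q y z hp A V hA hVa hVb
  set S : Set ℝ := {t | t ∈ Icc T (2 * T) ∧ az t ≤ A * (aM q y t ^ q * aR y z t) ∧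
      Real.exp V ≤ az t} with hS
  have hSm : MeasurableSet S := by
    refine measurableSet_Icc.inter (MeasurableSet.inter ?_ ?_)
    · exact measurableSet_le cont_az.measurable
        (((((cont_aM q y).pow q).mul (cont_aR y z)).measurable).const_mul A)
    · exact measurableSet_le measurable_const cont_az.measurable
  have hvol : volume.real S = ∫ _ in S, (1 : ℝ) := by simp
  rw [hvol, cov h4T0 hSm (fun _ => 1)]
  set U : Set ℝ := {u | az (4 * T * u) ≤ A * (aM q y (4 * T * u) ^ q * aR y z (4 * T * u)) ∧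
      Real.exp V ≤ az (4 * T * u)} with hUd
  set R : Set ℝ := {u | 4 * T * u ∈ S} with hRd
  have hRm : MeasurableSet R := (measurable_const_mul (4 * T)) hSm
  have hRU : R ⊆ U := fun u hu => hu.2
  have hR1 : ∀ u ∈ R, w₂ u = 1 := by
    intro u hu
    have h5 : T ≤ 4 * T * u := hu.1.1
    have h6 : 4 * T * u ≤ 2 * T := hu.1.2
    apply hs2
    · by_contra hc
      push Not at hc
      nlinarith
    · by_contra hc
      push Not at hc
      nlinarith
  have hint : Integrable fun u => w₂ u := by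
    have h7 : Continuous fun u => w₂ u := hw2.smooth.continuous
    rw [← integrableOn_iff_integrable_of_support_subset (s := Icc (0 : ℝ) 1)]
    · exact h7.integrableOn_Icc
    · intro u hu
      obtain ⟨c, hc, h⟩ := hw2.supp
      exact ⟨hc.le.trans (h u hu).1, (h u hu).2⟩
  have e1 : ∫ _ in R, (1 : ℝ) = ∫ u in R, w₂ u := by
    refine setIntegral_congr_fun hRm fun u hu => ?_
    simp only [hR1 u hu]
  have e2 : ∫ u in R, w₂ u ≤ ∫ u in U, w₂ u :=
    setIntegral_mono_set hint.integrableOn (ae_of_all _ fun x => hw2.nonneg x)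
      (LE.le.eventuallyLE hRU)
  have e3 : ∫ _ in R, (1 : ℝ) ≤ C₂ * A ^ (2 * k) * Real.exp (-(V ^ 2 / L')) * L' ^ (k + 1) := by
    rw [e1]
    exact e2.trans hU
  have e4 : L' ^ (k + 1) ≤ 2 ^ (k + 1) * L ^ (k + 1) := by
    rw [← mul_pow]
    refine pow_le_pow_left₀ hL'0.le ?_ _
    have h5 : 1 / ((k : ℝ) + 1) ≤ 1 := by
      rw [div_le_one hk1]
      linarith
    linarith
  have hL0 : 0 < L := by linarith
  have e5 : V ^ 2 / L ≤ V ^ 2 / L' + (k + 1) := by
    have h5 : V ^ 2 ≤ (((k : ℝ) + 1) * L) ^ 2 := pow_le_pow_left₀ hV0 hV2 2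
    have h6 : V ^ 2 / L - V ^ 2 / L' = V ^ 2 * (L' - L) / (L * L') := by
      field_simp
    have h7 : V ^ 2 * (L' - L) / (L * L') ≤ (k : ℝ) + 1 := by
      rw [div_le_iff₀ (by positivity)]
      have h8 : V ^ 2 * (L' - L) ≤ (((k : ℝ) + 1) * L) ^ 2 * (1 / ((k : ℝ) + 1)) :=
        mul_le_mul h5 (by linarith) (by linarith) (by positivity)
      have h9 : (((k : ℝ) + 1) * L) ^ 2 * (1 / ((k : ℝ) + 1)) = ((k : ℝ) + 1) * (L * L) := by
        field_simp
      have h10 : ((k : ℝ) + 1) * (L * L) ≤ ((k : ℝ) + 1) * (L * L') :=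
        mul_le_mul_of_nonneg_left (mul_le_mul_of_nonneg_left l4 hL0.le) hk1.le
      linarith
    linarith
  have e6 : Real.exp (-(V ^ 2 / L')) ≤ Real.exp ((k : ℝ) + 1) * Real.exp (-(V ^ 2 / L)) := by
    rw [← Real.exp_add]
    exact Real.exp_le_exp.2 (by linarith)
  have hA0 : 0 ≤ A ^ (2 * k) := pow_nonneg (by linarith) _
  have e7 : C₂ * A ^ (2 * k) * Real.exp (-(V ^ 2 / L')) * L' ^ (k + 1) ≤
      C₂ * A ^ (2 * k) * (Real.exp ((k : ℝ) + 1) * Real.exp (-(V ^ 2 / L))) *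
        (2 ^ (k + 1) * L ^ (k + 1)) := by
    refine mul_le_mul (mul_le_mul_of_nonneg_left e6 (by positivity)) e4 (by positivity)
      (by positivity)
  calc 4 * T * ∫ _ in R, (1 : ℝ)
      ≤ 4 * T * (C₂ * A ^ (2 * k) * (Real.exp ((k : ℝ) + 1) * Real.exp (-(V ^ 2 / L))) *
        (2 ^ (k + 1) * L ^ (k + 1))) := mul_le_mul_of_nonneg_left (e3.trans e7) h4T0.le
    _ = 4 * 2 ^ (k + 1) * Real.exp ((k : ℝ) + 1) * C₂ * A ^ (2 * k) * T *
          Real.exp (-(V ^ 2 / L)) * L ^ (k + 1) := by ring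

end Pool.Agent.Work.MP_56b8f5_nt.WM
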