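import Pool.Agent.Work.MP_56b8f5_nt.WM.StmtsG

/-!
MP_56b8f5_nt, block WMG, item G5 (ScaU): G3 from the scale `4T` to `[T, 2T]`.
-/

set_option autoImplicit false

open MeasureTheory Set Filter Topology

noncomputable section

namespace Pool.Agent.Work.MP_56b8f5_nt.WM

open Pool.Agent.Work.MP_56b8f5_nt.EM

namespace I_ScaU

lemma cont_az : Continuous az := by
  unfold az
  refine continuous_iff_continuousAt.2 fun t => ?_
  have h1 : (1 / 2 + (t : ℂ) * Complex.I) ≠ 1 := by
    intro h
    have := congrArg Complex.re h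
    norm_num at this
  have h2 : ContinuousAt riemannZeta (1 / 2 + (t : ℂ) * Complex.I) :=
    (differentiableAt_riemannZeta h1).continuousAt
  have h3 : ContinuousAt (fun t : ℝ => (1 / 2 + (t : ℂ) * Complex.I)) t := by fun_prop
  exact (ContinuousAt.comp (f := fun t : ℝ => (1 / 2 + (t : ℂ) * Complex.I)) h2 h3).norm

lemma cont_DP (b : ℕ → ℝ) (X : ℕ) : Continuous (DP b X) := by
  unfold DP
  refine continuous_finsetSum _ fun n _ => ?_
  refine continuous_const.mul ?_
  rcases Nat.eq_zero_or_pos n with rfl | hn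
  · have : (fun t : ℝ => ((0 : ℕ) : ℂ) ^ (-(1 / 2 + (t : ℂ) * Complex.I))) = fun _ => 0 := by
      funext t
      rw [Nat.cast_zero, Complex.zero_cpow]
      intro h
      have := congrArg Complex.re h
      simp at this
    rw [this]
    exact continuous_const
  · refine Continuous.const_cpow (by fun_prop) (Or.inl ?_)
    exact_mod_cast hn.ne'

lemma cont_aM (q y : ℕ) : Continuous (aM q y) := (cont_DP _ _).norm

lemma cont_aR (y z : ℕ) : Continuous (aR y z) := (cont_DP _ _).norm

/-- change of variables -/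
lemma cov {a : ℝ} (ha : 0 < a) {S : Set ℝ} (hS : MeasurableSet S) (f : ℝ → ℝ) :
    ∫ t in S, f t = a * ∫ u in {u | a * u ∈ S}, f (a * u) := by
  have hS' : MeasurableSet {u | a * u ∈ S} := (measurable_const_mul a) hS
  rw [← integral_indicator hS, ← integral_indicator hS']
  have h := Measure.integral_comp_mul_left (S.indicator f) a
  have h2 : ({u | a * u ∈ S}.indicator fun u => f (a * u)) = fun x => S.indicator f (a * x) := by
    funext x
    by_cases hx : a * x ∈ S
    · rw [indicator_of_mem hx, indicator_of_mem (show x ∈ {u | a * u ∈ S} from hx)]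
    · rw [indicator_of_notMem hx, indicator_of_notMem (show x ∉ {u | a * u ∈ S} from hx)]
  rw [h2, h, abs_of_pos (inv_pos.2 ha), smul_eq_mul, ← mul_assoc, mul_inv_cancel₀ ha.ne', one_mul]

/-- logarithms -/
lemma logs {T : ℝ} (hT : 65536 ≤ T) : 1 ≤ Real.log (Real.log T) ∧
    Real.log T ≤ Real.log (4 * T) ∧ Real.log (4 * T) ≤ 2 * Real.log T ∧
    Real.log (Real.log T) ≤ Real.log (Real.log (4 * T)) ∧
    Real.log (Real.log (4 * T)) ≤ Real.log (Real.log T) + 1 := by
  have hT0 : (0 : ℝ) < T := by linarith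
  have he : Real.exp 1 ≤ 3 := by linarith [Real.exp_one_lt_d9]
  have h1 : 3 ≤ Real.log T := by
    rw [Real.le_log_iff_exp_le hT0]
    have : Real.exp 3 = Real.exp 1 ^ 3 := by
      rw [← Real.exp_nat_mul]
      norm_num
    rw [this]
    calc Real.exp 1 ^ 3 ≤ 3 ^ 3 := pow_le_pow_left₀ (Real.exp_pos _).le he 3
      _ ≤ T := by linarith
  have h2 : 1 ≤ Real.log (Real.log T) := by
    rw [Real.le_log_iff_exp_le (by linarith)]
    linarith
  have h3 : Real.log T ≤ Real.log (4 * T) := Real.log_le_log hT0 (by linarith)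
  have h4 : Real.log (4 * T) ≤ 2 * Real.log T := by
    rw [Real.log_mul (by norm_num) hT0.ne']
    have : Real.log 4 ≤ Real.log T := Real.log_le_log (by norm_num) (by linarith)
    linarith
  refine ⟨h2, h3, h4, Real.log_le_log (by linarith) h3, ?_⟩
  have h5 : Real.log (Real.log (4 * T)) ≤ Real.log (2 * Real.log T) :=
    Real.log_le_log (by linarith) h4
  rw [Real.log_mul (by norm_num) (by linarith : (0:ℝ) < Real.log T).ne'] at h5
  have : Real.log 2 ≤ 1 := by linarith [Real.log_two_lt_d9]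
  linarith

end I_ScaU

open I_ScaU in
/-- **G5 (ScaU).** -/
theorem ScaU_pf (h1 : S_UpG) (h2 : S_Wts) : S_ScaU := by
  intro k C hk hC
  obtain ⟨_, w₂, _, hw2, _, _, hs2⟩ := h2
  obtain ⟨C₂, T₂, hC₂, hUp⟩ := h1 w₂ hw2 k C hk hC
  have hp2 : (1 : ℝ) ≤ 2 ^ (k ^ 2) := one_le_pow₀ (by norm_num)
  have hk0 : (0 : ℝ) ≤ k := Nat.cast_nonneg k
  have hCC : 0 ≤ 4 * 2 ^ (k ^ 2) * C₂ := by positivity
  refine ⟨2 * C₂ + k + 4 * 2 ^ (k ^ 2) * C₂, by linarith, ?_⟩
  filter_upwards [eventually_ge_atTop (65536 : ℝ), eventually_ge_atTop T₂] with T hT hT2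
  intro q y z hp A K hA hK hKs
  have hT0 : (0 : ℝ) < T := by linarith
  have h4T0 : (0 : ℝ) < 4 * T := by linarith
  obtain ⟨l1, l2, l3, l4, l5⟩ := logs hT
  have hlog : 0 < Real.log T := Real.log_pos (by linarith : 1 < T)
  have hsq : Real.sqrt (Real.log (Real.log T)) ≤ Real.sqrt (Real.log (Real.log (4 * T))) :=
    Real.sqrt_le_sqrt l4
  have hU := hUp (4 * T) (by linarith) q y z hp A K hA hK (hKs.trans hsq)
  set C' : ℝ := 2 * C₂ + k + 4 * 2 ^ (k ^ 2) * C₂ with hC'd
  have hSm : MeasurableSet {t | t ∈ Icc T (2 * T) ∧ az t ≤ A * (aM q y t ^ q * aR y z t) ∧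
      C' * K * Real.sqrt (Real.log (Real.log T)) <
        |Real.log (az t) - k * Real.log (Real.log T)|} := by
    refine measurableSet_Icc.inter (MeasurableSet.inter ?_ ?_)
    · exact measurableSet_le cont_az.measurable
        (((((cont_aM q y).pow q).mul (cont_aR y z)).measurable).const_mul A)
    · have h7 : Measurable fun t : ℝ => Real.log (az t) :=
        Real.measurable_log.comp cont_az.measurable
      have h8 : Measurable fun t : ℝ => |Real.log (az t) - k * Real.log (Real.log T)| :=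
        continuous_abs.measurable.comp (h7.sub_const _)
      exact measurableSet_lt measurable_const h8
  rw [cov h4T0 hSm]
  have cφ : Continuous fun u : ℝ => az (4 * T * u) := cont_az.comp (by fun_prop)
  set U : Set ℝ := {u | az (4 * T * u) ≤ A * (aM q y (4 * T * u) ^ q * aR y z (4 * T * u)) ∧
      C₂ * K * Real.sqrt (Real.log (Real.log (4 * T))) <
        |Real.log (az (4 * T * u)) - k * Real.log (Real.log (4 * T))|} with hUd
  set V : Set ℝ := {u | 4 * T * u ∈ {t | t ∈ Icc T (2 * T) ∧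
      az t ≤ A * (aM q y t ^ q * aR y z t) ∧
      C' * K * Real.sqrt (Real.log (Real.log T)) <
        |Real.log (az t) - k * Real.log (Real.log T)|}} with hVd
  have hVm : MeasurableSet V := (measurable_const_mul (4 * T)) hSm
  have hVU : V ⊆ U := by
    rintro u ⟨_, hu1, hu2⟩
    refine ⟨hu1, ?_⟩
    set s : ℝ := Real.sqrt (Real.log (Real.log T)) with hs
    have hs1' : 1 ≤ s := by
      rw [hs]
      exact Real.one_le_sqrt.2 l1
    have hs2' : Real.sqrt (Real.log (Real.log (4 * T))) ≤ 2 * s := by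
      rw [Real.sqrt_le_left (by linarith), mul_pow, hs, Real.sq_sqrt (by linarith)]
      linarith
    have hKs1 : 1 ≤ K * s := by nlinarith
    have h8 : C₂ * K * Real.sqrt (Real.log (Real.log (4 * T))) ≤ 2 * C₂ * (K * s) := by
      have h9 : C₂ * K * Real.sqrt (Real.log (Real.log (4 * T))) ≤ C₂ * K * (2 * s) :=
        mul_le_mul_of_nonneg_left hs2' (by positivity)
      linarith
    have h9 : |Real.log (az (4 * T * u)) - k * Real.log (Real.log T)| ≤
        |Real.log (az (4 * T * u)) - k * Real.log (Real.log (4 * T))| +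
          |k * Real.log (Real.log (4 * T)) - k * Real.log (Real.log T)| := by
      have := abs_add_le (Real.log (az (4 * T * u)) - k * Real.log (Real.log (4 * T)))
        (k * Real.log (Real.log (4 * T)) - k * Real.log (Real.log T))
      rw [sub_add_sub_cancel] at this
      exact this
    have h10 : |k * Real.log (Real.log (4 * T)) - k * Real.log (Real.log T)| ≤ (k : ℝ) := by
      rw [abs_le]
      have h11 : (k : ℝ) * Real.log (Real.log T) ≤ k * Real.log (Real.log (4 * T)) :=
        mul_le_mul_of_nonneg_left l4 hk0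
      have h12 : (k : ℝ) * Real.log (Real.log (4 * T)) ≤ k * (Real.log (Real.log T) + 1) :=
        mul_le_mul_of_nonneg_left l5 hk0
      constructor
      · linarith
      · linarith
    have h13 : (k : ℝ) ≤ k * (K * s) := le_mul_of_one_le_right hk0 hKs1
    have h14 : 0 ≤ 4 * 2 ^ (k ^ 2) * C₂ * (K * s) := mul_nonneg hCC (by linarith)
    have h15 : C' * K * s = 2 * C₂ * (K * s) + k * (K * s) + 4 * 2 ^ (k ^ 2) * C₂ * (K * s) := by
      rw [hC'd]
      ring
    linarith
  have hV1 : ∀ u ∈ V, w₂ u = 1 := by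
    intro u hu
    have h5 : T ≤ 4 * T * u := hu.1.1
    have h6 : 4 * T * u ≤ 2 * T := hu.1.2
    apply hs2
    · by_contra hc
      push Not at hc
      nlinarith
    · by_contra hc
      push Not at hc
      nlinarith
  have hint : Integrable fun u => w₂ u * az (4 * T * u) ^ (2 * k) := by
    have h7 : Continuous fun u => w₂ u * az (4 * T * u) ^ (2 * k) :=
      hw2.smooth.continuous.mul (cφ.pow _)
    rw [← integrableOn_iff_integrable_of_support_subset (s := Icc (0 : ℝ) 1)]
    · exact h7.integrableOn_Icc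
    · intro u hu
      obtain ⟨c, hc, h⟩ := hw2.supp
      have hu' : w₂ u ≠ 0 := by
        intro h0
        apply hu
        simp [h0]
      exact ⟨hc.le.trans (h u hu').1, (h u hu').2⟩
  have e1 : ∫ u in V, az (4 * T * u) ^ (2 * k) = ∫ u in V, w₂ u * az (4 * T * u) ^ (2 * k) := by
    refine setIntegral_congr_fun hVm fun u hu => ?_
    simp only [hV1 u hu, one_mul]
  have e2 : ∫ u in V, w₂ u * az (4 * T * u) ^ (2 * k) ≤
      ∫ u in U, w₂ u * az (4 * T * u) ^ (2 * k) := by
    refine setIntegral_mono_set hint.integrableOn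
      (ae_of_all _ fun x => mul_nonneg (hw2.nonneg x) (pow_nonneg (norm_nonneg _) _))
      (LE.le.eventuallyLE hVU)
  have e3 : ∫ u in V, az (4 * T * u) ^ (2 * k) ≤
      C₂ * A ^ (2 * k) * Real.exp (-(K ^ 2)) * Real.log (4 * T) ^ (k ^ 2) := by
    rw [e1]
    exact e2.trans hU
  have e4 : Real.log (4 * T) ^ (k ^ 2) ≤ 2 ^ (k ^ 2) * Real.log T ^ (k ^ 2) := by
    rw [← mul_pow]
    exact pow_le_pow_left₀ (by linarith) l3 _
  have hA0 : 0 ≤ A ^ (2 * k) := pow_nonneg (by linarith) _
  have hE0 : 0 ≤ Real.exp (-(K ^ 2)) := (Real.exp_pos _).le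
  calc 4 * T * ∫ u in V, az (4 * T * u) ^ (2 * k)
      ≤ 4 * T * (C₂ * A ^ (2 * k) * Real.exp (-(K ^ 2)) * Real.log (4 * T) ^ (k ^ 2)) :=
        mul_le_mul_of_nonneg_left e3 h4T0.le
    _ ≤ 4 * T * (C₂ * A ^ (2 * k) * Real.exp (-(K ^ 2)) *
          (2 ^ (k ^ 2) * Real.log T ^ (k ^ 2))) := by
        refine mul_le_mul_of_nonneg_left ?_ h4T0.le
        exact mul_le_mul_of_nonneg_left e4 (by positivity)
    _ = (4 * 2 ^ (k ^ 2) * C₂) *
          (A ^ (2 * k) * Real.exp (-(K ^ 2)) * T * Real.log T ^ (k ^ 2)) := by ring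
    _ ≤ C' * (A ^ (2 * k) * Real.exp (-(K ^ 2)) * T * Real.log T ^ (k ^ 2)) := by
        refine mul_le_mul_of_nonneg_right (by rw [hC'd]; linarith) ?_
        positivity
    _ = C' * A ^ (2 * k) * Real.exp (-(K ^ 2)) * T * Real.log T ^ (k ^ 2) := by
        ring

end Pool.Agent.Work.MP_56b8f5_nt.WM
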