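import Pool.Agent.Work.MP_56b8f5_nt.WM.StmtsG
import Pool.Agent.Work.MP_56b8f5_nt.WM.I_UpS

/-!
MP_56b8f5_nt, block WMG, item G3 (UpG): Gaussian concentration at scale `T`.
-/

set_option autoImplicit false

open MeasureTheory Set Filter Topology

noncomputable section

namespace Pool.Agent.Work.MP_56b8f5_nt.WM

open Pool.Agent.Work.MP_56b8f5_nt.EM

namespace I_UpG

open I_UpS

lemma pos_of_mul_pos_left_aux {a b : ℝ} (h : 0 < a * b) (ha : 0 < a) : 0 < b := by
  by_contra hb
  have : a * b ≤ 0 := mul_nonpos_of_nonneg_of_nonpos ha.le (not_lt.mp hb)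
  linarith

/-- First term. -/
lemma bd1 (k : ℕ) (C C₁ X J q K s : ℝ) (hC : 1 ≤ C) (hC₁ : 1 ≤ C₁) (hX : 0 ≤ X) (hK : 1 ≤ K)
    (hKs : K ≤ s) (hq : 0 ≤ q) (hqs : q ≤ C * s) (hJ : J ≤ C₁ * X * q ^ (2 * k + 1)) :
    Real.exp (-(2 * (K * s))) * J ≤
      C₁ * C ^ (2 * k + 1) * ((2 * k + 1).factorial : ℝ) * X * Real.exp (-(K ^ 2)) := by
  have hs : 0 ≤ s := by linarith
  have h1 : Real.exp (-(2 * (K * s))) ≤ Real.exp (-s) * Real.exp (-(K ^ 2)) := by
    rw [← Real.exp_add]
    apply Real.exp_le_exp.mpr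
    nlinarith [mul_le_mul_of_nonneg_left hKs (by linarith : 0 ≤ K),
      mul_le_mul_of_nonneg_right hK hs]
  have h2 : s ^ (2 * k + 1) * Real.exp (-s) ≤ ((2 * k + 1).factorial : ℝ) := by
    have h3 := Real.pow_div_factorial_le_exp s hs (2 * k + 1)
    rw [div_le_iff₀ (by positivity)] at h3
    rw [Real.exp_neg, ← div_eq_mul_inv, div_le_iff₀ (Real.exp_pos _)]
    linarith
  have h4 : q ^ (2 * k + 1) ≤ C ^ (2 * k + 1) * s ^ (2 * k + 1) := by
    rw [← mul_pow]
    exact pow_le_pow_left₀ hq hqs _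
  have hC0 : 0 < C := by linarith
  have hC10 : 0 < C₁ := by linarith
  calc Real.exp (-(2 * (K * s))) * J
      ≤ Real.exp (-(2 * (K * s))) * (C₁ * X * (C ^ (2 * k + 1) * s ^ (2 * k + 1))) := by
        refine mul_le_mul_of_nonneg_left (hJ.trans ?_) (Real.exp_pos _).le
        exact mul_le_mul_of_nonneg_left h4 (by positivity)
    _ ≤ (Real.exp (-s) * Real.exp (-(K ^ 2))) *
          (C₁ * X * (C ^ (2 * k + 1) * s ^ (2 * k + 1))) :=
        mul_le_mul_of_nonneg_right h1 (by positivity)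
    _ = (C₁ * C ^ (2 * k + 1) * X * Real.exp (-(K ^ 2))) * (s ^ (2 * k + 1) * Real.exp (-s)) := by
        ring
    _ ≤ (C₁ * C ^ (2 * k + 1) * X * Real.exp (-(K ^ 2))) * ((2 * k + 1).factorial : ℝ) :=
        mul_le_mul_of_nonneg_left h2 (by positivity)
    _ = _ := by ring

/-- Second term. -/
lemma bd2 (k : ℕ) (C C₁ C' X J K s x L : ℝ) (hC : 1 ≤ C) (hC₁ : 1 ≤ C₁) (hX : 0 ≤ X)
    (hK : 1 ≤ K) (hKs : K ≤ s) (hx : K ≤ x * (C * s)) (hx2 : x ^ 2 * L ≤ 4 * K ^ 2)
    (hC' : C * (4 * k + 5) + 1 ≤ C')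
    (hJ : J ≤ C₁ * X * Real.exp ((2 * k * x + x ^ 2) * L)) :
    Real.exp (-(2 * x * ((k * L + C' * K * s) - K * s))) * J ≤ C₁ * X * Real.exp (-(K ^ 2)) := by
  have hC0 : 0 < C := by linarith
  have hs : 0 < s := by linarith
  have hK0 : 0 < K := by linarith
  calc Real.exp (-(2 * x * ((k * L + C' * K * s) - K * s))) * J
      ≤ Real.exp (-(2 * x * ((k * L + C' * K * s) - K * s))) *
          (C₁ * X * Real.exp ((2 * k * x + x ^ 2) * L)) :=
        mul_le_mul_of_nonneg_left hJ (Real.exp_pos _).le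
    _ = C₁ * X * Real.exp (x ^ 2 * L - 2 * (C' - 1) * K * (x * s)) := by
        rw [mul_comm (Real.exp _), mul_assoc, ← Real.exp_add]
        congr 2
        ring
    _ ≤ C₁ * X * Real.exp (-(K ^ 2)) := by
        refine mul_le_mul_of_nonneg_left (Real.exp_le_exp.mpr ?_) (by positivity)
        have hk : (0 : ℝ) ≤ k := Nat.cast_nonneg k
        have h5 : 5 * C ≤ 2 * (C' - 1) := by nlinarith
        have hxs : 0 ≤ x * s := by
          have : 0 < x * (C * s) := by linarith
          have h6 : 0 < C * (x * s) := by linarith [this, (by ring : x * (C * s) = C * (x * s))]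
          exact (pos_of_mul_pos_left_aux h6 hC0).le
        have h7 : 5 * K * K ≤ 2 * (C' - 1) * K * (x * s) := by
          have a1 : K * K ≤ K * (x * (C * s)) := mul_le_mul_of_nonneg_left hx hK0.le
          have a2 : 5 * C * (K * (x * s)) ≤ 2 * (C' - 1) * (K * (x * s)) :=
            mul_le_mul_of_nonneg_right h5 (by positivity)
          nlinarith
        nlinarith

/-- Third and fourth term. -/
lemma bd3 (k : ℕ) (C C₁ C' X J K s x L l : ℝ) (hC : 1 ≤ C) (hC₁ : 1 ≤ C₁) (hX : 0 ≤ X)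
    (hK : 1 ≤ K) (hKs : K ≤ s) (hx : K ≤ x * (C * s)) (hx2 : x ^ 2 * L ≤ 4 * K ^ 2)
    (hC' : C * (4 * k + 5) + 1 ≤ C') (hl : x * l ≤ 2 * K ^ 2)
    (hJ : J ≤ C₁ * X * Real.exp (2 * k * x * l) * Real.exp ((-(2 * k * x) + x ^ 2) * L)) :
    Real.exp (2 * x * (k * L - C' * K * s)) * J ≤ C₁ * X * Real.exp (-(K ^ 2)) := by
  have hC0 : 0 < C := by linarith
  have hs : 0 < s := by linarith
  have hK0 : 0 < K := by linarith
  calc Real.exp (2 * x * (k * L - C' * K * s)) * J
      ≤ Real.exp (2 * x * (k * L - C' * K * s)) *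
          (C₁ * X * Real.exp (2 * k * x * l) * Real.exp ((-(2 * k * x) + x ^ 2) * L)) :=
        mul_le_mul_of_nonneg_left hJ (Real.exp_pos _).le
    _ = C₁ * X * Real.exp (2 * k * (x * l) + x ^ 2 * L - 2 * C' * K * (x * s)) := by
        rw [mul_comm (Real.exp _), mul_assoc, mul_assoc, ← Real.exp_add, ← Real.exp_add]
        congr 2
        ring
    _ ≤ C₁ * X * Real.exp (-(K ^ 2)) := by
        refine mul_le_mul_of_nonneg_left (Real.exp_le_exp.mpr ?_) (by positivity)
        have hk : (0 : ℝ) ≤ k := Nat.cast_nonneg k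
        have h5 : (4 * k + 5) * C ≤ C' := by linarith
        have h5' : 0 ≤ (4 * (k : ℝ) + 5) := by positivity
        have hxs : 0 ≤ x * s := by
          have : 0 < x * (C * s) := by linarith
          have h6 : 0 < C * (x * s) := by linarith [this, (by ring : x * (C * s) = C * (x * s))]
          exact (pos_of_mul_pos_left_aux h6 hC0).le
        have h7 : (4 * k + 5) * (K * K) ≤ C' * (K * (x * s)) := by
          have a1 : K * K ≤ K * (x * (C * s)) := mul_le_mul_of_nonneg_left hx hK0.le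
          have a2 : (4 * k + 5) * C * (K * (x * s)) ≤ C' * (K * (x * s)) :=
            mul_le_mul_of_nonneg_right h5 (by positivity)
          have a3 : (4 * (k : ℝ) + 5) * (K * K) ≤ (4 * k + 5) * (K * (x * (C * s))) :=
            mul_le_mul_of_nonneg_left a1 h5'
          linarith [(by ring : (4 * (k : ℝ) + 5) * (K * (x * (C * s))) =
            (4 * k + 5) * C * (K * (x * s)))]
        have h8 : 0 ≤ (k : ℝ) * (2 * K ^ 2 - x * l) := mul_nonneg hk (by linarith)
        have h9 : 0 ≤ (4 * (k : ℝ) + 5) * (K * K) := by positivity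
        nlinarith

/-- A linear combination of four integrals. -/
lemma int4 (f1 f2 f3 f4 : ℝ → ℝ) (h1 : Integrable f1) (h2 : Integrable f2) (h3 : Integrable f3)
    (h4 : Integrable f4) (c c1 c2 c3 c4 : ℝ) :
    ∫ u, c * (c1 * f1 u + c2 * f2 u + (c3 * f3 u + c4 * f4 u)) =
      c * (c1 * (∫ u, f1 u) + c2 * (∫ u, f2 u) + (c3 * (∫ u, f3 u) + c4 * (∫ u, f4 u))) := by
  have e1 : ∫ u, (c1 * f1 u + c2 * f2 u) = c1 * (∫ u, f1 u) + c2 * (∫ u, f2 u) := by
    rw [integral_add (h1.const_mul c1) (h2.const_mul c2), integral_const_mul, integral_const_mul]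
  have e2 : ∫ u, (c3 * f3 u + c4 * f4 u) = c3 * (∫ u, f3 u) + c4 * (∫ u, f4 u) := by
    rw [integral_add (h3.const_mul c3) (h4.const_mul c4), integral_const_mul, integral_const_mul]
  rw [integral_const_mul, ← e1, ← e2]
  congr 1
  exact integral_add ((h1.const_mul c1).add (h2.const_mul c2))
    ((h3.const_mul c3).add (h4.const_mul c4))

end I_UpG

open I_UpS I_UpG in
/-- **G3 (UpG).** -/
theorem UpG_pf (h1 : S_PwG) (h2 : S_J2G) : S_UpG := by
  intro w hw k C hk hC
  obtain ⟨C₁, T₀, hC₁, hJ⟩ := h2 w hw k C hk hC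
  have hC0 : 0 < C := by linarith
  have hC10 : 0 < C₁ := by linarith
  have hk0 : (0 : ℝ) ≤ k := Nat.cast_nonneg k
  set F : ℝ := C₁ * C ^ (2 * k + 1) * ((2 * k + 1).factorial : ℝ) with hF
  have hF0 : 0 ≤ F := by positivity
  set C' : ℝ := F + 3 * C₁ + C * (4 * k + 5) + 1 with hC'
  have hC'1 : C * (4 * k + 5) + 1 ≤ C' := by rw [hC']; linarith
  have hC'2 : F + 3 * C₁ ≤ C' := by
    have : 0 ≤ C * (4 * (k : ℝ) + 5) := by positivity
    rw [hC']; linarith
  refine ⟨C', max T₀ 3, by linarith, ?_⟩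
  intro T hT q y z hp A K hA hK hKs
  have hT1 : T₀ ≤ T := (le_max_left _ _).trans hT
  have hT3 : 3 ≤ T := (le_max_right _ _).trans hT
  have hA0 : 0 ≤ A := by linarith
  set L : ℝ := Real.log (Real.log T) with hL
  set s : ℝ := Real.sqrt L with hs
  have hs1 : 1 ≤ s := hK.trans hKs
  have hL0 : 0 ≤ L := by
    by_contra h
    have : s = 0 := Real.sqrt_eq_zero_of_nonpos (by linarith)
    linarith
  have hsL : s ^ 2 = L := Real.sq_sqrt hL0
  have hlT : 0 ≤ Real.log T := Real.log_nonneg (by linarith)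
  have hX : 0 ≤ Real.log T ^ (k ^ 2) := by positivity
  have hq := hp.hq
  have hq0 : (0 : ℝ) < q := by exact_mod_cast hq
  have hsq : s ≤ q := by
    rw [hs]
    exact (Real.sqrt_le_left hq0.le).mpr hp.hq2
  have hqs : (q : ℝ) ≤ C * s := hp.hqs
  -- the exponent
  set i : ℕ := ⌈K⌉₊ with hi
  have hiK : K ≤ i := Nat.le_ceil K
  have hi2 : (i : ℝ) ≤ 2 * K := by
    have := Nat.ceil_lt_add_one (by linarith : 0 ≤ K)
    linarith
  have hiq : i ≤ q := Nat.ceil_le.mpr (hKs.trans hsq)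
  set x : ℝ := (i : ℝ) / q with hx
  have hx0 : 0 ≤ x := by positivity
  have hxq : x * q = i := by rw [hx]; field_simp
  have hxK : K ≤ x * (C * s) := by
    calc K ≤ i := hiK
      _ = x * q := hxq.symm
      _ ≤ x * (C * s) := mul_le_mul_of_nonneg_left hqs hx0
  have hx2 : x ^ 2 * L ≤ 4 * K ^ 2 := by
    have a1 : x ^ 2 * L ≤ x ^ 2 * (q : ℝ) ^ 2 := mul_le_mul_of_nonneg_left hp.hq2 (by positivity)
    have a2 : x ^ 2 * (q : ℝ) ^ 2 = (i : ℝ) ^ 2 := by rw [← mul_pow, hxq]
    have a3 : (i : ℝ) ^ 2 ≤ (2 * K) ^ 2 := pow_le_pow_left₀ (Nat.cast_nonneg i) hi2 2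
    nlinarith
  have hxl : x * Real.log q ≤ 2 * K ^ 2 := by
    have a1 : Real.log q ≤ q := (Real.log_le_sub_one_of_pos hq0).trans (by linarith)
    have a2 : x * Real.log q ≤ x * q := mul_le_mul_of_nonneg_left a1 hx0
    nlinarith
  -- bounds of the moments
  obtain ⟨-, hj1, -, -⟩ := hJ T hT1 q y z hp 0 (Nat.zero_le q)
  obtain ⟨hj2, -, hj3, hj4⟩ := hJ T hT1 q y z hp i hiq
  have hj1' : J2 w q y z T (q * (k - 1)) k ≤ C₁ * Real.log T ^ (k ^ 2) * (q : ℝ) ^ (2 * k + 1) := by
    have := hj1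
    simpa using this
  have B1 := bd1 k C C₁ _ _ q K s hC hC₁ hX hK hKs hq0.le hqs hj1'
  have B2 := bd2 k C C₁ C' _ _ K s x L hC hC₁ hX hK hKs hxK hx2 hC'1 hj2
  have B3 := bd3 k C C₁ C' _ _ K s x L (Real.log q) hC hC₁ hX hK hKs hxK hx2 hC'1 hxl hj3
  have B4 := bd3 k C C₁ C' _ _ K s x L (Real.log q) hC hC₁ hX hK hKs hxK hx2 hC'1 hxl hj4
  -- continuity
  have cφ : Continuous fun u : ℝ => az (T * u) := cont_az.comp (by fun_prop)
  have cm : Continuous fun u : ℝ => aM q y (T * u) := (cont_aM q y).comp (by fun_prop)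
  have cr : Continuous fun u : ℝ => aR y z (T * u) := (cont_aR y z).comp (by fun_prop)
  have cG : ∀ a b : ℕ, Continuous fun u : ℝ => az (T * u) ^ 2 *
      (aM q y (T * u) ^ (2 * a) * aR y z (T * u) ^ (2 * b)) := fun a b => by fun_prop
  have cF : Continuous fun u : ℝ => az (T * u) ^ (2 * k) := by fun_prop
  have iF := int_mul hw cF
  have iG := fun a b : ℕ => int_mul hw (cG a b)
  have hS : MeasurableSet {u | az (T * u) ≤ A * (aM q y (T * u) ^ q * aR y z (T * u)) ∧
      C' * K * s < |Real.log (az (T * u)) - k * L|} := by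
    have m1 : MeasurableSet {u : ℝ | az (T * u) ≤ A * (aM q y (T * u) ^ q * aR y z (T * u))} :=
      measurableSet_le cφ.measurable (by fun_prop : Continuous fun u : ℝ =>
        A * (aM q y (T * u) ^ q * aR y z (T * u))).measurable
    have m2 : MeasurableSet {u : ℝ | C' * K * s < |Real.log (az (T * u)) - k * L|} := by
      refine measurableSet_lt measurable_const ?_
      have : Measurable fun u : ℝ => Real.log (az (T * u)) - k * L :=
        (Real.measurable_log.comp cφ.measurable).sub_const _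
      exact continuous_abs.measurable.comp this
    exact m1.inter m2
  -- the majorant
  set G : ℝ → ℝ := fun u =>
    A ^ (2 * k) * (Real.exp (-(2 * (K * s))) * (w u * (az (T * u) ^ 2 *
        (aM q y (T * u) ^ (2 * (q * (k - 1))) * aR y z (T * u) ^ (2 * k)))) +
      Real.exp (-(2 * x * ((k * L + C' * K * s) - K * s))) * (w u * (az (T * u) ^ 2 *
        (aM q y (T * u) ^ (2 * (q * (k - 1) + i)) * aR y z (T * u) ^ (2 * (k - 1))))) +
      (Real.exp (2 * x * (k * L - C' * K * s)) * (w u * (az (T * u) ^ 2 *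
        (aM q y (T * u) ^ (2 * (q * (k - 1) - i)) * aR y z (T * u) ^ (2 * (k - 1))))) +
      Real.exp (2 * x * (k * L - C' * K * s)) * (w u * (az (T * u) ^ 2 *
        (aM q y (T * u) ^ (2 * (q * (k - 1) - i)) * aR y z (T * u) ^ (2 * (k - 2))))))) with hG
  have hGnn : ∀ u, 0 ≤ G u := by
    intro u
    have a1 := hw.nonneg u
    have a2 := aM_nonneg q y (T * u)
    have a3 := aR_nonneg y z (T * u)
    simp only [hG]
    positivity
  have iGi : Integrable G := by
    simp only [hG]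
    exact (((((iG _ _).const_mul _).add ((iG _ _).const_mul _)).add
      (((iG _ _).const_mul _).add ((iG _ _).const_mul _)))).const_mul _
  have hGint : ∫ u, G u = A ^ (2 * k) * (Real.exp (-(2 * (K * s))) * J2 w q y z T (q * (k - 1)) k +
      Real.exp (-(2 * x * ((k * L + C' * K * s) - K * s))) *
        J2 w q y z T (q * (k - 1) + i) (k - 1) +
      (Real.exp (2 * x * (k * L - C' * K * s)) * J2 w q y z T (q * (k - 1) - i) (k - 1) +
      Real.exp (2 * x * (k * L - C' * K * s)) * J2 w q y z T (q * (k - 1) - i) (k - 2))) := by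
    simp only [hG]
    exact int4 _ _ _ _ (iG _ _) (iG _ _) (iG _ _) (iG _ _) _ _ _ _ _
  have hpt : ∀ u ∈ {u | az (T * u) ≤ A * (aM q y (T * u) ^ q * aR y z (T * u)) ∧
      C' * K * s < |Real.log (az (T * u)) - k * L|}, w u * az (T * u) ^ (2 * k) ≤ G u := by
    rintro u ⟨hu1, hu2⟩
    have a1 := hw.nonneg u
    have a2 := aM_nonneg q y (T * u)
    have a3 := aR_nonneg y z (T * u)
    have a4 := az_nonneg (T * u)
    rcases eq_or_lt_of_le a4 with h0 | h0
    · rw [← h0, zero_pow (by omega), mul_zero]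
      exact hGnn u
    obtain ⟨P1, P2, -, -⟩ := h1 k q i A (az (T * u)) (aM q y (T * u)) (aR y z (T * u)) hk hq hiq
      hA a4 a2 a3 hu1
    rcases lt_abs.mp hu2 with h | h
    · have h3 : Real.exp (k * L + C' * K * s) < az (T * u) := by
        rw [← Real.lt_log_iff_exp_lt h0]
        linarith
      have h4 := P1 (k * L + C' * K * s) (K * s) h3
      have h5 := mul_le_mul_of_nonneg_left h4 a1
      refine h5.trans ?_
      have t3 : 0 ≤ A ^ (2 * k) * ((Real.exp (2 * x * (k * L - C' * K * s)) * (w u *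
          (az (T * u) ^ 2 * (aM q y (T * u) ^ (2 * (q * (k - 1) - i)) *
            aR y z (T * u) ^ (2 * (k - 1))))) +
        Real.exp (2 * x * (k * L - C' * K * s)) * (w u * (az (T * u) ^ 2 *
          (aM q y (T * u) ^ (2 * (q * (k - 1) - i)) * aR y z (T * u) ^ (2 * (k - 2))))))) := by
        positivity
      simp only [hG]
      rw [mul_add (A ^ (2 * k)) (_ + _) (_ + _)]
      refine le_trans (le_of_eq ?_) (le_add_of_nonneg_right t3)
      rw [← hx]
      ring
    · have h3 : az (T * u) < Real.exp (k * L - C' * K * s) := by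
        rw [← Real.log_lt_iff_lt_exp h0]
        linarith
      have h4 := P2 (k * L - C' * K * s) h3
      have h5 := mul_le_mul_of_nonneg_left h4 a1
      refine h5.trans ?_
      have t3 : 0 ≤ A ^ (2 * k) * (Real.exp (-(2 * (K * s))) * (w u * (az (T * u) ^ 2 *
          (aM q y (T * u) ^ (2 * (q * (k - 1))) * aR y z (T * u) ^ (2 * k)))) +
        Real.exp (-(2 * x * ((k * L + C' * K * s) - K * s))) * (w u * (az (T * u) ^ 2 *
          (aM q y (T * u) ^ (2 * (q * (k - 1) + i)) * aR y z (T * u) ^ (2 * (k - 1)))))) := by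
        positivity
      simp only [hG]
      rw [mul_add (A ^ (2 * k)) (_ + _) (_ + _)]
      refine le_trans (le_of_eq ?_) (le_add_of_nonneg_left t3)
      rw [← hx]
      ring
  calc ∫ u in {u | az (T * u) ≤ A * (aM q y (T * u) ^ q * aR y z (T * u)) ∧
          C' * K * s < |Real.log (az (T * u)) - k * L|}, w u * az (T * u) ^ (2 * k)
      ≤ ∫ u in {u | az (T * u) ≤ A * (aM q y (T * u) ^ q * aR y z (T * u)) ∧
          C' * K * s < |Real.log (az (T * u)) - k * L|}, G u :=
        setIntegral_mono_on iF.integrableOn iGi.integrableOn hS hpt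
    _ ≤ ∫ u, G u := setIntegral_le_integral iGi (ae_of_all _ hGnn)
    _ ≤ A ^ (2 * k) * (F * Real.log T ^ (k ^ 2) * Real.exp (-(K ^ 2)) +
          C₁ * Real.log T ^ (k ^ 2) * Real.exp (-(K ^ 2)) +
          (C₁ * Real.log T ^ (k ^ 2) * Real.exp (-(K ^ 2)) +
          C₁ * Real.log T ^ (k ^ 2) * Real.exp (-(K ^ 2)))) := by
        rw [hGint]
        refine mul_le_mul_of_nonneg_left ?_ (by positivity)
        exact add_le_add (add_le_add B1 B2) (add_le_add B3 B4)
    _ = (F + 3 * C₁) * (A ^ (2 * k) * Real.exp (-(K ^ 2)) * Real.log T ^ (k ^ 2)) := by ring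
    _ ≤ C' * (A ^ (2 * k) * Real.exp (-(K ^ 2)) * Real.log T ^ (k ^ 2)) :=
        mul_le_mul_of_nonneg_right hC'2 (by positivity)
    _ = _ := by ring

end Pool.Agent.Work.MP_56b8f5_nt.WM
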