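import Pool.Agent.Work.MP_56b8f5_nt.WM.All
import Pool.Agent.Work.MP_56b8f5_nt.WM.I_PwG
import Pool.Agent.Work.MP_56b8f5_nt.WM.I_J2G
import Pool.Agent.Work.MP_56b8f5_nt.WM.I_UpG
import Pool.Agent.Work.MP_56b8f5_nt.WM.I_LdG
import Pool.Agent.Work.MP_56b8f5_nt.WM.I_ScaU
import Pool.Agent.Work.MP_56b8f5_nt.WM.I_ScaL
import Pool.Agent.Work.MP_56b8f5_nt.WM.I_ScaG
import Pool.Agent.Work.MP_56b8f5_nt.WM.I_Cheb
import Pool.Agent.Work.MP_56b8f5_nt.WM.I_MainG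

/-!
MP_56b8f5_nt, block WMG: assembly.
-/

set_option autoImplicit false

noncomputable section

namespace Pool.Agent.Work.MP_56b8f5_nt.WM

open Pool.Agent.Work.MP_56b8f5_nt.EM

theorem wm_PwG : S_PwG := PwG_pf
theorem wm_J2G : S_J2G := J2G_pf wm_Jb wm_Num
theorem wm_UpG : S_UpG := UpG_pf wm_PwG wm_J2G
theorem wm_LdG : S_LdG := LdG_pf wm_PwG wm_J2G
theorem wm_ScaU : S_ScaU := ScaU_pf wm_UpG wm_Wts
theorem wm_ScaL : S_ScaL := ScaL_pf wm_LdG wm_Wts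
theorem wm_ScaG : S_ScaG := ScaG_pf wm_Par wm_WinS wm_UpS wm_Wts wm_ScaU wm_ScaL
theorem wm_Cheb : S_Cheb := Cheb_pf

/-- The window theorem with concentration and frequency of large values. -/
theorem wm_MainG : S_MainG := MainG_pf wm_ScaG wm_BBp wm_PeBas wm_Cheb

end Pool.Agent.Work.MP_56b8f5_nt.WM
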