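import Pool.Agent.Work.MP_56b8f5_nt.WM.Stmts

/-!
MP_56b8f5_nt, block WM, item A9 (LowR): rough squarefree sum from below.
-/

set_option autoImplicit false

open MeasureTheory Set Filter Topology

noncomputable section

namespace Pool.Agent.Work.MP_56b8f5_nt.WM

open Pool.Agent.Work.MP_56b8f5_nt.EM

namespace I_LowR

/-- smooth part -/
def lo (y n : ℕ) : ℕ := ∏ p ∈ n.primeFactors.filter (fun p => p ≤ y), p

/-- rough part -/
def hi (y n : ℕ) : ℕ := ∏ p ∈ n.primeFactors.filter (fun p => y < p), p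

lemma pf_lo (y n : ℕ) : (lo y n).primeFactors = n.primeFactors.filter (fun p => p ≤ y) :=
  Nat.primeFactors_prod fun _ hp => Nat.prime_of_mem_primeFactors (Finset.mem_filter.1 hp).1

lemma pf_hi (y n : ℕ) : (hi y n).primeFactors = n.primeFactors.filter (fun p => y < p) :=
  Nat.primeFactors_prod fun _ hp => Nat.prime_of_mem_primeFactors (Finset.mem_filter.1 hp).1

lemma lo_mul_hi (y n : ℕ) (h : Squarefree n) : lo y n * hi y n = n := by
  have h1 := Finset.prod_filter_mul_prod_filter_not n.primeFactors (fun p => p ≤ y) (fun p => p)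
  simp only [not_le] at h1
  unfold lo hi
  rw [h1]
  exact Nat.prod_primeFactors_of_squarefree h

lemma card_split (y n : ℕ) :
    n.primeFactors.card = (lo y n).primeFactors.card + (hi y n).primeFactors.card := by
  rw [pf_lo, pf_hi]
  have h1 := Finset.card_filter_add_card_filter_not (s := n.primeFactors) (fun p => p ≤ y)
  simp only [not_le] at h1
  exact h1.symm

/-- the value of `pe` at a squarefree smooth number -/
lemma pe_lo (h2 : S_PeBas) (K y n : ℕ) (h0 : n ≠ 0) (hn : Squarefree n)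
    (hs : ∀ p ∈ n.primeFactors, p ≤ y) :
    pe (fun p => if p ≤ y then (K : ℝ) / (p : ℝ) else 0) n =
      (K : ℝ) ^ n.primeFactors.card / (n : ℝ) := by
  have h := (h2 (fun p => if p ≤ y then (K : ℝ) / (p : ℝ) else 0) (by
    intro p
    split_ifs
    · positivity
    · exact le_rfl)).2.2.2.2.2.2.2.2.2.2 n h0 hn
  rw [h]
  have h3 : ∏ p ∈ n.primeFactors, (if p ≤ y then (K : ℝ) / (p : ℝ) else 0) =
      ∏ p ∈ n.primeFactors, (K : ℝ) / (p : ℝ) :=
    Finset.prod_congr rfl fun p hp => if_pos (hs p hp)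
  rw [h3, Finset.prod_div_distrib, Finset.prod_const]
  congr 1
  have h4 := Nat.prod_primeFactors_of_squarefree hn
  conv_rhs => rw [← h4]
  push_cast
  rfl

lemma sK_le (h2 : S_PeBas) (K y z : ℕ) :
    sK K z ≤ (∑ n ∈ Finset.range (z + 1),
      pe (fun p => if p ≤ y then (K : ℝ) / (p : ℝ) else 0) n) * sR K y z := by
  classical
  have ha : ∀ p : ℕ, 0 ≤ (fun p : ℕ => if p ≤ y then (K : ℝ) / (p : ℝ) else 0) p := by
    intro p
    dsimp only
    split_ifs
    · positivity
    · exact le_rfl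
  have hpe : ∀ n, 0 ≤ pe (fun p => if p ≤ y then (K : ℝ) / (p : ℝ) else 0) n := (h2 _ ha).1
  unfold sK sR
  rw [Finset.sum_mul_sum, ← Finset.sum_product']
  set g : ℕ × ℕ → ℝ := fun q => pe (fun p => if p ≤ y then (K : ℝ) / (p : ℝ) else 0) q.1 *
    ((K : ℝ) ^ q.2.primeFactors.card / (q.2 : ℝ)) with hg
  set e : ℕ → ℕ × ℕ := fun n => (lo y n, hi y n) with he
  have hinj : Set.InjOn e ((Finset.Icc 1 z).filter Squarefree : Finset ℕ) := by
    intro a ha b hb hab
    have ha' := (Finset.mem_filter.1 (Finset.mem_coe.1 ha)).2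
    have hb' := (Finset.mem_filter.1 (Finset.mem_coe.1 hb)).2
    have e1 : lo y a = lo y b := congrArg Prod.fst hab
    have e2 : hi y a = hi y b := congrArg Prod.snd hab
    rw [← lo_mul_hi y a ha', ← lo_mul_hi y b hb', e1, e2]
  have hterm : ∀ n ∈ (Finset.Icc 1 z).filter Squarefree,
      (K : ℝ) ^ n.primeFactors.card / (n : ℝ) = g (e n) := by
    intro n hn
    obtain ⟨hn1, hn2⟩ := Finset.mem_filter.1 hn
    have hm := lo_mul_hi y n hn2
    have hn0 : n ≠ 0 := hn2.ne_zero
    have hl0 : lo y n ≠ 0 := by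
      intro h
      rw [h, zero_mul] at hm
      exact hn0 hm.symm
    have hls : Squarefree (lo y n) := hn2.squarefree_of_dvd ⟨_, hm.symm⟩
    have h1 := pe_lo h2 K y (lo y n) hl0 hls (by
      intro p hp
      rw [pf_lo] at hp
      exact (Finset.mem_filter.1 hp).2)
    simp only [hg, he]
    rw [h1, card_split y n, pow_add, div_mul_div_comm, ← Nat.cast_mul, hm]
  rw [Finset.sum_congr rfl hterm, ← Finset.sum_image (f := g) hinj]
  refine Finset.sum_le_sum_of_subset_of_nonneg ?_ ?_
  · intro q hq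
    obtain ⟨n, hn, rfl⟩ := Finset.mem_image.1 hq
    obtain ⟨hn1, hn2⟩ := Finset.mem_filter.1 hn
    have hm := lo_mul_hi y n hn2
    have hnz := (Finset.mem_Icc.1 hn1).2
    have hn0 : n ≠ 0 := hn2.ne_zero
    have hdl : lo y n ∣ n := ⟨_, hm.symm⟩
    have hdh : hi y n ∣ n := ⟨lo y n, by rw [mul_comm]; exact hm.symm⟩
    have hpos : 0 < n := Nat.pos_of_ne_zero hn0
    simp only [he, Finset.mem_product, Finset.mem_range, Finset.mem_filter, Finset.mem_Icc]
    refine ⟨?_, ⟨?_, ?_⟩, ?_, ?_⟩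
    · exact lt_of_le_of_lt ((Nat.le_of_dvd hpos hdl).trans hnz) (Nat.lt_succ_self z)
    · exact Nat.pos_of_dvd_of_pos hdh hpos
    · exact (Nat.le_of_dvd hpos hdh).trans hnz
    · exact hn2.squarefree_of_dvd hdh
    · intro p hp
      rw [pf_hi] at hp
      exact (Finset.mem_filter.1 hp).2
  · intro q _ _
    simp only [hg]
    exact mul_nonneg (hpe _) (by positivity)

end I_LowR

open I_LowR in
theorem LowR_pf (h2 : S_PeBas) (h3 : S_PeSum) (h6 : S_Mert) (h7 : S_LowS) : S_LowR := by
  intro K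
  obtain ⟨c, hc, hcl⟩ := h7 K
  obtain ⟨C, hC1, hC⟩ := h6
  have hC0 : 0 < C := by linarith
  refine ⟨c / C ^ K, by positivity, fun y z hy hyz => ?_⟩
  have hR : 0 ≤ sR K y z := Finset.sum_nonneg fun n _ => by positivity
  have hA : ∑ n ∈ Finset.range (z + 1), pe (fun p => if p ≤ y then (K : ℝ) / (p : ℝ) else 0) n ≤
      (C * Real.log y) ^ K := by
    have e1 := h3 (fun p => if p ≤ y then (K : ℝ) / (p : ℝ) else 0) y z (by
      intro p
      split_ifs
      · positivity
      · exact le_rfl) (fun p hp => if_neg (not_le.2 hp))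
    refine e1.trans ?_
    have e2 : ∑ p ∈ pr y, (if p ≤ y then (K : ℝ) / (p : ℝ) else 0) = K * S1 y := by
      unfold S1
      rw [Finset.mul_sum]
      refine Finset.sum_congr rfl fun p hp => ?_
      have hp' : p ≤ y := by
        have := (Finset.mem_filter.1 hp).1
        rw [Finset.mem_range] at this
        omega
      rw [if_pos hp']
      ring
    rw [e2, Real.exp_nat_mul]
    exact pow_le_pow_left₀ (Real.exp_pos _).le (hC y hy).1 K
  have h5 := hcl z (hy.trans hyz)
  have h6 : c * Real.log z ^ K ≤ (C * Real.log y) ^ K * sR K y z :=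
    h5.trans ((sK_le h2 K y z).trans (mul_le_mul_of_nonneg_right hA hR))
  rw [mul_pow] at h6
  have hCK : 0 < C ^ K := by positivity
  rw [div_mul_eq_mul_div, div_le_iff₀ hCK]
  calc c * Real.log z ^ K ≤ C ^ K * Real.log y ^ K * sR K y z := h6
    _ = Real.log y ^ K * sR K y z * C ^ K := by ring

end Pool.Agent.Work.MP_56b8f5_nt.WM
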