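import Pool.Agent.Work.MP_56b8f5_nt.WM.StmtsG
import Pool.Agent.Work.MP_56b8f5_nt.WM.I_Main

/-!
MP_56b8f5_nt, block WM, item G9 (MainG): the final theorem with concentration and large values.
-/

set_option autoImplicit false

open MeasureTheory Set Filter Topology

noncomputable section

namespace Pool.Agent.Work.MP_56b8f5_nt.WM

open Pool.Agent.Work.MP_56b8f5_nt.EM

namespace I_MainG

theorem DP_cont (b : ℕ → ℝ) (X : ℕ) : Continuous fun t : ℝ => ‖DP b X t‖ := by
  unfold DP
  refine continuous_norm.comp (continuous_finset_sum _ fun n _ => ?_)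
  rcases Nat.eq_zero_or_pos n with h | h
  · subst h
    have h1 : (fun t : ℝ => (b 0 : ℂ) * ((0 : ℕ) : ℂ) ^ (-(1 / 2 + (t : ℂ) * Complex.I))) =
        fun _ : ℝ => (0 : ℂ) := by
      funext t
      have hne : (-(1 / 2 + (t : ℂ) * Complex.I)) ≠ 0 := by
        intro h2
        have := congrArg Complex.re h2
        norm_num at this
      rw [Nat.cast_zero, Complex.zero_cpow hne, mul_zero]
    rw [h1]
    exact continuous_const
  · have hn : ((n : ℕ) : ℂ) ≠ 0 := by
      exact_mod_cast h.ne'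
    refine continuous_const.mul ?_
    have h2 : Continuous fun t : ℝ => (-(1 / 2 + (t : ℂ) * Complex.I)) := by fun_prop
    exact h2.const_cpow (Or.inl hn)

end I_MainG

open I_Main I_MainG in
theorem MainG_pf (h1 : S_ScaG) (h2 : S_BBp) (h3 : S_PeBas) (h4 : S_Cheb) : S_MainG := by
  intro k hk
  obtain ⟨c, C0, hc, hC0, hev⟩ := h1 k hk
  have hk1 : (1 : ℝ) ≤ k := by exact_mod_cast (by omega : 1 ≤ k)
  set C : ℝ := 2 * k * C0 + 1 with hC
  have hCC0 : C0 ≤ C := by rw [hC]; nlinarith
  refine ⟨c, C, hc, le_trans hC0 hCC0, ?_⟩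
  have hlog : Tendsto Real.log atTop atTop := Real.tendsto_log_atTop
  have hll : Tendsto (fun T : ℝ => Real.sqrt (Real.log (Real.log T))) atTop atTop :=
    Real.tendsto_sqrt_atTop.comp (hlog.comp hlog)
  have e1 : ∀ᶠ T : ℝ in atTop, 1 < Real.log T := hlog.eventually_gt_atTop 1
  have e2 : ∀ᶠ T : ℝ in atTop, -Real.log c ≤ Real.sqrt (Real.log (Real.log T)) :=
    hll.eventually_ge_atTop _
  filter_upwards [hev, e1, e2, eventually_ge_atTop (1 : ℝ)] with T hT hT1 hT2 hTge
  have hT0 : (0 : ℝ) < T := lt_of_lt_of_le one_pos hTge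
  obtain ⟨q, y, z, hq, hy, hyz, hX, hup, hlow, hconc, hlarge⟩ := hT
  obtain ⟨b1, b2, b3, b4⟩ := h2 q y z q 1 hq hyz
  have haa : ∀ p, 0 ≤ aa q y z q 1 p := by
    intro p
    unfold aa
    split_ifs <;> positivity
  have haa1 : ∀ p, aa q y z q 1 p ≤ 1 := by
    intro p
    unfold aa
    have hq0 : (q : ℝ) ≠ 0 := by
      have : 0 < q := by omega
      positivity
    split_ifs
    · rw [div_self hq0]
    · norm_num
    · norm_num
  obtain ⟨p1, p2, p3, p4, p5, p6, p7, p8, p9, p10, p11⟩ := h3 (aa q y z q 1) haa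
  have hDP : ∀ t : ℝ, ‖DP (fun n => BB q y z q 1 n) (y ^ q * z) t‖ =
      aM q y t ^ q * aR y z t := by
    intro t
    have h := b4 (y ^ q * z) (by rw [pow_one]) t
    have h' : DP (fun n => BB q y z q 1 n) (y ^ q * z) t =
      DP (um q y) y t ^ q * DP (ur y z) z t ^ 1 := h
    rw [h', norm_mul, norm_pow, norm_pow, pow_one]
    rfl
  have hL : 0 < Real.log T := by linarith
  have hazc : Continuous az := az_cont
  have hint : IntegrableOn (fun t => az t ^ (2 * k)) (Icc T (2 * T)) volume :=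
    (hazc.pow _).continuousOn.integrableOn_Icc
  set S0 : Set ℝ := {t | t ∈ Icc T (2 * T) ∧ az t ≤ C0 * (aM q y t ^ q * aR y z t) ∧
      |Real.log (az t) - k * Real.log (Real.log T)| ≤ C0 * Real.sqrt (Real.log (Real.log T))} with hS0
  set S : Set ℝ := {t | t ∈ Icc T (2 * T) ∧
      az t ≤ C * ‖DP (fun n => BB q y z q 1 n) (y ^ q * z) t‖ ∧
      |Real.log (az t) - k * Real.log (Real.log T)| ≤ C * Real.sqrt (Real.log (Real.log T))} with hS
  have hsub : S0 ⊆ S := by
    intro t ht
    obtain ⟨u1, u2, u3⟩ := ht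
    refine ⟨u1, ?_, ?_⟩
    · rw [hDP t]
      refine le_trans u2 (mul_le_mul_of_nonneg_right hCC0 ?_)
      have : 0 ≤ ‖DP (fun n => BB q y z q 1 n) (y ^ q * z) t‖ := norm_nonneg _
      rwa [hDP t] at this
    · exact le_trans u3 (mul_le_mul_of_nonneg_right hCC0 (Real.sqrt_nonneg _))
  have hSI : S ⊆ Icc T (2 * T) := fun t ht => ht.1
  have hSfin : volume S < ⊤ := lt_of_le_of_lt (measure_mono hSI) (by simp)
  have hlow' : c * T * Real.log T ^ (k ^ 2) ≤ ∫ t in S, az t ^ (2 * k) := by
    refine le_trans hlow ?_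
    refine setIntegral_mono_set (hint.mono_set hSI) ?_ hsub.eventuallyLE
    exact Eventually.of_forall fun t => pow_nonneg (az_nonneg t) _
  have hup' : ∀ A : ℝ, 1 ≤ A → ∫ t in {t | t ∈ Icc T (2 * T) ∧
      az t ≤ A * ‖DP (fun n => BB q y z q 1 n) (y ^ q * z) t‖}, az t ^ (2 * k) ≤
      C * A ^ (2 * k - 2) * T * Real.log T ^ (k ^ 2) := by
    intro A hA
    have h := hup A hA
    have hset : {t | t ∈ Icc T (2 * T) ∧
          az t ≤ A * ‖DP (fun n => BB q y z q 1 n) (y ^ q * z) t‖} =
        {t | t ∈ Icc T (2 * T) ∧ az t ≤ A * (aM q y t ^ q * aR y z t)} := by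
      ext t
      simp only [mem_setOf_eq, hDP t]
    rw [hset]
    refine le_trans h ?_
    have hA2 : 0 ≤ A ^ (2 * k - 2) := pow_nonneg (by linarith) _
    have : C0 * A ^ (2 * k - 2) ≤ C * A ^ (2 * k - 2) := mul_le_mul_of_nonneg_right hCC0 hA2
    have h3 : 0 ≤ T * Real.log T ^ (k ^ 2) := by positivity
    calc C0 * A ^ (2 * k - 2) * T * Real.log T ^ (k ^ 2)
        = (C0 * A ^ (2 * k - 2)) * (T * Real.log T ^ (k ^ 2)) := by ring
      _ ≤ (C * A ^ (2 * k - 2)) * (T * Real.log T ^ (k ^ 2)) := mul_le_mul_of_nonneg_right this h3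
      _ = C * A ^ (2 * k - 2) * T * Real.log T ^ (k ^ 2) := by ring
  refine ⟨y ^ q * z, fun n => BB q y z q 1 n, ?_, ?_, hup', hlow', ?_, ?_, ?_, ?_⟩
  · exact_mod_cast hX
  · intro n
    refine ⟨(b1 n).1, le_trans (b1 n).2 (p9 n fun p _ _ => haa1 p)⟩
  · -- the measure
    have hS0I : S0 ⊆ Icc T (2 * T) := fun t ht => ht.1
    have hS0fin : volume S0 < ⊤ := lt_of_le_of_lt (measure_mono hS0I) (by simp)
    set M : ℝ := Real.log T ^ (2 * k ^ 2) *
      Real.exp (2 * k * C0 * Real.sqrt (Real.log (Real.log T))) with hM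
    have hMpos : 0 < M := by positivity
    have hb : ‖∫ t in S0, az t ^ (2 * k)‖ ≤ M * volume.real S0 := by
      refine norm_setIntegral_le_of_norm_le_const hS0fin fun t ht => ?_
      rw [Real.norm_of_nonneg (pow_nonneg (az_nonneg t) _)]
      exact bound_on hT1 (az_nonneg t) ht.2.2 hk
    have hb2 : c * T * Real.log T ^ (k ^ 2) ≤ M * volume.real S0 :=
      le_trans hlow (le_trans (Real.le_norm_self _) hb)
    have hb3 : volume.real S0 ≤ volume.real S := measureReal_mono hsub hSfin.ne
    have hb4 : c * T * Real.log T ^ (k ^ 2) ≤ M * volume.real S :=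
      le_trans hb2 (mul_le_mul_of_nonneg_left hb3 hMpos.le)
    have hexpc : Real.exp (-Real.sqrt (Real.log (Real.log T))) ≤ c := by
      rw [← Real.exp_log hc]
      apply Real.exp_le_exp.mpr
      linarith
    have key : M * (T / Real.log T ^ (k ^ 2) *
        Real.exp (-(C * Real.sqrt (Real.log (Real.log T))))) ≤ c * T * Real.log T ^ (k ^ 2) := by
      have e3 : Real.exp (2 * k * C0 * Real.sqrt (Real.log (Real.log T))) *
          Real.exp (-(C * Real.sqrt (Real.log (Real.log T)))) =
          Real.exp (-Real.sqrt (Real.log (Real.log T))) := by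
        rw [← Real.exp_add]
        congr 1
        rw [hC]
        ring
      have e4 : Real.log T ^ (2 * k ^ 2) = Real.log T ^ (k ^ 2) * Real.log T ^ (k ^ 2) := by
        rw [← pow_add]
        congr 1
        ring
      have e5 : M * (T / Real.log T ^ (k ^ 2) *
          Real.exp (-(C * Real.sqrt (Real.log (Real.log T))))) =
          Real.exp (-Real.sqrt (Real.log (Real.log T))) * (T * Real.log T ^ (k ^ 2)) := by
        rw [hM, ← e3, e4]
        have : Real.log T ^ (k ^ 2) ≠ 0 := (pow_pos hL _).ne'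
        field_simp
      rw [e5]
      calc Real.exp (-Real.sqrt (Real.log (Real.log T))) * (T * Real.log T ^ (k ^ 2))
          ≤ c * (T * Real.log T ^ (k ^ 2)) := mul_le_mul_of_nonneg_right hexpc (by positivity)
        _ = c * T * Real.log T ^ (k ^ 2) := by ring
    have key2 := le_trans key hb4
    exact le_of_mul_le_mul_left key2 hMpos
  · -- concentration
    intro A K hA hK hKs
    have h := hconc A K hA hK hKs
    have hA0 : 0 < A := lt_of_lt_of_le one_pos hA
    refine le_trans (setIntegral_mono_set (s := {t | t ∈ Icc T (2 * T) ∧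
        az t ≤ A * ‖DP (fun n => BB q y z q 1 n) (y ^ q * z) t‖ ∧
        C * K * Real.sqrt (Real.log (Real.log T)) <
          |Real.log (az t) - k * Real.log (Real.log T)|}) (t := {t | t ∈ Icc T (2 * T) ∧
        az t ≤ A * (aM q y t ^ q * aR y z t) ∧ C0 * K * Real.sqrt (Real.log (Real.log T)) <
          |Real.log (az t) - k * Real.log (Real.log T)|})
        (hint.mono_set fun t ht => ht.1)
        (Eventually.of_forall fun t => pow_nonneg (az_nonneg t) _) ?_) (le_trans h ?_)
    · refine HasSubset.Subset.eventuallyLE ?_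
      intro t ht
      obtain ⟨u1, u2, u3⟩ := ht
      rw [hDP t] at u2
      refine ⟨u1, u2, lt_of_le_of_lt ?_ u3⟩
      refine mul_le_mul_of_nonneg_right ?_ (Real.sqrt_nonneg _)
      exact mul_le_mul_of_nonneg_right hCC0 (by linarith)
    · have h3 : 0 ≤ A ^ (2 * k) * Real.exp (-(K ^ 2)) * T * Real.log T ^ (k ^ 2) := by positivity
      calc C0 * A ^ (2 * k) * Real.exp (-(K ^ 2)) * T * Real.log T ^ (k ^ 2)
          = C0 * (A ^ (2 * k) * Real.exp (-(K ^ 2)) * T * Real.log T ^ (k ^ 2)) := by ring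
        _ ≤ C * (A ^ (2 * k) * Real.exp (-(K ^ 2)) * T * Real.log T ^ (k ^ 2)) :=
            mul_le_mul_of_nonneg_right hCC0 h3
        _ = C * A ^ (2 * k) * Real.exp (-(K ^ 2)) * T * Real.log T ^ (k ^ 2) := by ring
  · -- large values near the typical size
    intro A B hA hB
    set m : ℝ := Real.log T ^ k * Real.exp (-(B * Real.sqrt (Real.log (Real.log T)))) with hm
    have hmpos : 0 < m := by positivity
    have hcont : Continuous fun t : ℝ =>
        A * ‖DP (fun n => BB q y z q 1 n) (y ^ q * z) t‖ :=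
      continuous_const.mul (DP_cont _ _)
    have h := h4 _ hcont k T m hTge hmpos
    refine le_trans h ?_
    rw [div_le_iff₀ (pow_pos hmpos _)]
    refine le_trans (hup' A hA) (le_of_eq ?_)
    have e4 : m ^ (2 * k) = Real.log T ^ (k ^ 2) * Real.log T ^ (k ^ 2) *
        Real.exp (-(2 * k * B * Real.sqrt (Real.log (Real.log T)))) := by
      rw [hm, mul_pow, ← Real.exp_nat_mul, ← pow_mul, ← pow_add]
      congr 2
      · ring
      · push_cast
        ring
    have e5 : Real.exp (2 * k * B * Real.sqrt (Real.log (Real.log T))) *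
        Real.exp (-(2 * k * B * Real.sqrt (Real.log (Real.log T)))) = 1 := by
      rw [← Real.exp_add, add_neg_cancel, Real.exp_zero]
    have hne : Real.log T ^ (k ^ 2) ≠ 0 := (pow_pos hL _).ne'
    rw [e4]
    calc C * A ^ (2 * k - 2) * T * Real.log T ^ (k ^ 2)
        = C * A ^ (2 * k - 2) * T * Real.log T ^ (k ^ 2) *
          (Real.exp (2 * k * B * Real.sqrt (Real.log (Real.log T))) *
            Real.exp (-(2 * k * B * Real.sqrt (Real.log (Real.log T))))) := by
          rw [e5, mul_one]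
      _ = _ := by
          field_simp
  · -- large values
    intro A V hA hV1 hV2
    have h := hlarge A V hA hV1 hV2
    have hset : {t | t ∈ Icc T (2 * T) ∧
          az t ≤ A * ‖DP (fun n => BB q y z q 1 n) (y ^ q * z) t‖ ∧ Real.exp V ≤ az t} =
        {t | t ∈ Icc T (2 * T) ∧ az t ≤ A * (aM q y t ^ q * aR y z t) ∧
          Real.exp V ≤ az t} := by
      ext t
      simp only [mem_setOf_eq, hDP t]
    rw [hset]
    refine le_trans h ?_
    have hLL : 0 < Real.log (Real.log T) := Real.log_pos hT1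
    have h3 : 0 ≤ A ^ (2 * k) * T * Real.exp (-(V ^ 2 / Real.log (Real.log T))) *
        Real.log (Real.log T) ^ (k + 1) := by positivity
    calc C0 * A ^ (2 * k) * T * Real.exp (-(V ^ 2 / Real.log (Real.log T))) *
          Real.log (Real.log T) ^ (k + 1)
        = C0 * (A ^ (2 * k) * T * Real.exp (-(V ^ 2 / Real.log (Real.log T))) *
          Real.log (Real.log T) ^ (k + 1)) := by ring
      _ ≤ C * (A ^ (2 * k) * T * Real.exp (-(V ^ 2 / Real.log (Real.log T))) *
          Real.log (Real.log T) ^ (k + 1)) := mul_le_mul_of_nonneg_right hCC0 h3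
      _ = _ := by ring

end Pool.Agent.Work.MP_56b8f5_nt.WM
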