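import Pool.Agent.Work.MP_56b8f5_nt.WM.Stmts

/-!
MP_56b8f5_nt, block WM, item B7: numerical consequences of Mertens for admissible parameters.
-/

set_option autoImplicit false

open MeasureTheory Set Filter Topology

noncomputable section

namespace Pool.Agent.Work.MP_56b8f5_nt.WM

open Pool.Agent.Work.MP_56b8f5_nt.EM

namespace I_Num

theorem S1_nonneg (y : ℕ) : 0 ≤ S1 y := Finset.sum_nonneg fun p _ => by positivity

theorem S2_nonneg (y z : ℕ) : 0 ≤ S2 y z := Finset.sum_nonneg fun p _ => by positivity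

theorem pr_filter (y z : ℕ) (h : y ≤ z) : (pr z).filter (fun p => ¬ y < p) = pr y := by
  ext p
  simp only [pr, Finset.mem_filter, Finset.mem_range]
  constructor
  · rintro ⟨⟨h1, h2⟩, h3⟩
    exact ⟨by omega, h2⟩
  · rintro ⟨h1, h2⟩
    exact ⟨⟨by omega, h2⟩, by omega⟩

theorem S1_add_S2 (y z : ℕ) (h : y ≤ z) : S1 y + S2 y z = S1 z := by
  have h1 := Finset.sum_filter_add_sum_filter_not (pr z) (fun p => y < p) (fun p : ℕ => 1 / (p : ℝ))
  rw [pr_filter y z h] at h1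
  unfold S1 S2
  linarith

theorem z_le (k : ℕ) (C T : ℝ) (q y z : ℕ) (h : IsPar k C T q y z) : (z : ℝ) ≤ T := by
  have h1 : z ≤ (y ^ q * z) ^ 9 := by
    have hy : 1 ≤ y ^ q := Nat.one_le_pow _ _ (by have := h.hy; omega)
    have hz : z ≤ y ^ q * z := Nat.le_mul_of_pos_left _ hy
    have hz1 : 1 ≤ y ^ q * z := by have := h.hy; have := h.hyz; omega
    calc z ≤ y ^ q * z := hz
      _ = (y ^ q * z) ^ 1 := (pow_one _).symm
      _ ≤ (y ^ q * z) ^ 9 := Nat.pow_le_pow_right hz1 (by norm_num)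
  calc (z : ℝ) ≤ (((y ^ q * z) ^ 9 : ℕ) : ℝ) := by exact_mod_cast h1
    _ = ((y ^ q * z : ℕ) : ℝ) ^ 9 := by push_cast; ring
    _ ≤ T := h.hN

theorem main (h6 : S_Mert) : S_Num := by
  obtain ⟨C₁, hC₁, hM⟩ := h6
  intro k C hC
  refine ⟨3 * C₁ ^ 2 * C, 3, ?_, le_rfl, ?_⟩
  · nlinarith [one_le_pow₀ hC₁ (n := 2)]
  intro T hT q y z hp
  have hy2 : (2 : ℕ) ≤ y := hp.hy
  have hz2 : (2 : ℕ) ≤ z := le_trans hp.hy hp.hyz
  obtain ⟨hy1, hy3⟩ := hM y hy2
  obtain ⟨hz1, hz3⟩ := hM z hz2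
  have hzT := z_le k C T q y z hp
  have hyz : (y : ℝ) ≤ z := by exact_mod_cast hp.hyz
  have hyR : (2 : ℝ) ≤ y := by exact_mod_cast hy2
  have hlogy : 0 < Real.log y := Real.log_pos (by linarith)
  have hlogyz : Real.log y ≤ Real.log z := Real.log_le_log (by linarith) hyz
  have hlogzT : Real.log z ≤ Real.log T := Real.log_le_log (by linarith) hzT
  have hlogT : 0 < Real.log T := by linarith
  have hqR : (1 : ℝ) ≤ q := by exact_mod_cast hp.hq
  have hsum := S1_add_S2 y z hp.hyz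
  have hC2 : C₁ ≤ C₁ ^ 2 := by nlinarith
  have hC3 : C₁ ^ 2 ≤ 3 * C₁ ^ 2 * C := by nlinarith [sq_nonneg C₁]
  have hC4 : C₁ ≤ 3 * C₁ ^ 2 * C := le_trans hC2 hC3
  have hC5 : C₁ ^ 2 * C ≤ 3 * C₁ ^ 2 * C := by nlinarith [sq_nonneg C₁]
  have hC6 : C * C₁ ≤ 3 * C₁ ^ 2 * C := by nlinarith [sq_nonneg C₁]
  have hC7 : C₁ * 3 ≤ 3 * C₁ ^ 2 * C := by nlinarith [sq_nonneg C₁]
  have hyT : (y : ℝ) ≤ T := le_trans hyz hzT
  have hE := Real.exp_pos (S1 y)
  refine ⟨S1_nonneg y, S2_nonneg y z, ?_, ?_, ?_, ?_, ?_⟩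
  · rw [hsum]
    calc Real.exp (S1 z) ≤ C₁ * Real.log z := hz1
      _ ≤ C₁ * Real.log T := by gcongr
      _ ≤ (3 * C₁ ^ 2 * C) * Real.log T := mul_le_mul_of_nonneg_right hC4 hlogT.le
  · have h1 : Real.exp (S2 y z) * Real.exp (S1 y) ≤ C₁ * Real.log z := by
      rw [← Real.exp_add, add_comm, hsum]
      exact hz1
    have h2 : Real.log z ≤ C * q * Real.log y := le_trans hlogzT hp.hy'
    have h3 : Real.log z ≤ C * q * (C₁ * Real.exp (S1 y)) :=
      le_trans h2 (by gcongr)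
    have h4 : Real.exp (S2 y z) * Real.exp (S1 y) ≤ (C₁ ^ 2 * C * q) * Real.exp (S1 y) := by
      calc Real.exp (S2 y z) * Real.exp (S1 y) ≤ C₁ * Real.log z := h1
        _ ≤ C₁ * (C * q * (C₁ * Real.exp (S1 y))) := by gcongr
        _ = (C₁ ^ 2 * C * q) * Real.exp (S1 y) := by ring
    have h5 := le_of_mul_le_mul_right h4 hE
    calc Real.exp (S2 y z) ≤ C₁ ^ 2 * C * q := h5
      _ ≤ (3 * C₁ ^ 2 * C) * q := mul_le_mul_of_nonneg_right hC5 (by positivity)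
  · have h1 : S1 y ≤ Real.log C₁ + Real.log (Real.log T) := by
      have h2 : S1 y ≤ Real.log (C₁ * Real.log y) := (Real.le_log_iff_exp_le (by positivity)).2 hy1
      rw [Real.log_mul (by positivity) hlogy.ne'] at h2
      have h3 : Real.log (Real.log y) ≤ Real.log (Real.log T) :=
        Real.log_le_log hlogy (by linarith)
      linarith
    have hlC : 0 ≤ Real.log C₁ := Real.log_nonneg hC₁
    have hq2 : (1 : ℝ) ≤ (q : ℝ) ^ 2 := one_le_pow₀ hqR
    have h4 : S1 y / (q : ℝ) ^ 2 ≤ Real.log C₁ + 1 := by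
      rw [div_le_iff₀ (by positivity)]
      have := hp.hq2
      nlinarith
    calc Real.exp (S1 y / (q : ℝ) ^ 2) ≤ Real.exp (Real.log C₁ + 1) := Real.exp_le_exp.2 h4
      _ = C₁ * Real.exp 1 := by rw [Real.exp_add, Real.exp_log (by positivity)]
      _ ≤ C₁ * 3 := by
        gcongr
        linarith [Real.exp_one_lt_d9]
      _ ≤ 3 * C₁ ^ 2 * C := hC7
  · calc Real.exp (S1 y) ≤ C₁ * Real.log y := hy1
      _ ≤ C₁ * Real.log T := by
        gcongr
      _ ≤ (3 * C₁ ^ 2 * C) * Real.log T := mul_le_mul_of_nonneg_right hC4 hlogT.le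
  · calc Real.log T ≤ C * q * Real.log y := hp.hy'
      _ ≤ C * q * (C₁ * Real.exp (S1 y)) := by gcongr
      _ = (C * C₁) * q * Real.exp (S1 y) := by ring
      _ ≤ (3 * C₁ ^ 2 * C) * q * Real.exp (S1 y) :=
        mul_le_mul_of_nonneg_right (mul_le_mul_of_nonneg_right hC6 (by positivity)) hE.le

end I_Num

/-- **B7 (Num).** -/
theorem Num_pf (h6 : S_Mert) : S_Num := I_Num.main h6

end Pool.Agent.Work.MP_56b8f5_nt.WM
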