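import Pool.Agent.Work.MP_56b8f5_nt.WM.Stmts

/-!
MP_56b8f5_nt, block WM (window theorem), extension G: Gaussian concentration and frequency of large values.
Statements of the items, with proofs.

Notation in the proofs: `L = log T`, `LL = log log T`, `X = L^(k²)`, `x = i/q`, `φ = |ζ|`, `m = |M|`, `r = |R|`,
`s₁ = S1 y`, `s₂ = S2 y z`, `J(n, j) = J2 w q y z T n j`.
-/

set_option autoImplicit false

open MeasureTheory Set Filter Topology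

noncomputable section

namespace Pool.Agent.Work.MP_56b8f5_nt.WM

open Pool.Agent.Work.MP_56b8f5_nt.EM

/-- **G1 (PwG), pointwise inequalities.** Let `x = i/q ∈ [0, 1]`.

P1: `φ > 0`. If `r > e^b`: `φ^(2k) = φ² φ^(2k-2) ≤ φ² A^(2k-2) m^(2q(k-1)) r^(2k-2)` and `r^(2k-2) ≤ e^(-2b) r^(2k)`. If `r ≤ e^b`:
multiply `φ^(2k) ≤ φ² A^(2k-2) m^(2q(k-1)) r^(2k-2)` by
`1 ≤ (φ e^(-a))^(2x) ≤ A^(2x) m^(2i) r^(2x) e^(-2xa) ≤ A² m^(2i) e^(-2x(a-b))`.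

P2: `φ = 0` is trivial. Otherwise `m, r > 0` and `φ^(2k) = φ² φ^(2k-2-2x) φ^(2x) ≤ φ² (A m^q r)^(2k-2-2x) e^(2xa)`,
`(m^q)^(2k-2-2x) = m^(2(q(k-1)-i))`, and `r^(2k-2-2x) ≤ r^(2k-2) + r^(2k-4)` (`r ≥ 1` or `r ≤ 1`).

P3: `e^(2(k+x)V) ≤ φ^(2(k+x)) ≤ φ² (A m^q r)^(2k-2+2x)`, `r^(2k-2+2x) ≤ r^(2k-2) + r^(2k)`.

P4: `e^(2(k-x)V) ≤ φ^(2(k-x)) ≤ φ² (A m^q r)^(2k-2-2x)`, and as in P2. -/
def S_PwG : Prop := ∀ (k q i : ℕ) (A φ m r : ℝ), 2 ≤ k → 1 ≤ q → i ≤ q → 1 ≤ A → 0 ≤ φ → 0 ≤ m → 0 ≤ r →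
  φ ≤ A * (m ^ q * r) →
  (∀ a b : ℝ, Real.exp a < φ → φ ^ (2 * k) ≤ A ^ (2 * k) *
    (Real.exp (-(2 * b)) * (φ ^ 2 * (m ^ (2 * (q * (k - 1))) * r ^ (2 * k))) +
      Real.exp (-(2 * ((i : ℝ) / q) * (a - b))) *
        (φ ^ 2 * (m ^ (2 * (q * (k - 1) + i)) * r ^ (2 * (k - 1)))))) ∧
  (∀ a : ℝ, φ < Real.exp a → φ ^ (2 * k) ≤ A ^ (2 * k) * (Real.exp (2 * ((i : ℝ) / q) * a) *
    (φ ^ 2 * (m ^ (2 * (q * (k - 1) - i)) * r ^ (2 * (k - 1))) +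
      φ ^ 2 * (m ^ (2 * (q * (k - 1) - i)) * r ^ (2 * (k - 2)))))) ∧
  (∀ V : ℝ, Real.exp V ≤ φ → Real.exp (2 * ((k : ℝ) + (i : ℝ) / q) * V) ≤ A ^ (2 * k) *
    (φ ^ 2 * (m ^ (2 * (q * (k - 1) + i)) * r ^ (2 * (k - 1))) +
      φ ^ 2 * (m ^ (2 * (q * (k - 1) + i)) * r ^ (2 * k)))) ∧
  (∀ V : ℝ, Real.exp V ≤ φ → Real.exp (2 * ((k : ℝ) - (i : ℝ) / q) * V) ≤ A ^ (2 * k) *
    (φ ^ 2 * (m ^ (2 * (q * (k - 1) - i)) * r ^ (2 * (k - 1))) +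
      φ ^ 2 * (m ^ (2 * (q * (k - 1) - i)) * r ^ (2 * (k - 2)))))

/-- **G2 (J2G), tilted twisted second moments.** From `S_Jb` (the lengths are `≤ y^(qk) z^k ≤ y^(qk+1) z^(k+1)`,
and `y^(qk+1) z^(k+1)` cubed is `≤ T` by `hlen`) and `S_Num` (constant `C₁`). With `n/q = k-1±x`,
`2(n/q) + (n/q)² = (k±x)² - 1 = k²-1 ± 2kx + x²`, and
`C₀ L e^((k²-1)(s₁+s₂)) ≤ C₀ L (C₁ L)^(k²-1) ≤ C₀ C₁^(k²) X`. Further `s₁ ≤ LL + log C₁`, so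
`e^((2kx+x²) s₁) ≤ C₁^(2k+1) e^((2kx+x²) LL)`; `s₁ ≥ LL - log (C₁ q)`, so `e^(-2kx s₁) ≤ C₁^(2k) e^(2kx log q) e^(-2kx LL)`.
For `j = k` the exponent of `s₂` is `(k+1)²-1 = k²-1 + (2k+1)`, and `e^((2k+1) s₂) ≤ (C₁ q)^(2k+1)`. For `j = k-2`
it is `(k-1)²-1 ≤ k²-1`, and `s₂ ≥ 0`. -/
def S_J2G : Prop := ∀ w : ℝ → ℝ, IsW w → ∀ (k : ℕ) (C : ℝ), 2 ≤ k → 1 ≤ C → ∃ C' T₀ : ℝ,
  1 ≤ C' ∧ ∀ T : ℝ, T₀ ≤ T → ∀ q y z : ℕ, IsPar k C T q y z → ∀ i : ℕ, i ≤ q →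
    J2 w q y z T (q * (k - 1) + i) (k - 1) ≤ C' * Real.log T ^ (k ^ 2) *
      Real.exp ((2 * k * ((i : ℝ) / q) + ((i : ℝ) / q) ^ 2) * Real.log (Real.log T)) ∧
    J2 w q y z T (q * (k - 1) + i) k ≤ C' * Real.log T ^ (k ^ 2) * (q : ℝ) ^ (2 * k + 1) *
      Real.exp ((2 * k * ((i : ℝ) / q) + ((i : ℝ) / q) ^ 2) * Real.log (Real.log T)) ∧
    J2 w q y z T (q * (k - 1) - i) (k - 1) ≤ C' * Real.log T ^ (k ^ 2) *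
      Real.exp (2 * k * ((i : ℝ) / q) * Real.log q) *
      Real.exp ((-(2 * k * ((i : ℝ) / q)) + ((i : ℝ) / q) ^ 2) * Real.log (Real.log T)) ∧
    J2 w q y z T (q * (k - 1) - i) (k - 2) ≤ C' * Real.log T ^ (k ^ 2) *
      Real.exp (2 * k * ((i : ℝ) / q) * Real.log q) *
      Real.exp ((-(2 * k * ((i : ℝ) / q)) + ((i : ℝ) / q) ^ 2) * Real.log (Real.log T))

/-- **G3 (UpG), concentration at scale `T`.** Let `C₁` be the constant of G2 and `i = ⌈K⌉`, so `K ≤ i ≤ 2K`,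
`i ≤ q` (as `K ≤ √LL ≤ q` by `hq2`), `x ≥ K/(C √LL)` (`hqs`), `x² LL ≤ i² ≤ 4K²` (`hq2`). Put `E = C' K √LL`, `b = K √LL`.
Where `φ = 0` the integrand is `0`; elsewhere on the set `log φ > k LL + E` (P1 of G1, `a = k LL + E`) or
`log φ < k LL - E` (P2, `a = k LL - E`). Integrate (the right sides are nonnegative and integrable over all `u`: continuous with
compact support in `(0, 1]`): the integral is at most `A^(2k)` times the sum of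
(i) `e^(-2b) J(q(k-1), k) ≤ C₁ X q^(2k+1) e^(-2K√LL)` (second bound of G2 with `i = 0`)
`≤ C₁ X (C √LL)^(2k+1) e^(-√LL) e^(-K²)` as `2K√LL ≥ K² + √LL`, and `s^(2k+1) e^(-s)` is bounded;
(ii) `e^(-2x(a-b)) J(q(k-1)+i, k-1) ≤ C₁ X exp(x² LL - 2x(E-b)) ≤ C₁ X exp(4K² - 2(C'-1)K²/C)`;
(iii) `e^(2xa) (J(q(k-1)-i, k-1) + J(q(k-1)-i, k-2)) ≤ 2 C₁ X exp(2kx log q + x² LL - 2xE)`, and
`x log q = i (log q)/q ≤ i ≤ 2K ≤ 2K²`, so this is `≤ 2 C₁ X exp((4k+4)K² - 2C'K²/C)`.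
Take `C'` large in terms of `k`, `C`, `C₁`. -/
def S_UpG : Prop := ∀ w : ℝ → ℝ, IsW w → ∀ (k : ℕ) (C : ℝ), 2 ≤ k → 1 ≤ C →
  ∃ C' T₀ : ℝ, 1 ≤ C' ∧ ∀ T : ℝ, T₀ ≤ T → ∀ q y z : ℕ, IsPar k C T q y z →
    ∀ A K : ℝ, 1 ≤ A → 1 ≤ K → K ≤ Real.sqrt (Real.log (Real.log T)) →
      ∫ u in {u | az (T * u) ≤ A * (aM q y (T * u) ^ q * aR y z (T * u)) ∧
          C' * K * Real.sqrt (Real.log (Real.log T)) <
            |Real.log (az (T * u)) - k * Real.log (Real.log T)|},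
        w u * az (T * u) ^ (2 * k) ≤ C' * A ^ (2 * k) * Real.exp (-(K ^ 2)) * Real.log T ^ (k ^ 2)

/-- **G4 (LdG), frequency of large values at scale `T`.** Let `C₁` be the constant of G2; take `T₀` with
`LL ≥ 1`. Case `V ≥ k LL`: `x₀ = V/LL - k ∈ [0, 1]`, `i = ⌊x₀ q⌋`, `|x - x₀| ≤ 1/q`. By P3 of G1 and G2 the integral is
at most `2 C₁ A^(2k) q^(2k+1) X exp((2kx + x²) LL - 2(k+x)V)`; with `X = e^(k² LL)` and `V = (k+x₀) LL` the exponent is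
`(k+x)² LL - 2(k+x)(k+x₀) LL = (x-x₀)² LL - V²/LL ≤ 1 - V²/LL` (`hq2`). And `q^(2k+1) ≤ q^(2k+2) ≤ C^(2k+2) LL^(k+1)` (`hqs`).
Case `V < k LL`: `x₀ = k - V/LL ∈ (0, 1 + 1/LL]`, `i = ⌊min x₀ 1 * q⌋`, `|x - x₀| ≤ 1/q + 1/LL`, P4, and the exponent is
`(k-x)² LL - 2(k-x)(k-x₀) LL = (x-x₀)² LL - V²/LL ≤ 4 - V²/LL`; `e^(2kx log q) ≤ q^(2k)`. -/
def S_LdG : Prop := ∀ w : ℝ → ℝ, IsW w → ∀ (k : ℕ) (C : ℝ), 2 ≤ k → 1 ≤ C →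
  ∃ C' T₀ : ℝ, 1 ≤ C' ∧ ∀ T : ℝ, T₀ ≤ T → ∀ q y z : ℕ, IsPar k C T q y z →
    ∀ A V : ℝ, 1 ≤ A → ((k : ℝ) - 1) * Real.log (Real.log T) - 1 ≤ V →
      V ≤ ((k : ℝ) + 1) * Real.log (Real.log T) →
      ∫ u in {u | az (T * u) ≤ A * (aM q y (T * u) ^ q * aR y z (T * u)) ∧
          Real.exp V ≤ az (T * u)}, w u ≤
        C' * A ^ (2 * k) * Real.exp (-(V ^ 2 / Real.log (Real.log T))) *
          Real.log (Real.log T) ^ (k + 1)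

/-- **G5 (ScaU), G3 from the scale `T' = 4T` to `[T, 2T]`.** `t = T' u`, `t ∈ [T, 2T]` iff `u ∈ [1/4, 1/2]`, G3 with the
weight `w₂` of `S_Wts` (`w₂ = 1` there, `w₂ ≥ 0`). `LL ≤ LL' ≤ LL + 1`, `√LL' ≤ 2√LL` for large `T`, so with `C₂` the constant of G3
`|log φ - k LL| > C' K √LL` implies `|log φ - k LL'| > C' K √LL - k ≥ C₂ K √LL'` for `C' ≥ 2C₂ + k`
(`K√LL ≥ 1`); `log (4T) ≤ 2 log T`; `K ≤ √LL ≤ √LL'`. -/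
def S_ScaU : Prop := ∀ (k : ℕ) (C : ℝ), 2 ≤ k → 1 ≤ C → ∃ C' : ℝ, 1 ≤ C' ∧ ∀ᶠ T : ℝ in atTop,
  ∀ q y z : ℕ, IsPar k C (4 * T) q y z →
    ∀ A K : ℝ, 1 ≤ A → 1 ≤ K → K ≤ Real.sqrt (Real.log (Real.log T)) →
      ∫ t in {t | t ∈ Icc T (2 * T) ∧ az t ≤ A * (aM q y t ^ q * aR y z t) ∧
        C' * K * Real.sqrt (Real.log (Real.log T)) < |Real.log (az t) - k * Real.log (Real.log T)|},
        az t ^ (2 * k) ≤ C' * A ^ (2 * k) * Real.exp (-(K ^ 2)) * T * Real.log T ^ (k ^ 2)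

/-- **G6 (ScaL), G4 from the scale `T' = 4T` to `[T, 2T]`.** As G5, with G4 and `w₂`. `LL ≤ LL' ≤ LL + δ`,
`δ = log (1 + log 4/log T) ≤ 1/(k+1)` for large `T`, so `(k-1) LL' - 1 ≤ (k-1) LL ≤ V ≤ (k+1) LL'`; and
`V²/LL - V²/LL' ≤ V² δ/LL² ≤ (k+1)² δ ≤ k+1`; `LL' ≤ 2 LL`. -/
def S_ScaL : Prop := ∀ (k : ℕ) (C : ℝ), 2 ≤ k → 1 ≤ C → ∃ C' : ℝ, 1 ≤ C' ∧ ∀ᶠ T : ℝ in atTop,
  ∀ q y z : ℕ, IsPar k C (4 * T) q y z →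
    ∀ A V : ℝ, 1 ≤ A → ((k : ℝ) - 1) * Real.log (Real.log T) ≤ V →
      V ≤ ((k : ℝ) + 1) * Real.log (Real.log T) →
      volume.real {t | t ∈ Icc T (2 * T) ∧ az t ≤ A * (aM q y t ^ q * aR y z t) ∧
        Real.exp V ≤ az t} ≤
        C' * A ^ (2 * k) * T * Real.exp (-(V ^ 2 / Real.log (Real.log T))) *
          Real.log (Real.log T) ^ (k + 1)

/-- **G7 (ScaG).** `S_Sca` with two more parts for the same `q, y, z`. Proof: as `S_Sca` (take over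
`WM/I_Sca.lean`), and G5, G6 for the parameters of `S_Par` at `4T` (replace the constants by their maximum; the last two parts are
monotone in the constant). -/
def S_ScaG : Prop := ∀ k : ℕ, 2 ≤ k → ∃ c C : ℝ, 0 < c ∧ 1 ≤ C ∧ ∀ᶠ T : ℝ in atTop,
  ∃ q y z : ℕ, 1 ≤ q ∧ 2 ≤ y ∧ y ≤ z ∧ ((y ^ q * z : ℕ) : ℝ) ≤ T ^ (1 / 8 : ℝ) ∧
    (∀ A : ℝ, 1 ≤ A → ∫ t in {t | t ∈ Icc T (2 * T) ∧ az t ≤ A * (aM q y t ^ q * aR y z t)},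
      az t ^ (2 * k) ≤ C * A ^ (2 * k - 2) * T * Real.log T ^ (k ^ 2)) ∧
    c * T * Real.log T ^ (k ^ 2) ≤ ∫ t in {t | t ∈ Icc T (2 * T) ∧
      az t ≤ C * (aM q y t ^ q * aR y z t) ∧
      |Real.log (az t) - k * Real.log (Real.log T)| ≤ C * Real.sqrt (Real.log (Real.log T))},
        az t ^ (2 * k) ∧
    (∀ A K : ℝ, 1 ≤ A → 1 ≤ K → K ≤ Real.sqrt (Real.log (Real.log T)) →
      ∫ t in {t | t ∈ Icc T (2 * T) ∧ az t ≤ A * (aM q y t ^ q * aR y z t) ∧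
        C * K * Real.sqrt (Real.log (Real.log T)) < |Real.log (az t) - k * Real.log (Real.log T)|},
        az t ^ (2 * k) ≤ C * A ^ (2 * k) * Real.exp (-(K ^ 2)) * T * Real.log T ^ (k ^ 2)) ∧
    ∀ A V : ℝ, 1 ≤ A → ((k : ℝ) - 1) * Real.log (Real.log T) ≤ V →
      V ≤ ((k : ℝ) + 1) * Real.log (Real.log T) →
      volume.real {t | t ∈ Icc T (2 * T) ∧ az t ≤ A * (aM q y t ^ q * aR y z t) ∧
        Real.exp V ≤ az t} ≤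
        C * A ^ (2 * k) * T * Real.exp (-(V ^ 2 / Real.log (Real.log T))) *
          Real.log (Real.log T) ^ (k + 1)

/-- **G8 (Cheb).** Markov's inequality. `az` is continuous on `[T, 2T]` (`T ≥ 1`), so everything is measurable and integrable,
and `az t ^ (2k) ≥ m ^ (2k)` on the smaller set. -/
def S_Cheb : Prop := ∀ f : ℝ → ℝ, Continuous f → ∀ (k : ℕ) (T m : ℝ), 1 ≤ T → 0 < m →
  volume.real {t | t ∈ Icc T (2 * T) ∧ az t ≤ f t ∧ m ≤ az t} ≤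
    (∫ t in {t | t ∈ Icc T (2 * T) ∧ az t ≤ f t}, az t ^ (2 * k)) / m ^ (2 * k)

/-- **G9 (MainG), the final theorem.** As `S_Main` (take over `WM/I_Main.lean`) from G7, with three more parts for the
same `X` and `a`: the fourth and the sixth are the last two parts of G7 (`‖DP a X t‖ = aM^q aR` by `S_BBp`);
the fifth is G8 with `m = (log T)^k e^(-B √(log log T))` and the first part. -/
def S_MainG : Prop := ∀ k : ℕ, 2 ≤ k → ∃ c C : ℝ, 0 < c ∧ 1 ≤ C ∧ ∀ᶠ T : ℝ in atTop,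
  ∃ (X : ℕ) (a : ℕ → ℝ), (X : ℝ) ≤ T ^ (1 / 8 : ℝ) ∧ (∀ n, 0 ≤ a n ∧ a n ≤ 1) ∧
    (∀ A : ℝ, 1 ≤ A → ∫ t in {t | t ∈ Icc T (2 * T) ∧ az t ≤ A * ‖DP a X t‖}, az t ^ (2 * k) ≤
      C * A ^ (2 * k - 2) * T * Real.log T ^ (k ^ 2)) ∧
    (c * T * Real.log T ^ (k ^ 2) ≤ ∫ t in {t | t ∈ Icc T (2 * T) ∧ az t ≤ C * ‖DP a X t‖ ∧
      |Real.log (az t) - k * Real.log (Real.log T)| ≤ C * Real.sqrt (Real.log (Real.log T))},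
        az t ^ (2 * k)) ∧
    T / Real.log T ^ (k ^ 2) * Real.exp (-(C * Real.sqrt (Real.log (Real.log T)))) ≤
      volume.real {t | t ∈ Icc T (2 * T) ∧ az t ≤ C * ‖DP a X t‖ ∧
        |Real.log (az t) - k * Real.log (Real.log T)| ≤ C * Real.sqrt (Real.log (Real.log T))} ∧
    (∀ A K : ℝ, 1 ≤ A → 1 ≤ K → K ≤ Real.sqrt (Real.log (Real.log T)) →
      ∫ t in {t | t ∈ Icc T (2 * T) ∧ az t ≤ A * ‖DP a X t‖ ∧
        C * K * Real.sqrt (Real.log (Real.log T)) < |Real.log (az t) - k * Real.log (Real.log T)|},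
        az t ^ (2 * k) ≤ C * A ^ (2 * k) * Real.exp (-(K ^ 2)) * T * Real.log T ^ (k ^ 2)) ∧
    (∀ A B : ℝ, 1 ≤ A → 0 ≤ B →
      volume.real {t | t ∈ Icc T (2 * T) ∧ az t ≤ A * ‖DP a X t‖ ∧
        Real.log T ^ k * Real.exp (-(B * Real.sqrt (Real.log (Real.log T)))) ≤ az t} ≤
        C * A ^ (2 * k - 2) * (T / Real.log T ^ (k ^ 2)) *
          Real.exp (2 * k * B * Real.sqrt (Real.log (Real.log T)))) ∧
    ∀ A V : ℝ, 1 ≤ A → ((k : ℝ) - 1) * Real.log (Real.log T) ≤ V →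
      V ≤ ((k : ℝ) + 1) * Real.log (Real.log T) →
      volume.real {t | t ∈ Icc T (2 * T) ∧ az t ≤ A * ‖DP a X t‖ ∧ Real.exp V ≤ az t} ≤
        C * A ^ (2 * k) * T * Real.exp (-(V ^ 2 / Real.log (Real.log T))) *
          Real.log (Real.log T) ^ (k + 1)

end Pool.Agent.Work.MP_56b8f5_nt.WM
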