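import Pool.Agent.Work.MP_56b8f5_nt.WM.Stmts

/-!
MP_56b8f5_nt, block WR (large values, real exponents): statements of the items, with proofs.

Goal `S_MainV`: for every `k` there is `C` such that for all large `T` and all `V` with
`log log T ≤ V ≤ k log log T` the set of `t ∈ [T, 2T]` with `|log |zeta(1/2+it)| - V| ≤ C √(log log T)` has measure at
least `T exp(-V²/log log T - C √(log log T))`.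

Idea: in the window theorem the exponents on the primes `≤ y` are changed from `k-1`, `k` to `β-1`, `β`,
`β = (m₁+q)/q`, `m₁ = ⌊q(α-1)⌋`, and the exponents on the primes in `(y, z]` stay `k-1`, `k` (`k ≥ α`). The total size is
`X = exp(β² S1 y + k² S2 y z)` instead of `(log T)^(k²)`.
-/

set_option autoImplicit false

open MeasureTheory Set Filter Topology

noncomputable section

namespace Pool.Agent.Work.MP_56b8f5_nt.WM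

open Pool.Agent.Work.MP_56b8f5_nt.EM

/-- The ten upper bounds, exponents `m₁`, `m₁ + q` and `k-1`, `k`. -/
structure UBm (m₁ k q : ℕ) (X v D C : ℝ) (j0 j2 : ℕ → ℕ → ℝ) : Prop where
  a1 : j2 m₁ (k - 1) ≤ C * X
  a2 : j0 (m₁ + q) k ≤ C * X
  b1 : j2 (m₁ + 1) (k - 1) ≤ C * X * v ^ 2
  b2 : j0 (m₁ + q + 1) k ≤ C * X * v ^ 2
  b3 : j2 (m₁ - 1) (k - 1) ≤ C * X / v ^ 2
  b4 : j0 (m₁ + q - 1) k ≤ C * X / v ^ 2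
  c1 : j2 m₁ k ≤ C * X * D
  c2 : j0 (m₁ + q) (k + 1) ≤ C * X * D
  c3 : j2 m₁ (k - 2) ≤ C * X
  c4 : j0 (m₁ + q) (k - 1) ≤ C * X

/-- `β = (m₁+q)/q`. -/
def be (q m₁ : ℕ) : ℝ := ((m₁ + q : ℕ) : ℝ) / q

/-- `X = exp(β² S1 y + k² S2 y z)`. -/
def Xb (k q y z m₁ : ℕ) : ℝ := Real.exp (be q m₁ ^ 2 * S1 y + (k : ℝ) ^ 2 * S2 y z)

/-- **R1 (LowSr).** Rankin. Let `B` be a large constant (depending on `K₀`), `w = ⌊x^(1/B)⌋`. If `x < 2^(B+1)` the sum is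
`≥ 1` and `S1 x ≤ S1 (2^(B+1))`. Otherwise `w ≥ 2`, `log w ≥ log x/(2B)`, and the sum is at least
`∏_{p ≤ w} (1+K/p) - x^(-δ) ∏_{p ≤ w} (1+K p^δ/p)`, `δ = 1/log w` (both are sums over all squarefree `w`-smooth
`n`, `Finset.prod_one_add`; those with `n > x` have `1 ≤ (n/x)^δ`). `x^(-δ) ≤ e^(-B)` and the quotient of the products is
`≤ exp(K ∑_{p ≤ w} (p^δ-1)/p) ≤ exp(K (e-1) (∑_{p ≤ w} log p/p)/log w) ≤ exp(C K₀)` (`e^u - 1 ≤ (e-1) u` on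
`[0,1]`, `mertens1`). So the second term is at most half of the first for suitable `B`. Finally
`∏_{p ≤ w} (1+K/p) ≥ exp(K S1 w - K² ∑ 1/p²)` and `S1 x ≤ S1 w + C` (`S_Mert`). -/
def S_LowSr : Prop := ∀ K₀ : ℝ, 0 ≤ K₀ → ∃ c : ℝ, 0 < c ∧ ∀ K : ℝ, 0 ≤ K → K ≤ K₀ → ∀ x : ℕ, 2 ≤ x →
  c * Real.exp (K * S1 x) ≤
    ∑ n ∈ (Finset.Icc 1 x).filter Squarefree, K ^ n.primeFactors.card / (n : ℝ)

/-- **R2 (LowMr).** Main term, as A10 (`S_LowM`): for `l = n₁ n₂`, `n₁ ≤ y` squarefree, `n₂ ≤ z` squarefree with all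
primes `> y`: `BB (m₁+q) k l = β^{ω(n₁)} k^{ω(n₂)}` and `∑_{h ∣ l} BB m₁ (k-1) h` is the same, as
`BB m₁ (k-1) h = (β-1)^{ω(h₁)} (k-1)^{ω(h₂)}`. So the sum is at least
`(∑_{n₁ ≤ y} (β²)^{ω(n₁)}/n₁) · sR (k²) y z`; R1 with `K = β² ≤ k²`, and A9 with A6: `(log z/log y)^(k²) ≥ c e^(k² S2)`,
`S1 z = S1 y + S2 y z`. -/
def S_LowMr : Prop := ∀ k : ℕ, 1 ≤ k → ∃ c : ℝ, 0 < c ∧ ∀ q y z X m₁ : ℕ, 1 ≤ q → 2 ≤ y → y ≤ z →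
  y * z ≤ X → m₁ + q ≤ q * k → c * Xb k q y z m₁ ≤ ∑ l ∈ Finset.range (X + 1),
    BB q y z (m₁ + q) k l / (l : ℝ) * ∑ h ∈ l.divisors, BB q y z m₁ (k - 1) h

/-- **R3 (TenR).** As B8 (`S_Ten`), with `m₁/q = β-1`, `(m₁+q)/q = β`: `2(β-1) + (β-1)² = β²-1`, and
`log T ≤ C log z ≤ C' e^(S1 y + S2 y z)` (A6), so `a1`: `C L e^((β²-1)s₁ + (k²-1)s₂) ≤ C' X`. `b1`:
`(β+1/q)² - 1 = β² - 1 + 2β/q + 1/q²`, `v² = e^(2β s₁/q)`. `c1`: factor `e^((2k+1) s₂) ≤ (C' q)^(2k+1)`. Lengths: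
`m₁ + q + 1 ≤ q k + 1`. -/
def S_TenR : Prop := ∀ w : ℝ → ℝ, IsW w → ∀ (k : ℕ) (C : ℝ), 2 ≤ k → 1 ≤ C → ∃ C' T₀ : ℝ,
  1 ≤ C' ∧ ∀ T : ℝ, T₀ ≤ T → ∀ q y z m₁ : ℕ, IsPar k C T q y z → 1 ≤ m₁ → m₁ + q ≤ q * k →
    UBm m₁ k q (Xb k q y z m₁) (Real.exp (be q m₁ / q * S1 y)) ((q : ℝ) ^ (2 * k + 1)) C'
      (J0 w q y z T) (J2 w q y z T)

/-- **R4 (LowF).** As B9 (`S_Low`): B3' for `a = BB m₁ (k-1)`, `b = BB (m₁+q) k`, `X = y^(qk) z^k`, R2; the error is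
`≤ C' T^(-1/4) (Q2 a Q2 b)^(1/2) ≤ C' T^(-1/4) Xb` by A5, A8 (`(β-1)² ≤ β²`, `S1, S2 ≥ 0`). -/
def S_LowF : Prop := ∀ w : ℝ → ℝ, IsW w → 0 < W0 w → ∀ (k : ℕ) (C : ℝ), 2 ≤ k → 1 ≤ C →
  ∃ c T₀ : ℝ, 0 < c ∧ ∀ T : ℝ, T₀ ≤ T → ∀ q y z m₁ : ℕ, IsPar k C T q y z → m₁ + q ≤ q * k →
    c * Xb k q y z m₁ ≤ ∫ u : ℝ, w u * (az (T * u) *
      (aM q y (T * u) ^ (2 * m₁ + q) * aR y z (T * u) ^ (2 * k - 1)))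

/-- **R5 (FinG), the real variable argument.** As C1 (`S_FinR`), `F = φ m^(2m₁+q) r^(2k-1)`. Bad sets:
(1) `φ > A m^q r`: `F ≤ A⁻¹ φ² m^(2m₁) r^(2(k-1))`; (2) `φ < η m^q r`: `F ≤ η m^(2(m₁+q)) r^(2k)`; (3) `m > κ v`:
`F ≤ (κ v)⁻² F m²`, `F m² = (φ m^(m₁+1) r^(k-1)) (m^(m₁+q+1) r^k)`; (4) `m < v/κ`:
`F ≤ (v/κ)² (φ m^(m₁-1) r^(k-1)) (m^(m₁+q-1) r^k)`; (5) `r > κ √D`: `F ≤ (κ² D)⁻¹ (φ m^m₁ r^k) (m^(m₁+q) r^(k+1))`;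
(6) `r < 1/(κ √D)`: `F ≤ (κ² D)⁻¹ (φ m^m₁ r^(k-2)) (m^(m₁+q) r^(k-1))`. Each integral is `≤ c₀ X/12`. -/
def S_FinG : Prop := ∀ (k : ℕ) (c₀ C₀ : ℝ), 2 ≤ k → 0 < c₀ → 0 < C₀ → ∃ A η κ : ℝ,
  1 ≤ A ∧ 0 < η ∧ η ≤ 1 ∧ 1 ≤ κ ∧
  ∀ (ν : Measure ℝ) [IsFiniteMeasure ν] (φ m r : ℝ → ℝ) (B : ℝ), Measurable φ → Measurable m →
    Measurable r → (∀ x, 0 ≤ φ x) → (∀ x, 0 ≤ m x) → (∀ x, 0 ≤ r x) →
    (∀ᵐ x ∂ν, φ x ≤ B ∧ m x ≤ B ∧ r x ≤ B) →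
  ∀ (q m₁ : ℕ) (X v D : ℝ), 1 ≤ q → 1 ≤ m₁ → 0 < X → 0 < v → 1 ≤ D →
    UBm m₁ k q X v D C₀ (fun a b => ∫ x, m x ^ (2 * a) * r x ^ (2 * b) ∂ν)
      (fun a b => ∫ x, φ x ^ 2 * (m x ^ (2 * a) * r x ^ (2 * b)) ∂ν) →
    c₀ * X ≤ ∫ x, φ x * (m x ^ (2 * m₁ + q) * r x ^ (2 * k - 1)) ∂ν →
    c₀ / 2 * X ≤ ∫ x in {x | φ x ≤ A * (m x ^ q * r x) ∧ η * (m x ^ q * r x) ≤ φ x ∧
      v / κ ≤ m x ∧ m x ≤ κ * v ∧ 1 / (κ * Real.sqrt D) ≤ r x ∧ r x ≤ κ * Real.sqrt D},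
        φ x * (m x ^ (2 * m₁ + q) * r x ^ (2 * k - 1)) ∂ν

/-- **R6 (GWr).** Real variable part. `log φ = q log m + log r + O(1) = q log v + O(q) = β S1 y + O(q)`,
`|β - α| ≤ 1/q`, `S1 y ≤ log log T + C`, `S1 y ≥ log log T - log (C' q)` (B7), `q ≤ C √(log log T)`, `log D ≤ (2k+1) q`,
`log log T ≤ q²`. Second: `F ≤ A m^(2(m₁+q)) r^(2k) ≤ A (κ v)^(2(m₁+q)) (κ² D)^k`,
`v^(2(m₁+q)) = exp(2 β² S1 y)`. -/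
def S_GWr : Prop := ∀ (k : ℕ) (C A η κ : ℝ), 2 ≤ k → 1 ≤ C → 1 ≤ A → 0 < η → η ≤ 1 → 1 ≤ κ →
  ∃ C' T₀ : ℝ, 1 ≤ C' ∧ ∀ T : ℝ, T₀ ≤ T → ∀ q y z m₁ : ℕ, IsPar k C T q y z → m₁ + q ≤ q * k →
    ∀ α : ℝ, |be q m₁ - α| ≤ 1 / q →
    ∀ φ m r v D : ℝ, v = Real.exp (be q m₁ / q * S1 y) → D = (q : ℝ) ^ (2 * k + 1) →
      φ ≤ A * (m ^ q * r) → η * (m ^ q * r) ≤ φ → v / κ ≤ m → m ≤ κ * v →
      1 / (κ * Real.sqrt D) ≤ r → r ≤ κ * Real.sqrt D →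
        |Real.log φ - α * Real.log (Real.log T)| ≤ C' * Real.sqrt (Real.log (Real.log T)) ∧
        φ * (m ^ (2 * m₁ + q) * r ^ (2 * k - 1)) ≤
          Real.exp (2 * be q m₁ ^ 2 * S1 y + C' * Real.sqrt (Real.log (Real.log T)))

/-- **R7 (WinV), large values at scale `T`.** R5 with `ν = w du` as in C3, `m₁ = ⌊q(α-1)⌋ ≥ 1`,
`α - 1/q ≤ β ≤ α ≤ k`; R3, R4, R6:
`c X/2 ≤ ∫_G F ≤ ν(G) exp(2β² s₁ + C' √(log log T))`, `X ≥ exp(β² s₁)`, so `ν(G) ≥ (c/2) exp(-β² s₁ - C' √…)` and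
`β² s₁ ≤ α² (log log T + C)`; `ν(G)` is at most the measure of `G ∩ {w ≠ 0}` as `w ≤ 1`. -/
def S_WinV : Prop := ∀ w : ℝ → ℝ, IsW w → 0 < W0 w → ∀ (k : ℕ) (C : ℝ), 2 ≤ k → 1 ≤ C →
  ∃ C' T₀ : ℝ, 1 ≤ C' ∧ ∀ T : ℝ, T₀ ≤ T → ∀ q y z : ℕ, IsPar k C T q y z →
    ∀ α : ℝ, 1 + 1 / (q : ℝ) ≤ α → α ≤ k →
      Real.exp (-(α ^ 2 * Real.log (Real.log T)) - C' * Real.sqrt (Real.log (Real.log T))) ≤
        volume.real ({u | w u ≠ 0} ∩ {u | |Real.log (az (T * u)) - α * Real.log (Real.log T)| ≤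
          C' * Real.sqrt (Real.log (Real.log T))})

/-- **R8 (MainV), the final theorem.** Scale `T' = 4T` as in C5 (B6 for `k`, `w₁` of B4, R7). Given `V`, let
`α = max (V / log log T') (1 + 1/q)`: `|α log log T' - V| ≤ √(log log T') + O(1)` as `1/q ≤ 1/√(log log T')` and
`0 ≤ log log T' - log log T ≤ 1`; `α² log log T' ≤ V²/log log T + C √(log log T)`. If `α > k`, replace it by `k` (same
error terms). -/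
def S_MainV : Prop := ∀ k : ℕ, 2 ≤ k → ∃ C : ℝ, 1 ≤ C ∧ ∀ᶠ T : ℝ in atTop, ∀ V : ℝ,
  Real.log (Real.log T) ≤ V → V ≤ k * Real.log (Real.log T) →
    T * Real.exp (-(V ^ 2 / Real.log (Real.log T)) - C * Real.sqrt (Real.log (Real.log T))) ≤
      volume.real {t | t ∈ Icc T (2 * T) ∧
        |Real.log (az t) - V| ≤ C * Real.sqrt (Real.log (Real.log T))}

end Pool.Agent.Work.MP_56b8f5_nt.WM
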